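import Pool.Agent.H1.C7.D0

/-!
Row Cal (calculus of the class DecN).  pd of sums and products: fderiv_add, fderiv_fun_mul (f, g differentiable); everything by induction on N.
dec_mul: pd k (f g) = f pd k g + pd k f * g, exponents p + (q+1) and (p+1) + q.
int_pd: integral_mul_fderiv_eq_neg_fderiv_mul_of_integrable with f = 1, or integral_fderiv_eq_zero-type lemma; ibp from int_pd applied to f*g, or directly.
integrable: measurable (continuous), |f| ≤ C (1+|x|)^(-p) ≤ C (1+|x|)^(-(d+1)) (integrable_one_add_norm, finrank = d); zpow with 1+|x| ≥ 1.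
pd_comm: f is C^2-like: fderiv f x v = sum_k v_k pd k f x, each pd k f differentiable, so fderiv f is differentiable; second_derivative_symmetric (or fderiv of fderiv symmetric: ContDiffAt.isSymmSndFDerivAt if you prove ContDiff ℝ 2).
-/

set_option autoImplicit false

open MeasureTheory Filter Topology Metric Set
open scoped RealInnerProductSpace ENNReal

namespace Pool.Agent.H1.C7

open Pool.Agent.RZ Pool.Agent.H1.LD

variable {d : ℕ}

theorem dec_cont {N : ℕ} {p : ℤ} {f : X d → ℝ} (h : DecN N p f) : Continuous f := by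
  cases N with
  | zero => exact h.1
  | succ N => exact h.1.continuous

theorem dec_diff {N : ℕ} {p : ℤ} {f : X d → ℝ} (h : DecN (N + 1) p f) : Differentiable ℝ f := h.1

theorem dec_pd {N : ℕ} {p : ℤ} {f : X d → ℝ} (h : DecN (N + 1) p f) (k : Fin d) :
    DecN N (p + 1) (pd k f) := h.2.2 k

theorem dec_bd {N : ℕ} {p : ℤ} {f : X d → ℝ} (h : DecN N p f) :
    ∃ C : ℝ, 0 ≤ C ∧ ∀ x, |f x| ≤ C * (1 + ‖x‖) ^ (-p) := by
  obtain ⟨C, hC⟩ : ∃ C : ℝ, ∀ x, |f x| ≤ C * (1 + ‖x‖) ^ (-p) := by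
    cases N with
    | zero => exact h.2
    | succ N => exact h.2.1
  refine ⟨|C|, abs_nonneg _, fun x => (hC x).trans ?_⟩
  have h1 : 0 < (1 + ‖x‖) ^ (-p) := zpow_pos (by positivity) _
  exact mul_le_mul_of_nonneg_right (le_abs_self C) h1.le

private theorem C7Cal_bd {p q : ℤ} {f : X d → ℝ} {C : ℝ} (hC : 0 ≤ C) (hq : q ≤ p) (x : X d)
    (hb : |f x| ≤ C * (1 + ‖x‖) ^ (-p)) : |f x| ≤ C * (1 + ‖x‖) ^ (-q) := by
  refine hb.trans (mul_le_mul_of_nonneg_left ?_ hC)
  exact zpow_le_zpow_right₀ (by linarith [norm_nonneg x]) (by omega)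

theorem dec_mono {N M : ℕ} {p q : ℤ} {f : X d → ℝ} (h : DecN N p f) (hM : M ≤ N) (hq : q ≤ p) :
    DecN M q f := by
  have key : ∀ (M N : ℕ) (p q : ℤ) (f : X d → ℝ), DecN N p f → M ≤ N → q ≤ p → DecN M q f := by
    intro M
    induction M with
    | zero =>
      intro N p q f h _ hq
      refine ⟨dec_cont h, ?_⟩
      obtain ⟨C, hC, hb⟩ := dec_bd h
      exact ⟨C, fun x => C7Cal_bd hC hq x (hb x)⟩
    | succ M ih =>
      intro N p q f h hM hq
      obtain ⟨C, hC, hb⟩ := dec_bd h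
      obtain ⟨N, rfl⟩ : ∃ N', N = N' + 1 := ⟨N - 1, by omega⟩
      exact ⟨h.1, ⟨C, fun x => C7Cal_bd hC hq x (hb x)⟩,
        fun k => ih N (p + 1) (q + 1) _ (h.2.2 k) (by omega) (by omega)⟩
  exact key M N p q f h hM hq

private theorem C7Cal_pd_const (k : Fin d) (c : ℝ) :
    pd k (fun _ : X d => c) = fun _ => 0 := by
  funext x
  simp [pd]

private theorem C7Cal_zero (N : ℕ) (p : ℤ) : DecN N p (fun _ : X d => (0 : ℝ)) := by
  induction N generalizing p with
  | zero => exact ⟨continuous_const, 0, fun x => by simp⟩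
  | succ N ih =>
    refine ⟨differentiable_const 0, ⟨0, fun x => by simp⟩, fun k => ?_⟩
    rw [C7Cal_pd_const]
    exact ih _

private theorem C7Cal_pd_add {f g : X d → ℝ} (hf : Differentiable ℝ f) (hg : Differentiable ℝ g)
    (k : Fin d) (x : X d) : pd k (fun x => f x + g x) x = pd k f x + pd k g x := by
  unfold pd
  rw [fderiv_fun_add (hf x) (hg x)]
  rfl

private theorem C7Cal_pd_mul {f g : X d → ℝ} (hf : Differentiable ℝ f) (hg : Differentiable ℝ g)
    (k : Fin d) (x : X d) : pd k (fun x => f x * g x) x = f x * pd k g x + pd k f x * g x := by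
  unfold pd
  rw [fderiv_fun_mul (hf x) (hg x)]
  simp only [ContinuousLinearMap.add_apply, ContinuousLinearMap.smul_apply, smul_eq_mul]
  ring

theorem dec_const (N : ℕ) (c : ℝ) : DecN N 0 (fun _ : X d => c) := by
  induction N with
  | zero => exact ⟨continuous_const, |c|, fun x => by simp⟩
  | succ N _ =>
    refine ⟨differentiable_const c, ⟨|c|, fun x => by simp⟩, fun k => ?_⟩
    rw [C7Cal_pd_const]
    exact C7Cal_zero N _

theorem dec_add {N : ℕ} {p : ℤ} {f g : X d → ℝ} (hf : DecN N p f) (hg : DecN N p g) :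
    DecN N p (fun x => f x + g x) := by
  induction N generalizing p f g with
  | zero =>
    obtain ⟨C, hC, hb⟩ := dec_bd hf
    obtain ⟨D, hD, hb'⟩ := dec_bd hg
    exact ⟨(dec_cont hf).add (dec_cont hg), C + D, fun x =>
      (abs_add_le _ _).trans (by rw [add_mul]; exact add_le_add (hb x) (hb' x))⟩
  | succ N ih =>
    obtain ⟨C, hC, hb⟩ := dec_bd hf
    obtain ⟨D, hD, hb'⟩ := dec_bd hg
    refine ⟨hf.1.add hg.1, ⟨C + D, fun x =>
      (abs_add_le _ _).trans (by rw [add_mul]; exact add_le_add (hb x) (hb' x))⟩, fun k => ?_⟩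
    have e : pd k (fun x => f x + g x) = fun x => pd k f x + pd k g x :=
      funext fun x => C7Cal_pd_add hf.1 hg.1 k x
    rw [e]
    exact ih (hf.2.2 k) (hg.2.2 k)

theorem dec_sum {N : ℕ} {p : ℤ} {ι : Type} (s : Finset ι) {f : ι → X d → ℝ}
    (hf : ∀ i, DecN N p (f i)) : DecN N p (fun x => ∑ i ∈ s, f i x) := by
  classical
  induction s using Finset.induction_on with
  | empty => simpa using C7Cal_zero N p
  | insert a s ha ih =>
    have e : (fun x : X d => ∑ i ∈ insert a s, f i x) = fun x => f a x + ∑ i ∈ s, f i x :=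
      funext fun x => Finset.sum_insert ha
    rw [e]
    exact dec_add (hf a) ih

theorem dec_mul {N : ℕ} {p q : ℤ} {f g : X d → ℝ} (hf : DecN N p f) (hg : DecN N q g) :
    DecN N (p + q) (fun x => f x * g x) := by
  have key : ∀ (C D : ℝ) (p q : ℤ) (f g : X d → ℝ), 0 ≤ C → 0 ≤ D →
      (∀ x, |f x| ≤ C * (1 + ‖x‖) ^ (-p)) → (∀ x, |g x| ≤ D * (1 + ‖x‖) ^ (-q)) →
      ∀ x, |f x * g x| ≤ C * D * (1 + ‖x‖) ^ (-(p + q)) := by
    intro C D p q f g hC hD hb hb' x
    have h1 : (0 : ℝ) < 1 + ‖x‖ := by positivity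
    have h2 : 0 < (1 + ‖x‖) ^ (-p) := zpow_pos h1 _
    rw [abs_mul, neg_add, zpow_add₀ h1.ne']
    calc |f x| * |g x| ≤ (C * (1 + ‖x‖) ^ (-p)) * (D * (1 + ‖x‖) ^ (-q)) :=
          mul_le_mul (hb x) (hb' x) (abs_nonneg _) (mul_nonneg hC h2.le)
      _ = C * D * ((1 + ‖x‖) ^ (-p) * (1 + ‖x‖) ^ (-q)) := by ring
  induction N generalizing p q f g with
  | zero =>
    obtain ⟨C, hC, hb⟩ := dec_bd hf
    obtain ⟨D, hD, hb'⟩ := dec_bd hg
    exact ⟨(dec_cont hf).mul (dec_cont hg), C * D, key C D p q f g hC hD hb hb'⟩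
  | succ N ih =>
    obtain ⟨C, hC, hb⟩ := dec_bd hf
    obtain ⟨D, hD, hb'⟩ := dec_bd hg
    refine ⟨hf.1.mul hg.1, ⟨C * D, key C D p q f g hC hD hb hb'⟩, fun k => ?_⟩
    have e : pd k (fun x => f x * g x) = fun x => f x * pd k g x + pd k f x * g x :=
      funext fun x => C7Cal_pd_mul hf.1 hg.1 k x
    rw [e]
    have h1 := ih (dec_mono hf (Nat.le_succ N) le_rfl) (hg.2.2 k)
    have h2 := ih (hf.2.2 k) (dec_mono hg (Nat.le_succ N) le_rfl)
    have e1 : p + (q + 1) = p + q + 1 := by ring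
    have e2 : p + 1 + q = p + q + 1 := by ring
    rw [e1] at h1
    rw [e2] at h2
    exact dec_add h1 h2

theorem dec_smul {N : ℕ} {p : ℤ} {f : X d → ℝ} (c : ℝ) (hf : DecN N p f) :
    DecN N p (fun x => c * f x) := by
  have h := dec_mul (dec_const N c) hf
  rwa [zero_add] at h

theorem pd_add {f g : X d → ℝ} (hf : Differentiable ℝ f) (hg : Differentiable ℝ g) (k : Fin d)
    (x : X d) : pd k (fun x => f x + g x) x = pd k f x + pd k g x := by
  exact C7Cal_pd_add hf hg k x

theorem pd_sum {ι : Type} (s : Finset ι) {f : ι → X d → ℝ} (hf : ∀ i, Differentiable ℝ (f i))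
    (k : Fin d) (x : X d) : pd k (fun x => ∑ i ∈ s, f i x) x = ∑ i ∈ s, pd k (f i) x := by
  unfold pd
  rw [fderiv_fun_sum (fun i _ => (hf i) x)]
  simp

theorem pd_mul {f g : X d → ℝ} (hf : Differentiable ℝ f) (hg : Differentiable ℝ g) (k : Fin d)
    (x : X d) : pd k (fun x => f x * g x) x = f x * pd k g x + pd k f x * g x := by
  exact C7Cal_pd_mul hf hg k x

theorem pd_smul {f : X d → ℝ} (hf : Differentiable ℝ f) (c : ℝ) (k : Fin d) (x : X d) :
    pd k (fun x => c * f x) x = c * pd k f x := by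
  unfold pd
  rw [fderiv_const_mul (hf x)]
  rfl

theorem pd_comm {p : ℤ} {f : X d → ℝ} (hf : DecN 2 p f) (k l : Fin d) :
    pd k (pd l f) = pd l (pd k f) := by
  have hd : Differentiable ℝ f := hf.1
  have hd1 : ∀ i, Differentiable ℝ (pd i f) := fun i => (hf.2.2 i).1
  have e1 : fderiv ℝ f = fun y => ∑ i, pd i f y • (EuclideanSpace.proj i : X d →L[ℝ] ℝ) := by
    funext y
    ext v
    have hv : v = ∑ i, v i • (EuclideanSpace.single i (1 : ℝ) : X d) := by
      ext j
      simp [Finset.sum_apply, Pi.single_apply]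
    conv_lhs => rw [hv]
    rw [map_sum]
    simp only [map_smul, smul_eq_mul, ContinuousLinearMap.sum_apply,
      ContinuousLinearMap.smul_apply, pd]
    exact Finset.sum_congr rfl fun i _ => mul_comm _ _
  have hd2 : Differentiable ℝ (fderiv ℝ f) := by
    rw [e1]
    refine Differentiable.fun_sum fun i _ => ?_
    exact (hd1 i).smul_const _
  funext x
  have hs := second_derivative_symmetric (fun y => (hd y).hasFDerivAt) (hd2 x).hasFDerivAt
    (EuclideanSpace.single k (1 : ℝ)) (EuclideanSpace.single l (1 : ℝ))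
  have e2 : ∀ i j : Fin d, pd i (pd j f) x =
      fderiv ℝ (fderiv ℝ f) x (EuclideanSpace.single i 1) (EuclideanSpace.single j 1) := by
    intro i j
    have h3 : HasFDerivAt (pd j f) ((fderiv ℝ (fderiv ℝ f) x).flip (EuclideanSpace.single j 1)) x := by
      have h4 := (hd2 x).hasFDerivAt.clm_apply
        (hasFDerivAt_const (EuclideanSpace.single j (1 : ℝ) : X d) x)
      change HasFDerivAt (fun y => fderiv ℝ f y (EuclideanSpace.single j 1)) _ x
      simpa using h4
    show fderiv ℝ (pd j f) x _ = _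
    rw [h3.fderiv]
    rfl
  rw [e2, e2]
  exact hs

theorem dec_int {N : ℕ} {p : ℤ} {f : X d → ℝ} (hf : DecN N p f) (hp : (d : ℤ) + 1 ≤ p) :
    Integrable f := by
  obtain ⟨C, hC, hb⟩ := dec_bd hf
  have h1 : Integrable (fun x : X d => C * (1 + ‖x‖) ^ (-((d : ℝ) + 1))) := by
    refine (integrable_one_add_norm ?_).const_mul C
    simp
  refine h1.mono' (dec_cont hf).aestronglyMeasurable (ae_of_all _ fun x => ?_)
  rw [Real.norm_eq_abs]
  refine (hb x).trans (mul_le_mul_of_nonneg_left ?_ hC)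
  have h2 : (1 : ℝ) ≤ 1 + ‖x‖ := by linarith [norm_nonneg x]
  have h3 : (1 + ‖x‖) ^ (-((d : ℝ) + 1)) = (1 + ‖x‖) ^ (-((d : ℤ) + 1)) := by
    rw [← Real.rpow_intCast]
    push_cast
    rfl
  rw [h3]
  exact zpow_le_zpow_right₀ h2 (by omega)

/-- integration by parts -/
theorem ibp {N M : ℕ} {p q : ℤ} {f g : X d → ℝ} (hf : DecN (N + 1) p f) (hg : DecN (M + 1) q g)
    (hpq : (d : ℤ) + 1 ≤ p + q) (k : Fin d) :
    ∫ x, f x * pd k g x = -∫ x, pd k f x * g x := by
  have h1 : Integrable fun x => pd k f x * g x :=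
    dec_int (dec_mul (N := 0) (dec_mono (hf.2.2 k) (Nat.zero_le _) le_rfl)
      (dec_mono hg (Nat.zero_le _) le_rfl)) (by omega)
  have h2 : Integrable fun x => f x * pd k g x :=
    dec_int (dec_mul (N := 0) (dec_mono hf (Nat.zero_le _) le_rfl)
      (dec_mono (hg.2.2 k) (Nat.zero_le _) le_rfl)) (by omega)
  have h3 : Integrable fun x => f x * g x :=
    dec_int (dec_mul (N := 0) (dec_mono hf (Nat.zero_le _) le_rfl)
      (dec_mono hg (Nat.zero_le _) le_rfl)) hpq
  exact integral_mul_fderiv_eq_neg_fderiv_mul_of_integrable h1 h2 h3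
    (fun x _ => hf.1 x) (fun x _ => hg.1 x)

theorem int_pd {N : ℕ} {p : ℤ} {f : X d → ℝ} (hf : DecN (N + 1) p f) (hp : (d : ℤ) + 1 ≤ p)
    (k : Fin d) : ∫ x, pd k f x = 0 := by
  have h := ibp (N := 0) (dec_const (0 + 1) 1) hf (by omega) k
  rw [C7Cal_pd_const] at h
  simpa using h

end Pool.Agent.H1.C7
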