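import Pool.Agent.H1.LD.CoD0
import Pool.Agent.H1.LD.Gau3

/-!
Codimension seven: definitions.
-/

set_option autoImplicit false

open MeasureTheory Filter Topology Metric Set
open scoped RealInnerProductSpace ENNReal

namespace Pool.Agent.H1.C7

open Pool.Agent.RZ Pool.Agent.H1.LD

variable {d : ℕ}

/-- partial derivative -/
noncomputable def pd (k : Fin d) (f : X d → ℝ) (x : X d) : ℝ :=
  fderiv ℝ f x (EuclideanSpace.single k 1)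

/-- `N` times differentiable, the derivatives of order `j` are `O ((1 + |x|) ^ (-(p + j)))` -/
def DecN : ℕ → ℤ → (X d → ℝ) → Prop
  | 0, p, f => Continuous f ∧ ∃ C : ℝ, ∀ x, |f x| ≤ C * (1 + ‖x‖) ^ (-p)
  | N + 1, p, f => Differentiable ℝ f ∧ (∃ C : ℝ, ∀ x, |f x| ≤ C * (1 + ‖x‖) ^ (-p)) ∧
      ∀ k, DecN N (p + 1) (pd k f)

/-- a gradient field with decay -/
structure Fld (n : ℕ) (F : Fin d → X d → ℝ) : Prop where
  dec : ∀ i, DecN 8 n (F i)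
  curl : ∀ i j, pd j (F i) = pd i (F j)

noncomputable def fS (F : Fin d → X d → ℝ) (i j : Fin d) : X d → ℝ := pd j (F i)
noncomputable def fR (F : Fin d → X d → ℝ) (i j k : Fin d) : X d → ℝ := pd k (fS F i j)
noncomputable def fX (F : Fin d → X d → ℝ) (i j k l : Fin d) : X d → ℝ := pd l (fR F i j k)
noncomputable def fT (F : Fin d → X d → ℝ) (x : X d) : ℝ := ∑ i, fS F i i x
noncomputable def fV (F : Fin d → X d → ℝ) (k : Fin d) : X d → ℝ := pd k (fT F)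
noncomputable def fH (F : Fin d → X d → ℝ) (k l : Fin d) : X d → ℝ := pd l (fV F k)
noncomputable def fK (F : Fin d → X d → ℝ) (k l m : Fin d) : X d → ℝ := pd m (fH F k l)
noncomputable def fU (F : Fin d → X d → ℝ) (x : X d) : ℝ := ∑ k, fH F k k x
noncomputable def fG (F : Fin d → X d → ℝ) (k : Fin d) : X d → ℝ := pd k (fU F)
noncomputable def fM (F : Fin d → X d → ℝ) (k l : Fin d) : X d → ℝ := pd l (fG F k)
noncomputable def fU2 (F : Fin d → X d → ℝ) (x : X d) : ℝ := ∑ k, fM F k k x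
noncomputable def fG2 (F : Fin d → X d → ℝ) (k : Fin d) : X d → ℝ := pd k (fU2 F)
noncomputable def fQ (F : Fin d → X d → ℝ) (x : X d) : ℝ := ∑ k, pd k (fG2 F k) x

/-- `|D^2 h|^2`, `|D^3 h|^2`, `|D^4 h|^2`, `|∇T|^2` -/
noncomputable def f2 (F : Fin d → X d → ℝ) (x : X d) : ℝ := ∑ i, ∑ j, fS F i j x ^ 2
noncomputable def f3 (F : Fin d → X d → ℝ) (x : X d) : ℝ := ∑ i, ∑ j, ∑ k, fR F i j k x ^ 2
noncomputable def f4 (F : Fin d → X d → ℝ) (x : X d) : ℝ :=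
  ∑ i, ∑ j, ∑ k, ∑ l, fX F i j k l x ^ 2
noncomputable def fp (F : Fin d → X d → ℝ) (x : X d) : ℝ := ∑ k, fV F k x ^ 2
/-- the cubic expressions -/
noncomputable def cE (F : Fin d → X d → ℝ) (x : X d) : ℝ :=
  ∑ a, ∑ b, ∑ c, ∑ k, ∑ l, fS F k l x * (fX F a b c k x * fX F a b c l x)
noncomputable def cY1 (F : Fin d → X d → ℝ) (x : X d) : ℝ :=
  ∑ a, ∑ b, ∑ c, ∑ k, ∑ l, fR F a k l x * (fR F k b c x * fX F l a b c x)
noncomputable def cY2 (F : Fin d → X d → ℝ) (x : X d) : ℝ :=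
  ∑ b, ∑ c, ∑ k, ∑ l, fS F k l x * (fR F k b c x * fK F l b c x)
noncomputable def cY3 (F : Fin d → X d → ℝ) (x : X d) : ℝ :=
  ∑ b, ∑ c, ∑ k, fV F k x * (fH F b c x * fR F k b c x)
noncomputable def cY4 (F : Fin d → X d → ℝ) (x : X d) : ℝ :=
  ∑ b, ∑ c, ∑ k, ∑ l, fS F k l x * (fH F b c x * fX F k l b c x)
noncomputable def cY5 (F : Fin d → X d → ℝ) (x : X d) : ℝ :=
  ∑ b, ∑ c, ∑ k, fV F k x * (fS F b c x * fK F k b c x)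
noncomputable def cY6 (F : Fin d → X d → ℝ) (x : X d) : ℝ :=
  ∑ b, ∑ c, ∑ k, fS F b c x * (fH F k b x * fH F k c x)
noncomputable def cY7 (F : Fin d → X d → ℝ) (x : X d) : ℝ :=
  ∑ c, ∑ k, fV F k x * (fS F k c x * fG F c x)
noncomputable def cZ1 (F : Fin d → X d → ℝ) (x : X d) : ℝ :=
  ∑ a, ∑ b, ∑ c, ∑ k, fH F a k x * (fR F k b c x * fR F a b c x)
noncomputable def cm2 (F : Fin d → X d → ℝ) (x : X d) : ℝ :=
  fU F x * ∑ i, ∑ j, fS F i j x * fH F i j x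
noncomputable def cm3 (F : Fin d → X d → ℝ) (x : X d) : ℝ :=
  fT F x * ∑ i, ∑ j, ∑ k, fR F i j k x * fK F i j k x
noncomputable def cVVH (F : Fin d → X d → ℝ) (x : X d) : ℝ :=
  ∑ k, ∑ l, fV F k x * (fV F l x * fH F k l x)

/-- kernels for the measure -/
noncomputable def Te (n : ℕ) (ε : ℝ) (μ : Measure (X d)) (Y : X d) : ℝ :=
  ∫ x, (6 * kr n ε (Y - x) + (n + 1) * ε ^ 2 * kr (n + 2) ε (Y - x)) ∂μ
noncomputable def Ve (n : ℕ) (ε : ℝ) (μ : Measure (X d)) (k : Fin d) (Y : X d) : ℝ :=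
  -(n + 1) * ∫ x, (6 * kr (n + 2) ε (Y - x) + (n + 3) * ε ^ 2 * kr (n + 4) ε (Y - x)) *
    (Y - x) k ∂μ
noncomputable def He (n : ℕ) (ε : ℝ) (μ : Measure (X d)) (k l : Fin d) (Y : X d) : ℝ :=
  -(n + 1) * ∫ x, ((6 * kr (n + 2) ε (Y - x) + (n + 3) * ε ^ 2 * kr (n + 4) ε (Y - x)) *
      (if k = l then 1 else 0) -
    (n + 3) * (6 * kr (n + 4) ε (Y - x) + (n + 5) * ε ^ 2 * kr (n + 6) ε (Y - x)) *
      ((Y - x) k * (Y - x) l)) ∂μ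
noncomputable def Ue (n : ℕ) (ε : ℝ) (μ : Measure (X d)) (Y : X d) : ℝ :=
  -(n + 1) * ∫ x, (24 * kr (n + 2) ε (Y - x) + 8 * (n + 3) * ε ^ 2 * kr (n + 4) ε (Y - x) +
    (n + 3) * (n + 5) * ε ^ 4 * kr (n + 6) ε (Y - x)) ∂μ
noncomputable def U2e (n : ℕ) (ε : ℝ) (μ : Measure (X d)) (Y : X d) : ℝ :=
  (n + 1) * (n + 3) * ∫ x, (48 * kr (n + 4) ε (Y - x) +
    24 * (n + 5) * ε ^ 2 * kr (n + 6) ε (Y - x) +
    6 * (n + 5) * (n + 7) * ε ^ 4 * kr (n + 8) ε (Y - x) +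
    (n + 5) * (n + 7) * (n + 9) * ε ^ 6 * kr (n + 10) ε (Y - x)) ∂μ
/-- `(n + 1) (n + 3) ... (n + 13)` -/
noncomputable def c7 (n : ℕ) : ℝ :=
  (n + 1) * (n + 3) * (n + 5) * (n + 7) * (n + 9) * (n + 11) * (n + 13)
noncomputable def Qe (n : ℕ) (ε : ℝ) (μ : Measure (X d)) (Y : X d) : ℝ :=
  -c7 n * ∫ x, ε ^ 8 * kr (n + 14) ε (Y - x) ∂μ

/-- the two auxiliary fields and their divergences, as kernels of `Z` -/
noncomputable def w1 (n : ℕ) (ε : ℝ) (Z : X d) : ℝ :=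
  2 * kr (n + 2) ε Z + (n + 3) / 3 * ε ^ 2 * kr (n + 4) ε Z
noncomputable def dw1 (n : ℕ) (ε : ℝ) (Z : X d) : ℝ :=
  2 * (4 * kr (n + 2) ε Z + (n + 3) * ε ^ 2 * kr (n + 4) ε Z) +
    (n + 3) / 3 * ε ^ 2 * (2 * kr (n + 4) ε Z + (n + 5) * ε ^ 2 * kr (n + 6) ε Z)
noncomputable def b2 (n : ℕ) : ℝ := (2 * n + 9) / 12
noncomputable def w2 (n : ℕ) (ε : ℝ) (Z : X d) : ℝ :=
  kr (n + 4) ε Z + ((n + 6) / 6 + b2 n) * ε ^ 2 * kr (n + 6) ε Z +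
    ((n + 5) / 24 + b2 n * ((n + 6) / 6)) * ε ^ 4 * kr (n + 8) ε Z +
    b2 n * ((n + 5) / 24) * ε ^ 6 * kr (n + 10) ε Z
noncomputable def dw2 (n : ℕ) (ε : ℝ) (Z : X d) : ℝ :=
  (2 * kr (n + 4) ε Z + (n + 5) * ε ^ 2 * kr (n + 6) ε Z) +
    ((n + 6) / 6 + b2 n) * ε ^ 2 * ((n + 7) * ε ^ 2 * kr (n + 8) ε Z) +
    ((n + 5) / 24 + b2 n * ((n + 6) / 6)) * ε ^ 4 *
      (-2 * kr (n + 8) ε Z + (n + 9) * ε ^ 2 * kr (n + 10) ε Z) +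
    b2 n * ((n + 5) / 24) * ε ^ 6 *
      (-4 * kr (n + 10) ε Z + (n + 11) * ε ^ 2 * kr (n + 12) ε Z)
noncomputable def W1 (n : ℕ) (ε : ℝ) (μ : Measure (X d)) (k : Fin d) (Y : X d) : ℝ :=
  ∫ x, w1 n ε (Y - x) * (Y - x) k ∂μ
noncomputable def DW1 (n : ℕ) (ε : ℝ) (μ : Measure (X d)) (Y : X d) : ℝ :=
  ∫ x, dw1 n ε (Y - x) ∂μ
noncomputable def W2 (n : ℕ) (ε : ℝ) (μ : Measure (X d)) (k : Fin d) (Y : X d) : ℝ :=
  ∫ x, w2 n ε (Y - x) * (Y - x) k ∂μ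
noncomputable def DW2 (n : ℕ) (ε : ℝ) (μ : Measure (X d)) (Y : X d) : ℝ :=
  ∫ x, dw2 n ε (Y - x) ∂μ

/-- `α T + v . ∇T` with `α = 1 + b ε^2 / (|v|^2 + ε^2)` -/
noncomputable def L7 (n : ℕ) (ε : ℝ) (μ : Measure (X d)) (Y v : X d) : ℝ :=
  (1 + b2 n * ε ^ 2 * kr 1 ε v) * Te n ε μ Y + ∑ k, v k * Ve n ε μ k Y

/-- the square function of codimension seven at scale `t` -/
noncomputable def Qc7 (n : ℕ) (μ : Measure (X d)) (z : X d) (t : ℝ) : ℝ≥0∞ :=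
  ∫⁻ Y, ENNReal.ofReal (t * kr (n + 5) t (Y - z)) * ‖L7 n 0 μ Y (Y - z)‖ₑ ^ 2

/-- the third power of the Laplacian of the Gaussian `ga 4 (· - y)` -/
noncomputable def L3 (y Y : X d) : ℝ :=
  512 * (512 * ‖Y - y‖ ^ 6 - 192 * (d + 4) * ‖Y - y‖ ^ 4 + 24 * (d + 2) * (d + 4) * ‖Y - y‖ ^ 2 -
    d * (d + 2) * (d + 4)) * ga 4 (Y - y)

end Pool.Agent.H1.C7
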