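import Pool.Agent.H1.C7.Cal

/-!
Kernels for ε > 0: q = |Z|^2 + ε^2, kr m ε Z = q^(-(m+1)/2).
-/

set_option autoImplicit false

open MeasureTheory Filter Topology Metric Set
open scoped RealInnerProductSpace ENNReal

namespace Pool.Agent.H1.C7

open Pool.Agent.RZ Pool.Agent.H1.LD

variable {d : ℕ}

private theorem C7Krn_pos (Z : X d) : 0 < 1 + ‖Z‖ := by
  have := norm_nonneg Z
  linarith

private theorem C7Krn_le (i : Fin d) (Z : X d) : |Z i| ≤ 1 + ‖Z‖ := by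
  have h1 : |Z i| ≤ ‖Z‖ := by
    have h2 : |Z i| ^ 2 ≤ ‖Z‖ ^ 2 := by
      rw [EuclideanSpace.real_norm_sq_eq, sq_abs]
      exact Finset.single_le_sum (f := fun j => Z j ^ 2) (fun j _ => sq_nonneg _)
        (Finset.mem_univ i)
    exact abs_le_of_sq_le_sq' h2 (norm_nonneg _) |>.2 |> fun h => by
      simpa using h
  linarith

private theorem C7Krn_hc (i : Fin d) (Z : X d) :
    HasFDerivAt (fun Z : X d => Z i) (EuclideanSpace.proj i : X d →L[ℝ] ℝ) Z :=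
  (EuclideanSpace.proj i : X d →L[ℝ] ℝ).hasFDerivAt

theorem pd_coord (k l : Fin d) (Z : X d) : pd l (fun Z : X d => Z k) Z = if k = l then 1 else 0 := by
  unfold pd
  rw [(C7Krn_hc k Z).fderiv]
  simp

private theorem C7Krn_hd (m : ℕ) {ε : ℝ} (hε : 0 < ε) (Z : X d) :
    HasFDerivAt (fun Z : X d => kr m ε Z)
      ((-((m + 1) / 2) * (Real.sqrt (‖Z‖ ^ 2 + ε ^ 2))⁻¹ ^ (m + 3)) •
        (2 • (innerSL ℝ Z : X d →L[ℝ] ℝ))) Z := by
  have hq : 0 < Real.sqrt (‖Z‖ ^ 2 + ε ^ 2) := by positivity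
  have h1 : HasDerivAt (fun s : ℝ => (Real.sqrt (s + ε ^ 2))⁻¹ ^ (m + 1))
      (-((m + 1) / 2) * (Real.sqrt (‖Z‖ ^ 2 + ε ^ 2))⁻¹ ^ (m + 3)) (‖Z‖ ^ 2) := by
    have h2 : HasDerivAt (fun s : ℝ => s + ε ^ 2) 1 (‖Z‖ ^ 2) :=
      (hasDerivAt_id _).add_const _
    have h3 : HasDerivAt (fun s : ℝ => (Real.sqrt (s + ε ^ 2))⁻¹ ^ (m + 1)) _ (‖Z‖ ^ 2) :=
      ((h2.sqrt (by positivity)).inv hq.ne').pow (m + 1)
    convert h3 using 1
    have h6 : ((fun y : ℝ => Real.sqrt (y + ε ^ 2))⁻¹ (‖Z‖ ^ 2)) =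
        (Real.sqrt (‖Z‖ ^ 2 + ε ^ 2))⁻¹ := rfl
    rw [h6, Nat.add_sub_cancel, pow_add _ m 3]
    push_cast
    field_simp
  exact h1.comp_hasFDerivAt Z (hasStrictFDerivAt_norm_sq Z).hasFDerivAt

theorem pd_kr (m : ℕ) {ε : ℝ} (hε : 0 < ε) (k : Fin d) (Z : X d) :
    pd k (fun Z : X d => kr m ε Z) Z = -((m : ℝ) + 1) * (kr (m + 2) ε Z * Z k) := by
  unfold pd
  rw [(C7Krn_hd m hε Z).fderiv]
  simp only [smul_apply, smul_eq_mul, innerSL_apply_apply, nsmul_eq_mul,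
    EuclideanSpace.inner_single_right, kr]
  simp
  ring

theorem dec_coord (N : ℕ) (k : Fin d) : DecN N (-1) (fun Z : X d => Z k) := by
  have hb : ∃ C : ℝ, ∀ Z : X d, |Z k| ≤ C * (1 + ‖Z‖) ^ (-(-1 : ℤ)) :=
    ⟨1, fun Z => by
      rw [neg_neg, zpow_one, one_mul]
      exact C7Krn_le k Z⟩
  cases N with
  | zero => exact ⟨(EuclideanSpace.proj k : X d →L[ℝ] ℝ).continuous, hb⟩
  | succ N =>
    refine ⟨fun Z => (C7Krn_hc k Z).differentiableAt, hb, fun l => ?_⟩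
    have h1 : pd l (fun Z : X d => Z k) = fun _ => if k = l then 1 else 0 :=
      funext fun Z => pd_coord k l Z
    rw [h1]
    exact dec_const N _

theorem dec_kr (N m : ℕ) {ε : ℝ} (hε : 0 < ε) : DecN N (m + 1) (fun Z : X d => kr m ε Z) := by
  have hb : ∀ m : ℕ, ∃ C : ℝ, ∀ Z : X d, |kr m ε Z| ≤ C * (1 + ‖Z‖) ^ (-((m : ℤ) + 1)) := by
    intro m
    refine ⟨(1 + ε⁻¹) ^ (m + 1), fun Z => ?_⟩
    have h0 := C7Krn_pos Z
    have hq : 0 < Real.sqrt (‖Z‖ ^ 2 + ε ^ 2) := by positivity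
    have h1 : ‖Z‖ ≤ Real.sqrt (‖Z‖ ^ 2 + ε ^ 2) := by
      apply Real.le_sqrt_of_sq_le
      nlinarith [sq_nonneg ε]
    have h2 : ε ≤ Real.sqrt (‖Z‖ ^ 2 + ε ^ 2) := by
      apply Real.le_sqrt_of_sq_le
      nlinarith [sq_nonneg ‖Z‖]
    have h3 : (Real.sqrt (‖Z‖ ^ 2 + ε ^ 2))⁻¹ ≤ (1 + ε⁻¹) * (1 + ‖Z‖)⁻¹ := by
      rw [← div_eq_mul_inv, le_div_iff₀ h0, inv_mul_le_iff₀ hq]
      have h4 : 1 ≤ Real.sqrt (‖Z‖ ^ 2 + ε ^ 2) * ε⁻¹ := by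
        rw [← div_eq_mul_inv, le_div_iff₀ hε]
        linarith
      nlinarith
    have h5 : (1 + ‖Z‖) ^ (-((m : ℤ) + 1)) = (1 + ‖Z‖)⁻¹ ^ (m + 1) := by
      rw [zpow_neg, inv_pow]
      norm_cast
    rw [h5]
    show |(Real.sqrt (‖Z‖ ^ 2 + ε ^ 2))⁻¹ ^ (m + 1)| ≤ _
    rw [abs_of_nonneg (by positivity), ← mul_pow]
    exact pow_le_pow_left₀ (by positivity) h3 _
  induction N generalizing m with
  | zero => exact ⟨kr_continuous m hε, hb m⟩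
  | succ N ih =>
    refine ⟨fun Z => (C7Krn_hd m hε Z).differentiableAt, hb m, fun k => ?_⟩
    have h1 : pd k (fun Z : X d => kr m ε Z) =
        fun Z => -((m : ℝ) + 1) * (kr (m + 2) ε Z * Z k) :=
      funext fun Z => pd_kr m hε k Z
    rw [h1]
    have h2 := dec_smul (-((m : ℝ) + 1)) (dec_mul (ih (m + 2)) (dec_coord N k))
    have e : ((m + 2 : ℕ) : ℤ) + 1 + (-1) = (m : ℤ) + 1 + 1 := by push_cast; ring
    rw [e] at h2
    exact h2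

end Pool.Agent.H1.C7
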