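import Pool.Agent.H1.C7.Cal

/-!
Row Mea.  Differentiation under the integral: μ finite, supported in a ball, K of class DecN N p with p ≥ 0: Y ↦ ∫ K(Y - x) dμ(x) is of class DecN N p and its partial derivatives are the integrals of the
partial derivatives of K.  Template LD/CoA.lean (hasFDerivAt_integral_of_dominated_of_fderiv_le; (1+|Y-x|)^(-1) ≤ C_A (1+|Y|)^(-1) for |x| ≤ A, so (1+|Y-x|)^(-p) ≤ C (1+|Y|)^(-p) for p ≥ 0).
-/

set_option autoImplicit false

open MeasureTheory Filter Topology Metric Set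
open scoped RealInnerProductSpace ENNReal

namespace Pool.Agent.H1.C7

open Pool.Agent.RZ Pool.Agent.H1.LD

variable {d : ℕ}

private theorem C7Mea_pos (Z : X d) : 0 < 1 + ‖Z‖ := by
  have := norm_nonneg Z
  linarith

private theorem C7Mea_bounded {N : ℕ} {p : ℤ} (hp : 0 ≤ p) {K : X d → ℝ} (hK : DecN N p K) :
    ∃ C : ℝ, 0 ≤ C ∧ ∀ Z, |K Z| ≤ C := by
  obtain ⟨C, hC0, hC⟩ := dec_bd hK
  refine ⟨C, hC0, fun Z => (hC Z).trans (mul_le_of_le_one_right hC0 ?_)⟩
  have h0 := norm_nonneg Z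
  rw [zpow_neg]
  exact inv_le_one_of_one_le₀ (one_le_zpow₀ (by linarith) hp)

private theorem C7Mea_rep (L : X d →L[ℝ] ℝ) :
    L = ∑ k, L (EuclideanSpace.single k 1) • (EuclideanSpace.proj k : X d →L[ℝ] ℝ) := by
  ext v
  have h1 : v = ∑ k, v k • EuclideanSpace.single k (1 : ℝ) := by
    have h2 := (EuclideanSpace.basisFun (Fin d) ℝ).sum_repr v
    simp only [EuclideanSpace.basisFun_repr, EuclideanSpace.basisFun_apply] at h2
    exact h2.symm
  conv_lhs => rw [h1]
  rw [map_sum, sum_apply]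
  refine Finset.sum_congr rfl fun k _ => ?_
  rw [map_smul, smul_eq_mul]
  simp only [smul_apply, smul_eq_mul, PiLp.proj_apply]
  ring

private theorem C7Mea_op (L : X d →L[ℝ] ℝ) {C : ℝ} (hC : 0 ≤ C)
    (h : ∀ k, |L (EuclideanSpace.single k 1)| ≤ C) : ‖L‖ ≤ d * C := by
  refine ContinuousLinearMap.opNorm_le_bound _ (by positivity) fun v => ?_
  have h1 : v = ∑ k, v k • EuclideanSpace.single k (1 : ℝ) := by
    have h2 := (EuclideanSpace.basisFun (Fin d) ℝ).sum_repr v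
    simp only [EuclideanSpace.basisFun_repr, EuclideanSpace.basisFun_apply] at h2
    exact h2.symm
  have h3 : L v = ∑ k, v k * L (EuclideanSpace.single k 1) := by
    conv_lhs => rw [h1]
    rw [map_sum]
    refine Finset.sum_congr rfl fun k _ => ?_
    rw [map_smul, smul_eq_mul]
  rw [h3]
  have hv : ∀ k, |v k| ≤ ‖v‖ := by
    intro k
    have := PiLp.norm_apply_le v k
    simpa using this
  calc ‖∑ k, v k * L (EuclideanSpace.single k 1)‖
      ≤ ∑ k, ‖v k * L (EuclideanSpace.single k 1)‖ := norm_sum_le _ _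
    _ ≤ ∑ _k : Fin d, ‖v‖ * C := by
        refine Finset.sum_le_sum fun k _ => ?_
        rw [norm_mul, Real.norm_eq_abs, Real.norm_eq_abs]
        exact mul_le_mul (hv k) (h k) (abs_nonneg _) (norm_nonneg _)
    _ = d * C * ‖v‖ := by
        rw [Finset.sum_const, Finset.card_univ, Fintype.card_fin, nsmul_eq_mul]
        ring

private theorem C7Mea_integrable (μ : Measure (X d)) [IsFiniteMeasure μ] {f : X d → ℝ}
    (hc : Continuous f) {C : ℝ} (h : ∀ Z, |f Z| ≤ C) (Y : X d) :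
    Integrable (fun x => f (Y - x)) μ :=
  Integrable.of_bound (hc.comp (continuous_const.sub continuous_id)).aestronglyMeasurable C
    (Eventually.of_forall fun x => by
      rw [Real.norm_eq_abs]
      exact h _)

private theorem C7Mea_cont (μ : Measure (X d)) [IsFiniteMeasure μ] {f : X d → ℝ}
    (hc : Continuous f) {C : ℝ} (h : ∀ Z, |f Z| ≤ C) : Continuous fun Y => ∫ x, f (Y - x) ∂μ := by
  refine continuous_of_dominated (bound := fun _ => C) (fun Y =>
    (hc.comp (continuous_const.sub continuous_id)).aestronglyMeasurable)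
    (fun Y => Eventually.of_forall fun x => ?_) (integrable_const C)
    (Eventually.of_forall fun x => ?_)
  · rw [Real.norm_eq_abs]
    exact h _
  · exact hc.comp (continuous_id.sub continuous_const)

private theorem C7Mea_bd {N : ℕ} {p : ℤ} (hp : 0 ≤ p) {K : X d → ℝ} (hK : DecN N p K)
    (μ : Measure (X d)) [IsFiniteMeasure μ] {A : ℝ} (hA : μ (closedBall 0 A)ᶜ = 0) :
    ∃ C : ℝ, ∀ Y, |∫ x, K (Y - x) ∂μ| ≤ C * (1 + ‖Y‖) ^ (-p) := by
  obtain ⟨m, rfl⟩ := Int.eq_ofNat_of_zero_le hp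
  obtain ⟨C, hC0, hC⟩ := dec_bd hK
  refine ⟨C * (1 + |A|) ^ m * μ.real Set.univ, fun Y => ?_⟩
  have h0 := C7Mea_pos Y
  have hz : ∀ a : ℝ, a ^ (-(m : ℤ)) = a⁻¹ ^ m := fun a => by
    rw [zpow_neg, zpow_natCast, inv_pow]
  have h1 : ∀ᵐ x ∂μ, ‖K (Y - x)‖ ≤ C * ((1 + |A|) * (1 + ‖Y‖)⁻¹) ^ m := by
    have h2 : ∀ᵐ x ∂μ, x ∈ closedBall (0 : X d) A := by
      rw [ae_iff]
      exact hA
    filter_upwards [h2] with x hx
    rw [mem_closedBall_zero_iff] at hx
    rw [Real.norm_eq_abs]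
    refine (hC _).trans (mul_le_mul_of_nonneg_left ?_ hC0)
    rw [hz]
    have h3 := C7Mea_pos (Y - x)
    refine pow_le_pow_left₀ (by positivity) ?_ _
    rw [← div_eq_mul_inv, le_div_iff₀ h0, inv_mul_le_iff₀ h3]
    have h4 : ‖Y‖ ≤ ‖Y - x‖ + ‖x‖ := by
      have := norm_add_le (Y - x) x
      rwa [sub_add_cancel] at this
    have h5 : ‖x‖ ≤ |A| := hx.trans (le_abs_self A)
    have h6 := abs_nonneg A
    have h7 := norm_nonneg (Y - x)
    nlinarith
  have h8 := norm_integral_le_of_norm_le_const h1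
  rw [Real.norm_eq_abs] at h8
  refine h8.trans (le_of_eq ?_)
  rw [hz, mul_pow]
  ring

private theorem C7Mea_key {N : ℕ} {p : ℤ} (hp : 0 ≤ p) {K : X d → ℝ} (hK : DecN (N + 1) p K)
    (μ : Measure (X d)) [IsFiniteMeasure μ] (Y : X d) :
    HasFDerivAt (fun Y => ∫ x, K (Y - x) ∂μ) (∫ x, fderiv ℝ K (Y - x) ∂μ) Y ∧
      Integrable (fun x => fderiv ℝ K (Y - x)) μ := by
  have hkc : ∀ k, Continuous (pd k K) := fun k => dec_cont (dec_pd hK k)
  have hkb : ∀ k, ∃ C : ℝ, 0 ≤ C ∧ ∀ Z, |pd k K Z| ≤ C := fun k =>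
    C7Mea_bounded (by omega) (dec_pd hK k)
  choose c hc0 hc using hkb
  have hC : ∀ k Z, |pd k K Z| ≤ ∑ k, c k := fun k Z => (hc k Z).trans
    (Finset.single_le_sum (fun j _ => hc0 j) (Finset.mem_univ k))
  have hC0 : 0 ≤ ∑ k, c k := Finset.sum_nonneg fun k _ => hc0 k
  generalize (∑ k, c k) = C at hC hC0
  obtain ⟨D, hD0, hD⟩ := C7Mea_bounded hp hK
  have hKc : Continuous K := dec_cont hK
  have hL : ∀ Z, ‖fderiv ℝ K Z‖ ≤ d * C := fun Z => C7Mea_op _ hC0 fun k => hC k Z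
  have hcL : Continuous (fderiv ℝ K) := by
    have h1 : fderiv ℝ K = fun Z => ∑ k, pd k K Z • (EuclideanSpace.proj k : X d →L[ℝ] ℝ) :=
      funext fun Z => C7Mea_rep (fderiv ℝ K Z)
    rw [h1]
    exact continuous_finsetSum _ fun k _ => (hkc k).smul continuous_const
  have hI : Integrable (fun x => fderiv ℝ K (Y - x)) μ := Integrable.of_bound
    (hcL.comp (continuous_const.sub continuous_id)).aestronglyMeasurable (d * C)
    (Eventually.of_forall fun x => hL _)
  refine ⟨?_, hI⟩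
  refine hasFDerivAt_integral_of_dominated_of_fderiv_le (s := Set.univ)
    (bound := fun _ => d * C) (F' := fun Y x => fderiv ℝ K (Y - x)) Filter.univ_mem
    (Eventually.of_forall fun Y =>
      (hKc.comp (continuous_const.sub continuous_id)).aestronglyMeasurable)
    (C7Mea_integrable μ hKc hD Y)
    (hcL.comp (continuous_const.sub continuous_id)).aestronglyMeasurable
    (Eventually.of_forall fun x Y _ => hL _) (integrable_const _)
    (Eventually.of_forall fun x Y _ => ?_)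
  have h1 : HasFDerivAt K (fderiv ℝ K (Y - x)) (Y - x) := (dec_diff hK _).hasFDerivAt
  have h2 : HasFDerivAt (fun Y : X d => Y - x) (ContinuousLinearMap.id ℝ (X d)) Y :=
    (hasFDerivAt_id Y).sub_const x
  have h3 := h1.comp Y h2
  rwa [ContinuousLinearMap.comp_id] at h3

theorem mea_pd {N : ℕ} {p : ℤ} (hp : 0 ≤ p) {K : X d → ℝ} (hK : DecN (N + 1) p K)
    (μ : Measure (X d)) [IsFiniteMeasure μ] (k : Fin d) (Y : X d) :
    pd k (fun Y => ∫ x, K (Y - x) ∂μ) Y = ∫ x, pd k K (Y - x) ∂μ := by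
  obtain ⟨h1, h2⟩ := C7Mea_key hp hK μ Y
  unfold pd
  rw [h1.fderiv, ContinuousLinearMap.integral_apply h2]

theorem mea_int {N : ℕ} {p : ℤ} (hp : 0 ≤ p) {K : X d → ℝ} (hK : DecN N p K)
    (μ : Measure (X d)) [IsFiniteMeasure μ] (Y : X d) : Integrable (fun x => K (Y - x)) μ := by
  obtain ⟨C, hC0, hC⟩ := C7Mea_bounded hp hK
  exact C7Mea_integrable μ (dec_cont hK) hC Y

theorem mea_dec {N : ℕ} {p : ℤ} (hp : 0 ≤ p) {K : X d → ℝ} (hK : DecN N p K)
    (μ : Measure (X d)) [IsFiniteMeasure μ] {A : ℝ} (hA : μ (closedBall 0 A)ᶜ = 0) :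
    DecN N p (fun Y => ∫ x, K (Y - x) ∂μ) := by
  induction N generalizing p K with
  | zero =>
    obtain ⟨C, hC0, hC⟩ := C7Mea_bounded hp hK
    exact ⟨C7Mea_cont μ (dec_cont hK) hC, C7Mea_bd hp hK μ hA⟩
  | succ N ih =>
    refine ⟨fun Y => (C7Mea_key hp hK μ Y).1.differentiableAt, C7Mea_bd hp hK μ hA, fun k => ?_⟩
    have h1 : pd k (fun Y => ∫ x, K (Y - x) ∂μ) = fun Y => ∫ x, pd k K (Y - x) ∂μ :=
      funext fun Y => mea_pd hp hK μ k Y
    rw [h1]
    exact ih (by omega) (dec_pd hK k)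

end Pool.Agent.H1.C7
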