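import Pool.Agent.H1.C7.Sym
import Pool.Agent.H1.C7.Krn
import Pool.Agent.H1.C7.Mea

/-!
Row Dat.  The field F7 n ε μ i Y = ∫ kr n ε (Y-x) (Y-x)_i dμ(x).  Fld: dec from dec_kr, dec_coord, dec_mul, mea_dec; curl: pd j (kr n Z_i) = kr n δ_ij - (n+1) kr (n+2) Z_i Z_j is symmetric.
Explicit formulas by mea_pd and pd_kr, |Z|^2 = q - ε^2, d = n+7 (U: trace of He; U2 = Laplacian of Ue; Q = Laplacian of U2e; Laplacian of q^(-a): 2a(2a+2-d) q^(-a-1) - 4a(a+1) ε^2 q^(-a-2),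
i.e. Lap kr m = (m+1)((m+3-d) kr (m+2) - (m+3) ε^2 ... ) : Lap kr m = (m+1)(m+3-d) kr (m+2) - (m+1)(m+3) ε^2 kr (m+4)).
-/

set_option autoImplicit false

open MeasureTheory Filter Topology Metric Set
open scoped RealInnerProductSpace ENNReal

namespace Pool.Agent.H1.C7

open Pool.Agent.RZ Pool.Agent.H1.LD

variable {d : ℕ}

noncomputable def F7 (n : ℕ) (ε : ℝ) (μ : Measure (X d)) (i : Fin d) (Y : X d) : ℝ :=
  ∫ x, kr n ε (Y - x) * (Y - x) i ∂μ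

private theorem C7Dat_int (n : ℕ) {ε : ℝ} (hε : 0 < ε) (μ : Measure (X d)) [IsFiniteMeasure μ]
    (Y : X d) : Integrable (fun x => kr n ε (Y - x) • (Y - x)) μ := by
  have h1 : ∀ i : Fin d, Integrable (fun x => kr n ε (Y - x) * (Y - x) i) μ := fun i =>
    mea_int (by omega : (0 : ℤ) ≤ ((n : ℤ) + 1) + (-1)) (dec_mul (dec_kr 0 n hε) (dec_coord 0 i)) μ Y
  have h2 : (fun x => kr n ε (Y - x) • (Y - x)) = fun x =>
      ∑ i, (kr n ε (Y - x) * (Y - x) i) • (EuclideanSpace.single i 1 : X d) := by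
    funext x
    ext j
    simp [Finset.sum_apply, Pi.single_apply]
  rw [h2]
  exact integrable_finsetSum _ fun i _ => (h1 i).smul_const _

theorem F7_eq (n : ℕ) {ε : ℝ} (hε : 0 < ε) (μ : Measure (X d)) [IsFiniteMeasure μ] (i : Fin d)
    (Y : X d) : F7 n ε μ i Y = ⟪(EuclideanSpace.single i 1 : X d), Fe n ε μ Y⟫ := by
  unfold F7 Fe
  rw [← integral_inner (C7Dat_int n hε μ Y)]
  refine integral_congr_ae (Eventually.of_forall fun x => ?_)
  simp [inner_smul_right, EuclideanSpace.inner_single_left]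

theorem F7_sum (n : ℕ) {ε : ℝ} (hε : 0 < ε) (μ : Measure (X d)) [IsFiniteMeasure μ] (Y : X d) :
    ∑ i, F7 n ε μ i Y ^ 2 = ‖Fe n ε μ Y‖ ^ 2 := by
  rw [EuclideanSpace.norm_sq_eq]
  refine Finset.sum_congr rfl fun i _ => ?_
  rw [F7_eq n hε μ i Y, EuclideanSpace.inner_single_left, Real.norm_eq_abs, sq_abs]
  simp

/-- a combination of four kernels -/
private noncomputable def C7Dat_R (ε : ℝ) (m : ℕ) (a b c e : ℝ) (Z : X d) : ℝ :=
  a * kr m ε Z + b * kr (m + 2) ε Z + c * kr (m + 4) ε Z + e * kr (m + 6) ε Z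

private theorem C7Dat_rel (m : ℕ) {ε : ℝ} (hε : 0 < ε) (Z : X d) :
    kr (m + 2) ε Z * ‖Z‖ ^ 2 = kr m ε Z - ε ^ 2 * kr (m + 2) ε Z := by
  have hpos : 0 < ‖Z‖ ^ 2 + ε ^ 2 := by positivity
  have key : kr m ε Z = kr (m + 2) ε Z * (‖Z‖ ^ 2 + ε ^ 2) := by
    unfold kr
    have hs : 0 < Real.sqrt (‖Z‖ ^ 2 + ε ^ 2) := Real.sqrt_pos.2 hpos
    have h2 : ‖Z‖ ^ 2 + ε ^ 2 = Real.sqrt (‖Z‖ ^ 2 + ε ^ 2) ^ 2 := (Real.sq_sqrt hpos.le).symm
    conv_rhs => rw [h2]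
    rw [Real.sqrt_sq hs.le]
    set S := Real.sqrt (‖Z‖ ^ 2 + ε ^ 2) with hS
    have hne : S ≠ 0 := hs.ne'
    rw [show m + 2 + 1 = m + 1 + 2 by ring, pow_add _ (m + 1) 2, mul_assoc, ← mul_pow,
      inv_mul_cancel₀ hne, one_pow, mul_one]
  rw [key]
  ring

private theorem C7Dat_dec (N m : ℕ) {ε : ℝ} (hε : 0 < ε) (a b c e : ℝ) :
    DecN N (m + 1) (fun Z : X d => C7Dat_R ε m a b c e Z) := by
  have h : ∀ j : ℕ, DecN N ((m : ℤ) + 1) (fun Z : X d => kr (m + j) ε Z) := fun j =>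
    dec_mono (dec_kr N (m + j) hε) le_rfl (by push_cast; linarith [Int.natCast_nonneg j])
  exact dec_add (dec_add (dec_add (dec_smul a (h 0)) (dec_smul b (h 2))) (dec_smul c (h 4)))
    (dec_smul e (h 6))

private theorem C7Dat_decZ (N m : ℕ) {ε : ℝ} (hε : 0 < ε) (a b c e : ℝ) (k : Fin d) :
    DecN N m (fun Z : X d => C7Dat_R ε m a b c e Z * Z k) :=
  dec_mono (dec_mul (C7Dat_dec N m hε a b c e) (dec_coord N k)) le_rfl (by linarith)

private theorem C7Dat_pd (m : ℕ) {ε : ℝ} (hε : 0 < ε) (a b c e : ℝ) (k : Fin d) (Z : X d) :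
    pd k (fun Z : X d => C7Dat_R ε m a b c e Z) Z =
      C7Dat_R ε (m + 2) (-((m : ℝ) + 1) * a) (-((m : ℝ) + 3) * b) (-((m : ℝ) + 5) * c)
        (-((m : ℝ) + 7) * e) Z * Z k := by
  have hk : ∀ j : ℕ, Differentiable ℝ (fun Z : X d => kr (m + j) ε Z) := fun j =>
    dec_diff (dec_kr 1 (m + j) hε)
  have h0 : Differentiable ℝ (fun Z : X d => kr m ε Z) := hk 0
  have s0 : Differentiable ℝ (fun Z : X d => a * kr m ε Z) := h0.const_mul a
  have s1 : Differentiable ℝ (fun Z : X d => b * kr (m + 2) ε Z) := (hk 2).const_mul b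
  have s2 : Differentiable ℝ (fun Z : X d => c * kr (m + 4) ε Z) := (hk 4).const_mul c
  have s3 : Differentiable ℝ (fun Z : X d => e * kr (m + 6) ε Z) := (hk 6).const_mul e
  unfold C7Dat_R
  rw [pd_add ((s0.fun_add s1).fun_add s2) s3, pd_add (s0.fun_add s1) s2, pd_add s0 s1, pd_smul h0,
    pd_smul (hk 2), pd_smul (hk 4), pd_smul (hk 6), pd_kr m hε, pd_kr (m + 2) hε, pd_kr (m + 4) hε,
    pd_kr (m + 6) hε]
  push_cast
  simp only [show m + 2 + 2 = m + 4 from rfl, show m + 4 + 2 = m + 6 from rfl,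
    show m + 6 + 2 = m + 8 from rfl]
  ring

private theorem C7Dat_div (m : ℕ) {ε : ℝ} (hε : 0 < ε) (a b c e : ℝ) (Z : X d) :
    ∑ k, pd k (fun Z : X d => C7Dat_R ε m a b c e Z * Z k) Z =
      (d - ((m : ℝ) + 1)) * a * kr m ε Z +
      (((m : ℝ) + 1) * ε ^ 2 * a + (d - ((m : ℝ) + 3)) * b) * kr (m + 2) ε Z +
      (((m : ℝ) + 3) * ε ^ 2 * b + (d - ((m : ℝ) + 5)) * c) * kr (m + 4) ε Z +
      (((m : ℝ) + 5) * ε ^ 2 * c + (d - ((m : ℝ) + 7)) * e) * kr (m + 6) ε Z +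
      ((m : ℝ) + 7) * ε ^ 2 * e * kr (m + 8) ε Z := by
  have hR : Differentiable ℝ (fun Z : X d => C7Dat_R ε m a b c e Z) :=
    dec_diff (C7Dat_dec 1 m hε a b c e)
  have hc : ∀ k : Fin d, Differentiable ℝ (fun Z : X d => Z k) := fun k => dec_diff (dec_coord 1 k)
  have hk : ∀ k : Fin d, pd k (fun Z : X d => C7Dat_R ε m a b c e Z * Z k) Z =
      C7Dat_R ε m a b c e Z +
      C7Dat_R ε (m + 2) (-((m : ℝ) + 1) * a) (-((m : ℝ) + 3) * b) (-((m : ℝ) + 5) * c)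
        (-((m : ℝ) + 7) * e) Z * (Z k) ^ 2 := by
    intro k
    rw [pd_mul hR (hc k), pd_coord, C7Dat_pd m hε, if_pos rfl]
    ring
  have hn : ∑ k, (Z k) ^ 2 = ‖Z‖ ^ 2 := by
    rw [EuclideanSpace.norm_sq_eq]
    exact Finset.sum_congr rfl fun i _ => by rw [Real.norm_eq_abs, sq_abs]
  rw [Finset.sum_congr rfl fun k _ => hk k, Finset.sum_add_distrib, ← Finset.mul_sum, hn,
    Finset.sum_const, Finset.card_univ, Fintype.card_fin, nsmul_eq_mul]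
  have r0 := C7Dat_rel m hε Z
  have r2 := C7Dat_rel (m + 2) hε Z
  have r4 := C7Dat_rel (m + 4) hε Z
  have r6 := C7Dat_rel (m + 6) hε Z
  unfold C7Dat_R
  simp only [show m + 2 + 2 = m + 4 from rfl, show m + 4 + 2 = m + 6 from rfl,
    show m + 6 + 2 = m + 8 from rfl] at r0 r2 r4 r6 ⊢
  linear_combination (-((m : ℝ) + 1) * a) * r0 + (-((m : ℝ) + 3) * b) * r2 +
    (-((m : ℝ) + 5) * c) * r4 + (-((m : ℝ) + 7) * e) * r6

section
variable {ε : ℝ} (hε : 0 < ε) (μ : Measure (X d))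
  [IsFiniteMeasure μ] {A : ℝ} (hA : μ (closedBall 0 A)ᶜ = 0)
include hε hA

private theorem C7Dat_mgrad (m : ℕ) (a b c e s : ℝ) (k : Fin d) (Y : X d) :
    pd k (fun Y : X d => s * ∫ x, C7Dat_R ε m a b c e (Y - x) ∂μ) Y =
      s * ∫ x, C7Dat_R ε (m + 2) (-((m : ℝ) + 1) * a) (-((m : ℝ) + 3) * b) (-((m : ℝ) + 5) * c)
        (-((m : ℝ) + 7) * e) (Y - x) * (Y - x) k ∂μ := by
  have hp : (0 : ℤ) ≤ (m : ℤ) + 1 := by positivity
  have h1 := mea_dec hp (C7Dat_dec 1 m hε a b c e) μ hA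
  rw [pd_smul (dec_diff h1), mea_pd hp (C7Dat_dec 1 m hε a b c e) μ]
  congr 1
  exact integral_congr_ae (Eventually.of_forall fun x => C7Dat_pd m hε a b c e k (Y - x))

private theorem C7Dat_mdiv (m : ℕ) (a b c e s : ℝ) (Y : X d) :
    ∑ k, pd k (fun Y : X d => s * ∫ x, C7Dat_R ε m a b c e (Y - x) * (Y - x) k ∂μ) Y =
      s * ∫ x, ((d - ((m : ℝ) + 1)) * a * kr m ε (Y - x) +
      (((m : ℝ) + 1) * ε ^ 2 * a + (d - ((m : ℝ) + 3)) * b) * kr (m + 2) ε (Y - x) +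
      (((m : ℝ) + 3) * ε ^ 2 * b + (d - ((m : ℝ) + 5)) * c) * kr (m + 4) ε (Y - x) +
      (((m : ℝ) + 5) * ε ^ 2 * c + (d - ((m : ℝ) + 7)) * e) * kr (m + 6) ε (Y - x) +
      ((m : ℝ) + 7) * ε ^ 2 * e * kr (m + 8) ε (Y - x)) ∂μ := by
  have hp : (0 : ℤ) ≤ (m : ℤ) := by positivity
  have hp1 : (0 : ℤ) ≤ (m : ℤ) + 1 := by positivity
  have hk : ∀ k : Fin d, pd k (fun Y : X d => s * ∫ x, C7Dat_R ε m a b c e (Y - x) * (Y - x) k ∂μ) Y =
      s * ∫ x, pd k (fun Z : X d => C7Dat_R ε m a b c e Z * Z k) (Y - x) ∂μ := by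
    intro k
    have h1 := mea_dec hp (C7Dat_decZ 1 m hε a b c e k) μ hA
    rw [pd_smul (dec_diff h1), mea_pd hp (C7Dat_decZ 1 m hε a b c e k) μ]
  rw [Finset.sum_congr rfl fun k _ => hk k, ← Finset.mul_sum, ← integral_finsetSum _ fun k _ =>
    mea_int hp1 (dec_pd (C7Dat_decZ 1 m hε a b c e k) k) μ Y]
  congr 1
  exact integral_congr_ae (Eventually.of_forall fun x => C7Dat_div m hε a b c e (Y - x))
end

section
variable {n : ℕ} (hd : d = n + 7) {ε : ℝ} (hε : 0 < ε) (μ : Measure (X d))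
  [IsFiniteMeasure μ] {A : ℝ} (hA : μ (closedBall 0 A)ᶜ = 0)
include hε

private theorem C7Dat_F (i : Fin d) : F7 n ε μ i = fun Y => 1 * ∫ x, C7Dat_R ε n 1 0 0 0 (Y - x) *
    (Y - x) i ∂μ := by
  funext Y
  rw [one_mul]
  unfold F7 C7Dat_R
  refine integral_congr_ae (Eventually.of_forall fun x => ?_)
  ring

private theorem C7Dat_decF (N : ℕ) (i : Fin d) :
    DecN N ((n : ℤ)) (fun Z : X d => kr n ε Z * Z i) :=
  dec_mono (dec_mul (dec_kr N n hε) (dec_coord N i)) le_rfl (by linarith)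

private theorem C7Dat_pdF (i j : Fin d) (Z : X d) : pd j (fun Z : X d => kr n ε Z * Z i) Z =
    kr n ε Z * (if i = j then 1 else 0) - (n + 1) * kr (n + 2) ε Z * (Z i * Z j) := by
  rw [pd_mul (dec_diff (dec_kr 1 n hε)) (dec_diff (dec_coord 1 i)), pd_coord, pd_kr n hε]
  ring

private theorem C7Dat_S (i j : Fin d) (Y : X d) : fS (F7 n ε μ) i j Y =
    ∫ x, (kr n ε (Y - x) * (if i = j then 1 else 0) -
      (n + 1) * kr (n + 2) ε (Y - x) * ((Y - x) i * (Y - x) j)) ∂μ := by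
  unfold fS F7
  have h1 := mea_pd (by positivity : (0 : ℤ) ≤ (n : ℤ)) (C7Dat_decF (n := n) hε 1 i) μ j Y
  rw [h1]
  exact integral_congr_ae (Eventually.of_forall fun x => C7Dat_pdF hε i j (Y - x))
end

section
variable {n : ℕ} (hd : d = n + 7) {ε : ℝ} (hε : 0 < ε) (μ : Measure (X d))
  [IsFiniteMeasure μ] {A : ℝ} (hA : μ (closedBall 0 A)ᶜ = 0)
include hd hε hA

theorem F7_fld : Fld n (F7 n ε μ) := by
  refine ⟨fun i => ?_, fun i j => ?_⟩
  · exact mea_dec (by positivity : (0 : ℤ) ≤ (n : ℤ)) (C7Dat_decF (n := n) hε 8 i) μ hA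
  · funext Y
    have h1 := C7Dat_S (n := n) hε μ i j Y
    have h2 := C7Dat_S (n := n) hε μ j i Y
    unfold fS at h1 h2
    rw [h1, h2]
    refine integral_congr_ae (Eventually.of_forall fun x => ?_)
    have h3 : (if i = j then (1 : ℝ) else 0) = if j = i then 1 else 0 := by
      by_cases h : i = j
      · rw [if_pos h, if_pos h.symm]
      · rw [if_neg h, if_neg fun h' => h h'.symm]
    simp only [h3]
    ring

theorem F7_S (i j : Fin d) (Y : X d) : fS (F7 n ε μ) i j Y =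
    ∫ x, (kr n ε (Y - x) * (if i = j then 1 else 0) -
      (n + 1) * kr (n + 2) ε (Y - x) * ((Y - x) i * (Y - x) j)) ∂μ :=
  C7Dat_S hε μ i j Y

theorem F7_T (Y : X d) : fT (F7 n ε μ) Y = Te n ε μ Y := by
  unfold fT fS
  simp only [C7Dat_F hε μ]
  rw [C7Dat_mdiv hε μ hA n, one_mul]
  unfold Te
  refine integral_congr_ae (Eventually.of_forall fun x => ?_)
  have hdr : (d : ℝ) = (n : ℝ) + 7 := by rw [hd]; push_cast; ring
  simp only [hdr]
  ring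

private theorem C7Dat_V (k : Fin d) : fV (F7 n ε μ) k = fun Y => 1 * ∫ x, C7Dat_R ε (n + 2)
    (-((n : ℝ) + 1) * 6) (-((n : ℝ) + 3) * ((n + 1) * ε ^ 2)) (-((n : ℝ) + 5) * 0)
      (-((n : ℝ) + 7) * 0) (Y - x) * (Y - x) k ∂μ := by
  have hT : fT (F7 n ε μ) = fun Y => 1 * ∫ x, C7Dat_R ε n 6 ((n + 1) * ε ^ 2) 0 0 (Y - x) ∂μ := by
    funext Y
    rw [F7_T hd hε μ hA, one_mul]
    unfold Te C7Dat_R
    refine integral_congr_ae (Eventually.of_forall fun x => ?_)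
    ring
  funext Y
  unfold fV
  rw [hT]
  exact C7Dat_mgrad hε μ hA n _ _ _ _ _ k Y

theorem F7_V (k : Fin d) (Y : X d) : fV (F7 n ε μ) k Y = Ve n ε μ k Y := by
  rw [C7Dat_V hd hε μ hA k]
  unfold Ve C7Dat_R
  beta_reduce
  rw [one_mul, ← integral_const_mul]
  refine integral_congr_ae (Eventually.of_forall fun x => ?_)
  simp only [show n + 2 + 2 = n + 4 from rfl]
  ring

theorem F7_H (k l : Fin d) (Y : X d) : fH (F7 n ε μ) k l Y = He n ε μ k l Y := by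
  have hp : (0 : ℤ) ≤ ((n + 2 : ℕ) : ℤ) := by positivity
  unfold fH
  rw [C7Dat_V hd hε μ hA k]
  have h1 := C7Dat_decZ 1 (n + 2) hε (-((n : ℝ) + 1) * 6) (-((n : ℝ) + 3) * ((n + 1) * ε ^ 2))
    (-((n : ℝ) + 5) * 0) (-((n : ℝ) + 7) * 0) k
  rw [pd_smul (dec_diff (mea_dec hp h1 μ hA)), mea_pd hp h1 μ, one_mul]
  unfold He
  rw [← integral_const_mul]
  refine integral_congr_ae (Eventually.of_forall fun x => ?_)
  have h2 := dec_diff (C7Dat_dec (d := d) 1 (n + 2) hε (-((n : ℝ) + 1) * 6)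
    (-((n : ℝ) + 3) * ((n + 1) * ε ^ 2)) (-((n : ℝ) + 5) * 0) (-((n : ℝ) + 7) * 0))
  show pd l (fun Z : X d => C7Dat_R ε (n + 2) (-((n : ℝ) + 1) * 6)
    (-((n : ℝ) + 3) * ((n + 1) * ε ^ 2)) (-((n : ℝ) + 5) * 0) (-((n : ℝ) + 7) * 0) Z * Z k)
    (Y - x) = _
  rw [pd_mul h2 (dec_diff (dec_coord 1 k)), pd_coord, C7Dat_pd (n + 2) hε]
  unfold C7Dat_R
  simp only [show n + 2 + 2 = n + 4 from rfl, show n + 4 + 2 = n + 6 from rfl]
  push_cast
  ring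

theorem F7_U (Y : X d) : fU (F7 n ε μ) Y = Ue n ε μ Y := by
  unfold fU fH
  simp only [C7Dat_V hd hε μ hA]
  rw [C7Dat_mdiv hε μ hA (n + 2), one_mul]
  unfold Ue
  rw [← integral_const_mul]
  refine integral_congr_ae (Eventually.of_forall fun x => ?_)
  have hdr : (d : ℝ) = (n : ℝ) + 7 := by rw [hd]; push_cast; ring
  simp only [hdr, show n + 2 + 2 = n + 4 from rfl, show n + 2 + 4 = n + 6 from rfl]
  push_cast
  ring
end

end Pool.Agent.H1.C7
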