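import Pool.Agent.H1.C7.Dat

/-!
Row Dat2: continuation of Dat (see there).
-/

set_option autoImplicit false

open MeasureTheory Filter Topology Metric Set
open scoped RealInnerProductSpace ENNReal

namespace Pool.Agent.H1.C7

open Pool.Agent.RZ Pool.Agent.H1.LD

variable {d : ℕ}

/-- a combination of four kernels -/
private noncomputable def C7Dat2_R (ε : ℝ) (m : ℕ) (a b c e : ℝ) (Z : X d) : ℝ :=
  a * kr m ε Z + b * kr (m + 2) ε Z + c * kr (m + 4) ε Z + e * kr (m + 6) ε Z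

private theorem C7Dat2_rel (m : ℕ) {ε : ℝ} (hε : 0 < ε) (Z : X d) :
    kr (m + 2) ε Z * ‖Z‖ ^ 2 = kr m ε Z - ε ^ 2 * kr (m + 2) ε Z := by
  have hpos : 0 < ‖Z‖ ^ 2 + ε ^ 2 := by positivity
  have key : kr m ε Z = kr (m + 2) ε Z * (‖Z‖ ^ 2 + ε ^ 2) := by
    unfold kr
    have hs : 0 < Real.sqrt (‖Z‖ ^ 2 + ε ^ 2) := Real.sqrt_pos.2 hpos
    have h2 : ‖Z‖ ^ 2 + ε ^ 2 = Real.sqrt (‖Z‖ ^ 2 + ε ^ 2) ^ 2 := (Real.sq_sqrt hpos.le).symm
    conv_rhs => rw [h2]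
    rw [Real.sqrt_sq hs.le]
    set S := Real.sqrt (‖Z‖ ^ 2 + ε ^ 2) with hS
    have hne : S ≠ 0 := hs.ne'
    rw [show m + 2 + 1 = m + 1 + 2 by ring, pow_add _ (m + 1) 2, mul_assoc, ← mul_pow,
      inv_mul_cancel₀ hne, one_pow, mul_one]
  rw [key]
  ring

private theorem C7Dat2_dec (N m : ℕ) {ε : ℝ} (hε : 0 < ε) (a b c e : ℝ) :
    DecN N (m + 1) (fun Z : X d => C7Dat2_R ε m a b c e Z) := by
  have h : ∀ j : ℕ, DecN N ((m : ℤ) + 1) (fun Z : X d => kr (m + j) ε Z) := fun j =>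
    dec_mono (dec_kr N (m + j) hε) le_rfl (by push_cast; linarith [Int.natCast_nonneg j])
  exact dec_add (dec_add (dec_add (dec_smul a (h 0)) (dec_smul b (h 2))) (dec_smul c (h 4)))
    (dec_smul e (h 6))

private theorem C7Dat2_decZ (N m : ℕ) {ε : ℝ} (hε : 0 < ε) (a b c e : ℝ) (k : Fin d) :
    DecN N m (fun Z : X d => C7Dat2_R ε m a b c e Z * Z k) :=
  dec_mono (dec_mul (C7Dat2_dec N m hε a b c e) (dec_coord N k)) le_rfl (by linarith)

private theorem C7Dat2_pd (m : ℕ) {ε : ℝ} (hε : 0 < ε) (a b c e : ℝ) (k : Fin d) (Z : X d) :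
    pd k (fun Z : X d => C7Dat2_R ε m a b c e Z) Z =
      C7Dat2_R ε (m + 2) (-((m : ℝ) + 1) * a) (-((m : ℝ) + 3) * b) (-((m : ℝ) + 5) * c)
        (-((m : ℝ) + 7) * e) Z * Z k := by
  have hk : ∀ j : ℕ, Differentiable ℝ (fun Z : X d => kr (m + j) ε Z) := fun j =>
    dec_diff (dec_kr 1 (m + j) hε)
  have h0 : Differentiable ℝ (fun Z : X d => kr m ε Z) := hk 0
  have s0 : Differentiable ℝ (fun Z : X d => a * kr m ε Z) := h0.const_mul a
  have s1 : Differentiable ℝ (fun Z : X d => b * kr (m + 2) ε Z) := (hk 2).const_mul b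
  have s2 : Differentiable ℝ (fun Z : X d => c * kr (m + 4) ε Z) := (hk 4).const_mul c
  have s3 : Differentiable ℝ (fun Z : X d => e * kr (m + 6) ε Z) := (hk 6).const_mul e
  unfold C7Dat2_R
  rw [pd_add ((s0.fun_add s1).fun_add s2) s3, pd_add (s0.fun_add s1) s2, pd_add s0 s1, pd_smul h0,
    pd_smul (hk 2), pd_smul (hk 4), pd_smul (hk 6), pd_kr m hε, pd_kr (m + 2) hε, pd_kr (m + 4) hε,
    pd_kr (m + 6) hε]
  push_cast
  simp only [show m + 2 + 2 = m + 4 from rfl, show m + 4 + 2 = m + 6 from rfl,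
    show m + 6 + 2 = m + 8 from rfl]
  ring

private theorem C7Dat2_div (m : ℕ) {ε : ℝ} (hε : 0 < ε) (a b c e : ℝ) (Z : X d) :
    ∑ k, pd k (fun Z : X d => C7Dat2_R ε m a b c e Z * Z k) Z =
      (d - ((m : ℝ) + 1)) * a * kr m ε Z +
      (((m : ℝ) + 1) * ε ^ 2 * a + (d - ((m : ℝ) + 3)) * b) * kr (m + 2) ε Z +
      (((m : ℝ) + 3) * ε ^ 2 * b + (d - ((m : ℝ) + 5)) * c) * kr (m + 4) ε Z +
      (((m : ℝ) + 5) * ε ^ 2 * c + (d - ((m : ℝ) + 7)) * e) * kr (m + 6) ε Z +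
      ((m : ℝ) + 7) * ε ^ 2 * e * kr (m + 8) ε Z := by
  have hR : Differentiable ℝ (fun Z : X d => C7Dat2_R ε m a b c e Z) :=
    dec_diff (C7Dat2_dec 1 m hε a b c e)
  have hc : ∀ k : Fin d, Differentiable ℝ (fun Z : X d => Z k) := fun k => dec_diff (dec_coord 1 k)
  have hk : ∀ k : Fin d, pd k (fun Z : X d => C7Dat2_R ε m a b c e Z * Z k) Z =
      C7Dat2_R ε m a b c e Z +
      C7Dat2_R ε (m + 2) (-((m : ℝ) + 1) * a) (-((m : ℝ) + 3) * b) (-((m : ℝ) + 5) * c)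
        (-((m : ℝ) + 7) * e) Z * (Z k) ^ 2 := by
    intro k
    rw [pd_mul hR (hc k), pd_coord, C7Dat2_pd m hε, if_pos rfl]
    ring
  have hn : ∑ k, (Z k) ^ 2 = ‖Z‖ ^ 2 := by
    rw [EuclideanSpace.norm_sq_eq]
    exact Finset.sum_congr rfl fun i _ => by rw [Real.norm_eq_abs, sq_abs]
  rw [Finset.sum_congr rfl fun k _ => hk k, Finset.sum_add_distrib, ← Finset.mul_sum, hn,
    Finset.sum_const, Finset.card_univ, Fintype.card_fin, nsmul_eq_mul]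
  have r0 := C7Dat2_rel m hε Z
  have r2 := C7Dat2_rel (m + 2) hε Z
  have r4 := C7Dat2_rel (m + 4) hε Z
  have r6 := C7Dat2_rel (m + 6) hε Z
  unfold C7Dat2_R
  simp only [show m + 2 + 2 = m + 4 from rfl, show m + 4 + 2 = m + 6 from rfl,
    show m + 6 + 2 = m + 8 from rfl] at r0 r2 r4 r6 ⊢
  linear_combination (-((m : ℝ) + 1) * a) * r0 + (-((m : ℝ) + 3) * b) * r2 +
    (-((m : ℝ) + 5) * c) * r4 + (-((m : ℝ) + 7) * e) * r6

section
variable {ε : ℝ} (hε : 0 < ε) (μ : Measure (X d))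
  [IsFiniteMeasure μ] {A : ℝ} (hA : μ (closedBall 0 A)ᶜ = 0)
include hε hA

private theorem C7Dat2_mgrad (m : ℕ) (a b c e s : ℝ) (k : Fin d) (Y : X d) :
    pd k (fun Y : X d => s * ∫ x, C7Dat2_R ε m a b c e (Y - x) ∂μ) Y =
      s * ∫ x, C7Dat2_R ε (m + 2) (-((m : ℝ) + 1) * a) (-((m : ℝ) + 3) * b) (-((m : ℝ) + 5) * c)
        (-((m : ℝ) + 7) * e) (Y - x) * (Y - x) k ∂μ := by
  have hp : (0 : ℤ) ≤ (m : ℤ) + 1 := by positivity
  have h1 := mea_dec hp (C7Dat2_dec 1 m hε a b c e) μ hA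
  rw [pd_smul (dec_diff h1), mea_pd hp (C7Dat2_dec 1 m hε a b c e) μ]
  congr 1
  exact integral_congr_ae (Eventually.of_forall fun x => C7Dat2_pd m hε a b c e k (Y - x))

private theorem C7Dat2_mdiv (m : ℕ) (a b c e s : ℝ) (Y : X d) :
    ∑ k, pd k (fun Y : X d => s * ∫ x, C7Dat2_R ε m a b c e (Y - x) * (Y - x) k ∂μ) Y =
      s * ∫ x, ((d - ((m : ℝ) + 1)) * a * kr m ε (Y - x) +
      (((m : ℝ) + 1) * ε ^ 2 * a + (d - ((m : ℝ) + 3)) * b) * kr (m + 2) ε (Y - x) +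
      (((m : ℝ) + 3) * ε ^ 2 * b + (d - ((m : ℝ) + 5)) * c) * kr (m + 4) ε (Y - x) +
      (((m : ℝ) + 5) * ε ^ 2 * c + (d - ((m : ℝ) + 7)) * e) * kr (m + 6) ε (Y - x) +
      ((m : ℝ) + 7) * ε ^ 2 * e * kr (m + 8) ε (Y - x)) ∂μ := by
  have hp : (0 : ℤ) ≤ (m : ℤ) := by positivity
  have hp1 : (0 : ℤ) ≤ (m : ℤ) + 1 := by positivity
  have hk : ∀ k : Fin d, pd k (fun Y : X d => s * ∫ x, C7Dat2_R ε m a b c e (Y - x) * (Y - x) k ∂μ) Y =
      s * ∫ x, pd k (fun Z : X d => C7Dat2_R ε m a b c e Z * Z k) (Y - x) ∂μ := by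
    intro k
    have h1 := mea_dec hp (C7Dat2_decZ 1 m hε a b c e k) μ hA
    rw [pd_smul (dec_diff h1), mea_pd hp (C7Dat2_decZ 1 m hε a b c e k) μ]
  rw [Finset.sum_congr rfl fun k _ => hk k, ← Finset.mul_sum, ← integral_finsetSum _ fun k _ =>
    mea_int hp1 (dec_pd (C7Dat2_decZ 1 m hε a b c e k) k) μ Y]
  congr 1
  exact integral_congr_ae (Eventually.of_forall fun x => C7Dat2_div m hε a b c e (Y - x))
end

section
variable {n : ℕ} (hd : d = n + 7) {ε : ℝ} (hε : 0 < ε) (μ : Measure (X d))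
  [IsFiniteMeasure μ] {A : ℝ} (hA : μ (closedBall 0 A)ᶜ = 0)
include hd hε hA

theorem F7_U2 (Y : X d) : fU2 (F7 n ε μ) Y = U2e n ε μ Y := by
  have hU : fU (F7 n ε μ) = fun Y => -((n : ℝ) + 1) * ∫ x, C7Dat2_R ε (n + 2) 24 (8 * (n + 3) * ε ^ 2)
      ((n + 3) * (n + 5) * ε ^ 4) 0 (Y - x) ∂μ := by
    funext Y
    rw [F7_U hd hε μ hA]
    unfold Ue C7Dat2_R
    congr 1
    refine integral_congr_ae (Eventually.of_forall fun x => ?_)
    simp only [show n + 2 + 2 = n + 4 from rfl, show n + 2 + 4 = n + 6 from rfl]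
    ring
  have hG : ∀ k, fG (F7 n ε μ) k = fun Y => -((n : ℝ) + 1) * ∫ x, C7Dat2_R ε (n + 2 + 2)
      (-(((n + 2 : ℕ) : ℝ) + 1) * 24) (-(((n + 2 : ℕ) : ℝ) + 3) * (8 * (n + 3) * ε ^ 2))
      (-(((n + 2 : ℕ) : ℝ) + 5) * ((n + 3) * (n + 5) * ε ^ 4)) (-(((n + 2 : ℕ) : ℝ) + 7) * 0)
      (Y - x) * (Y - x) k ∂μ := by
    intro k
    funext Y
    unfold fG
    rw [hU]
    exact C7Dat2_mgrad hε μ hA (n + 2) _ _ _ _ _ k Y
  unfold fU2 fM
  simp only [hG]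
  rw [C7Dat2_mdiv hε μ hA (n + 2 + 2)]
  unfold U2e
  rw [← integral_const_mul, ← integral_const_mul]
  refine integral_congr_ae (Eventually.of_forall fun x => ?_)
  have hdr : (d : ℝ) = (n : ℝ) + 7 := by rw [hd]; push_cast; ring
  simp only [hdr, show n + 2 + 2 + 2 = n + 6 from rfl, show n + 2 + 2 = n + 4 from rfl,
    show n + 2 + 2 + 4 = n + 8 from rfl, show n + 2 + 2 + 6 = n + 10 from rfl,
    show n + 2 + 2 + 8 = n + 12 from rfl]
  push_cast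
  ring

theorem F7_Q (Y : X d) : fQ (F7 n ε μ) Y = Qe n ε μ Y := by
  have hU : fU2 (F7 n ε μ) = fun Y => (((n : ℝ) + 1) * (n + 3)) * ∫ x, C7Dat2_R ε (n + 4) 48
      (24 * (n + 5) * ε ^ 2) (6 * (n + 5) * (n + 7) * ε ^ 4)
      ((n + 5) * (n + 7) * (n + 9) * ε ^ 6) (Y - x) ∂μ := by
    funext Y
    rw [F7_U2 hd hε μ hA]
    unfold U2e C7Dat2_R
    rfl
  have hG : ∀ k, fG2 (F7 n ε μ) k = fun Y => (((n : ℝ) + 1) * (n + 3)) * ∫ x, C7Dat2_R ε (n + 4 + 2)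
      (-(((n + 4 : ℕ) : ℝ) + 1) * 48) (-(((n + 4 : ℕ) : ℝ) + 3) * (24 * (n + 5) * ε ^ 2))
      (-(((n + 4 : ℕ) : ℝ) + 5) * (6 * (n + 5) * (n + 7) * ε ^ 4))
      (-(((n + 4 : ℕ) : ℝ) + 7) * ((n + 5) * (n + 7) * (n + 9) * ε ^ 6))
      (Y - x) * (Y - x) k ∂μ := by
    intro k
    funext Y
    unfold fG2
    rw [hU]
    exact C7Dat2_mgrad hε μ hA (n + 4) _ _ _ _ _ k Y
  unfold fQ
  simp only [hG]
  rw [C7Dat2_mdiv hε μ hA (n + 4 + 2)]
  unfold Qe c7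
  rw [← integral_const_mul, ← integral_const_mul]
  refine integral_congr_ae (Eventually.of_forall fun x => ?_)
  have hdr : (d : ℝ) = (n : ℝ) + 7 := by rw [hd]; push_cast; ring
  simp only [hdr, show n + 4 + 2 + 2 = n + 8 from rfl, show n + 4 + 2 = n + 6 from rfl,
    show n + 4 + 2 + 4 = n + 10 from rfl, show n + 4 + 2 + 6 = n + 12 from rfl,
    show n + 4 + 2 + 8 = n + 14 from rfl]
  push_cast
  ring

theorem W1_dec (k : Fin d) : DecN 1 (n + 2) (W1 n ε μ k) := by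
  have hp : (0 : ℤ) ≤ ((n + 2 : ℕ) : ℤ) := by positivity
  have h := mea_dec hp (C7Dat2_decZ 1 (n + 2) hε 2 ((n + 3) / 3 * ε ^ 2) 0 0 k) μ hA
  have he : W1 n ε μ k = fun Y => ∫ x, C7Dat2_R ε (n + 2) 2 ((n + 3) / 3 * ε ^ 2) 0 0 (Y - x) *
      (Y - x) k ∂μ := by
    funext Y
    unfold W1 w1 C7Dat2_R
    refine integral_congr_ae (Eventually.of_forall fun x => ?_)
    simp only [show n + 2 + 2 = n + 4 from rfl]
    ring
  rw [he]
  exact h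

theorem W1_div (Y : X d) : ∑ k, pd k (W1 n ε μ k) Y = DW1 n ε μ Y := by
  have he : ∀ k, W1 n ε μ k = fun Y => 1 * ∫ x, C7Dat2_R ε (n + 2) 2 ((n + 3) / 3 * ε ^ 2) 0 0 (Y - x) *
      (Y - x) k ∂μ := by
    intro k
    funext Y
    rw [one_mul]
    unfold W1 w1 C7Dat2_R
    refine integral_congr_ae (Eventually.of_forall fun x => ?_)
    simp only [show n + 2 + 2 = n + 4 from rfl]
    ring
  simp only [he]
  rw [C7Dat2_mdiv hε μ hA (n + 2), one_mul]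
  unfold DW1 dw1
  refine integral_congr_ae (Eventually.of_forall fun x => ?_)
  have hdr : (d : ℝ) = (n : ℝ) + 7 := by rw [hd]; push_cast; ring
  simp only [hdr, show n + 2 + 2 = n + 4 from rfl, show n + 2 + 4 = n + 6 from rfl]
  push_cast
  ring

theorem W2_dec (k : Fin d) : DecN 1 (n + 4) (W2 n ε μ k) := by
  have hp : (0 : ℤ) ≤ ((n + 4 : ℕ) : ℤ) := by positivity
  have h := mea_dec hp (C7Dat2_decZ 1 (n + 4) hε 1 (((n + 6) / 6 + b2 n) * ε ^ 2)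
    (((n + 5) / 24 + b2 n * ((n + 6) / 6)) * ε ^ 4) (b2 n * ((n + 5) / 24) * ε ^ 6) k) μ hA
  have he : W2 n ε μ k = fun Y => ∫ x, C7Dat2_R ε (n + 4) 1 (((n + 6) / 6 + b2 n) * ε ^ 2)
      (((n + 5) / 24 + b2 n * ((n + 6) / 6)) * ε ^ 4) (b2 n * ((n + 5) / 24) * ε ^ 6) (Y - x) *
      (Y - x) k ∂μ := by
    funext Y
    unfold W2 w2 C7Dat2_R
    refine integral_congr_ae (Eventually.of_forall fun x => ?_)
    simp only [show n + 4 + 2 = n + 6 from rfl, show n + 4 + 4 = n + 8 from rfl,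
      show n + 4 + 6 = n + 10 from rfl]
    ring
  rw [he]
  exact h

theorem W2_div (Y : X d) : ∑ k, pd k (W2 n ε μ k) Y = DW2 n ε μ Y := by
  have he : ∀ k, W2 n ε μ k = fun Y => 1 * ∫ x, C7Dat2_R ε (n + 4) 1 (((n + 6) / 6 + b2 n) * ε ^ 2)
      (((n + 5) / 24 + b2 n * ((n + 6) / 6)) * ε ^ 4) (b2 n * ((n + 5) / 24) * ε ^ 6) (Y - x) *
      (Y - x) k ∂μ := by
    intro k
    funext Y
    rw [one_mul]
    unfold W2 w2 C7Dat2_R
    refine integral_congr_ae (Eventually.of_forall fun x => ?_)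
    simp only [show n + 4 + 2 = n + 6 from rfl, show n + 4 + 4 = n + 8 from rfl,
      show n + 4 + 6 = n + 10 from rfl]
    ring
  simp only [he]
  rw [C7Dat2_mdiv hε μ hA (n + 4), one_mul]
  unfold DW2 dw2
  refine integral_congr_ae (Eventually.of_forall fun x => ?_)
  have hdr : (d : ℝ) = (n : ℝ) + 7 := by rw [hd]; push_cast; ring
  simp only [hdr, show n + 4 + 2 = n + 6 from rfl, show n + 4 + 4 = n + 8 from rfl,
    show n + 4 + 6 = n + 10 from rfl, show n + 4 + 8 = n + 12 from rfl]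
  push_cast
  ring
end

end Pool.Agent.H1.C7
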