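import Pool.Agent.H1.C7.Sym

/-!
Row Dv.  Integrals of divergences vanish: sum_k d_k (f3 w_k) and sum_k d_k (T^2 w_k) (int_pd, pd_mul), integrable by dec_int: exponents 2(n+2) + (n+2) resp. 2(n+1) + (n+4) = 3n+6 ≥ d+1.
-/

set_option autoImplicit false

open MeasureTheory Filter Topology Metric Set
open scoped RealInnerProductSpace ENNReal

namespace Pool.Agent.H1.C7

open Pool.Agent.RZ Pool.Agent.H1.LD

variable {d : ℕ}

private theorem C7Dv_f3 (F : Fin d → X d → ℝ) :
    f3 F = fun x => ∑ a, ∑ b, ∑ c, fR F a b c x * fR F a b c x := by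
  funext x
  simp only [f3, sq]

private theorem C7Dv_dec3 {n : ℕ} {F : Fin d → X d → ℝ} (h : Fld n F) :
    DecN 6 (((n : ℤ) + 2) + (n + 2)) (f3 F) := by
  rw [C7Dv_f3]
  exact dec_sum _ fun a => dec_sum _ fun b => dec_sum _ fun c =>
    dec_mul (decR h a b c) (decR h a b c)

private theorem C7Dv_pd3 {n : ℕ} {F : Fin d → X d → ℝ} (h : Fld n F) (k : Fin d) (x : X d) :
    pd k (f3 F) x = 2 * ∑ a, ∑ b, ∑ c, fR F a b c x * fX F a b c k x := by
  have dR : ∀ a b c, Differentiable ℝ (fR F a b c) := fun a b c => dec_diff (decR h a b c)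
  have d1 : ∀ a b c, Differentiable ℝ (fun x => fR F a b c x * fR F a b c x) :=
    fun a b c => (dR a b c).mul (dR a b c)
  have d2 : ∀ a b, Differentiable ℝ (fun x => ∑ c, fR F a b c x * fR F a b c x) :=
    fun a b => Differentiable.fun_sum fun c _ => d1 a b c
  have d3 : ∀ a, Differentiable ℝ (fun x => ∑ b, ∑ c, fR F a b c x * fR F a b c x) :=
    fun a => Differentiable.fun_sum fun b _ => d2 a b
  rw [C7Dv_f3, pd_sum Finset.univ d3, Finset.mul_sum]
  refine Finset.sum_congr rfl fun a _ => ?_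
  rw [pd_sum Finset.univ (d2 a), Finset.mul_sum]
  refine Finset.sum_congr rfl fun b _ => ?_
  rw [pd_sum Finset.univ (d1 a b), Finset.mul_sum]
  refine Finset.sum_congr rfl fun c _ => ?_
  rw [pd_mul (dR a b c) (dR a b c)]
  show fR F a b c x * fX F a b c k x + fX F a b c k x * fR F a b c x = _
  ring

/-- the divergence theorem for `g w`, `g = f3 F` or `(fT F) ^ 2` -/
private theorem C7Dv_main {n : ℕ} (hn : 1 ≤ n) (hd : d = n + 7) {g : X d → ℝ} {p q : ℤ}
    (hg : DecN 1 p g) {w : Fin d → X d → ℝ} (hw : ∀ k, DecN 1 q (w k))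
    (hpq : p + q = 3 * n + 6) :
    Integrable (fun x => ∑ k, (g x * pd k (w k) x + pd k g x * w k x)) ∧
    ∫ x, ∑ k, (g x * pd k (w k) x + pd k g x * w k x) = 0 := by
  have h1 : ∀ k, DecN (0 + 1) (p + q) (fun x => g x * w k x) := fun k => dec_mul hg (hw k)
  have hd1 : (d : ℤ) + 1 ≤ p + q := by
    rw [hpq, hd]
    push_cast
    have : (1 : ℤ) ≤ n := by exact_mod_cast hn
    linarith
  have h2 : ∀ k, (fun x => g x * pd k (w k) x + pd k g x * w k x) =
      pd k (fun x => g x * w k x) := fun k => by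
    funext x
    exact (pd_mul (dec_diff hg) (dec_diff (hw k)) k x).symm
  have h3 : ∀ k, Integrable (fun x => g x * pd k (w k) x + pd k g x * w k x) := fun k => by
    rw [h2 k]
    exact dec_int (dec_pd (h1 k) k) (by linarith)
  refine ⟨integrable_finsetSum _ fun k _ => h3 k, ?_⟩
  rw [integral_finsetSum _ fun k _ => h3 k]
  refine Finset.sum_eq_zero fun k _ => ?_
  have h4 : ∫ x, (g x * pd k (w k) x + pd k g x * w k x) = ∫ x, pd k (fun x => g x * w k x) x := by
    rw [← h2 k]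
  rw [h4]
  exact int_pd (h1 k) hd1 k

theorem div_one {n : ℕ} (hn : 1 ≤ n) (hd : d = n + 7) {F : Fin d → X d → ℝ} (h : Fld n F)
    {w : Fin d → X d → ℝ} (hw : ∀ k, DecN 1 (n + 2) (w k)) :
    Integrable (fun x => 2 * (∑ a, ∑ b, ∑ c, ∑ k, fR F a b c x * (fX F a b c k x * w k x)) +
      f3 F x * ∑ k, pd k (w k) x) ∧
    ∫ x, (2 * (∑ a, ∑ b, ∑ c, ∑ k, fR F a b c x * (fX F a b c k x * w k x)) +
      f3 F x * ∑ k, pd k (w k) x) = 0 := by
  have key : (fun x => 2 * (∑ a, ∑ b, ∑ c, ∑ k, fR F a b c x * (fX F a b c k x * w k x)) +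
      f3 F x * ∑ k, pd k (w k) x) =
      fun x => ∑ k, (f3 F x * pd k (w k) x + pd k (f3 F) x * w k x) := by
    funext x
    rw [Finset.sum_add_distrib, ← Finset.mul_sum, add_comm]
    congr 1
    have h1 : ∀ k, pd k (f3 F) x * w k x =
        2 * ∑ a, ∑ b, ∑ c, fR F a b c x * (fX F a b c k x * w k x) := fun k => by
      rw [C7Dv_pd3 h, mul_assoc, Finset.sum_mul]
      congr 1
      refine Finset.sum_congr rfl fun a _ => ?_
      rw [Finset.sum_mul]
      refine Finset.sum_congr rfl fun b _ => ?_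
      rw [Finset.sum_mul]
      refine Finset.sum_congr rfl fun c _ => ?_
      ring
    simp_rw [h1]
    rw [← Finset.mul_sum]
    congr 1
    exact (Finset.sum_comm.trans (Finset.sum_congr rfl fun a _ =>
      Finset.sum_comm.trans (Finset.sum_congr rfl fun b _ => Finset.sum_comm))).symm
  have h0 := C7Dv_main hn hd (p := ((n : ℤ) + 2) + (n + 2)) (q := (n : ℤ) + 2)
    (dec_mono (C7Dv_dec3 h) (by norm_num) le_rfl) hw (by ring)
  rw [key]
  exact ⟨h0.1, h0.2⟩

theorem div_two {n : ℕ} (hn : 1 ≤ n) (hd : d = n + 7) {F : Fin d → X d → ℝ} (h : Fld n F)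
    {w : Fin d → X d → ℝ} (hw : ∀ k, DecN 1 (n + 4) (w k)) :
    Integrable (fun x => 2 * (fT F x * ∑ k, fV F k x * w k x) +
      fT F x ^ 2 * ∑ k, pd k (w k) x) ∧
    ∫ x, (2 * (fT F x * ∑ k, fV F k x * w k x) + fT F x ^ 2 * ∑ k, pd k (w k) x) = 0 := by
  have dT : Differentiable ℝ (fT F) := dec_diff (decT h)
  have hg : DecN 7 (((n : ℤ) + 1) + (n + 1)) (fun x => fT F x * fT F x) :=
    dec_mul (decT h) (decT h)
  have key : (fun x => 2 * (fT F x * ∑ k, fV F k x * w k x) +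
      fT F x ^ 2 * ∑ k, pd k (w k) x) =
      fun x => ∑ k, ((fun x => fT F x * fT F x) x * pd k (w k) x +
        pd k (fun x => fT F x * fT F x) x * w k x) := by
    funext x
    rw [Finset.sum_add_distrib, ← Finset.mul_sum, add_comm]
    congr 1
    · rw [sq]
    · rw [Finset.mul_sum, Finset.mul_sum]
      refine Finset.sum_congr rfl fun k _ => ?_
      rw [pd_mul dT dT]
      show _ = (fT F x * fV F k x + fV F k x * fT F x) * w k x
      ring
  have h0 := C7Dv_main hn hd (p := ((n : ℤ) + 1) + (n + 1)) (q := (n : ℤ) + 4)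
    (dec_mono hg (by norm_num) le_rfl) hw (by ring)
  rw [key]
  exact ⟨h0.1, h0.2⟩

end Pool.Agent.H1.C7
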