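import Pool.Agent.H1.C7.D0

/-!
Row PA: pointwise inequality, part 1 (template LD/CoJ.lean).  R, Xx arbitrary arrays of reals.  q3 = kr(n+2), q5 = kr(n+4), q7 = kr(n+6), Z = Y - x.
 (Te/6) δ_kl - S_kl = (n+1) ∫ q3 (Z_k Z_l + (ε^2/6) δ_kl), S_kl = ∫ [kr n δ_kl - (n+1) q3 Z_k Z_l], kr n = q3 (|Z|^2 + ε^2).
 So (Te/6) sum X^2 - sum S_kl X_abck X_abcl ≥ (n+1) ∫ q3 sum_abc (sum_k Z_k X_abck)^2 ≥ (n+1) ∫ q3 sum_abc [-2 α R_abc Z_k X_abck - α^2 R_abc^2], α = 2 + b ε^2 kr 1, b = (n+3)/3,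
 q3 α = w1 (since q3 kr 1 = q5), q3 α^2 = 4 q3 + 4 b ε^2 q5 + b^2 ε^4 q7, and dw1 - q3 α^2 ≥ 4 q3 + (4/3)(n+3) ε^2 q5 + (1/6)(n+3)(n+5) ε^4 q7 = -(kernel of Ue)/(6(n+1)).
-/

set_option autoImplicit false

open MeasureTheory Filter Topology Metric Set
open scoped RealInnerProductSpace ENNReal

namespace Pool.Agent.H1.C7

open Pool.Agent.RZ Pool.Agent.H1.LD

variable {d : ℕ}

/-- bounded continuous functions of the shifted variable are integrable -/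
private theorem C7PA_int {μ : Measure (X d)} [IsFiniteMeasure μ] {f : X d → ℝ} (hf : Continuous f)
    {C : ℝ} (hC : ∀ x, |f x| ≤ C) : Integrable f μ :=
  Integrable.of_bound hf.aestronglyMeasurable C (Eventually.of_forall fun x => by
    rw [Real.norm_eq_abs]; exact hC x)

private theorem C7PA_kr {n : ℕ} {ε : ℝ} (hε : 0 < ε) (z : X d) :
    kr n ε z = kr (n + 2) ε z * (‖z‖ ^ 2 + ε ^ 2) := by
  have h : 0 < ‖z‖ ^ 2 + ε ^ 2 := by positivity
  have hs : Real.sqrt (‖z‖ ^ 2 + ε ^ 2) ^ 2 = ‖z‖ ^ 2 + ε ^ 2 := Real.sq_sqrt h.le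
  have hp : 0 < Real.sqrt (‖z‖ ^ 2 + ε ^ 2) := Real.sqrt_pos.2 h
  unfold kr
  set ρ := Real.sqrt (‖z‖ ^ 2 + ε ^ 2) with hρ
  rw [← hs, show n + 2 + 1 = (n + 1) + 2 from rfl, pow_add ρ⁻¹ (n + 1) 2, mul_assoc, ← mul_pow,
    inv_mul_cancel₀ hp.ne', one_pow, mul_one]

private theorem C7PA_mul (m : ℕ) (ε : ℝ) (z : X d) :
    kr (m + 2) ε z = kr m ε z * kr 1 ε z := by
  unfold kr
  rw [← pow_add]

private theorem C7PA_coord (z : X d) (i : Fin d) : |z i| ≤ ‖z‖ := by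
  have := PiLp.norm_apply_le z i
  rwa [Real.norm_eq_abs] at this

private theorem C7PA_bd {n : ℕ} {ε : ℝ} (hε : 0 < ε) (z : X d) :
    kr (n + 2) ε z * ‖z‖ ^ 2 ≤ kr n ε z := by
  rw [C7PA_kr (n := n) hε z]
  have := kr_nonneg (n + 2) ε z
  have h2 : 0 ≤ ε ^ 2 := by positivity
  nlinarith [mul_nonneg this h2]

private theorem C7PA_intZZ {n : ℕ} {ε : ℝ} (hε : 0 < ε) (μ : Measure (X d)) [IsFiniteMeasure μ]
    (Y : X d) (i j : Fin d) :
    Integrable (fun x => kr (n + 2) ε (Y - x) * ((Y - x) i * (Y - x) j)) μ := by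
  have hc : Continuous fun x : X d => Y - x := continuous_const.sub continuous_id
  refine C7PA_int (C := ε⁻¹ ^ (n + 1)) ?_ (fun x => ?_)
  · have h1 : Continuous fun x : X d => (Y - x) i := (EuclideanSpace.proj i).continuous.comp hc
    have h2 : Continuous fun x : X d => (Y - x) j := (EuclideanSpace.proj j).continuous.comp hc
    exact ((kr_continuous (n + 2) hε).comp hc).mul (h1.mul h2)
  · rw [abs_mul, abs_of_nonneg (kr_nonneg _ _ _), abs_mul]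
    calc kr (n + 2) ε (Y - x) * (|(Y - x) i| * |(Y - x) j|)
        ≤ kr (n + 2) ε (Y - x) * (‖Y - x‖ * ‖Y - x‖) := by
          have := kr_nonneg (n + 2) ε (Y - x)
          have h1 := C7PA_coord (Y - x) i
          have h2 := C7PA_coord (Y - x) j
          gcongr
      _ = kr (n + 2) ε (Y - x) * ‖Y - x‖ ^ 2 := by ring
      _ ≤ kr n ε (Y - x) := C7PA_bd hε _
      _ ≤ ε⁻¹ ^ (n + 1) := kr_le_eps n hε _

private theorem C7PA_intZ {n : ℕ} {ε : ℝ} (hε : 0 < ε) (μ : Measure (X d)) [IsFiniteMeasure μ]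
    (Y : X d) (i : Fin d) :
    Integrable (fun x => kr (n + 2) ε (Y - x) * (Y - x) i) μ := by
  have hc : Continuous fun x : X d => Y - x := continuous_const.sub continuous_id
  refine C7PA_int (C := ε⁻¹ ^ (n + 3) + ε⁻¹ ^ (n + 1)) ?_ (fun x => ?_)
  · have h1 : Continuous fun x : X d => (Y - x) i := (EuclideanSpace.proj i).continuous.comp hc
    exact ((kr_continuous (n + 2) hε).comp hc).mul h1
  · rw [abs_mul, abs_of_nonneg (kr_nonneg _ _ _)]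
    calc kr (n + 2) ε (Y - x) * |(Y - x) i|
        ≤ kr (n + 2) ε (Y - x) * (1 + ‖Y - x‖ ^ 2) := by
          have := kr_nonneg (n + 2) ε (Y - x)
          have h1 := C7PA_coord (Y - x) i
          have h2 : |(Y - x) i| ≤ 1 + ‖Y - x‖ ^ 2 := by
            nlinarith [sq_nonneg (‖Y - x‖ - 1), norm_nonneg (Y - x)]
          gcongr
      _ = kr (n + 2) ε (Y - x) + kr (n + 2) ε (Y - x) * ‖Y - x‖ ^ 2 := by ring
      _ ≤ ε⁻¹ ^ (n + 3) + ε⁻¹ ^ (n + 1) :=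
          add_le_add (kr_le_eps (n + 2) hε _) ((C7PA_bd hε _).trans (kr_le_eps n hε _))

private theorem C7PA_intK {n : ℕ} {ε : ℝ} (hε : 0 < ε) (μ : Measure (X d)) [IsFiniteMeasure μ]
    (Y : X d) : Integrable (fun x => kr n ε (Y - x)) μ := by
  have hc : Continuous fun x : X d => Y - x := continuous_const.sub continuous_id
  refine C7PA_int (C := ε⁻¹ ^ (n + 1)) ((kr_continuous n hε).comp hc) (fun x => ?_)
  rw [abs_of_nonneg (kr_nonneg _ _ _)]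
  exact kr_le_eps n hε _

/-- the pointwise inequality between the kernels, for one row -/
private theorem C7PA_pt {n : ℕ} {ε : ℝ} (z : X d) (r : ℝ) (v : Fin d → ℝ) :
    0 ≤ (-((n : ℝ) + 1) / 6 * r ^ 2) * (24 * kr (n + 2) ε z + 8 * (n + 3) * ε ^ 2 * kr (n + 4) ε z +
        (n + 3) * (n + 5) * ε ^ 4 * kr (n + 6) ε z) +
      (1 / 6 * ∑ k, v k ^ 2) * (6 * kr n ε z + (n + 1) * ε ^ 2 * kr (n + 2) ε z) -
      (∑ k, ∑ l, (kr n ε z * (if k = l then 1 else 0) -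
          (n + 1) * kr (n + 2) ε z * (z k * z l)) * (v k * v l)) +
      (∑ k, (2 * ((n : ℝ) + 1) * r * v k) * (w1 n ε z * z k)) +
      (((n : ℝ) + 1) * r ^ 2) * dw1 n ε z := by
  have hs1 : (∑ k, ∑ l, (kr n ε z * (if k = l then 1 else 0) -
          (n + 1) * kr (n + 2) ε z * (z k * z l)) * (v k * v l)) =
      kr n ε z * (∑ k, v k ^ 2) - (n + 1) * kr (n + 2) ε z * (∑ k, z k * v k) ^ 2 := by
    rw [sq (∑ k, z k * v k), Finset.sum_mul_sum, Finset.mul_sum, Finset.mul_sum,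
      ← Finset.sum_sub_distrib]
    refine Finset.sum_congr rfl (fun k _ => ?_)
    have h1 : kr n ε z * v k ^ 2 = ∑ l, kr n ε z * (if k = l then 1 else 0) * (v k * v l) := by
      simp only [mul_ite, mul_one, mul_zero, ite_mul, zero_mul, Finset.sum_ite_eq,
        Finset.mem_univ, if_true]
      ring
    rw [h1, Finset.mul_sum, ← Finset.sum_sub_distrib]
    refine Finset.sum_congr rfl (fun l _ => ?_)
    ring
  have hs2 : (∑ k, (2 * ((n : ℝ) + 1) * r * v k) * (w1 n ε z * z k)) =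
      2 * ((n : ℝ) + 1) * r * w1 n ε z * (∑ k, z k * v k) := by
    rw [Finset.mul_sum]
    refine Finset.sum_congr rfl (fun k _ => ?_)
    ring
  rw [hs1, hs2]
  have hV : 0 ≤ ∑ k, v k ^ 2 := Finset.sum_nonneg (fun k _ => sq_nonneg _)
  set V : ℝ := ∑ k, v k ^ 2 with hVd
  set s : ℝ := ∑ k, z k * v k with hsd
  have h5 : kr (n + 4) ε z = kr (n + 2) ε z * kr 1 ε z := C7PA_mul (n + 2) ε z
  have h7 : kr (n + 6) ε z = kr (n + 2) ε z * kr 1 ε z * kr 1 ε z := by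
    rw [← h5]
    exact C7PA_mul (n + 4) ε z
  have q3 : 0 ≤ kr (n + 2) ε z := kr_nonneg _ _ _
  have q7 : 0 ≤ kr (n + 6) ε z := kr_nonneg _ _ _
  have key : (-((n : ℝ) + 1) / 6 * r ^ 2) * (24 * kr (n + 2) ε z +
        8 * (n + 3) * ε ^ 2 * kr (n + 4) ε z + (n + 3) * (n + 5) * ε ^ 4 * kr (n + 6) ε z) +
      (1 / 6 * V) * (6 * kr n ε z + (n + 1) * ε ^ 2 * kr (n + 2) ε z) -
      (kr n ε z * V - (n + 1) * kr (n + 2) ε z * s ^ 2) +
      2 * ((n : ℝ) + 1) * r * w1 n ε z * s +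
      (((n : ℝ) + 1) * r ^ 2) * dw1 n ε z =
      ((n : ℝ) + 1) * (kr (n + 2) ε z * ((2 + (n + 3) / 3 * ε ^ 2 * kr 1 ε z) * r + s) ^ 2 +
        ε ^ 2 / 6 * (kr (n + 2) ε z * V) +
        (n + 3) * (n + 9) / 18 * ε ^ 4 * (kr (n + 6) ε z * r ^ 2)) := by
    unfold w1 dw1
    rw [h7, h5]
    ring
  rw [key]
  positivity

private theorem C7PA_split {μ : Measure (X d)} {f1 f2 f3 f4 f5 : X d → ℝ} (a b c : ℝ)
    (h1 : Integrable f1 μ) (h2 : Integrable f2 μ) (h3 : Integrable f3 μ) (h4 : Integrable f4 μ)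
    (h5 : Integrable f5 μ) :
    ∫ x, (a * f1 x + b * f2 x - f3 x + f4 x + c * f5 x) ∂μ =
      a * (∫ x, f1 x ∂μ) + b * (∫ x, f2 x ∂μ) - (∫ x, f3 x ∂μ) + (∫ x, f4 x ∂μ) +
        c * (∫ x, f5 x ∂μ) := by
  have j1 : Integrable (fun x => a * f1 x) μ := h1.const_mul a
  have j2 : Integrable (fun x => b * f2 x) μ := h2.const_mul b
  have j5 : Integrable (fun x => c * f5 x) μ := h5.const_mul c
  have k1 : Integrable (fun x => a * f1 x + b * f2 x) μ := j1.add j2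
  have k2 : Integrable (fun x => a * f1 x + b * f2 x - f3 x) μ := k1.sub h3
  have k3 : Integrable (fun x => a * f1 x + b * f2 x - f3 x + f4 x) μ := k2.add h4
  rw [integral_add k3 j5, integral_add k2 h4, integral_sub k1 h3, integral_add j1 j2,
    integral_const_mul, integral_const_mul, integral_const_mul]

private theorem C7PA_row {n : ℕ} {ε : ℝ} (hε : 0 < ε) (μ : Measure (X d))
    [IsFiniteMeasure μ] (r : ℝ) (v : Fin d → ℝ) (Y : X d) :
    0 ≤ (-((n : ℝ) + 1) / 6 * r ^ 2) * (∫ x, (24 * kr (n + 2) ε (Y - x) +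
        8 * (n + 3) * ε ^ 2 * kr (n + 4) ε (Y - x) +
        (n + 3) * (n + 5) * ε ^ 4 * kr (n + 6) ε (Y - x)) ∂μ) +
      (1 / 6 * ∑ k, v k ^ 2) * (∫ x, (6 * kr n ε (Y - x) +
        (n + 1) * ε ^ 2 * kr (n + 2) ε (Y - x)) ∂μ) -
      (∑ k, ∑ l, (∫ x, (kr n ε (Y - x) * (if k = l then 1 else 0) -
          (n + 1) * kr (n + 2) ε (Y - x) * ((Y - x) k * (Y - x) l)) ∂μ) * (v k * v l)) +
      (∑ k, (2 * ((n : ℝ) + 1) * r * v k) * (∫ x, w1 n ε (Y - x) * (Y - x) k ∂μ)) +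
      (((n : ℝ) + 1) * r ^ 2) * (∫ x, dw1 n ε (Y - x) ∂μ) := by
  have i0 := C7PA_intK (n := n) hε μ Y
  have i2 := C7PA_intK (n := n + 2) hε μ Y
  have i4 := C7PA_intK (n := n + 4) hε μ Y
  have i6 := C7PA_intK (n := n + 6) hε μ Y
  have iu : Integrable (fun x => (24 * kr (n + 2) ε (Y - x) +
        8 * (n + 3) * ε ^ 2 * kr (n + 4) ε (Y - x) +
        (n + 3) * (n + 5) * ε ^ 4 * kr (n + 6) ε (Y - x))) μ :=
    ((i2.const_mul _).add (i4.const_mul _)).add (i6.const_mul _)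
  have it : Integrable (fun x => (6 * kr n ε (Y - x) +
        (n + 1) * ε ^ 2 * kr (n + 2) ε (Y - x))) μ :=
    (i0.const_mul _).add (i2.const_mul _)
  have is : ∀ k l : Fin d, Integrable (fun x => (kr n ε (Y - x) * (if k = l then 1 else 0) -
          (n + 1) * kr (n + 2) ε (Y - x) * ((Y - x) k * (Y - x) l))) μ := by
    intro k l
    refine (i0.mul_const _).sub ?_
    have h1 : (fun x => ((n : ℝ) + 1) * kr (n + 2) ε (Y - x) * ((Y - x) k * (Y - x) l)) =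
        fun x => ((n : ℝ) + 1) * (kr (n + 2) ε (Y - x) * ((Y - x) k * (Y - x) l)) := by
      funext x
      ring
    rw [h1]
    exact (C7PA_intZZ hε μ Y k l).const_mul _
  have iw : ∀ k : Fin d, Integrable (fun x => w1 n ε (Y - x) * (Y - x) k) μ := by
    intro k
    have h1 : (fun x => w1 n ε (Y - x) * (Y - x) k) =
        fun x => 2 * (kr (n + 2) ε (Y - x) * (Y - x) k) +
          ((n + 3) / 3 * ε ^ 2) * (kr (n + 2 + 2) ε (Y - x) * (Y - x) k) := by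
      funext x
      unfold w1
      ring
    rw [h1]
    exact ((C7PA_intZ hε μ Y k).const_mul _).add ((C7PA_intZ hε μ Y k).const_mul _)
  have id : Integrable (fun x => dw1 n ε (Y - x)) μ := by
    have h1 : (fun x => dw1 n ε (Y - x)) =
        fun x => 8 * kr (n + 2) ε (Y - x) +
          (2 * (n + 3) * ε ^ 2 + (n + 3) / 3 * ε ^ 2 * 2) * kr (n + 4) ε (Y - x) +
          ((n + 3) / 3 * ε ^ 2 * ((n + 5) * ε ^ 2)) * kr (n + 6) ε (Y - x) := by
      funext x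
      unfold dw1
      ring
    rw [h1]
    exact ((i2.const_mul _).add (i4.const_mul _)).add (i6.const_mul _)
  have is2 : ∀ k, Integrable (fun x => ∑ l, (kr n ε (Y - x) * (if k = l then 1 else 0) -
          (n + 1) * kr (n + 2) ε (Y - x) * ((Y - x) k * (Y - x) l)) * (v k * v l)) μ :=
    fun k => integrable_finsetSum _ (fun l _ => (is k l).mul_const _)
  have is3 : Integrable (fun x => ∑ k, ∑ l, (kr n ε (Y - x) * (if k = l then 1 else 0) -
          (n + 1) * kr (n + 2) ε (Y - x) * ((Y - x) k * (Y - x) l)) * (v k * v l)) μ :=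
    integrable_finsetSum _ (fun k _ => is2 k)
  have iw2 : Integrable (fun x => ∑ k, (2 * ((n : ℝ) + 1) * r * v k) *
      (w1 n ε (Y - x) * (Y - x) k)) μ :=
    integrable_finsetSum _ (fun k _ => (iw k).const_mul _)
  have hint : 0 ≤ ∫ x, ((-((n : ℝ) + 1) / 6 * r ^ 2) * (24 * kr (n + 2) ε (Y - x) +
        8 * (n + 3) * ε ^ 2 * kr (n + 4) ε (Y - x) +
        (n + 3) * (n + 5) * ε ^ 4 * kr (n + 6) ε (Y - x)) +
      (1 / 6 * ∑ k, v k ^ 2) * (6 * kr n ε (Y - x) + (n + 1) * ε ^ 2 * kr (n + 2) ε (Y - x)) -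
      (∑ k, ∑ l, (kr n ε (Y - x) * (if k = l then 1 else 0) -
          (n + 1) * kr (n + 2) ε (Y - x) * ((Y - x) k * (Y - x) l)) * (v k * v l)) +
      (∑ k, (2 * ((n : ℝ) + 1) * r * v k) * (w1 n ε (Y - x) * (Y - x) k)) +
      (((n : ℝ) + 1) * r ^ 2) * dw1 n ε (Y - x)) ∂μ :=
    integral_nonneg (fun x => C7PA_pt (n := n) (ε := ε) (Y - x) r v)
  rw [C7PA_split (-((n : ℝ) + 1) / 6 * r ^ 2) (1 / 6 * ∑ k, v k ^ 2) (((n : ℝ) + 1) * r ^ 2)
    iu it is3 iw2 id, integral_finsetSum _ (fun k _ => is2 k),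
    integral_finsetSum _ (fun k _ => (iw k).const_mul _)] at hint
  have e1 : ∀ k, ∫ x, ∑ l, (kr n ε (Y - x) * (if k = l then 1 else 0) -
          (n + 1) * kr (n + 2) ε (Y - x) * ((Y - x) k * (Y - x) l)) * (v k * v l) ∂μ =
      ∑ l, (∫ x, (kr n ε (Y - x) * (if k = l then 1 else 0) -
          (n + 1) * kr (n + 2) ε (Y - x) * ((Y - x) k * (Y - x) l)) ∂μ) * (v k * v l) := by
    intro k
    rw [integral_finsetSum _ (fun l _ => (is k l).mul_const _)]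
    refine Finset.sum_congr rfl (fun l _ => ?_)
    rw [integral_mul_const]
  simp only [e1, integral_const_mul] at hint
  exact hint

theorem pos_one {n : ℕ} (hd : d = n + 7) {ε : ℝ} (hε : 0 < ε) (μ : Measure (X d))
    [IsFiniteMeasure μ] (R : Fin d → Fin d → Fin d → ℝ) (Xx : Fin d → Fin d → Fin d → Fin d → ℝ)
    (Y : X d) :
    -((n : ℝ) + 1) * (2 * (∑ a, ∑ b, ∑ c, ∑ k, R a b c * (Xx a b c k * W1 n ε μ k Y)) +
        (∑ a, ∑ b, ∑ c, R a b c ^ 2) * DW1 n ε μ Y) ≤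
      (1 / 6) * (Ue n ε μ Y * ∑ a, ∑ b, ∑ c, R a b c ^ 2) +
      (1 / 6) * (Te n ε μ Y * ∑ a, ∑ b, ∑ c, ∑ k, Xx a b c k ^ 2) -
      ∑ a, ∑ b, ∑ c, ∑ k, ∑ l,
        (∫ x, (kr n ε (Y - x) * (if k = l then 1 else 0) -
          (n + 1) * kr (n + 2) ε (Y - x) * ((Y - x) k * (Y - x) l)) ∂μ) *
          (Xx a b c k * Xx a b c l) := by
  have hsum : 0 ≤ ∑ a, ∑ b, ∑ c, ((-((n : ℝ) + 1) / 6 * R a b c ^ 2) *
      (∫ x, (24 * kr (n + 2) ε (Y - x) +
        8 * (n + 3) * ε ^ 2 * kr (n + 4) ε (Y - x) +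
        (n + 3) * (n + 5) * ε ^ 4 * kr (n + 6) ε (Y - x)) ∂μ) +
      (1 / 6 * ∑ k, Xx a b c k ^ 2) * (∫ x, (6 * kr n ε (Y - x) +
        (n + 1) * ε ^ 2 * kr (n + 2) ε (Y - x)) ∂μ) -
      (∑ k, ∑ l, (∫ x, (kr n ε (Y - x) * (if k = l then 1 else 0) -
          (n + 1) * kr (n + 2) ε (Y - x) * ((Y - x) k * (Y - x) l)) ∂μ) *
            (Xx a b c k * Xx a b c l)) +
      (∑ k, (2 * ((n : ℝ) + 1) * R a b c * Xx a b c k) *
        (∫ x, w1 n ε (Y - x) * (Y - x) k ∂μ)) +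
      (((n : ℝ) + 1) * R a b c ^ 2) * (∫ x, dw1 n ε (Y - x) ∂μ)) :=
    Finset.sum_nonneg (fun a _ => Finset.sum_nonneg (fun b _ => Finset.sum_nonneg (fun c _ =>
      C7PA_row hε μ (R a b c) (Xx a b c) Y)))
  have hid : ∑ a, ∑ b, ∑ c, ((-((n : ℝ) + 1) / 6 * R a b c ^ 2) *
      (∫ x, (24 * kr (n + 2) ε (Y - x) +
        8 * (n + 3) * ε ^ 2 * kr (n + 4) ε (Y - x) +
        (n + 3) * (n + 5) * ε ^ 4 * kr (n + 6) ε (Y - x)) ∂μ) +
      (1 / 6 * ∑ k, Xx a b c k ^ 2) * (∫ x, (6 * kr n ε (Y - x) +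
        (n + 1) * ε ^ 2 * kr (n + 2) ε (Y - x)) ∂μ) -
      (∑ k, ∑ l, (∫ x, (kr n ε (Y - x) * (if k = l then 1 else 0) -
          (n + 1) * kr (n + 2) ε (Y - x) * ((Y - x) k * (Y - x) l)) ∂μ) *
            (Xx a b c k * Xx a b c l)) +
      (∑ k, (2 * ((n : ℝ) + 1) * R a b c * Xx a b c k) *
        (∫ x, w1 n ε (Y - x) * (Y - x) k ∂μ)) +
      (((n : ℝ) + 1) * R a b c ^ 2) * (∫ x, dw1 n ε (Y - x) ∂μ)) =
      ((1 / 6) * (Ue n ε μ Y * ∑ a, ∑ b, ∑ c, R a b c ^ 2) +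
      (1 / 6) * (Te n ε μ Y * ∑ a, ∑ b, ∑ c, ∑ k, Xx a b c k ^ 2) -
      ∑ a, ∑ b, ∑ c, ∑ k, ∑ l,
        (∫ x, (kr n ε (Y - x) * (if k = l then 1 else 0) -
          (n + 1) * kr (n + 2) ε (Y - x) * ((Y - x) k * (Y - x) l)) ∂μ) *
          (Xx a b c k * Xx a b c l)) +
      ((n : ℝ) + 1) * (2 * (∑ a, ∑ b, ∑ c, ∑ k, R a b c * (Xx a b c k * W1 n ε μ k Y)) +
        (∑ a, ∑ b, ∑ c, R a b c ^ 2) * DW1 n ε μ Y) := by
    unfold Ue Te W1 DW1
    simp only [Finset.sum_add_distrib, Finset.sum_sub_distrib, ← Finset.sum_mul,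
      ← Finset.mul_sum]
    have h1 : ∀ a b c, ∑ k, (2 * ((n : ℝ) + 1) * R a b c * Xx a b c k) *
        (∫ x, w1 n ε (Y - x) * (Y - x) k ∂μ) = (2 * ((n : ℝ) + 1)) *
          (R a b c * ∑ k, Xx a b c k * ∫ x, w1 n ε (Y - x) * (Y - x) k ∂μ) := by
      intro a b c
      rw [Finset.mul_sum, Finset.mul_sum]
      refine Finset.sum_congr rfl (fun k _ => ?_)
      ring
    simp only [h1, ← Finset.mul_sum]
    ring
  rw [hid] at hsum
  linarith

end Pool.Agent.H1.C7
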