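import Pool.Agent.H1.C7.D0

/-!
Row PB: pointwise inequality, part 2 (template LD/CoJ.lean).  t real, v array of reals.  q5 = kr(n+4), q7, q9, q11, q13 = kr(n+12), Z = Y - x, ζ = sum_k Z_k v_k.
 sum v_k v_l He_kl = -(n+1)|v|^2 ∫ (6 q3 + (n+3) ε^2 q5) + (n+1)(n+3) ∫ (6 q5 + (n+5) ε^2 q7) ζ^2,  -(1/24) Ue |v|^2 = (n+1)|v|^2 ∫ [q3 + ((n+3)/3) ε^2 q5 + ((n+3)(n+5)/24) ε^4 q7],
 U2e/48 = (n+1)(n+3) ∫ [q5 + (1/2)(n+5) ε^2 q7 + (1/8)(n+5)(n+7) ε^4 q9 + (1/48)(n+5)(n+7)(n+9) ε^6 q11].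
 So left side of the claim = (n+1)(n+3) { ∫ [q5 + ((n+5)/6) ε^2 q7] ζ^2 + |v|^2 ∫ [(1/6) ε^2 q5 + ((n+5)/24) ε^4 q7] - t^2 ∫ [...] } ≥ (n+1)(n+3) ∫ { vv ζ^2 - t^2 [...] },
 vv = q5 + ((n+6)/6) ε^2 q7 + ((n+5)/24) ε^4 q9, using |v|^2 ≥ ζ^2 / q (q = |Z|^2 + ε^2, q5/q = q7).
 α = 1 + b ε^2 kr 1, b = b2 n: vv ζ^2 = vv (α t + ζ)^2 - 2 α vv t ζ - α^2 vv t^2, α vv = w2 (kernel), and
 dw2 - α^2 vv - [...] ≥ 0: coefficients of ε^(2j) q_(5+2j): 0, 0, (n^2+13n+48)/24 + b(n+9)/3 - b^2, (2n^3+30n^2+207n+486)/864, b (n+5)(n+11-b)/24.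
 Finally vv ≥ q5.
-/

set_option autoImplicit false

open MeasureTheory Filter Topology Metric Set
open scoped RealInnerProductSpace ENNReal

namespace Pool.Agent.H1.C7

open Pool.Agent.RZ Pool.Agent.H1.LD

variable {d : ℕ}

/-- bounded continuous functions are integrable -/
private theorem C7PB_int {μ : Measure (X d)} [IsFiniteMeasure μ] {f : X d → ℝ}
    (hf : Continuous f) {C : ℝ} (hC : ∀ x, |f x| ≤ C) : Integrable f μ :=
  Integrable.of_bound hf.aestronglyMeasurable C (Eventually.of_forall fun x => by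
    rw [Real.norm_eq_abs]; exact hC x)

private theorem C7PB_kr (m : ℕ) {ε : ℝ} (hε : 0 < ε) (z : X d) :
    kr m ε z = kr (m + 2) ε z * (‖z‖ ^ 2 + ε ^ 2) := by
  have h : 0 < ‖z‖ ^ 2 + ε ^ 2 := by positivity
  have hs : Real.sqrt (‖z‖ ^ 2 + ε ^ 2) ^ 2 = ‖z‖ ^ 2 + ε ^ 2 := Real.sq_sqrt h.le
  have hp : 0 < Real.sqrt (‖z‖ ^ 2 + ε ^ 2) := Real.sqrt_pos.2 h
  unfold kr
  set ρ := Real.sqrt (‖z‖ ^ 2 + ε ^ 2) with hρ
  rw [← hs, show m + 2 + 1 = (m + 1) + 2 from rfl, pow_add ρ⁻¹ (m + 1) 2, mul_assoc, ← mul_pow,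
    inv_mul_cancel₀ hp.ne', one_pow, mul_one]

private theorem C7PB_kr1 {ε : ℝ} (hε : 0 < ε) (z : X d) :
    kr 1 ε z = (‖z‖ ^ 2 + ε ^ 2)⁻¹ := by
  have h : 0 < ‖z‖ ^ 2 + ε ^ 2 := by positivity
  unfold kr
  rw [inv_pow, show 1 + 1 = 2 from rfl, Real.sq_sqrt h.le]

private theorem C7PB_coord (z : X d) (i : Fin d) : |z i| ≤ ‖z‖ := by
  have := PiLp.norm_apply_le z i
  rwa [Real.norm_eq_abs] at this

private theorem C7PB_bd (m : ℕ) {ε : ℝ} (hε : 0 < ε) (z : X d) :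
    kr (m + 2) ε z * ‖z‖ ^ 2 ≤ kr m ε z := by
  rw [C7PB_kr m hε z]
  have := kr_nonneg (m + 2) ε z
  have h2 : 0 ≤ ε ^ 2 := by positivity
  nlinarith [mul_nonneg this h2]

private theorem C7PB_i0 (m : ℕ) {ε : ℝ} (hε : 0 < ε) (μ : Measure (X d)) [IsFiniteMeasure μ]
    (Y : X d) : Integrable (fun x => kr m ε (Y - x)) μ := by
  have hc : Continuous fun x : X d => Y - x := continuous_const.sub continuous_id
  refine C7PB_int (C := ε⁻¹ ^ (m + 1)) ((kr_continuous m hε).comp hc) (fun x => ?_)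
  rw [abs_of_nonneg (kr_nonneg _ _ _)]
  exact kr_le_eps m hε _

private theorem C7PB_i2 (m : ℕ) {ε : ℝ} (hε : 0 < ε) (μ : Measure (X d)) [IsFiniteMeasure μ]
    (Y : X d) (i j : Fin d) :
    Integrable (fun x => kr (m + 2) ε (Y - x) * ((Y - x) i * (Y - x) j)) μ := by
  have hc : Continuous fun x : X d => Y - x := continuous_const.sub continuous_id
  refine C7PB_int (C := ε⁻¹ ^ (m + 1)) ?_ (fun x => ?_)
  · have h1 : Continuous fun x : X d => (Y - x) i := (EuclideanSpace.proj i).continuous.comp hc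
    have h2 : Continuous fun x : X d => (Y - x) j := (EuclideanSpace.proj j).continuous.comp hc
    exact ((kr_continuous (m + 2) hε).comp hc).mul (h1.mul h2)
  · rw [abs_mul, abs_of_nonneg (kr_nonneg _ _ _), abs_mul]
    calc kr (m + 2) ε (Y - x) * (|(Y - x) i| * |(Y - x) j|)
        ≤ kr (m + 2) ε (Y - x) * (‖Y - x‖ * ‖Y - x‖) := by
          have := kr_nonneg (m + 2) ε (Y - x)
          have h1 := C7PB_coord (Y - x) i
          have h2 := C7PB_coord (Y - x) j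
          gcongr
      _ = kr (m + 2) ε (Y - x) * ‖Y - x‖ ^ 2 := by ring
      _ ≤ kr m ε (Y - x) := C7PB_bd m hε _
      _ ≤ ε⁻¹ ^ (m + 1) := kr_le_eps m hε _

private theorem C7PB_i1 (m : ℕ) {ε : ℝ} (hε : 0 < ε) (μ : Measure (X d)) [IsFiniteMeasure μ]
    (Y : X d) (i : Fin d) :
    Integrable (fun x => kr (m + 2) ε (Y - x) * (Y - x) i) μ := by
  have hc : Continuous fun x : X d => Y - x := continuous_const.sub continuous_id
  refine C7PB_int (C := ε⁻¹ ^ (m + 2 + 1) + ε⁻¹ ^ (m + 1)) ?_ (fun x => ?_)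
  · have h1 : Continuous fun x : X d => (Y - x) i := (EuclideanSpace.proj i).continuous.comp hc
    exact ((kr_continuous (m + 2) hε).comp hc).mul h1
  · rw [abs_mul, abs_of_nonneg (kr_nonneg _ _ _)]
    have h0 := kr_nonneg (m + 2) ε (Y - x)
    have h1 := C7PB_coord (Y - x) i
    have h2 : ‖Y - x‖ ≤ 1 + ‖Y - x‖ ^ 2 := by nlinarith [sq_nonneg (‖Y - x‖ - 1), norm_nonneg (Y - x)]
    have h3 := C7PB_bd m hε (Y - x)
    have h4 := kr_le_eps m hε (Y - x)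
    have h5 := kr_le_eps (m + 2) hε (Y - x)
    calc kr (m + 2) ε (Y - x) * |(Y - x) i|
        ≤ kr (m + 2) ε (Y - x) * (1 + ‖Y - x‖ ^ 2) :=
          mul_le_mul_of_nonneg_left (h1.trans h2) h0
      _ = kr (m + 2) ε (Y - x) + kr (m + 2) ε (Y - x) * ‖Y - x‖ ^ 2 := by ring
      _ ≤ ε⁻¹ ^ (m + 2 + 1) + ε⁻¹ ^ (m + 1) := add_le_add h5 (h3.trans h4)

private theorem C7PB_z1 (m : ℕ) {ε : ℝ} (hε : 0 < ε) (μ : Measure (X d)) [IsFiniteMeasure μ]
    (v : Fin d → ℝ) (Y : X d) :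
    Integrable (fun x => kr (m + 2) ε (Y - x) * ∑ k, (Y - x) k * v k) μ := by
  have h1 : (fun x : X d => kr (m + 2) ε (Y - x) * ∑ k, (Y - x) k * v k)
      = fun x => ∑ k, (kr (m + 2) ε (Y - x) * (Y - x) k) * v k := by
    funext x
    rw [Finset.mul_sum]
    exact Finset.sum_congr rfl fun k _ => by ring
  rw [h1]
  exact integrable_finsetSum _ fun k _ => (C7PB_i1 m hε μ Y k).mul_const _

private theorem C7PB_z2 (m : ℕ) {ε : ℝ} (hε : 0 < ε) (μ : Measure (X d)) [IsFiniteMeasure μ]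
    (v : Fin d → ℝ) (Y : X d) :
    Integrable (fun x => kr (m + 2) ε (Y - x) * (∑ k, (Y - x) k * v k) ^ 2) μ := by
  have h1 : (fun x : X d => kr (m + 2) ε (Y - x) * (∑ k, (Y - x) k * v k) ^ 2)
      = fun x => ∑ k, ∑ l, (kr (m + 2) ε (Y - x) * ((Y - x) k * (Y - x) l)) * (v k * v l) := by
    funext x
    rw [sq, Finset.sum_mul_sum, Finset.mul_sum]
    refine Finset.sum_congr rfl fun k _ => ?_
    rw [Finset.mul_sum]
    exact Finset.sum_congr rfl fun l _ => by ring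
  rw [h1]
  exact integrable_finsetSum _ fun k _ => integrable_finsetSum _ fun l _ =>
    (C7PB_i2 m hε μ Y k l).mul_const _

private theorem C7PB_lin {μ : Measure (X d)} {U H U2 A B D : X d → ℝ} (iU : Integrable U μ)
    (iH : Integrable H μ) (iU2 : Integrable U2 μ) (iA : Integrable A μ) (iB : Integrable B μ)
    (iD : Integrable D μ) (a b c e f g : ℝ) :
    ∫ x, (a * U x - b * H x - c * U2 x - e * A x + f * B x + g * D x) ∂μ
      = a * (∫ x, U x ∂μ) - b * (∫ x, H x ∂μ) - c * (∫ x, U2 x ∂μ) - e * (∫ x, A x ∂μ) +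
        f * (∫ x, B x ∂μ) + g * ∫ x, D x ∂μ := by
  have j1 : Integrable (fun x => a * U x - b * H x) μ := (iU.const_mul a).sub (iH.const_mul b)
  have j2 : Integrable (fun x => a * U x - b * H x - c * U2 x) μ := j1.sub (iU2.const_mul c)
  have j3 : Integrable (fun x => a * U x - b * H x - c * U2 x - e * A x) μ :=
    j2.sub (iA.const_mul e)
  have j4 : Integrable (fun x => a * U x - b * H x - c * U2 x - e * A x + f * B x) μ :=
    j3.add (iB.const_mul f)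
  rw [integral_add j4 (iD.const_mul g), integral_add j3 (iB.const_mul f),
    integral_sub j2 (iA.const_mul e), integral_sub j1 (iU2.const_mul c),
    integral_sub (iU.const_mul a) (iH.const_mul b), integral_const_mul, integral_const_mul,
    integral_const_mul, integral_const_mul, integral_const_mul, integral_const_mul]

/-- the pointwise inequality -/
private theorem C7PB_alg {m q e κ z t V : ℝ} (hm : 0 ≤ m) (hq : 0 < q) (he : 0 ≤ e) (hκ : 0 ≤ κ)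
    (hV : z ^ 2 ≤ q * V) :
    0 ≤ (m + 1) / 24 * V * (24 * (κ * q ^ 5) + 8 * (m + 3) * e * (κ * q ^ 4) +
        (m + 3) * (m + 5) * e ^ 2 * (κ * q ^ 3)) -
      (m + 1) / 6 * ((6 * (κ * q ^ 5) + (m + 3) * e * (κ * q ^ 4)) * V -
        (m + 3) * (6 * (κ * q ^ 4) + (m + 5) * e * (κ * q ^ 3)) * z ^ 2) -
      (m + 1) * (m + 3) / 48 * t ^ 2 * (48 * (κ * q ^ 4) + 24 * (m + 5) * e * (κ * q ^ 3) +
        6 * (m + 5) * (m + 7) * e ^ 2 * (κ * q ^ 2) +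
        (m + 5) * (m + 7) * (m + 9) * e ^ 3 * (κ * q)) -
      (m + 1) * (m + 3) * ((κ * q ^ 4) * ((1 + (2 * m + 9) / 12 * e * q⁻¹) * t + z) ^ 2 -
        2 * t * ((κ * q ^ 4 + ((m + 6) / 6 + (2 * m + 9) / 12) * e * (κ * q ^ 3) +
          ((m + 5) / 24 + (2 * m + 9) / 12 * ((m + 6) / 6)) * e ^ 2 * (κ * q ^ 2) +
          (2 * m + 9) / 12 * ((m + 5) / 24) * e ^ 3 * (κ * q)) * z) -
        t ^ 2 * ((2 * (κ * q ^ 4) + (m + 5) * e * (κ * q ^ 3)) +
          ((m + 6) / 6 + (2 * m + 9) / 12) * e * ((m + 7) * e * (κ * q ^ 2)) +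
          ((m + 5) / 24 + (2 * m + 9) / 12 * ((m + 6) / 6)) * e ^ 2 *
            (-2 * (κ * q ^ 2) + (m + 9) * e * (κ * q)) +
          (2 * m + 9) / 12 * ((m + 5) / 24) * e ^ 3 * (-4 * (κ * q) + (m + 11) * e * κ))) := by
  have e1 : (κ * q ^ 4) * ((1 + (2 * m + 9) / 12 * e * q⁻¹) * t + z) ^ 2
      = κ * q ^ 2 * ((q + (2 * m + 9) / 12 * e) * t + q * z) ^ 2 := by
    have : (q + (2 * m + 9) / 12 * e) * t + q * z
        = q * ((1 + (2 * m + 9) / 12 * e * q⁻¹) * t + z) := by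
      field_simp
    rw [this]
    ring
  rw [e1]
  have h1 : 0 ≤ q * V - z ^ 2 := by linarith
  have h2 : 0 ≤ (m + 1) * (m + 3) * κ * ((e * q ^ 3 / 6 + (m + 5) / 24 * e ^ 2 * q ^ 2) *
      (q * V - z ^ 2) + ((m + 6) / 6 * e * q + (m + 5) / 24 * e ^ 2) *
      ((q + (2 * m + 9) / 12 * e) * t + q * z) ^ 2 +
      t ^ 2 * (((m ^ 2 + 13 * m + 48) / 24 + (2 * m + 9) / 12 * ((2 * m + 27) / 12)) *
          e ^ 2 * q ^ 2 + (2 * m ^ 3 + 30 * m ^ 2 + 207 * m + 486) / 864 * e ^ 3 * q +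
        (2 * m + 9) / 12 * (m + 5) * ((10 * m + 123) / 12) / 24 * e ^ 4)) := by
    positivity
  refine le_of_le_of_eq h2 ?_
  ring

theorem pos_two {n : ℕ} (hd : d = n + 7) {ε : ℝ} (hε : 0 < ε) (μ : Measure (X d))
    [IsFiniteMeasure μ] (t : ℝ) (v : Fin d → ℝ) (Y : X d) :
    Integrable (fun x => kr (n + 4) ε (Y - x) *
      ((1 + b2 n * ε ^ 2 * kr 1 ε (Y - x)) * t + ∑ k, (Y - x) k * v k) ^ 2) μ ∧
    (n + 1) * (n + 3) * ((∫ x, kr (n + 4) ε (Y - x) *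
        ((1 + b2 n * ε ^ 2 * kr 1 ε (Y - x)) * t + ∑ k, (Y - x) k * v k) ^ 2 ∂μ) -
      (2 * (t * ∑ k, v k * W2 n ε μ k Y) + t ^ 2 * DW2 n ε μ Y)) ≤
      -(1 / 24) * (Ue n ε μ Y * ∑ k, v k ^ 2) +
      (1 / 6) * (∑ k, ∑ l, v k * (v l * He n ε μ k l Y)) - (1 / 48) * (U2e n ε μ Y * t ^ 2) := by
  have hn : (0 : ℝ) ≤ n := Nat.cast_nonneg n
  set ζ : X d → ℝ := fun x => ∑ k, (Y - x) k * v k with hζ
  set V : ℝ := ∑ k, v k ^ 2 with hVd
  have i0 := fun m => C7PB_i0 m hε μ Y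
  have i1 := fun m => C7PB_z1 m hε μ v Y
  have i2 := fun m => C7PB_z2 m hε μ v Y
  -- the square
  have hA : (fun x => kr (n + 4) ε (Y - x) *
      ((1 + b2 n * ε ^ 2 * kr 1 ε (Y - x)) * t + ∑ k, (Y - x) k * v k) ^ 2)
      = fun x => t ^ 2 * (kr (n + 4) ε (Y - x) + 2 * b2 n * ε ^ 2 * kr (n + 6) ε (Y - x) +
          b2 n ^ 2 * ε ^ 4 * kr (n + 8) ε (Y - x)) +
        2 * t * (kr (n + 4) ε (Y - x) * ∑ k, (Y - x) k * v k) +
        2 * t * b2 n * ε ^ 2 * (kr (n + 6) ε (Y - x) * ∑ k, (Y - x) k * v k) +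
        kr (n + 4) ε (Y - x) * (∑ k, (Y - x) k * v k) ^ 2 := by
    funext x
    have h1 := C7PB_kr (n + 4) hε (Y - x)
    have h2 := C7PB_kr (n + 6) hε (Y - x)
    have h3 : 0 < ‖Y - x‖ ^ 2 + ε ^ 2 := by positivity
    rw [show n + 4 + 2 = n + 6 from rfl] at h1
    rw [show n + 6 + 2 = n + 8 from rfl] at h2
    rw [C7PB_kr1 hε, h1, h2]
    field_simp
    ring
  have iA : Integrable (fun x => kr (n + 4) ε (Y - x) *
      ((1 + b2 n * ε ^ 2 * kr 1 ε (Y - x)) * t + ∑ k, (Y - x) k * v k) ^ 2) μ := by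
    rw [hA]
    exact ((((((i0 (n + 4)).add ((i0 (n + 6)).const_mul _)).add
      ((i0 (n + 8)).const_mul _)).const_mul _).add ((i1 (n + 2)).const_mul _)).add
      ((i1 (n + 4)).const_mul _)).add (i2 (n + 2))
  refine ⟨iA, ?_⟩
  -- the kernels
  have iB : Integrable (fun x => w2 n ε (Y - x) * ζ x) μ := by
    have h1 : (fun x => w2 n ε (Y - x) * ζ x) = fun x =>
        kr (n + 4) ε (Y - x) * ζ x +
        ((n + 6) / 6 + b2 n) * ε ^ 2 * (kr (n + 6) ε (Y - x) * ζ x) +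
        ((n + 5) / 24 + b2 n * ((n + 6) / 6)) * ε ^ 4 * (kr (n + 8) ε (Y - x) * ζ x) +
        b2 n * ((n + 5) / 24) * ε ^ 6 * (kr (n + 10) ε (Y - x) * ζ x) := by
      funext x
      unfold w2
      ring
    rw [h1]
    exact (((i1 (n + 2)).add ((i1 (n + 4)).const_mul _)).add ((i1 (n + 6)).const_mul _)).add
      ((i1 (n + 8)).const_mul _)
  have iD : Integrable (fun x => dw2 n ε (Y - x)) μ := by
    unfold dw2
    exact (((((i0 (n + 4)).const_mul _).add ((i0 (n + 6)).const_mul _)).add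
      (((i0 (n + 8)).const_mul _).const_mul _)).add
      ((((i0 (n + 8)).const_mul _).add ((i0 (n + 10)).const_mul _)).const_mul _)).add
      ((((i0 (n + 10)).const_mul _).add ((i0 (n + 12)).const_mul _)).const_mul _)
  have iU : Integrable (fun x => 24 * kr (n + 2) ε (Y - x) +
      8 * (n + 3) * ε ^ 2 * kr (n + 4) ε (Y - x) +
      (n + 3) * (n + 5) * ε ^ 4 * kr (n + 6) ε (Y - x)) μ :=
    (((i0 (n + 2)).const_mul _).add ((i0 (n + 4)).const_mul _)).add ((i0 (n + 6)).const_mul _)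
  have iU2 : Integrable (fun x => 48 * kr (n + 4) ε (Y - x) +
      24 * (n + 5) * ε ^ 2 * kr (n + 6) ε (Y - x) +
      6 * (n + 5) * (n + 7) * ε ^ 4 * kr (n + 8) ε (Y - x) +
      (n + 5) * (n + 7) * (n + 9) * ε ^ 6 * kr (n + 10) ε (Y - x)) μ :=
    ((((i0 (n + 4)).const_mul _).add ((i0 (n + 6)).const_mul _)).add
      ((i0 (n + 8)).const_mul _)).add ((i0 (n + 10)).const_mul _)
  have iH : Integrable (fun x => (6 * kr (n + 2) ε (Y - x) +
      (n + 3) * ε ^ 2 * kr (n + 4) ε (Y - x)) * V -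
      (n + 3) * (6 * kr (n + 4) ε (Y - x) + (n + 5) * ε ^ 2 * kr (n + 6) ε (Y - x)) *
        ζ x ^ 2) μ := by
    have h1 : (fun x => (6 * kr (n + 2) ε (Y - x) +
        (n + 3) * ε ^ 2 * kr (n + 4) ε (Y - x)) * V -
        (n + 3) * (6 * kr (n + 4) ε (Y - x) + (n + 5) * ε ^ 2 * kr (n + 6) ε (Y - x)) *
          ζ x ^ 2) = fun x => (6 * V) * kr (n + 2) ε (Y - x) +
          ((n + 3) * ε ^ 2 * V) * kr (n + 4) ε (Y - x) -
          ((n + 3) * 6 * (kr (n + 4) ε (Y - x) * ζ x ^ 2) +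
          (n + 3) * (n + 5) * ε ^ 2 * (kr (n + 6) ε (Y - x) * ζ x ^ 2)) := by
      funext x
      ring
    rw [h1]
    exact (((i0 (n + 2)).const_mul _).add ((i0 (n + 4)).const_mul _)).sub
      (((i2 (n + 2)).const_mul _).add ((i2 (n + 4)).const_mul _))
  have eB : ∑ k, v k * W2 n ε μ k Y = ∫ x, w2 n ε (Y - x) * ζ x ∂μ := by
    have hk : ∀ k, Integrable (fun x => v k * (w2 n ε (Y - x) * (Y - x) k)) μ := by
      intro k
      have h1 : (fun x => w2 n ε (Y - x) * (Y - x) k) = fun x =>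
          kr (n + 4) ε (Y - x) * (Y - x) k +
          ((n + 6) / 6 + b2 n) * ε ^ 2 * (kr (n + 6) ε (Y - x) * (Y - x) k) +
          ((n + 5) / 24 + b2 n * ((n + 6) / 6)) * ε ^ 4 * (kr (n + 8) ε (Y - x) * (Y - x) k) +
          b2 n * ((n + 5) / 24) * ε ^ 6 * (kr (n + 10) ε (Y - x) * (Y - x) k) := by
        funext x
        unfold w2
        ring
      have h2 : Integrable (fun x => w2 n ε (Y - x) * (Y - x) k) μ := by
        rw [h1]
        exact (((C7PB_i1 (n + 2) hε μ Y k).add ((C7PB_i1 (n + 4) hε μ Y k).const_mul _)).add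
          ((C7PB_i1 (n + 6) hε μ Y k).const_mul _)).add
          ((C7PB_i1 (n + 8) hε μ Y k).const_mul _)
      exact h2.const_mul _
    have h3 : (fun x => w2 n ε (Y - x) * ζ x)
        = fun x => ∑ k, v k * (w2 n ε (Y - x) * (Y - x) k) := by
      funext x
      simp only [hζ]
      rw [Finset.mul_sum]
      exact Finset.sum_congr rfl fun k _ => by ring
    rw [h3, integral_finsetSum _ fun k _ => hk k]
    refine Finset.sum_congr rfl fun k _ => ?_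
    rw [integral_const_mul]
    rfl
  have eH : ∑ k, ∑ l, v k * (v l * He n ε μ k l Y) = -(n + 1) *
      ∫ x, ((6 * kr (n + 2) ε (Y - x) + (n + 3) * ε ^ 2 * kr (n + 4) ε (Y - x)) * V -
      (n + 3) * (6 * kr (n + 4) ε (Y - x) + (n + 5) * ε ^ 2 * kr (n + 6) ε (Y - x)) *
        ζ x ^ 2) ∂μ := by
    have hkl : ∀ k l, Integrable (fun x => (v k * v l) *
        ((6 * kr (n + 2) ε (Y - x) + (n + 3) * ε ^ 2 * kr (n + 4) ε (Y - x)) *
          (if k = l then 1 else 0) -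
        (n + 3) * (6 * kr (n + 4) ε (Y - x) + (n + 5) * ε ^ 2 * kr (n + 6) ε (Y - x)) *
          ((Y - x) k * (Y - x) l))) μ := by
      intro k l
      have h1 : (fun x => (6 * kr (n + 2) ε (Y - x) + (n + 3) * ε ^ 2 * kr (n + 4) ε (Y - x)) *
          (if k = l then (1 : ℝ) else 0) -
          (n + 3) * (6 * kr (n + 4) ε (Y - x) + (n + 5) * ε ^ 2 * kr (n + 6) ε (Y - x)) *
          ((Y - x) k * (Y - x) l)) = fun x =>
          (6 * (if k = l then (1 : ℝ) else 0)) * kr (n + 2) ε (Y - x) +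
          ((n + 3) * ε ^ 2 * (if k = l then (1 : ℝ) else 0)) * kr (n + 4) ε (Y - x) -
          ((n + 3) * 6 * (kr (n + 4) ε (Y - x) * ((Y - x) k * (Y - x) l)) +
          (n + 3) * (n + 5) * ε ^ 2 * (kr (n + 6) ε (Y - x) * ((Y - x) k * (Y - x) l))) := by
        funext x
        ring
      have h2 : Integrable (fun x => (6 * kr (n + 2) ε (Y - x) +
          (n + 3) * ε ^ 2 * kr (n + 4) ε (Y - x)) *
          (if k = l then (1 : ℝ) else 0) -
          (n + 3) * (6 * kr (n + 4) ε (Y - x) + (n + 5) * ε ^ 2 * kr (n + 6) ε (Y - x)) *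
          ((Y - x) k * (Y - x) l)) μ := by
        rw [h1]
        exact (((i0 (n + 2)).const_mul _).add ((i0 (n + 4)).const_mul _)).sub
          (((C7PB_i2 (n + 2) hε μ Y k l).const_mul _).add
            ((C7PB_i2 (n + 4) hε μ Y k l).const_mul _))
      exact h2.const_mul _
    have h3 : (fun x => (6 * kr (n + 2) ε (Y - x) +
        (n + 3) * ε ^ 2 * kr (n + 4) ε (Y - x)) * V -
        (n + 3) * (6 * kr (n + 4) ε (Y - x) + (n + 5) * ε ^ 2 * kr (n + 6) ε (Y - x)) *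
          ζ x ^ 2) = fun x => ∑ k, ∑ l, (v k * v l) *
        ((6 * kr (n + 2) ε (Y - x) + (n + 3) * ε ^ 2 * kr (n + 4) ε (Y - x)) *
          (if k = l then 1 else 0) -
        (n + 3) * (6 * kr (n + 4) ε (Y - x) + (n + 5) * ε ^ 2 * kr (n + 6) ε (Y - x)) *
          ((Y - x) k * (Y - x) l)) := by
      funext x
      have h4 : V = ∑ k, ∑ l, (v k * v l) * (if k = l then (1 : ℝ) else 0) := by
        rw [hVd]
        refine Finset.sum_congr rfl fun k _ => ?_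
        simp only [mul_ite, mul_one, mul_zero, Finset.sum_ite_eq, Finset.mem_univ, if_true]
        ring
      have h5 : ζ x ^ 2 = ∑ k, ∑ l, (v k * v l) * ((Y - x) k * (Y - x) l) := by
        simp only [hζ]
        rw [sq, Finset.sum_mul_sum]
        exact Finset.sum_congr rfl fun k _ => Finset.sum_congr rfl fun l _ => by ring
      rw [h4, h5, Finset.mul_sum, Finset.mul_sum, ← Finset.sum_sub_distrib]
      refine Finset.sum_congr rfl fun k _ => ?_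
      rw [Finset.mul_sum, Finset.mul_sum, ← Finset.sum_sub_distrib]
      exact Finset.sum_congr rfl fun l _ => by ring
    rw [h3, integral_finsetSum _ fun k _ => integrable_finsetSum _ fun l _ => hkl k l,
      Finset.mul_sum]
    refine Finset.sum_congr rfl fun k _ => ?_
    rw [integral_finsetSum _ fun l _ => hkl k l, Finset.mul_sum]
    refine Finset.sum_congr rfl fun l _ => ?_
    rw [integral_const_mul]
    unfold He
    ring
  -- the pointwise inequality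
  have key : ∀ x, 0 ≤ (((n : ℝ) + 1) / 24 * V) * (24 * kr (n + 2) ε (Y - x) +
      8 * (n + 3) * ε ^ 2 * kr (n + 4) ε (Y - x) +
      (n + 3) * (n + 5) * ε ^ 4 * kr (n + 6) ε (Y - x)) -
      (((n : ℝ) + 1) / 6) * ((6 * kr (n + 2) ε (Y - x) +
        (n + 3) * ε ^ 2 * kr (n + 4) ε (Y - x)) * V -
        (n + 3) * (6 * kr (n + 4) ε (Y - x) + (n + 5) * ε ^ 2 * kr (n + 6) ε (Y - x)) *
        ζ x ^ 2) -
      (((n : ℝ) + 1) * (n + 3) / 48 * t ^ 2) * (48 * kr (n + 4) ε (Y - x) +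
        24 * (n + 5) * ε ^ 2 * kr (n + 6) ε (Y - x) +
        6 * (n + 5) * (n + 7) * ε ^ 4 * kr (n + 8) ε (Y - x) +
        (n + 5) * (n + 7) * (n + 9) * ε ^ 6 * kr (n + 10) ε (Y - x)) -
      ((n : ℝ) + 1) * (n + 3) * (kr (n + 4) ε (Y - x) *
        ((1 + b2 n * ε ^ 2 * kr 1 ε (Y - x)) * t + ∑ k, (Y - x) k * v k) ^ 2) +
      (((n : ℝ) + 1) * (n + 3) * (2 * t)) * (w2 n ε (Y - x) * ζ x) +
      (((n : ℝ) + 1) * (n + 3) * t ^ 2) * dw2 n ε (Y - x) := by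
    intro x
    have hq : 0 < ‖Y - x‖ ^ 2 + ε ^ 2 := by positivity
    have hcs : ζ x ^ 2 ≤ (‖Y - x‖ ^ 2 + ε ^ 2) * V := by
      have h1 : ζ x ^ 2 ≤ (∑ k, (Y - x) k ^ 2) * ∑ k, v k ^ 2 :=
        Finset.sum_mul_sq_le_sq_mul_sq _ _ _
      have h2 : ‖Y - x‖ ^ 2 = ∑ k, (Y - x) k ^ 2 := by
        rw [EuclideanSpace.norm_sq_eq]
        exact Finset.sum_congr rfl fun i _ => by rw [Real.norm_eq_abs, sq_abs]
      have h3 : 0 ≤ V := Finset.sum_nonneg fun i _ => sq_nonneg _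
      rw [h2]
      have h4 : 0 ≤ ε ^ 2 * V := by positivity
      calc ζ x ^ 2 ≤ (∑ k, (Y - x) k ^ 2) * V := h1
        _ ≤ ((∑ k, (Y - x) k ^ 2) + ε ^ 2) * V := by linarith
    have h := C7PB_alg (m := n) (q := ‖Y - x‖ ^ 2 + ε ^ 2) (e := ε ^ 2)
      (κ := kr (n + 12) ε (Y - x)) (z := ζ x) (t := t) (V := V) hn hq (by positivity)
      (kr_nonneg _ _ _) hcs
    have k10 : kr (n + 10) ε (Y - x) = kr (n + 12) ε (Y - x) * (‖Y - x‖ ^ 2 + ε ^ 2) :=
      C7PB_kr (n + 10) hε (Y - x)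
    have k8 : kr (n + 8) ε (Y - x) = kr (n + 12) ε (Y - x) * (‖Y - x‖ ^ 2 + ε ^ 2) ^ 2 := by
      have : kr (n + 8) ε (Y - x) = kr (n + 10) ε (Y - x) * (‖Y - x‖ ^ 2 + ε ^ 2) :=
        C7PB_kr (n + 8) hε (Y - x)
      rw [this, k10]
      ring
    have k6 : kr (n + 6) ε (Y - x) = kr (n + 12) ε (Y - x) * (‖Y - x‖ ^ 2 + ε ^ 2) ^ 3 := by
      have : kr (n + 6) ε (Y - x) = kr (n + 8) ε (Y - x) * (‖Y - x‖ ^ 2 + ε ^ 2) :=
        C7PB_kr (n + 6) hε (Y - x)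
      rw [this, k8]
      ring
    have k4 : kr (n + 4) ε (Y - x) = kr (n + 12) ε (Y - x) * (‖Y - x‖ ^ 2 + ε ^ 2) ^ 4 := by
      have : kr (n + 4) ε (Y - x) = kr (n + 6) ε (Y - x) * (‖Y - x‖ ^ 2 + ε ^ 2) :=
        C7PB_kr (n + 4) hε (Y - x)
      rw [this, k6]
      ring
    have k2 : kr (n + 2) ε (Y - x) = kr (n + 12) ε (Y - x) * (‖Y - x‖ ^ 2 + ε ^ 2) ^ 5 := by
      have : kr (n + 2) ε (Y - x) = kr (n + 4) ε (Y - x) * (‖Y - x‖ ^ 2 + ε ^ 2) :=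
        C7PB_kr (n + 2) hε (Y - x)
      rw [this, k4]
      ring
    refine le_of_le_of_eq h ?_
    unfold w2 dw2 b2
    rw [k2, k4, k6, k8, k10, C7PB_kr1 hε]
    change _ = _ - ((n : ℝ) + 1) * (n + 3) * (_ * ((1 + _) * t + ζ x) ^ 2) + _ + _
    generalize kr (n + 12) ε (Y - x) = κ
    generalize (‖Y - x‖ ^ 2 + ε ^ 2)⁻¹ = Q
    generalize ‖Y - x‖ ^ 2 + ε ^ 2 = q
    generalize ζ x = z
    ring
  have hI : 0 ≤ ∫ x, ((((n : ℝ) + 1) / 24 * V) * (24 * kr (n + 2) ε (Y - x) +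
      8 * (n + 3) * ε ^ 2 * kr (n + 4) ε (Y - x) +
      (n + 3) * (n + 5) * ε ^ 4 * kr (n + 6) ε (Y - x)) -
      (((n : ℝ) + 1) / 6) * ((6 * kr (n + 2) ε (Y - x) +
        (n + 3) * ε ^ 2 * kr (n + 4) ε (Y - x)) * V -
        (n + 3) * (6 * kr (n + 4) ε (Y - x) + (n + 5) * ε ^ 2 * kr (n + 6) ε (Y - x)) *
        ζ x ^ 2) -
      (((n : ℝ) + 1) * (n + 3) / 48 * t ^ 2) * (48 * kr (n + 4) ε (Y - x) +
        24 * (n + 5) * ε ^ 2 * kr (n + 6) ε (Y - x) +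
        6 * (n + 5) * (n + 7) * ε ^ 4 * kr (n + 8) ε (Y - x) +
        (n + 5) * (n + 7) * (n + 9) * ε ^ 6 * kr (n + 10) ε (Y - x)) -
      ((n : ℝ) + 1) * (n + 3) * (kr (n + 4) ε (Y - x) *
        ((1 + b2 n * ε ^ 2 * kr 1 ε (Y - x)) * t + ∑ k, (Y - x) k * v k) ^ 2) +
      (((n : ℝ) + 1) * (n + 3) * (2 * t)) * (w2 n ε (Y - x) * ζ x) +
      (((n : ℝ) + 1) * (n + 3) * t ^ 2) * dw2 n ε (Y - x)) ∂μ := integral_nonneg fun x => key x
  rw [C7PB_lin iU iH iU2 iA iB iD] at hI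
  rw [eB, eH]
  unfold Ue U2e DW2
  refine sub_nonneg.1 (le_of_le_of_eq hI ?_)
  ring

end Pool.Agent.H1.C7
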