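import Pool.Agent.H1.C7.I7
import Pool.Agent.H1.C7.Dv
import Pool.Agent.H1.C7.Dat2
import Pool.Agent.H1.C7.PA
import Pool.Agent.H1.C7.PB

/-!
Row E (template C5/E.lean).  id7, div_one (w = W1), div_two (w = W2), pos_one, pos_two, F7_*; Tonelli:
 (n+1)(n+3) ∫_z∫_Y kr(n+4) L7^2 ≤ ∫ PA + ∫ PB = -(1/8) ∫ |F|^2 Qe = (c7 n / 8) ∫ |F|^2 ∫ ε^8 kr(n+14).
-/

set_option autoImplicit false

open MeasureTheory Filter Topology Metric Set
open scoped RealInnerProductSpace ENNReal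

namespace Pool.Agent.H1.C7

open Pool.Agent.RZ Pool.Agent.H1.LD

variable {d : ℕ}

private theorem C7E_meas {n : ℕ} (hn : 1 ≤ n) (hd : d = n + 7) {ε : ℝ} (hε : 0 < ε)
    (μ : Measure (X d)) [IsFiniteMeasure μ] {A : ℝ} (hA : μ (closedBall 0 A)ᶜ = 0) :
    Measurable fun p : X d × X d => ENNReal.ofReal
      (kr (n + 4) ε (p.2 - p.1) * L7 n ε μ p.2 (p.2 - p.1) ^ 2) := by
  have hF := F7_fld hd hε μ hA
  have cT : Continuous (Te n ε μ) := by
    have h1 : fT (F7 n ε μ) = Te n ε μ := funext fun Y => F7_T hd hε μ hA Y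
    rw [← h1]
    exact dec_cont (decT hF)
  have cV : ∀ k, Continuous (Ve n ε μ k) := by
    intro k
    have h1 : fV (F7 n ε μ) k = Ve n ε μ k := funext fun Y => F7_V hd hε μ hA k Y
    rw [← h1]
    exact dec_cont (decV hF k)
  have c1 : Continuous fun p : X d × X d => kr 1 ε (p.2 - p.1) :=
    (kr_continuous 1 hε).comp (by fun_prop)
  have c4 : Continuous fun p : X d × X d => kr (n + 4) ε (p.2 - p.1) :=
    (kr_continuous (n + 4) hε).comp (by fun_prop)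
  have cL : Continuous fun p : X d × X d => L7 n ε μ p.2 (p.2 - p.1) := by
    unfold L7
    refine ((continuous_const.add (continuous_const.mul c1)).mul (cT.comp continuous_snd)).add ?_
    refine continuous_finsetSum _ fun k _ => Continuous.mul ?_ ((cV k).comp continuous_snd)
    have h2 : Continuous fun v : X d => v k := by fun_prop
    exact h2.comp (by fun_prop)
  exact ((c4.mul (cL.pow 2)).measurable).ennreal_ofReal

theorem co7_energy {n : ℕ} (hn : 1 ≤ n) (hd : d = n + 7) {ε : ℝ} (hε : 0 < ε)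
    (μ : Measure (X d)) [IsFiniteMeasure μ] {A : ℝ} (hA : μ (closedBall 0 A)ᶜ = 0) :
    ∫⁻ z, (∫⁻ Y, ENNReal.ofReal (kr (n + 4) ε (Y - z) * L7 n ε μ Y (Y - z) ^ 2)) ∂μ ≤
      ENNReal.ofReal (c7 n) *
        ∫⁻ Y, ENNReal.ofReal (‖Fe n ε μ Y‖ ^ 2 * ∫ x, ε ^ 8 * kr (n + 14) ε (Y - x) ∂μ) := by
  have hF := F7_fld hd hε μ hA
  obtain ⟨iA, iB, iE, e0⟩ := id7 hn hd hF
  obtain ⟨i1, z1⟩ := div_one hn hd hF (w := W1 n ε μ) (W1_dec hd hε μ hA)
  obtain ⟨i2, z2⟩ := div_two hn hd hF (w := W2 n ε μ) (W2_dec hd hε μ hA)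
  simp only [W1_div hd hε μ hA] at i1 z1
  simp only [W2_div hd hε μ hA] at i2 z2
  set F : Fin d → X d → ℝ := F7 n ε μ with hFd
  set D1 : X d → ℝ := fun x =>
    2 * (∑ a, ∑ b, ∑ c, ∑ k, fR F a b c x * (fX F a b c k x * W1 n ε μ k x)) +
      f3 F x * DW1 n ε μ x with hD1
  set D2 : X d → ℝ := fun x => 2 * (fT F x * ∑ k, fV F k x * W2 n ε μ k x) +
    fT F x ^ 2 * DW2 n ε μ x with hD2
  set G : X d → ℝ := fun Y => (PA F Y + PB F Y) + ((n + 1) * D1 Y + (n + 1) * (n + 3) * D2 Y)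
    with hG
  have hGi : Integrable G := (iA.add iB).add ((i1.const_mul _).add (i2.const_mul _))
  have eT : ∀ Y, fT F Y = Te n ε μ Y := F7_T hd hε μ hA
  have eV : ∀ k Y, fV F k Y = Ve n ε μ k Y := F7_V hd hε μ hA
  have eH : ∀ k l Y, fH F k l Y = He n ε μ k l Y := F7_H hd hε μ hA
  have eU : ∀ Y, fU F Y = Ue n ε μ Y := F7_U hd hε μ hA
  have eU2 : ∀ Y, fU2 F Y = U2e n ε μ Y := F7_U2 hd hε μ hA
  have eQ : ∀ Y, fQ F Y = Qe n ε μ Y := F7_Q hd hε μ hA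
  have eS : ∀ i j Y, fS F i j Y = ∫ x, (kr n ε (Y - x) * (if i = j then 1 else 0) -
      (n + 1) * kr (n + 2) ε (Y - x) * ((Y - x) i * (Y - x) j)) ∂μ := F7_S hd hε μ hA
  -- part 1
  have p1 : ∀ Y, -((n : ℝ) + 1) * D1 Y ≤ PA F Y := by
    intro Y
    have h1 := pos_one hd hε μ (fun a b c => fR F a b c Y) (fun a b c k => fX F a b c k Y) Y
    simp only [hD1, PA, f3, f4, cE, eU, eT, eS]
    exact h1
  -- part 2
  have p2 : ∀ Y, Integrable (fun x => kr (n + 4) ε (Y - x) * L7 n ε μ Y (Y - x) ^ 2) μ ∧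
      ((n : ℝ) + 1) * (n + 3) * ((∫ x, kr (n + 4) ε (Y - x) * L7 n ε μ Y (Y - x) ^ 2 ∂μ) - D2 Y) ≤
        PB F Y := by
    intro Y
    have h1 := pos_two hd hε μ (Te n ε μ Y) (fun k => Ve n ε μ k Y) Y
    simp only [hD2, PB, fp, cVVH, eU, eT, eV, eH, eU2, L7]
    exact h1
  have hIn : ∀ Y, 0 ≤ ∫ x, kr (n + 4) ε (Y - x) * L7 n ε μ Y (Y - x) ^ 2 ∂μ := fun Y =>
    integral_nonneg fun x => mul_nonneg (kr_nonneg _ _ _) (sq_nonneg _)
  have hn1 : (0 : ℝ) < ((n : ℝ) + 1) * (n + 3) := by positivity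
  have hpos : ∀ Y, ((n : ℝ) + 1) * (n + 3) *
      ∫ x, kr (n + 4) ε (Y - x) * L7 n ε μ Y (Y - x) ^ 2 ∂μ ≤ G Y := by
    intro Y
    have h1 := p1 Y
    have h2 := (p2 Y).2
    simp only [hG]
    linarith
  have hG0 : ∀ Y, 0 ≤ G Y := fun Y => (mul_nonneg hn1.le (hIn Y)).trans (hpos Y)
  -- the energy side
  set E : X d → ℝ := fun Y => ‖Fe n ε μ Y‖ ^ 2 * ∫ x, ε ^ 8 * kr (n + 14) ε (Y - x) ∂μ with hE
  have hc : (0 : ℝ) < c7 n := by
    unfold c7
    positivity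
  have e3 : ∀ Y, (∑ i, F i Y ^ 2) * fQ F Y = -c7 n * E Y := by
    intro Y
    rw [eQ Y, hE, hFd, F7_sum n hε μ Y]
    unfold Qe
    ring
  have hEi : Integrable E := by
    have i3 : Integrable (fun Y => -c7 n * E Y) := iE.congr (Eventually.of_forall e3)
    have := i3.const_mul (-c7 n)⁻¹
    refine this.congr (Eventually.of_forall fun Y => ?_)
    simp only
    rw [← mul_assoc, inv_mul_cancel₀ (neg_ne_zero.2 hc.ne'), one_mul]
  have hE0 : ∀ Y, 0 ≤ E Y := fun Y => mul_nonneg (sq_nonneg _)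
    (integral_nonneg fun x => mul_nonneg (by positivity) (kr_nonneg _ _ _))
  have e5 : ∫ Y, G Y = c7 n / 8 * ∫ Y, E Y := by
    have e6 : ∫ Y, (∑ i, F i Y ^ 2) * fQ F Y = -c7 n * ∫ Y, E Y := by
      rw [← integral_const_mul]
      exact integral_congr_ae (Eventually.of_forall e3)
    have e7 : ∫ Y, G Y = ((∫ Y, PA F Y) + ∫ Y, PB F Y) +
        ((n + 1) * (∫ Y, D1 Y) + (n + 1) * (n + 3) * ∫ Y, D2 Y) := by
      rw [← integral_const_mul, ← integral_const_mul, ← integral_add iA iB,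
        ← integral_add (i1.const_mul _) (i2.const_mul _)]
      exact integral_add (iA.add iB) ((i1.const_mul _).add (i2.const_mul _))
    rw [e7, z1, z2, e0, e6]
    ring
  have hEI : 0 ≤ ∫ Y, E Y := integral_nonneg hE0
  rw [lintegral_lintegral_swap (C7E_meas hn hd hε μ hA).aemeasurable]
  calc ∫⁻ Y, ∫⁻ z, ENNReal.ofReal (kr (n + 4) ε (Y - z) * L7 n ε μ Y (Y - z) ^ 2) ∂μ
      = ∫⁻ Y, ENNReal.ofReal (∫ z, kr (n + 4) ε (Y - z) * L7 n ε μ Y (Y - z) ^ 2 ∂μ) := by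
        refine lintegral_congr fun Y => ?_
        rw [ofReal_integral_eq_lintegral_ofReal (p2 Y).1
          (Eventually.of_forall fun x => mul_nonneg (kr_nonneg _ _ _) (sq_nonneg _))]
    _ ≤ ∫⁻ Y, ENNReal.ofReal ((((n : ℝ) + 1) * (n + 3))⁻¹ * G Y) := by
        refine lintegral_mono fun Y => ENNReal.ofReal_le_ofReal ?_
        rw [le_inv_mul_iff₀ hn1]
        exact hpos Y
    _ = ENNReal.ofReal (∫ Y, (((n : ℝ) + 1) * (n + 3))⁻¹ * G Y) := by
        rw [ofReal_integral_eq_lintegral_ofReal (hGi.const_mul _)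
          (Eventually.of_forall fun Y => mul_nonneg (inv_nonneg.2 hn1.le) (hG0 Y))]
    _ ≤ ENNReal.ofReal (c7 n * ∫ Y, E Y) := by
        refine ENNReal.ofReal_le_ofReal ?_
        rw [integral_const_mul, e5]
        have h1 : (((n : ℝ) + 1) * (n + 3))⁻¹ ≤ 1 := by
          refine inv_le_one_of_one_le₀ ?_
          have h2 : (0 : ℝ) ≤ n := Nat.cast_nonneg n
          nlinarith
        have h3 : 0 ≤ c7 n * ∫ Y, E Y := mul_nonneg hc.le hEI
        have h4 : 0 ≤ (((n : ℝ) + 1) * (n + 3))⁻¹ := inv_nonneg.2 hn1.le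
        calc (((n : ℝ) + 1) * (n + 3))⁻¹ * (c7 n / 8 * ∫ Y, E Y)
            = (((n : ℝ) + 1) * (n + 3))⁻¹ / 8 * (c7 n * ∫ Y, E Y) := by ring
          _ ≤ 1 * (c7 n * ∫ Y, E Y) := by
              refine mul_le_mul_of_nonneg_right ?_ h3
              linarith
          _ = _ := one_mul _
    _ = ENNReal.ofReal (c7 n) * ENNReal.ofReal (∫ Y, E Y) := by
        rw [ENNReal.ofReal_mul hc.le]
    _ = _ := by
        rw [ofReal_integral_eq_lintegral_ofReal hEi (Eventually.of_forall hE0)]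

end Pool.Agent.H1.C7
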