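import Pool.Agent.H1.C7.E
import Pool.Agent.H1.C7.B

/-!
Row F (template C5/F.lean or LD/CoF.lean).  For a.e. Y both ∫ |Y-x|^(-n-1) dμ and ∫ |Y-x|^(-n-2) dμ are finite (n+2 < n+7 = d); then Te, Ve converge as ε → 0 (dominated: kr m ε Z ≤ |Z|⁻¹^(m+1),
ε^2 kr (n+4) ε Z |Z| ≤ |Z|⁻¹^(n+2), ...), b2 ε^2 kr 1 ε (Y-z) → 0 for Y ≠ z.
-/

set_option autoImplicit false

open MeasureTheory Filter Topology Metric Set
open scoped RealInnerProductSpace ENNReal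

namespace Pool.Agent.H1.C7

open Pool.Agent.RZ Pool.Agent.H1.LD

variable {d : ℕ}

private theorem C7F_ball {m : ℕ} (hm : m < d) :
    ∫⁻ Z in ball (0 : X d) 1, ENNReal.ofReal (‖Z‖⁻¹ ^ m) < ⊤ := by
  have h : IntegrableOn (fun Z : X d => ‖Z‖⁻¹ ^ m) (ball 0 1) volume := by
    refine integrableOn_ball_of_norm_le_rpow (C := 1) (α := (m : ℝ)) ?_ ?_ ?_ ?_
    · rw [finrank_euclideanSpace_fin]; omega
    · rw [finrank_euclideanSpace_fin]; exact_mod_cast hm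
    · refine ae_of_all _ fun x => le_of_eq ?_
      rw [Real.norm_of_nonneg (by positivity), one_mul, Real.rpow_neg (norm_nonneg x),
        Real.rpow_natCast, inv_pow]
    · exact (measurable_norm.inv.pow_const _).aestronglyMeasurable
  exact h.lintegral_lt_top

private theorem C7F_meas (m : ℕ) :
    Measurable (fun p : X d × X d => ENNReal.ofReal (‖p.1 - p.2‖⁻¹ ^ m)) :=
  ENNReal.measurable_ofReal.comp
    (((measurable_fst.sub measurable_snd).norm.inv).pow_const _)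

private theorem C7F_ae {m : ℕ} (hm : m < d) (μ : Measure (X d)) [IsFiniteMeasure μ] :
    ∀ᵐ Y : X d, ∫⁻ x, ENNReal.ofReal (‖Y - x‖⁻¹ ^ m) ∂μ < ⊤ := by
  have hme := C7F_meas (d := d) m
  have hN : ∀ N : ℕ, ∀ᵐ Y ∂((volume : Measure (X d)).restrict (closedBall (0 : X d) N)),
      ∫⁻ x, ENNReal.ofReal (‖Y - x‖⁻¹ ^ m) ∂μ < ⊤ := by
    intro N
    refine ae_lt_top (hme.lintegral_prod_right') ?_
    rw [lintegral_lintegral_swap hme.aemeasurable]
    set K : ℝ≥0∞ := ∫⁻ Z in ball (0 : X d) 1, ENNReal.ofReal (‖Z‖⁻¹ ^ m) with hK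
    have hK' : K < ⊤ := C7F_ball hm
    have hb : ∀ x : X d, ∫⁻ Y in closedBall (0 : X d) N,
        ENNReal.ofReal (‖Y - x‖⁻¹ ^ m) ≤ K + volume (closedBall (0 : X d) N) := by
      intro x
      set h : X d → ℝ≥0∞ :=
        (ball (0 : X d) 1).indicator fun Z => ENNReal.ofReal (‖Z‖⁻¹ ^ m) with hh
      have h1 : ∀ Y : X d, ENNReal.ofReal (‖Y - x‖⁻¹ ^ m) ≤ h (Y - x) + 1 := by
        intro Y
        by_cases hY : Y - x ∈ ball (0 : X d) 1
        · rw [hh, indicator_of_mem hY]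
          exact le_self_add
        · rw [hh, indicator_of_notMem hY, zero_add]
          rw [mem_ball_zero_iff, not_lt] at hY
          rw [← ENNReal.ofReal_one]
          refine ENNReal.ofReal_le_ofReal ?_
          exact pow_le_one₀ (by positivity) (inv_le_one_of_one_le₀ hY)
      calc ∫⁻ Y in closedBall (0 : X d) N, ENNReal.ofReal (‖Y - x‖⁻¹ ^ m)
          ≤ ∫⁻ Y in closedBall (0 : X d) N, (h (Y - x) + 1) := lintegral_mono h1
        _ = (∫⁻ Y in closedBall (0 : X d) N, h (Y - x)) + ∫⁻ _ in closedBall (0 : X d) N, 1 :=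
            lintegral_add_right _ measurable_const
        _ ≤ (∫⁻ Y : X d, h (Y - x)) + volume (closedBall (0 : X d) N) := by
            refine add_le_add (setLIntegral_le_lintegral _ _) ?_
            rw [setLIntegral_one]
        _ = K + volume (closedBall (0 : X d) N) := by
            rw [lintegral_sub_right_eq_self h x, hh, lintegral_indicator measurableSet_ball]
    refine ne_of_lt (lt_of_le_of_lt (lintegral_mono hb) ?_)
    rw [lintegral_const]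
    exact ENNReal.mul_lt_top (ENNReal.add_lt_top.2 ⟨hK', measure_closedBall_lt_top⟩)
      (measure_lt_top _ _)
  have h2 := (ae_restrict_iUnion_iff (fun N : ℕ => closedBall (0 : X d) N)
    (fun Y => ∫⁻ x, ENNReal.ofReal (‖Y - x‖⁻¹ ^ m) ∂μ < ⊤)).2 hN
  rwa [iUnion_closedBall_nat, Measure.restrict_univ] at h2

private theorem C7F_kr (n : ℕ) {z : X d} (hz : z ≠ 0) {ε : ℕ → ℝ}
    (hlim : Tendsto ε atTop (𝓝 0)) :
    Tendsto (fun k => kr n (ε k) z) atTop (𝓝 (kr n 0 z)) := by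
  have hz' : 0 < ‖z‖ := norm_pos_iff.2 hz
  have h : Tendsto (fun k => Real.sqrt (‖z‖ ^ 2 + ε k ^ 2)) atTop
      (𝓝 (Real.sqrt (‖z‖ ^ 2 + 0 ^ 2))) :=
    (Real.continuous_sqrt.tendsto _).comp ((hlim.pow 2).const_add _)
  have hne : Real.sqrt (‖z‖ ^ 2 + 0 ^ 2) ≠ 0 := by
    have : 0 < ‖z‖ ^ 2 + 0 ^ 2 := by positivity
    exact (Real.sqrt_pos.2 this).ne'
  exact (h.inv₀ hne).pow (n + 1)

private theorem C7F_eps (m : ℕ) (ε : ℝ) {Z : X d} (hZ : Z ≠ 0) :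
    ε ^ 2 * kr (m + 2) ε Z ≤ ‖Z‖⁻¹ ^ (m + 1) := by
  refine le_trans ?_ (kr_le_norm m ε hZ)
  have hZ' : 0 < ‖Z‖ := norm_pos_iff.2 hZ
  have hs : 0 < ‖Z‖ ^ 2 + ε ^ 2 := by positivity
  have hsq : 0 < Real.sqrt (‖Z‖ ^ 2 + ε ^ 2) := Real.sqrt_pos.2 hs
  have h1 : kr (m + 2) ε Z = kr m ε Z * (Real.sqrt (‖Z‖ ^ 2 + ε ^ 2))⁻¹ ^ 2 := by
    unfold kr
    rw [← pow_add]
  have h2 : (Real.sqrt (‖Z‖ ^ 2 + ε ^ 2))⁻¹ ^ 2 = (‖Z‖ ^ 2 + ε ^ 2)⁻¹ := by
    rw [inv_pow, Real.sq_sqrt hs.le]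
  have h3 : ε ^ 2 * (‖Z‖ ^ 2 + ε ^ 2)⁻¹ ≤ 1 := by
    rw [← div_eq_mul_inv, div_le_one hs]
    have : 0 ≤ ‖Z‖ ^ 2 := by positivity
    linarith
  rw [h1, h2]
  have h4 := kr_nonneg m ε Z
  nlinarith

private theorem C7F_coord (Z : X d) (k : Fin d) : |Z k| ≤ ‖Z‖ := by
  have h := PiLp.norm_apply_le Z k
  rwa [Real.norm_eq_abs] at h

private theorem C7F_int {m : ℕ} {μ : Measure (X d)} {Y : X d}
    (hY : ∫⁻ x, ENNReal.ofReal (‖Y - x‖⁻¹ ^ m) ∂μ < ⊤) :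
    Integrable (fun x => ‖Y - x‖⁻¹ ^ m) μ := by
  refine ⟨((measurable_const.sub measurable_id).norm.inv.pow_const _).aestronglyMeasurable, ?_⟩
  rw [hasFiniteIntegral_iff_ofReal (ae_of_all _ fun x => by positivity)]
  exact hY

private theorem C7F_ne {μ : Measure (X d)} (hs : ∀ x, μ {x} = 0) (Y : X d) :
    ∀ᵐ x ∂μ, Y - x ≠ 0 := by
  have h1 : ∀ᵐ x ∂μ, x ∉ ({Y} : Set (X d)) := measure_eq_zero_iff_ae_notMem.1 (hs Y)
  filter_upwards [h1] with x hx h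
  exact hx (by rw [mem_singleton_iff]; exact (sub_eq_zero.1 h).symm)

private theorem C7F_cont1 (n : ℕ) {ε : ℝ} (hε : 0 < ε) {T : Type*} [TopologicalSpace T]
    {f : T → X d} (hf : Continuous f) :
    Continuous (fun p : T => 6 * kr n ε (f p) + ((n : ℝ) + 1) * ε ^ 2 * kr (n + 2) ε (f p)) :=
  (continuous_const.mul ((kr_continuous n hε).comp hf)).add
    (continuous_const.mul ((kr_continuous (n + 2) hε).comp hf))

private theorem C7F_cont2 (n : ℕ) (k : Fin d) {ε : ℝ} (hε : 0 < ε) {T : Type*} [TopologicalSpace T]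
    {f : T → X d} (hf : Continuous f) :
    Continuous (fun p : T => (6 * kr (n + 2) ε (f p) +
      ((n : ℝ) + 3) * ε ^ 2 * kr (n + 4) ε (f p)) * (f p) k) := by
  have h1 : Continuous fun p : T => (f p) k :=
    (EuclideanSpace.proj (𝕜 := ℝ) k).continuous.comp hf
  exact ((continuous_const.mul ((kr_continuous (n + 2) hε).comp hf)).add
    (continuous_const.mul ((kr_continuous (n + 4) hε).comp hf))).mul h1

private theorem C7F_Te {n : ℕ} {μ : Measure (X d)} [IsFiniteMeasure μ] (hs : ∀ x, μ {x} = 0)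
    {Y : X d} (hY : ∫⁻ x, ENNReal.ofReal (‖Y - x‖⁻¹ ^ (n + 1)) ∂μ < ⊤) {ε : ℕ → ℝ}
    (hε : ∀ k, 0 < ε k) (hlim : Tendsto ε atTop (𝓝 0)) :
    Tendsto (fun k => Te n (ε k) μ Y) atTop (𝓝 (Te n 0 μ Y)) := by
  have hne := C7F_ne hs Y
  unfold Te
  refine tendsto_integral_of_dominated_convergence
    (fun x => ((n : ℝ) + 7) * ‖Y - x‖⁻¹ ^ (n + 1)) ?_ ?_ ?_ ?_
  · intro k
    exact (C7F_cont1 n (hε k) (continuous_const.sub continuous_id)).aestronglyMeasurable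
  · exact (C7F_int hY).const_mul _
  · intro k
    filter_upwards [hne] with x hx
    have h1 := kr_le_norm n (ε k) hx
    have h2 := C7F_eps n (ε k) hx
    have h3 := kr_nonneg n (ε k) (Y - x)
    have h4 : 0 ≤ ε k ^ 2 * kr (n + 2) (ε k) (Y - x) :=
      mul_nonneg (sq_nonneg _) (kr_nonneg _ _ _)
    have hn : (0 : ℝ) ≤ (n : ℝ) + 1 := by positivity
    have h5 := mul_nonneg hn h4
    have h6 := mul_le_mul_of_nonneg_left h2 hn
    rw [Real.norm_eq_abs, abs_of_nonneg (by linarith)]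
    linarith
  · filter_upwards [hne] with x hx
    exact ((C7F_kr n hx hlim).const_mul _).add
      (((hlim.pow 2).const_mul _).mul (C7F_kr (n + 2) hx hlim))

private theorem C7F_Ve {n : ℕ} {μ : Measure (X d)} [IsFiniteMeasure μ] (hs : ∀ x, μ {x} = 0)
    {Y : X d} (hY : ∫⁻ x, ENNReal.ofReal (‖Y - x‖⁻¹ ^ (n + 2)) ∂μ < ⊤) (k : Fin d) {ε : ℕ → ℝ}
    (hε : ∀ k, 0 < ε k) (hlim : Tendsto ε atTop (𝓝 0)) :
    Tendsto (fun j => Ve n (ε j) μ k Y) atTop (𝓝 (Ve n 0 μ k Y)) := by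
  have hne := C7F_ne hs Y
  unfold Ve
  refine Tendsto.const_mul _ (tendsto_integral_of_dominated_convergence
    (fun x => ((n : ℝ) + 9) * ‖Y - x‖⁻¹ ^ (n + 2)) ?_ ?_ ?_ ?_)
  · intro j
    exact (C7F_cont2 n k (hε j) (continuous_const.sub continuous_id)).aestronglyMeasurable
  · exact (C7F_int hY).const_mul _
  · intro j
    filter_upwards [hne] with x hx
    have hZ : 0 < ‖Y - x‖ := norm_pos_iff.2 hx
    have h1 := kr_le_norm (n + 2) (ε j) hx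
    have h2 : ε j ^ 2 * kr (n + 4) (ε j) (Y - x) ≤ ‖Y - x‖⁻¹ ^ (n + 2 + 1) :=
      C7F_eps (n + 2) (ε j) hx
    have h3 := kr_nonneg (n + 2) (ε j) (Y - x)
    have h4 : 0 ≤ ε j ^ 2 * kr (n + 4) (ε j) (Y - x) :=
      mul_nonneg (sq_nonneg _) (kr_nonneg _ _ _)
    have hn : (0 : ℝ) ≤ (n : ℝ) + 3 := by positivity
    have h5 := mul_nonneg hn h4
    have h6 := mul_le_mul_of_nonneg_left h2 hn
    have h7 : 6 * kr (n + 2) (ε j) (Y - x) + ((n : ℝ) + 3) * ε j ^ 2 *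
        kr (n + 4) (ε j) (Y - x) ≤ ((n : ℝ) + 9) * ‖Y - x‖⁻¹ ^ (n + 2 + 1) := by linarith
    have h8 : 0 ≤ 6 * kr (n + 2) (ε j) (Y - x) + ((n : ℝ) + 3) * ε j ^ 2 *
        kr (n + 4) (ε j) (Y - x) := by linarith
    have h9 : ‖Y - x‖⁻¹ ^ (n + 2 + 1) * ‖Y - x‖ = ‖Y - x‖⁻¹ ^ (n + 2) := by
      rw [pow_succ, mul_assoc, inv_mul_cancel₀ hZ.ne', mul_one]
    rw [Real.norm_eq_abs, abs_mul, abs_of_nonneg h8]
    calc _ ≤ (((n : ℝ) + 9) * ‖Y - x‖⁻¹ ^ (n + 2 + 1)) * ‖Y - x‖ :=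
          mul_le_mul h7 (C7F_coord _ k) (abs_nonneg _) (by positivity)
      _ = ((n : ℝ) + 9) * ‖Y - x‖⁻¹ ^ (n + 2) := by rw [mul_assoc, h9]
  · filter_upwards [hne] with x hx
    exact (((C7F_kr (n + 2) hx hlim).const_mul _).add
      (((hlim.pow 2).const_mul _).mul (C7F_kr (n + 4) hx hlim))).mul_const _

private theorem C7F_L7 {n : ℕ} {μ : Measure (X d)} [IsFiniteMeasure μ] (hs : ∀ x, μ {x} = 0)
    {Y : X d} (hY : ∫⁻ x, ENNReal.ofReal (‖Y - x‖⁻¹ ^ (n + 1)) ∂μ < ⊤)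
    (hY' : ∫⁻ x, ENNReal.ofReal (‖Y - x‖⁻¹ ^ (n + 2)) ∂μ < ⊤) {v : X d} (hv : v ≠ 0) {ε : ℕ → ℝ}
    (hε : ∀ k, 0 < ε k) (hlim : Tendsto ε atTop (𝓝 0)) :
    Tendsto (fun k => L7 n (ε k) μ Y v) atTop (𝓝 (L7 n 0 μ Y v)) := by
  unfold L7
  refine Tendsto.add (Tendsto.mul ?_ (C7F_Te hs hY hε hlim)) ?_
  · exact (((hlim.pow 2).const_mul _).mul (C7F_kr 1 hv hlim)).const_add _
  · exact tendsto_finsetSum _ fun k _ => (C7F_Ve hs hY' k hε hlim).const_mul _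

private theorem C7F_measF (n : ℕ) (μ : Measure (X d)) [IsFiniteMeasure μ] {ε : ℝ} (hε : 0 < ε) :
    Measurable (fun p : X d × X d =>
      ENNReal.ofReal (kr (n + 4) ε (p.2 - p.1) * L7 n ε μ p.2 (p.2 - p.1) ^ 2)) := by
  have hq : Continuous fun q : (X d × X d) × X d => q.1.2 - q.2 :=
    (continuous_snd.comp continuous_fst).sub continuous_snd
  have hp : Continuous fun p : X d × X d => p.2 - p.1 := continuous_snd.sub continuous_fst
  have h1 : Measurable (fun p : X d × X d => Te n ε μ p.2) := by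
    unfold Te
    exact (C7F_cont1 n hε hq).stronglyMeasurable.integral_prod_right'.measurable
  have h2 : ∀ k : Fin d, Measurable (fun p : X d × X d => Ve n ε μ k p.2) := by
    intro k
    unfold Ve
    exact ((C7F_cont2 n k hε hq).stronglyMeasurable.integral_prod_right'.measurable).const_mul _
  have h3 : ∀ m : ℕ, Measurable (fun p : X d × X d => kr m ε (p.2 - p.1)) := fun m =>
    ((kr_continuous m hε).comp hp).measurable
  have h4 : ∀ k : Fin d, Measurable (fun p : X d × X d => (p.2 - p.1) k) := fun k =>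
    ((EuclideanSpace.proj (𝕜 := ℝ) k).continuous.comp hp).measurable
  have h5 : Measurable (fun p : X d × X d => L7 n ε μ p.2 (p.2 - p.1)) := by
    unfold L7
    refine Measurable.add (Measurable.mul ?_ h1) ?_
    · exact measurable_const.add ((measurable_const).mul (h3 1))
    · exact Finset.measurable_sum _ fun k _ => (h4 k).mul (h2 k)
  exact ENNReal.measurable_ofReal.comp ((h3 (n + 4)).mul (h5.pow_const 2))

private theorem C7F_limF {n : ℕ} (hd : d = n + 7) {μ : Measure (X d)} [IsFiniteMeasure μ]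
    (hs : ∀ x, μ {x} = 0) {ε : ℕ → ℝ} (hε : ∀ k, 0 < ε k) (hlim : Tendsto ε atTop (𝓝 0))
    (z : X d) : ∀ᵐ Y : X d, Tendsto (fun k =>
        ENNReal.ofReal (kr (n + 4) (ε k) (Y - z) * L7 n (ε k) μ Y (Y - z) ^ 2)) atTop
      (𝓝 (ENNReal.ofReal (kr (n + 4) 0 (Y - z)) * ‖L7 n 0 μ Y (Y - z)‖ₑ ^ 2)) := by
  have hne : ∀ᵐ Y : X d, Y ≠ z := by
    have : Nonempty (Fin d) := ⟨⟨0, by omega⟩⟩
    have : Nontrivial (X d) := inferInstance
    have h1 : (volume : Measure (X d)) {z} = 0 := measure_singleton z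
    have h2 := measure_eq_zero_iff_ae_notMem.1 h1
    filter_upwards [h2] with Y hY h
    exact hY (mem_singleton_iff.2 h)
  filter_upwards [hne, C7F_ae (m := n + 1) (by omega) μ, C7F_ae (m := n + 2) (by omega) μ]
    with Y h1 h2 h2'
  have h3 := C7F_L7 hs h2 h2' (sub_ne_zero.2 h1) hε hlim
  have h4 := C7F_kr (n + 4) (sub_ne_zero.2 h1) hlim
  have h5 := (ENNReal.continuous_ofReal.tendsto _).comp (h4.mul (h3.pow 2))
  have h6 : ENNReal.ofReal (kr (n + 4) 0 (Y - z) * L7 n 0 μ Y (Y - z) ^ 2) =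
      ENNReal.ofReal (kr (n + 4) 0 (Y - z)) * ‖L7 n 0 μ Y (Y - z)‖ₑ ^ 2 := by
    rw [← sq_abs (L7 n 0 μ Y (Y - z)), ← Real.norm_eq_abs,
      ENNReal.ofReal_mul (kr_nonneg _ _ _), ENNReal.ofReal_pow (norm_nonneg _), ofReal_norm]
  rw [← h6]
  exact h5

private theorem C7F_fatou {F : ℕ → X d → X d → ℝ≥0∞} {G : X d → X d → ℝ≥0∞}
    {μ : Measure (X d)} {C : ℝ≥0∞}
    (hmeas : ∀ k, Measurable (fun p : X d × X d => F k p.1 p.2))
    (hlim : ∀ z, ∀ᵐ Y : X d, Tendsto (fun k => F k z Y) atTop (𝓝 (G z Y)))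
    (hC : ∀ k, ∫⁻ z, (∫⁻ Y, F k z Y) ∂μ ≤ C) : ∫⁻ z, (∫⁻ Y, G z Y) ∂μ ≤ C := by
  calc ∫⁻ z, (∫⁻ Y, G z Y) ∂μ
      = ∫⁻ z, (∫⁻ Y, liminf (fun k => F k z Y) atTop) ∂μ :=
        lintegral_congr fun z => lintegral_congr_ae
          ((hlim z).mono fun Y h => h.liminf_eq.symm)
    _ ≤ ∫⁻ z, liminf (fun k => ∫⁻ Y, F k z Y) atTop ∂μ :=
        lintegral_mono fun z => lintegral_liminf_le fun k =>
          (hmeas k).comp measurable_prodMk_left
    _ ≤ liminf (fun k => ∫⁻ z, (∫⁻ Y, F k z Y) ∂μ) atTop :=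
        lintegral_liminf_le fun k => (hmeas k).lintegral_prod_right'
    _ ≤ liminf (fun _ : ℕ => C) atTop := liminf_le_liminf (Eventually.of_forall hC)
    _ = C := liminf_const _

theorem co7_carleson {n : ℕ} (hn : 1 ≤ n) (hd : d = n + 7) {μ : Measure (X d)} [IsFiniteMeasure μ]
    {A : ℝ} (hA : μ (closedBall 0 A)ᶜ = 0) {C₀ : ℝ} (hC₀ : 0 ≤ C₀) (hg : Gr n C₀ μ)
    (hE : En n μ) :
    ∫⁻ z, (∫⁻ Y, ENNReal.ofReal (kr (n + 4) 0 (Y - z)) * ‖L7 n 0 μ Y (Y - z)‖ₑ ^ 2) ∂μ < ⊤ := by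
  obtain ⟨B, hB⟩ := co7_bound hn hd hC₀ hg hE
  have hs : ∀ x, μ {x} = 0 := fun x => hg.singleton hn x
  have hε : ∀ k : ℕ, 0 < 1 / ((k : ℝ) + 1) := fun k => by positivity
  have hlim : Tendsto (fun k : ℕ => 1 / ((k : ℝ) + 1)) atTop (𝓝 0) :=
    tendsto_one_div_add_atTop_nhds_zero_nat
  refine lt_of_le_of_lt (C7F_fatou
    (C := ENNReal.ofReal (c7 n) * ENNReal.ofReal B)
    (fun k => C7F_measF n μ (hε k)) (C7F_limF hd hs hε hlim) fun k => ?_) ?_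
  · exact (co7_energy hn hd (hε k) μ hA).trans (mul_le_mul_right (hB _ (hε k)) _)
  · exact ENNReal.mul_lt_top ENNReal.ofReal_lt_top ENNReal.ofReal_lt_top

end Pool.Agent.H1.C7
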