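import Pool.Agent.H1.C7.D0

/-!
Row H1 (template C5/H1.lean or LD/CoH1.lean, claim1).  L3 y = Lap^3 of χ = ga 4 (· - y).  ∫ (Lap^3 χ) t = ∫ χ Lap^3 t for the kernel t(Y) = 6 kr n + (n+1) ε^2 kr (n+2) of Z = Y - x, Lap^3 t = -c7 n ε^8 kr (n+14).
 Lap χ = (64ρ-8d)χ, Lap^2 χ = 64(64ρ^2 - 16(d+2)ρ + d(d+2))χ, ρ = |Y-y|^2; Lap kr m = (m+1)(m+3-d) kr (m+2) - (m+1)(m+3) ε^2 kr (m+4);
 Lap t = -(n+1)[24 kr(n+2) + 8(n+3)ε^2 kr(n+4) + (n+3)(n+5)ε^4 kr(n+6)],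
 Lap^2 t = (n+1)(n+3)[48 kr(n+4) + 24(n+5)ε^2 kr(n+6) + 6(n+5)(n+7)ε^4 kr(n+8) + (n+5)(n+7)(n+9)ε^6 kr(n+10)].
 One lemma: ∫ (Lap f) g = ∫ f (Lap g) for f = polynomial times Gaussian, g bounded with bounded derivatives (Green), used three times.
-/

set_option autoImplicit false

open MeasureTheory Filter Topology Metric Set
open scoped RealInnerProductSpace ENNReal

namespace Pool.Agent.H1.C7

open Pool.Agent.RZ Pool.Agent.H1.LD

variable {d : ℕ}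

/-- continuous and of polynomial growth -/
private def C7H1_P {E : Type*} [NormedAddCommGroup E] (y : X d) (F : X d → E) : Prop :=
  Continuous F ∧ ∃ C : ℝ, ∃ m : ℕ, 0 ≤ C ∧ ∀ Y, ‖F Y‖ ≤ C * (1 + ‖Y - y‖) ^ m

/-- `f'` is the gradient of `f` -/
private def C7H1_G (f : X d → ℝ) (f' : X d → X d) : Prop :=
  ∀ Y v : X d, HasDerivAt (fun t : ℝ => f (Y + t • v)) ⟪f' Y, v⟫ 0

private theorem C7H1_one (y Y : X d) : (1 : ℝ) ≤ 1 + ‖Y - y‖ := by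
  have := norm_nonneg (Y - y)
  linarith

private theorem C7H1_P_add {E : Type*} [NormedAddCommGroup E] {y : X d} {F G : X d → E} (hF : C7H1_P y F)
    (hG : C7H1_P y G) : C7H1_P y (fun Y => F Y + G Y) := by
  obtain ⟨cF, C, m, hC, hb⟩ := hF
  obtain ⟨cG, C', m', hC', hb'⟩ := hG
  refine ⟨cF.add cG, C + C', m + m', by positivity, fun Y => ?_⟩
  have h1 := C7H1_one y Y
  have h2 : (1 + ‖Y - y‖) ^ m ≤ (1 + ‖Y - y‖) ^ (m + m') := pow_le_pow_right₀ h1 (Nat.le_add_right _ _)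
  have h3 : (1 + ‖Y - y‖) ^ m' ≤ (1 + ‖Y - y‖) ^ (m + m') := pow_le_pow_right₀ h1 (Nat.le_add_left _ _)
  calc ‖F Y + G Y‖ ≤ ‖F Y‖ + ‖G Y‖ := norm_add_le _ _
    _ ≤ C * (1 + ‖Y - y‖) ^ (m + m') + C' * (1 + ‖Y - y‖) ^ (m + m') :=
        add_le_add ((hb Y).trans (mul_le_mul_of_nonneg_left h2 hC)) ((hb' Y).trans (mul_le_mul_of_nonneg_left h3 hC'))
    _ = _ := by ring

private theorem C7H1_P_prod {E E' E'' : Type*} [NormedAddCommGroup E] [NormedAddCommGroup E'] [NormedAddCommGroup E'']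
    {y : X d} {F : X d → E} {G : X d → E'} {H : X d → E''} (hF : C7H1_P y F) (hG : C7H1_P y G) (hc : Continuous H)
    (hH : ∀ Y, ‖H Y‖ ≤ ‖F Y‖ * ‖G Y‖) : C7H1_P y H := by
  obtain ⟨_, C, m, hC, hb⟩ := hF
  obtain ⟨_, C', m', hC', hb'⟩ := hG
  refine ⟨hc, C * C', m + m', by positivity, fun Y => ?_⟩
  have h1 := C7H1_one y Y
  calc ‖H Y‖ ≤ ‖F Y‖ * ‖G Y‖ := hH Y
    _ ≤ (C * (1 + ‖Y - y‖) ^ m) * (C' * (1 + ‖Y - y‖) ^ m') := mul_le_mul (hb Y) (hb' Y) (norm_nonneg _) (by positivity)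
    _ = _ := by rw [pow_add]; ring

private theorem C7H1_P_smul {E : Type*} [NormedAddCommGroup E] [NormedSpace ℝ E] {y : X d} {F : X d → ℝ} {G : X d → E}
    (hF : C7H1_P y F) (hG : C7H1_P y G) : C7H1_P y (fun Y => F Y • G Y) :=
  C7H1_P_prod hF hG (hF.1.smul hG.1) fun _ => (norm_smul _ _).le

private theorem C7H1_P_mul {y : X d} {F G : X d → ℝ} (hF : C7H1_P y F) (hG : C7H1_P y G) : C7H1_P y (fun Y => F Y * G Y) :=
  C7H1_P_smul hF hG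

private theorem C7H1_P_inner {E : Type*} [NormedAddCommGroup E] [InnerProductSpace ℝ E] {y : X d} {F G : X d → E}
    (hF : C7H1_P y F) (hG : C7H1_P y G) : C7H1_P y (fun Y => ⟪F Y, G Y⟫) :=
  C7H1_P_prod hF hG (hF.1.inner hG.1) fun _ => norm_inner_le_norm _ _

private theorem C7H1_P_const {E : Type*} [NormedAddCommGroup E] {y : X d} (c : E) : C7H1_P y (fun _ => c) :=
  ⟨continuous_const, ‖c‖, 0, norm_nonneg _, fun _ => by simp⟩

private theorem C7H1_P_sub {y : X d} (p : X d) : C7H1_P y (fun Y => Y - p) := by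
  refine ⟨continuous_id.sub continuous_const, 1 + ‖y - p‖, 1, by positivity, fun Y => ?_⟩
  have h1 : ‖Y - p‖ ≤ ‖Y - y‖ + ‖y - p‖ := by
    have := norm_add_le (Y - y) (y - p)
    rwa [sub_add_sub_cancel] at this
  have h2 := norm_nonneg (Y - y)
  have h3 := norm_nonneg (y - p)
  nlinarith [mul_nonneg h2 h3]

private theorem C7H1_P_kr {y : X d} (m : ℕ) {ε : ℝ} (hε : 0 < ε) (x : X d) : C7H1_P y (fun Y => kr m ε (Y - x)) := by
  refine ⟨(kr_continuous m hε).comp (continuous_id.sub continuous_const), ε⁻¹ ^ (m + 1), 0, by positivity, fun Y => ?_⟩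
  rw [Real.norm_of_nonneg (kr_nonneg _ _ _), pow_zero, mul_one]
  exact kr_le_eps m hε _

private theorem C7H1_P_nsq {y : X d} (p : X d) : C7H1_P y (fun Y => ‖Y - p‖ ^ 2) := by
  have h := C7H1_P_inner (C7H1_P_sub (y := y) p) (C7H1_P_sub (y := y) p)
  simpa only [real_inner_self_eq_norm_sq] using h

private theorem C7H1_int {E : Type*} [NormedAddCommGroup E] [NormedSpace ℝ E] {y : X d} {F : X d → E} (hF : C7H1_P y F) :
    Integrable (fun Y => ga 4 (Y - y) • F Y) := by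
  obtain ⟨cF, C, m, hC, hb⟩ := hF
  have h1 := ((ga_integrable (d := d) (b := 4) (by norm_num) m).comp_sub_right y).const_mul C
  refine h1.mono' ?_ (Eventually.of_forall fun Y => ?_)
  · exact (((ga_continuous 4).comp (continuous_id.sub continuous_const)).smul cF).aestronglyMeasurable
  · rw [norm_smul, Real.norm_of_nonneg (ga_nonneg 4 _)]
    calc ga 4 (Y - y) * ‖F Y‖ ≤ ga 4 (Y - y) * (C * (1 + ‖Y - y‖) ^ m) :=
          mul_le_mul_of_nonneg_left (hb Y) (ga_nonneg 4 _)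
      _ = C * ((1 + ‖Y - y‖) ^ m * ga 4 (Y - y)) := by ring

private theorem C7H1_intr {y : X d} {F : X d → ℝ} (hF : C7H1_P y F) : Integrable (fun Y => ga 4 (Y - y) * F Y) :=
  C7H1_int hF

private theorem C7H1_congr {f : X d → ℝ} {f' g' : X d → X d} (h : C7H1_G f f') (hg : ∀ Y, f' Y = g' Y) : C7H1_G f g' := by
  intro Y v
  rw [← hg Y]
  exact h Y v

private theorem C7H1_mul {f g : X d → ℝ} {f' g' : X d → X d} (hf : C7H1_G f f') (hg : C7H1_G g g') :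
    C7H1_G (fun Y => f Y * g Y) (fun Y => f Y • g' Y + g Y • f' Y) := by
  intro Y v
  have h := (hf Y v).mul (hg Y v)
  refine h.congr_deriv ?_
  rw [inner_add_left, real_inner_smul_left, real_inner_smul_left, zero_smul, add_zero]
  ring

private theorem C7H1_add {f g : X d → ℝ} {f' g' : X d → X d} (hf : C7H1_G f f') (hg : C7H1_G g g') :
    C7H1_G (fun Y => f Y + g Y) (fun Y => f' Y + g' Y) := by
  intro Y v
  have h := (hf Y v).add (hg Y v)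
  refine h.congr_deriv ?_
  rw [inner_add_left]

private theorem C7H1_cmul {f : X d → ℝ} {f' : X d → X d} (c : ℝ) (hf : C7H1_G f f') :
    C7H1_G (fun Y => c * f Y) (fun Y => c • f' Y) := by
  intro Y v
  have h := (hf Y v).const_mul c
  refine h.congr_deriv ?_
  rw [real_inner_smul_left]

private theorem C7H1_const (c : ℝ) : C7H1_G (fun _ : X d => c) (fun _ => 0) := by
  intro Y v
  refine (hasDerivAt_const (0 : ℝ) c).congr_deriv ?_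
  rw [inner_zero_left]

private theorem C7H1_line (p Y v : X d) : HasDerivAt (fun t : ℝ => Y + t • v - p) v 0 := by
  have h2 : HasDerivAt (fun t : ℝ => t • v) ((1 : ℝ) • v) 0 := (hasDerivAt_id (0 : ℝ)).smul_const v
  rw [one_smul] at h2
  exact (h2.const_add Y).sub_const p

private theorem C7H1_nsq (p : X d) : C7H1_G (fun Y => ‖Y - p‖ ^ 2) (fun Y => (2 : ℝ) • (Y - p)) := by
  intro Y v
  refine (C7H1_line p Y v).norm_sq.congr_deriv ?_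
  rw [real_inner_smul_left, zero_smul, add_zero]

private theorem C7H1_lin (p e : X d) : C7H1_G (fun Y => ⟪Y - p, e⟫) (fun _ => e) := by
  intro Y v
  have h := (C7H1_line p Y v).inner ℝ (hasDerivAt_const (0 : ℝ) e)
  refine h.congr_deriv ?_
  rw [inner_zero_right, zero_add, real_inner_comm]

private theorem C7H1_ga (y : X d) : C7H1_G (fun Y => ga 4 (Y - y)) (fun Y => (-8 * ga 4 (Y - y)) • (Y - y)) := by
  intro Y v
  have h1 : HasDerivAt (fun t : ℝ => -(4 * ‖Y + t • v - y‖ ^ 2)) (-(4 * ⟪(2 : ℝ) • (Y - y), v⟫)) 0 :=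
    ((C7H1_nsq y Y v).const_mul 4).neg
  have h : HasDerivAt (fun t : ℝ => ga 4 (Y + t • v - y))
      (Real.exp (-(4 * ‖Y + (0 : ℝ) • v - y‖ ^ 2)) * (-(4 * ⟪(2 : ℝ) • (Y - y), v⟫))) 0 := h1.exp
  refine h.congr_deriv ?_
  rw [real_inner_smul_left, real_inner_smul_left, zero_smul, add_zero]
  unfold ga
  ring

private theorem C7H1_kr (m : ℕ) {ε : ℝ} (hε : 0 < ε) (x : X d) :
    C7H1_G (fun Y => kr m ε (Y - x)) (fun Y => (-(m + 1) * kr (m + 2) ε (Y - x)) • (Y - x)) := by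
  intro Y v
  have hpos : ∀ Z : X d, 0 < ‖Z‖ ^ 2 + ε ^ 2 := fun Z => by positivity
  have h1 : HasDerivAt (fun t : ℝ => ‖Y + t • v - x‖ ^ 2 + ε ^ 2) ⟪(2 : ℝ) • (Y - x), v⟫ 0 :=
    (C7H1_nsq x Y v).add_const (ε ^ 2)
  have h0 : ‖Y + (0 : ℝ) • v - x‖ ^ 2 + ε ^ 2 = ‖Y - x‖ ^ 2 + ε ^ 2 := by rw [zero_smul, add_zero]
  have hs : 0 < Real.sqrt (‖Y - x‖ ^ 2 + ε ^ 2) := Real.sqrt_pos.2 (hpos _)
  have h2 : HasDerivAt (fun t : ℝ => Real.sqrt (‖Y + t • v - x‖ ^ 2 + ε ^ 2))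
      (⟪(2 : ℝ) • (Y - x), v⟫ / (2 * Real.sqrt (‖Y + (0 : ℝ) • v - x‖ ^ 2 + ε ^ 2))) 0 :=
    h1.sqrt (by rw [h0]; exact (hpos _).ne')
  have h3 : HasDerivAt (fun t : ℝ => (Real.sqrt (‖Y + t • v - x‖ ^ 2 + ε ^ 2))⁻¹)
      (-(⟪(2 : ℝ) • (Y - x), v⟫ / (2 * Real.sqrt (‖Y + (0 : ℝ) • v - x‖ ^ 2 + ε ^ 2))) /
        Real.sqrt (‖Y + (0 : ℝ) • v - x‖ ^ 2 + ε ^ 2) ^ 2) 0 := h2.inv (by rw [h0]; exact hs.ne')
  have h4 : HasDerivAt (fun t : ℝ => kr m ε (Y + t • v - x))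
      (((m + 1 : ℕ) : ℝ) * (Real.sqrt (‖Y + (0 : ℝ) • v - x‖ ^ 2 + ε ^ 2))⁻¹ ^ (m + 1 - 1) *
        (-(⟪(2 : ℝ) • (Y - x), v⟫ / (2 * Real.sqrt (‖Y + (0 : ℝ) • v - x‖ ^ 2 + ε ^ 2))) /
        Real.sqrt (‖Y + (0 : ℝ) • v - x‖ ^ 2 + ε ^ 2) ^ 2)) 0 := h3.pow (m + 1)
  refine h4.congr_deriv ?_
  rw [h0, real_inner_smul_left, real_inner_smul_left]
  unfold kr
  set S := Real.sqrt (‖Y - x‖ ^ 2 + ε ^ 2) with hS
  have hne : S ≠ 0 := hs.ne'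
  simp only [Nat.add_sub_cancel, Nat.cast_add, Nat.cast_one, inv_pow]
  rw [show m + 2 + 1 = m + 3 by ring, pow_add S m 3]
  field_simp

private theorem C7H1_kr_rel (m : ℕ) {ε : ℝ} (hε : 0 < ε) (Z : X d) :
    kr m ε Z = kr (m + 2) ε Z * (‖Z‖ ^ 2 + ε ^ 2) := by
  have hpos : 0 < ‖Z‖ ^ 2 + ε ^ 2 := by positivity
  unfold kr
  have hs : 0 < Real.sqrt (‖Z‖ ^ 2 + ε ^ 2) := Real.sqrt_pos.2 hpos
  have h2 : ‖Z‖ ^ 2 + ε ^ 2 = Real.sqrt (‖Z‖ ^ 2 + ε ^ 2) ^ 2 := (Real.sq_sqrt hpos.le).symm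
  conv_rhs => rw [h2]
  rw [Real.sqrt_sq hs.le]
  set S := Real.sqrt (‖Z‖ ^ 2 + ε ^ 2) with hS
  have hne : S ≠ 0 := hs.ne'
  rw [show m + 2 + 1 = m + 1 + 2 by ring, pow_add _ (m + 1) 2, mul_assoc, ← mul_pow, inv_mul_cancel₀ hne, one_pow, mul_one]

private theorem C7H1_zero {g g' : X d → ℝ} {v : X d} (hd : ∀ Y, HasDerivAt (fun t : ℝ => g (Y + t • v)) (g' Y) 0)
    (hg : Integrable g) (hg' : Integrable g') : ∫ Y, g' Y = 0 := by
  have h := integral_bilinear_hasLineDerivAt_right_eq_neg_left_of_integrable (μ := (volume : Measure (X d)))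
    (f := fun _ : X d => (1 : ℝ)) (f' := fun _ => (0 : ℝ)) (g := g) (g' := g') (v := v)
    (B := ContinuousLinearMap.mul ℝ ℝ) (by simp) (by simpa using hg') (by simpa using hg)
    (fun x _ => hasDerivAt_const (0 : ℝ) (1 : ℝ)) (fun x _ => hd x)
  simpa using h

private theorem C7H1_euler {y p : X d} {F : X d → ℝ} {F' : X d → X d} (hG : C7H1_G F F') (hF : C7H1_P y F)
    (hF' : C7H1_P y F') :
    Integrable (fun Y => ga 4 (Y - y) * (⟪F' Y - (8 * F Y) • (Y - y), Y - p⟫ + d * F Y)) ∧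
    ∫ Y, ga 4 (Y - y) * (⟪F' Y - (8 * F Y) • (Y - y), Y - p⟫ + d * F Y) = 0 := by
  have b := EuclideanSpace.basisFun (Fin d) ℝ
  have hV : C7H1_P y (fun Y => F' Y - (8 * F Y) • (Y - y)) := by
    have h := C7H1_P_add hF' (C7H1_P_smul (C7H1_P_mul (C7H1_P_const (y := y) (-8 : ℝ)) hF) (C7H1_P_sub (y := y) y))
    refine (funext fun Y => ?_ : (fun Y => F' Y + (-8 * F Y) • (Y - y)) = fun Y => F' Y - (8 * F Y) • (Y - y)) ▸ h
    module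
  have hP : ∀ i, C7H1_P y (fun Y => ⟪F' Y - (8 * F Y) • (Y - y), b i⟫ * ⟪Y - p, b i⟫ + F Y) := fun i =>
    C7H1_P_add (C7H1_P_mul (C7H1_P_inner hV (C7H1_P_const _)) (C7H1_P_inner (C7H1_P_sub p) (C7H1_P_const _))) hF
  have hi : ∀ i, ∫ Y, ga 4 (Y - y) * (⟪F' Y - (8 * F Y) • (Y - y), b i⟫ * ⟪Y - p, b i⟫ + F Y) = 0 := by
    intro i
    refine C7H1_zero (g := fun Y => ga 4 (Y - y) * (F Y * ⟪Y - p, b i⟫)) (v := b i) (fun Y => ?_) ?_ (C7H1_intr (hP i))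
    · have h := C7H1_mul (C7H1_ga y) (C7H1_mul hG (C7H1_lin p (b i))) Y (b i)
      refine h.congr_deriv ?_
      have hb : ⟪b i, b i⟫ = 1 := by
        rw [real_inner_self_eq_norm_sq, b.orthonormal.1 i]
        norm_num
      simp only [inner_add_left, inner_sub_left, real_inner_smul_left, hb]
      ring
    · exact C7H1_intr (C7H1_P_mul hF (C7H1_P_inner (C7H1_P_sub p) (C7H1_P_const _)))
  have he : ∀ Y, ga 4 (Y - y) * (⟪F' Y - (8 * F Y) • (Y - y), Y - p⟫ + d * F Y) =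
      ∑ i, ga 4 (Y - y) * (⟪F' Y - (8 * F Y) • (Y - y), b i⟫ * ⟪Y - p, b i⟫ + F Y) := by
    intro Y
    rw [← Finset.mul_sum, Finset.sum_add_distrib, Finset.sum_const, Finset.card_univ, Fintype.card_fin, nsmul_eq_mul]
    congr 2
    rw [← b.sum_inner_mul_inner]
    refine Finset.sum_congr rfl fun i _ => ?_
    rw [real_inner_comm (Y - p) (b i)]
  have hint : ∀ i, Integrable (fun Y => ga 4 (Y - y) * (⟪F' Y - (8 * F Y) • (Y - y), b i⟫ * ⟪Y - p, b i⟫ + F Y)) :=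
    fun i => C7H1_intr (hP i)
  constructor
  · refine (integrable_finsetSum Finset.univ fun i _ => hint i).congr (Eventually.of_forall fun Y => ?_)
    exact (he Y).symm
  · rw [integral_congr_ae (Eventually.of_forall he), integral_finsetSum _ fun i _ => hint i]
    exact Finset.sum_eq_zero fun i _ => hi i


/-- `f1` is the factor of `Y - p` in the gradient of `f`, both of polynomial growth -/
private def C7H1_S (y p : X d) (f f1 : X d → ℝ) : Prop :=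
  C7H1_G f (fun Y => f1 Y • (Y - p)) ∧ C7H1_P y f ∧ C7H1_P y f1

private theorem C7H1_S_congr {y p : X d} {f f1 g g1 : X d → ℝ} (h : C7H1_S y p f f1)
    (e : ∀ Y, f Y = g Y) (e1 : ∀ Y, f1 Y = g1 Y) : C7H1_S y p g g1 := by
  have h1 : f = g := funext e
  have h2 : f1 = g1 := funext e1
  rw [← h1, ← h2]
  exact h

private theorem C7H1_S_add {y p : X d} {f f1 g g1 : X d → ℝ} (hf : C7H1_S y p f f1)
    (hg : C7H1_S y p g g1) : C7H1_S y p (fun Y => f Y + g Y) (fun Y => f1 Y + g1 Y) :=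
  ⟨C7H1_congr (C7H1_add hf.1 hg.1) fun Y => (add_smul _ _ _).symm,
    C7H1_P_add hf.2.1 hg.2.1, C7H1_P_add hf.2.2 hg.2.2⟩

private theorem C7H1_S_const (y p : X d) (c : ℝ) : C7H1_S y p (fun _ => c) (fun _ => 0) :=
  ⟨C7H1_congr (C7H1_const c) fun _ => (zero_smul ℝ _).symm, C7H1_P_const c, C7H1_P_const 0⟩

private theorem C7H1_S_mul {y p : X d} {f f1 g g1 : X d → ℝ} (hf : C7H1_S y p f f1)
    (hg : C7H1_S y p g g1) :
    C7H1_S y p (fun Y => f Y * g Y) (fun Y => f Y * g1 Y + g Y * f1 Y) :=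
  ⟨C7H1_congr (C7H1_mul hf.1 hg.1) fun Y => by rw [smul_smul, smul_smul, ← add_smul],
    C7H1_P_mul hf.2.1 hg.2.1,
    C7H1_P_add (C7H1_P_mul hf.2.1 hg.2.2) (C7H1_P_mul hg.2.1 hf.2.2)⟩

private theorem C7H1_S_cmul {y p : X d} {f f1 : X d → ℝ} (c : ℝ) (hf : C7H1_S y p f f1) :
    C7H1_S y p (fun Y => c * f Y) (fun Y => c * f1 Y) :=
  ⟨C7H1_congr (C7H1_cmul c hf.1) fun Y => by rw [smul_smul],
    C7H1_P_mul (C7H1_P_const c) hf.2.1, C7H1_P_mul (C7H1_P_const c) hf.2.2⟩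

private theorem C7H1_S_nsq (y : X d) : C7H1_S y y (fun Y => ‖Y - y‖ ^ 2) (fun _ => 2) :=
  ⟨C7H1_nsq y, C7H1_P_nsq y, C7H1_P_const 2⟩

private theorem C7H1_S_kr (m m' : ℕ) (hm : m' = m + 2) {c : ℝ} (hc : c = -((m : ℝ) + 1)) {ε : ℝ} (hε : 0 < ε)
    (x y : X d) :
    C7H1_S y x (fun Y => kr m ε (Y - x)) (fun Y => c * kr m' ε (Y - x)) := by
  subst hm hc
  exact ⟨C7H1_kr m hε x, C7H1_P_kr m hε x, C7H1_P_mul (C7H1_P_const _) (C7H1_P_kr (m + 2) hε x)⟩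

/-- the formula of Green for `a ga` and `b` -/
private theorem C7H1_green {x y : X d} {a α γ γ2 b β β2 l m : X d → ℝ} (ha : C7H1_S y y a α)
    (hγ : C7H1_S y y γ γ2) (hb : C7H1_S y x b β) (hβ : C7H1_S y x β β2)
    (h1 : ∀ Y, γ Y = α Y - 8 * a Y)
    (hl : ∀ Y, γ2 Y * ‖Y - y‖ ^ 2 - 8 * γ Y * ‖Y - y‖ ^ 2 + d * γ Y = l Y)
    (hm : ∀ Y, β2 Y * ‖Y - x‖ ^ 2 + d * β Y = m Y) :
    ∫ Y, ga 4 (Y - y) * (l Y * b Y) = ∫ Y, ga 4 (Y - y) * (a Y * m Y) := by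
  have PZ := C7H1_P_sub (y := y) x
  have Pw := C7H1_P_sub (y := y) y
  have E1 := C7H1_euler (y := y) (p := y) (C7H1_mul hγ.1 hb.1) (C7H1_P_mul hγ.2.1 hb.2.1)
    (C7H1_P_add (C7H1_P_smul hγ.2.1 (C7H1_P_smul hb.2.2 PZ))
      (C7H1_P_smul hb.2.1 (C7H1_P_smul hγ.2.2 Pw)))
  have E2 := C7H1_euler (y := y) (p := x) (C7H1_mul ha.1 hβ.1) (C7H1_P_mul ha.2.1 hβ.2.1)
    (C7H1_P_add (C7H1_P_smul ha.2.1 (C7H1_P_smul hβ.2.2 PZ))
      (C7H1_P_smul hβ.2.1 (C7H1_P_smul ha.2.2 Pw)))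
  have Pl : C7H1_P y l := by
    have h := C7H1_P_add (C7H1_P_add (C7H1_P_mul hγ.2.2 (C7H1_P_nsq (y := y) y))
      (C7H1_P_mul (C7H1_P_mul (C7H1_P_const (-8 : ℝ)) hγ.2.1) (C7H1_P_nsq (y := y) y)))
      (C7H1_P_mul (C7H1_P_const (d : ℝ)) hγ.2.1)
    refine (funext fun Y => ?_ : _ = l) ▸ h
    rw [← hl Y]
    ring
  have Pm : C7H1_P y m := by
    have h := C7H1_P_add (C7H1_P_mul hβ.2.2 (C7H1_P_nsq (y := y) x))
      (C7H1_P_mul (C7H1_P_const (d : ℝ)) hβ.2.1)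
    refine (funext fun Y => ?_ : _ = m) ▸ h
    rw [← hm Y]
  have I1 := C7H1_intr (C7H1_P_mul Pl hb.2.1)
  have I2 := C7H1_intr (C7H1_P_mul ha.2.1 Pm)
  rw [← sub_eq_zero, ← integral_sub I1 I2]
  have h2 := integral_sub E1.1 E2.1
  rw [E1.2, E2.2, sub_zero] at h2
  rw [← h2]
  refine integral_congr_ae (Eventually.of_forall fun Y => ?_)
  have e1 := h1 Y
  have e2 := hl Y
  have e3 := hm Y
  beta_reduce
  rw [← e2, ← e3]
  generalize Y - x = Z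
  generalize Y - y = w
  simp only [inner_add_left, inner_sub_left, real_inner_smul_left, real_inner_self_eq_norm_sq]
  rw [real_inner_comm w Z]
  generalize ⟪w, Z⟫ = s
  generalize ga 4 w = χ
  linear_combination (-(χ * β Y * s)) * e1

theorem claim1_7 {n : ℕ} (hd : d = n + 7) {ε : ℝ} (hε : 0 < ε) (x y : X d) :
    ∫ Y, L3 y Y * (6 * kr n ε (Y - x) + (n + 1) * ε ^ 2 * kr (n + 2) ε (Y - x)) =
      -c7 n * ∫ Y, ga 4 (Y - y) * (ε ^ 8 * kr (n + 14) ε (Y - x)) := by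
  have hdr : (d : ℝ) = (n : ℝ) + 7 := by
    rw [hd]
    push_cast
    ring
  -- the kernels
  have K0 := C7H1_S_kr n (n + 2) (by ring) (c := -((n : ℝ) + 1)) (by ring) hε x y
  have K2 := C7H1_S_kr (n + 2) (n + 4) (by ring) (c := -((n : ℝ) + 3)) (by push_cast; ring) hε x y
  have K4 := C7H1_S_kr (n + 4) (n + 6) (by ring) (c := -((n : ℝ) + 5)) (by push_cast; ring) hε x y
  have K6 := C7H1_S_kr (n + 6) (n + 8) (by ring) (c := -((n : ℝ) + 7)) (by push_cast; ring) hε x y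
  have K8 := C7H1_S_kr (n + 8) (n + 10) (by ring) (c := -((n : ℝ) + 9)) (by push_cast; ring) hε x y
  have K10 := C7H1_S_kr (n + 10) (n + 12) (by ring) (c := -((n : ℝ) + 11)) (by push_cast; ring) hε x y
  have K12 := C7H1_S_kr (n + 12) (n + 14) (by ring) (c := -((n : ℝ) + 13)) (by push_cast; ring) hε x y
  have R2 := fun Y => C7H1_kr_rel (n + 2) hε (Y - x)
  have R4 := fun Y => C7H1_kr_rel (n + 4) hε (Y - x)
  have R6 := fun Y => C7H1_kr_rel (n + 6) hε (Y - x)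
  have R8 := fun Y => C7H1_kr_rel (n + 8) hε (Y - x)
  have R10 := fun Y => C7H1_kr_rel (n + 10) hε (Y - x)
  have R12 := fun Y => C7H1_kr_rel (n + 12) hε (Y - x)
  -- `t`, its Laplacians and the gradients
  have T0 := C7H1_S_add (C7H1_S_cmul 6 K0) (C7H1_S_cmul (((n : ℝ) + 1) * ε ^ 2) K2)
  have B1 := C7H1_S_add (C7H1_S_cmul (-(6 * ((n : ℝ) + 1))) K2)
    (C7H1_S_cmul (-(((n : ℝ) + 1) * (n + 3) * ε ^ 2)) K4)
  have T1 := C7H1_S_add (C7H1_S_add (C7H1_S_cmul (-(24 * ((n : ℝ) + 1))) K2)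
    (C7H1_S_cmul (-(8 * ((n : ℝ) + 1) * (n + 3) * ε ^ 2)) K4))
    (C7H1_S_cmul (-(((n : ℝ) + 1) * (n + 3) * (n + 5) * ε ^ 4)) K6)
  have B2 := C7H1_S_add (C7H1_S_add (C7H1_S_cmul (24 * ((n : ℝ) + 1) * (n + 3)) K4)
    (C7H1_S_cmul (8 * ((n : ℝ) + 1) * (n + 3) * (n + 5) * ε ^ 2) K6))
    (C7H1_S_cmul (((n : ℝ) + 1) * (n + 3) * (n + 5) * (n + 7) * ε ^ 4) K8)
  have T2 := C7H1_S_add (C7H1_S_add (C7H1_S_add (C7H1_S_cmul (48 * ((n : ℝ) + 1) * (n + 3)) K4)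
    (C7H1_S_cmul (24 * ((n : ℝ) + 1) * (n + 3) * (n + 5) * ε ^ 2) K6))
    (C7H1_S_cmul (6 * ((n : ℝ) + 1) * (n + 3) * (n + 5) * (n + 7) * ε ^ 4) K8))
    (C7H1_S_cmul (((n : ℝ) + 1) * (n + 3) * (n + 5) * (n + 7) * (n + 9) * ε ^ 6) K10)
  have B3 := C7H1_S_add (C7H1_S_add (C7H1_S_add
    (C7H1_S_cmul (-(48 * ((n : ℝ) + 1) * (n + 3) * (n + 5))) K6)
    (C7H1_S_cmul (-(24 * ((n : ℝ) + 1) * (n + 3) * (n + 5) * (n + 7) * ε ^ 2)) K8))
    (C7H1_S_cmul (-(6 * ((n : ℝ) + 1) * (n + 3) * (n + 5) * (n + 7) * (n + 9) * ε ^ 4)) K10))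
    (C7H1_S_cmul (-(((n : ℝ) + 1) * (n + 3) * (n + 5) * (n + 7) * (n + 9) * (n + 11) * ε ^ 6)) K12)
  have T0' := C7H1_S_congr (g := fun Y => 6 * kr n ε (Y - x) + (n + 1) * ε ^ 2 * kr (n + 2) ε (Y - x))
    T0 (fun Y => rfl) (g1 := fun Y => -(6 * ((n : ℝ) + 1)) * kr (n + 2) ε (Y - x) +
      -(((n : ℝ) + 1) * (n + 3) * ε ^ 2) * kr (n + 4) ε (Y - x)) (fun Y => by ring)
  have T1' := C7H1_S_congr T1 (fun Y => rfl) (g1 := fun Y =>
    24 * ((n : ℝ) + 1) * (n + 3) * kr (n + 4) ε (Y - x) +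
      8 * ((n : ℝ) + 1) * (n + 3) * (n + 5) * ε ^ 2 * kr (n + 6) ε (Y - x) +
      ((n : ℝ) + 1) * (n + 3) * (n + 5) * (n + 7) * ε ^ 4 * kr (n + 8) ε (Y - x)) (fun Y => by ring)
  have T2' := C7H1_S_congr T2 (fun Y => rfl) (g1 := fun Y =>
    -(48 * ((n : ℝ) + 1) * (n + 3) * (n + 5)) * kr (n + 6) ε (Y - x) +
      -(24 * ((n : ℝ) + 1) * (n + 3) * (n + 5) * (n + 7) * ε ^ 2) * kr (n + 8) ε (Y - x) +
      -(6 * ((n : ℝ) + 1) * (n + 3) * (n + 5) * (n + 7) * (n + 9) * ε ^ 4) * kr (n + 10) ε (Y - x) +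
      -(((n : ℝ) + 1) * (n + 3) * (n + 5) * (n + 7) * (n + 9) * (n + 11) * ε ^ 6) *
        kr (n + 12) ε (Y - x)) (fun Y => by ring)
  -- the Gaussian side
  have Gr := C7H1_S_nsq y
  have A2 : C7H1_S y y (fun Y => 64 * (64 * ‖Y - y‖ ^ 4 - 16 * (d + 2) * ‖Y - y‖ ^ 2 + d * (d + 2)))
      (fun Y => 16384 * ‖Y - y‖ ^ 2 - 2048 * (d + 2)) :=
    C7H1_S_congr (C7H1_S_add (C7H1_S_add (C7H1_S_cmul 4096 (C7H1_S_mul Gr Gr))
      (C7H1_S_cmul (-(1024 * ((d : ℝ) + 2))) Gr)) (C7H1_S_const y y (64 * (d : ℝ) * (d + 2))))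
      (fun Y => by ring) (fun Y => by ring)
  have C2 : C7H1_S y y (fun Y => -32768 * ‖Y - y‖ ^ 4 + 8192 * (d + 4) * ‖Y - y‖ ^ 2 -
      512 * (d + 2) * (d + 4)) (fun Y => -131072 * ‖Y - y‖ ^ 2 + 16384 * (d + 4)) :=
    C7H1_S_congr (C7H1_S_add (C7H1_S_add (C7H1_S_cmul (-32768) (C7H1_S_mul Gr Gr))
      (C7H1_S_cmul (8192 * ((d : ℝ) + 4)) Gr)) (C7H1_S_const y y (-(512 * ((d : ℝ) + 2) * (d + 4)))))
      (fun Y => by ring) (fun Y => by ring)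
  have A1 : C7H1_S y y (fun Y => 64 * ‖Y - y‖ ^ 2 - 8 * d) (fun _ => 128) :=
    C7H1_S_congr (C7H1_S_add (C7H1_S_cmul 64 Gr) (C7H1_S_const y y (-(8 * (d : ℝ)))))
      (fun Y => by ring) (fun Y => by norm_num)
  have C1 : C7H1_S y y (fun Y => -512 * ‖Y - y‖ ^ 2 + 64 * (d + 2)) (fun _ => -1024) :=
    C7H1_S_congr (C7H1_S_add (C7H1_S_cmul (-512) Gr) (C7H1_S_const y y (64 * ((d : ℝ) + 2))))
      (fun Y => by ring) (fun Y => by norm_num)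
  have A0 := C7H1_S_const y y (1 : ℝ)
  have C0 := C7H1_S_const y y (-8 : ℝ)
  -- three times Green
  have g1 := C7H1_green (x := x) (y := y) A2 C2 T0' B1
    (l := fun Y => 512 * (512 * ‖Y - y‖ ^ 6 - 192 * (d + 4) * ‖Y - y‖ ^ 4 +
      24 * (d + 2) * (d + 4) * ‖Y - y‖ ^ 2 - d * (d + 2) * (d + 4)))
    (m := fun Y => -(24 * ((n : ℝ) + 1)) * kr (n + 2) ε (Y - x) +
      -(8 * ((n : ℝ) + 1) * (n + 3) * ε ^ 2) * kr (n + 4) ε (Y - x) +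
      -(((n : ℝ) + 1) * (n + 3) * (n + 5) * ε ^ 4) * kr (n + 6) ε (Y - x))
    (fun Y => by ring) (fun Y => by ring) (fun Y => by
      rw [hdr]
      linear_combination (-(6 * ((n : ℝ) + 1) * (n + 3))) * R2 Y -
        (((n : ℝ) + 1) * (n + 3) * (n + 5) * ε ^ 2) * R4 Y)
  have g2 := C7H1_green (x := x) (y := y) A1 C1 T1' B2
    (l := fun Y => 64 * (64 * ‖Y - y‖ ^ 4 - 16 * (d + 2) * ‖Y - y‖ ^ 2 + d * (d + 2)))
    (m := fun Y => 48 * ((n : ℝ) + 1) * (n + 3) * kr (n + 4) ε (Y - x) +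
      24 * ((n : ℝ) + 1) * (n + 3) * (n + 5) * ε ^ 2 * kr (n + 6) ε (Y - x) +
      6 * ((n : ℝ) + 1) * (n + 3) * (n + 5) * (n + 7) * ε ^ 4 * kr (n + 8) ε (Y - x) +
      ((n : ℝ) + 1) * (n + 3) * (n + 5) * (n + 7) * (n + 9) * ε ^ 6 * kr (n + 10) ε (Y - x))
    (fun Y => by ring) (fun Y => by ring) (fun Y => by
      rw [hdr]
      linear_combination (((n : ℝ) + 1) * (n + 3) * (n + 5)) * (24 * R4 Y +
        8 * (n + 7) * ε ^ 2 * R6 Y + (n + 7) * (n + 9) * ε ^ 4 * R8 Y))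
  have g3 := C7H1_green (x := x) (y := y) A0 C0 T2' B3
    (l := fun Y => 64 * ‖Y - y‖ ^ 2 - 8 * d)
    (m := fun Y => -c7 n * (ε ^ 8 * kr (n + 14) ε (Y - x)))
    (fun Y => by norm_num) (fun Y => by ring) (fun Y => by
      rw [hdr]
      unfold c7
      linear_combination (-(((n : ℝ) + 1) * (n + 3) * (n + 5) * (n + 7))) * (48 * R6 Y +
        24 * (n + 9) * ε ^ 2 * R8 Y + 6 * (n + 9) * (n + 11) * ε ^ 4 * R10 Y +
        (n + 9) * (n + 11) * (n + 13) * ε ^ 6 * R12 Y))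
  have f0 : ∫ Y, L3 y Y * (6 * kr n ε (Y - x) + (n + 1) * ε ^ 2 * kr (n + 2) ε (Y - x)) =
      ∫ Y, ga 4 (Y - y) * (512 * (512 * ‖Y - y‖ ^ 6 - 192 * (d + 4) * ‖Y - y‖ ^ 4 +
        24 * (d + 2) * (d + 4) * ‖Y - y‖ ^ 2 - d * (d + 2) * (d + 4)) *
        (6 * kr n ε (Y - x) + (n + 1) * ε ^ 2 * kr (n + 2) ε (Y - x))) := by
    refine integral_congr_ae (Eventually.of_forall fun Y => ?_)
    simp only [L3]
    ring
  have f1 : ∫ Y, ga 4 (Y - y) * (1 * (-c7 n * (ε ^ 8 * kr (n + 14) ε (Y - x)))) =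
      -c7 n * ∫ Y, ga 4 (Y - y) * (ε ^ 8 * kr (n + 14) ε (Y - x)) := by
    rw [← integral_const_mul]
    refine integral_congr_ae (Eventually.of_forall fun Y => ?_)
    simp only
    ring
  rw [f0, ← f1]
  exact g1.trans (g2.trans g3)

end Pool.Agent.H1.C7
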