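import Pool.Agent.H1.C7.H1b

/-!
Row H2 (template C5/H2.lean or LD/CoH2.lean).  ε → 0 in claim1_7, claim2_7 (ε^8 kr(n+14) ε (εw) ε^(n+7) = kr(n+14) 1 w): right sides → -c χ(x), resp. -8 c <x-y,a> χ(x), c = c7 n ∫ kr(n+14) 1.
With Y - z = (Y-x) + (x-z): 6|Z|^(-n-1) - 6(n+1)|Z|^(-n-3) <Z, Y-z> = -n 6|Z|^(-n-1) - 6(n+1)|Z|^(-n-3)<Z, x-z>, so the integral is -n(-c χ(x)) - 8c<x-y,x-z>χ(x).
-/

set_option autoImplicit false

open MeasureTheory Filter Topology Metric Set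
open scoped RealInnerProductSpace ENNReal

namespace Pool.Agent.H1.C7

open Pool.Agent.RZ Pool.Agent.H1.LD

variable {d : ℕ}

private theorem C7H2_scale (m : ℕ) {ε : ℝ} (hε : 0 < ε) (w : X d) :
    kr m ε (ε • w) = ε⁻¹ ^ (m + 1) * kr m 1 w := by
  have h := kr_scale (d := d) m ε (r := ε⁻¹) (inv_pos.2 hε) w
  rw [inv_inv, inv_mul_cancel₀ hε.ne'] at h
  exact h

private theorem C7H2_kint {n : ℕ} (hd : d = n + 7) :
    Integrable (fun w : X d => kr (n + 14) 1 w) := by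
  have h1 : Integrable (fun w : X d => (1 + ‖w‖) ^ (-((n : ℝ) + 15))) := by
    apply integrable_one_add_norm
    rw [finrank_euclideanSpace, Fintype.card_fin, hd]
    push_cast
    linarith
  refine (h1.const_mul ((2 : ℝ) ^ (n + 15))).mono'
    (kr_continuous (n + 14) one_pos).aestronglyMeasurable (Eventually.of_forall fun w => ?_)
  rw [Real.norm_of_nonneg (kr_nonneg _ _ _)]
  have h2 : (1 + ‖w‖) / 2 ≤ Real.sqrt (‖w‖ ^ 2 + 1 ^ 2) := by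
    apply Real.le_sqrt_of_sq_le
    nlinarith [sq_nonneg (‖w‖ - 1), norm_nonneg w, sq_nonneg ‖w‖]
  have h3 : 0 < (1 + ‖w‖) / 2 := by positivity
  have h4 : (Real.sqrt (‖w‖ ^ 2 + 1 ^ 2))⁻¹ ≤ 2 * (1 + ‖w‖)⁻¹ := by
    have h5 := inv_anti₀ h3 h2
    refine h5.trans (le_of_eq ?_)
    field_simp
  have h6 : (1 + ‖w‖) ^ (-((n : ℝ) + 15)) = (1 + ‖w‖)⁻¹ ^ (n + 15) := by
    rw [Real.rpow_neg (by positivity), inv_pow]
    congr 1
    rw [← Real.rpow_natCast]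
    congr 1
    push_cast
    ring
  rw [h6, ← mul_pow]
  exact pow_le_pow_left₀ (by positivity) h4 _

private theorem C7H2_kpos {n : ℕ} (hd : d = n + 7) : 0 < ∫ w : X d, kr (n + 14) 1 w := by
  rw [integral_pos_iff_support_of_nonneg (fun w => kr_nonneg _ _ _) (C7H2_kint hd)]
  have h : Function.support (fun w : X d => kr (n + 14) 1 w) = univ := by
    ext w
    simp only [Function.mem_support, mem_univ, iff_true]
    exact (kr_pos (n + 14) one_pos w).ne'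
  rw [h]
  exact Measure.measure_univ_pos.2 (NeZero.ne _)

private theorem C7H2_lim {n : ℕ} (hd : d = n + 7) {f : X d → ℝ} (hf : Continuous f) {B : ℝ}
    (hB : ∀ Y, |f Y| ≤ B) (x : X d) :
    Tendsto (fun ε : ℝ => ∫ Y, f Y * (ε ^ 8 * kr (n + 14) ε (Y - x))) (𝓝[>] 0)
      (𝓝 (∫ w : X d, f x * kr (n + 14) 1 w)) := by
  have h1 : ∀ᶠ ε : ℝ in 𝓝[>] 0, ∫ w : X d, f (x + ε • w) * kr (n + 14) 1 w =
      ∫ Y, f Y * (ε ^ 8 * kr (n + 14) ε (Y - x)) := by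
    filter_upwards [self_mem_nhdsWithin] with ε hε
    have hε : 0 < ε := hε
    have h2 := integral_add_left_eq_self (μ := (volume : Measure (X d)))
      (fun Y => f Y * (ε ^ 8 * kr (n + 14) ε (Y - x))) x
    simp only [add_sub_cancel_left] at h2
    rw [← h2]
    have h3 := Measure.integral_comp_smul_of_nonneg (volume : Measure (X d))
      (fun w : X d => f (x + w) * (ε ^ 8 * kr (n + 14) ε w)) ε (hR := hε.le)
    rw [finrank_euclideanSpace, Fintype.card_fin] at h3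
    have h4 : (ε ^ d) ≠ 0 := pow_ne_zero _ hε.ne'
    rw [eq_comm, smul_eq_mul, inv_mul_eq_iff_eq_mul₀ h4] at h3
    rw [h3, ← integral_const_mul]
    congr 1
    funext w
    rw [C7H2_scale _ hε]
    have h5 : ε ^ d * (ε ^ 8 * ε⁻¹ ^ (n + 14 + 1)) = 1 := by
      rw [hd]
      have h6 : ε * ε⁻¹ = 1 := mul_inv_cancel₀ hε.ne'
      calc ε ^ (n + 7) * (ε ^ 8 * ε⁻¹ ^ (n + 14 + 1)) = (ε * ε⁻¹) ^ (n + 15) := by
            rw [mul_pow]; ring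
        _ = 1 := by rw [h6, one_pow]
    calc f (x + ε • w) * kr (n + 14) 1 w
        = (ε ^ d * (ε ^ 8 * ε⁻¹ ^ (n + 14 + 1))) * (f (x + ε • w) * kr (n + 14) 1 w) := by
          rw [h5, one_mul]
      _ = _ := by ring
  refine Tendsto.congr' h1 ?_
  apply tendsto_integral_filter_of_dominated_convergence (fun w => B * kr (n + 14) 1 w)
  · refine Eventually.of_forall fun ε => ?_
    have hc : Continuous (fun w : X d => f (x + ε • w) * kr (n + 14) 1 w) :=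
      (hf.comp (by fun_prop)).mul (kr_continuous (n + 14) one_pos)
    exact hc.aestronglyMeasurable
  · refine Eventually.of_forall fun ε => Eventually.of_forall fun w => ?_
    rw [norm_mul, Real.norm_of_nonneg (kr_nonneg (n + 14) 1 w)]
    exact mul_le_mul_of_nonneg_right (hB _) (kr_nonneg _ _ _)
  · exact (C7H2_kint hd).const_mul B
  · refine Eventually.of_forall fun w => ?_
    apply Tendsto.mul_const
    have hc : Continuous (fun ε : ℝ => f (x + ε • w)) := hf.comp (by fun_prop)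
    have h7 := hc.tendsto 0
    simp only [zero_smul, add_zero] at h7
    exact h7.mono_left nhdsWithin_le_nhds

private theorem C7H2_sing {n : ℕ} (hd : d = n + 7) (x : X d) :
    Integrable (fun Y : X d => ga 1 (Y - x) * ‖Y - x‖⁻¹ ^ (n + 2)) := by
  have h0 : Integrable (fun w : X d => ga 1 w * ‖w‖⁻¹ ^ (n + 2)) := by
    have : Nontrivial (X d) := by
      have : Nonempty (Fin d) := ⟨⟨0, by omega⟩⟩
      infer_instance
    have h1 := (integrable_fun_norm_addHaar (E := X d) (F := ℝ) volume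
      (f := fun r : ℝ => Real.exp (-(1 * r ^ 2)) * r⁻¹ ^ (n + 2))).2
    refine h1 ?_
    rw [finrank_euclideanSpace, Fintype.card_fin, hd]
    have h2 : IntegrableOn (fun r : ℝ => r ^ (4 : ℝ) * Real.exp (-1 * r ^ 2)) (Ioi 0) :=
      (integrable_rpow_mul_exp_neg_mul_sq one_pos (by norm_num)).integrableOn
    refine h2.congr_fun ?_ measurableSet_Ioi
    intro r hr
    have hr : 0 < r := hr
    have h3 : r * r⁻¹ = 1 := mul_inv_cancel₀ hr.ne'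
    simp only [smul_eq_mul]
    have h30 : r ^ (4 : ℝ) = r ^ 4 := by
      rw [show (4 : ℝ) = ((4 : ℕ) : ℝ) by norm_num, Real.rpow_natCast]
    rw [h30]
    have h4 : r ^ (n + 7 - 1) * r⁻¹ ^ (n + 2) = r ^ 4 := by
      have h5 : n + 7 - 1 = (n + 2) + 4 := by omega
      rw [h5, pow_add]
      calc r ^ (n + 2) * r ^ 4 * r⁻¹ ^ (n + 2) = (r * r⁻¹) ^ (n + 2) * r ^ 4 := by
            rw [mul_pow]; ring
        _ = r ^ 4 := by rw [h3, one_pow, one_mul]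
    calc r ^ 4 * Real.exp (-1 * r ^ 2)
        = (r ^ (n + 7 - 1) * r⁻¹ ^ (n + 2)) * Real.exp (-1 * r ^ 2) := by rw [h4]
      _ = r ^ (n + 7 - 1) * (Real.exp (-(1 * r ^ 2)) * r⁻¹ ^ (n + 2)) := by
          rw [neg_mul]; ring
  exact h0.comp_sub_right x

private theorem C7H2_Vb (x y : X d) : ∃ C : ℝ, 0 ≤ C ∧ ∀ Y : X d,
    (1 + ‖Y - x‖) ^ 2 * |L3 y Y| ≤ C * ga 1 (Y - x) := by
  obtain ⟨C5, hC5, h5⟩ := poly_ga d 8 (show (1 : ℝ) < 2 by norm_num)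
  obtain ⟨A, hA⟩ : ∃ A : ℝ, A = 512 + 192 * (d + 4) + 24 * (d + 2) * (d + 4) + d * (d + 2) * (d + 4) :=
    ⟨_, rfl⟩
  have hA0 : 0 ≤ A := by rw [hA]; positivity
  refine ⟨512 * A * ((1 + ‖x - y‖) ^ 6 * Real.exp (4 * ‖x - y‖ ^ 2)) * C5, by positivity,
    fun Y => ?_⟩
  have h1 : |L3 y Y| ≤ 512 * A * ((1 + ‖Y - y‖) ^ 6 * ga 4 (Y - y)) := by
    unfold L3
    rw [abs_mul, abs_mul, abs_of_nonneg (ga_nonneg _ _), abs_of_pos (show (0 : ℝ) < 512 by norm_num)]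
    have h2 : |512 * ‖Y - y‖ ^ 6 - 192 * ((d : ℝ) + 4) * ‖Y - y‖ ^ 4 +
        24 * (d + 2) * (d + 4) * ‖Y - y‖ ^ 2 - d * (d + 2) * (d + 4)| ≤
        A * (1 + ‖Y - y‖) ^ 6 := by
      rw [abs_le, hA]
      have hd0 : (0 : ℝ) ≤ d := Nat.cast_nonneg d
      have hn := norm_nonneg (Y - y)
      obtain ⟨r, hr⟩ : ∃ r, r = ‖Y - y‖ := ⟨_, rfl⟩
      rw [← hr] at hn ⊢
      have h20 : (1 : ℝ) ≤ (1 + r) ^ 6 := one_le_pow₀ (by linarith)
      have h21 : r ^ 2 ≤ (1 + r) ^ 6 := by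
        have h210 : r ^ 2 ≤ (1 + r) ^ 2 := pow_le_pow_left₀ hn (by linarith) 2
        have h211 : (1 + r) ^ 2 ≤ (1 + r) ^ 6 := pow_le_pow_right₀ (by linarith) (by norm_num)
        exact h210.trans h211
      have h22 : r ^ 4 ≤ (1 + r) ^ 6 := by
        have h210 : r ^ 4 ≤ (1 + r) ^ 4 := pow_le_pow_left₀ hn (by linarith) 4
        have h211 : (1 + r) ^ 4 ≤ (1 + r) ^ 6 := pow_le_pow_right₀ (by linarith) (by norm_num)
        exact h210.trans h211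
      have h23 : r ^ 6 ≤ (1 + r) ^ 6 := pow_le_pow_left₀ hn (by linarith) 6
      have p2 : 0 ≤ r ^ 2 := by positivity
      have p4 : 0 ≤ r ^ 4 := by positivity
      have p6 : 0 ≤ r ^ 6 := by positivity
      have g1 : 192 * ((d : ℝ) + 4) * r ^ 4 ≤ 192 * (d + 4) * (1 + r) ^ 6 :=
        mul_le_mul_of_nonneg_left h22 (by positivity)
      have g2 : 24 * ((d : ℝ) + 2) * (d + 4) * r ^ 2 ≤ 24 * (d + 2) * (d + 4) * (1 + r) ^ 6 :=
        mul_le_mul_of_nonneg_left h21 (by positivity)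
      have g3 : (d : ℝ) * (d + 2) * (d + 4) * 1 ≤ d * (d + 2) * (d + 4) * (1 + r) ^ 6 :=
        mul_le_mul_of_nonneg_left h20 (by positivity)
      have q1 : 0 ≤ 192 * ((d : ℝ) + 4) * r ^ 4 := by positivity
      have q2 : 0 ≤ 24 * ((d : ℝ) + 2) * (d + 4) * r ^ 2 := by positivity
      have q3 : 0 ≤ (d : ℝ) * (d + 2) * (d + 4) := by positivity
      have q4 : 0 ≤ (512 + 24 * ((d : ℝ) + 2) * (d + 4)) * (1 + r) ^ 6 := by positivity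
      have q5 : 0 ≤ (192 * ((d : ℝ) + 4) + d * (d + 2) * (d + 4)) * (1 + r) ^ 6 := by positivity
      constructor
      · nlinarith
      · nlinarith
    have hg := ga_nonneg 4 (Y - y)
    calc 512 * |512 * ‖Y - y‖ ^ 6 - 192 * ((d : ℝ) + 4) * ‖Y - y‖ ^ 4 +
          24 * (d + 2) * (d + 4) * ‖Y - y‖ ^ 2 - d * (d + 2) * (d + 4)| * ga 4 (Y - y)
        ≤ 512 * (A * (1 + ‖Y - y‖) ^ 6) * ga 4 (Y - y) := by gcongr
      _ = _ := by ring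
  have h6 : ga 4 (Y - y) ≤ ga 2 (Y - x) * Real.exp (4 * ‖x - y‖ ^ 2) := by
    have h7 := ga_two (d := d) (show (0 : ℝ) ≤ 4 by norm_num) x y Y
    rw [ga_comm 4 Y y, ga_comm 2 Y x]
    refine h7.trans (le_of_eq ?_)
    norm_num
  have h8 := peetre 6 Y x y
  have hg4 := ga_nonneg 4 (Y - y)
  have hg2 := ga_nonneg 2 (Y - x)
  calc (1 + ‖Y - x‖) ^ 2 * |L3 y Y|
      ≤ (1 + ‖Y - x‖) ^ 2 * (512 * A *
          (((1 + ‖Y - x‖) ^ 6 * (1 + ‖x - y‖) ^ 6) *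
          (ga 2 (Y - x) * Real.exp (4 * ‖x - y‖ ^ 2)))) := by
        refine mul_le_mul_of_nonneg_left (h1.trans ?_) (by positivity)
        refine mul_le_mul_of_nonneg_left ?_ (by positivity)
        exact mul_le_mul h8 h6 hg4 (by positivity)
    _ = 512 * A * ((1 + ‖x - y‖) ^ 6 * Real.exp (4 * ‖x - y‖ ^ 2)) *
          ((1 + ‖Y - x‖) ^ 8 * ga 2 (Y - x)) := by ring
    _ ≤ 512 * A * ((1 + ‖x - y‖) ^ 6 * Real.exp (4 * ‖x - y‖ ^ 2)) *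
          (C5 * ga 1 (Y - x)) := mul_le_mul_of_nonneg_left (h5 _) (by positivity)
    _ = _ := by ring

private theorem C7H2_Vcont (y : X d) : Continuous (L3 y) := by
  unfold L3 ga
  fun_prop

private theorem C7H2_ae {n : ℕ} (hd : d = n + 7) (x : X d) : ∀ᵐ Y : X d, Y - x ≠ 0 := by
  have : Nontrivial (X d) := by
    have : Nonempty (Fin d) := ⟨⟨0, by omega⟩⟩
    infer_instance
  have h : (volume : Measure (X d)) {x} = 0 := measure_singleton x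
  filter_upwards [compl_mem_ae_iff.2 h] with Y hY h0
  exact hY (sub_eq_zero.1 h0)

/-- the singular integrals -/
private theorem C7H2_dct {n : ℕ} (hd : d = n + 7) (x y : X d) {K : ℝ → X d → ℝ} {B : ℝ}
    (hB : 0 ≤ B) (hm : ∀ ε : ℝ, 0 ≤ ε → Measurable (K ε))
    (hb : ∀ ε : ℝ, 0 ≤ ε → ∀ Z : X d, Z ≠ 0 → |K ε Z| ≤ B * ((1 + ‖Z‖) ^ 2 * ‖Z‖⁻¹ ^ (n + 2)))
    (hl : ∀ Z : X d, Z ≠ 0 → Tendsto (fun ε => K ε Z) (𝓝[>] 0) (𝓝 (K 0 Z))) :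
    Integrable (fun Y => L3 y Y * K 0 (Y - x)) ∧
    Tendsto (fun ε : ℝ => ∫ Y, L3 y Y * K ε (Y - x)) (𝓝[>] 0)
      (𝓝 (∫ Y, L3 y Y * K 0 (Y - x))) := by
  obtain ⟨C, hC, hV⟩ := C7H2_Vb x y
  have hint : Integrable (fun Y : X d => B * C * (ga 1 (Y - x) * ‖Y - x‖⁻¹ ^ (n + 2))) :=
    (C7H2_sing hd x).const_mul _
  have hmeas : ∀ ε : ℝ, 0 ≤ ε →
      AEStronglyMeasurable (fun Y => L3 y Y * K ε (Y - x)) (volume : Measure (X d)) := by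
    intro ε hε
    have h1 : Measurable (fun Y : X d => K ε (Y - x)) := (hm ε hε).comp (measurable_id.sub_const x)
    exact (C7H2_Vcont y).aestronglyMeasurable.mul h1.aestronglyMeasurable
  have hbd : ∀ ε : ℝ, 0 ≤ ε → ∀ᵐ Y : X d,
      ‖L3 y Y * K ε (Y - x)‖ ≤ B * C * (ga 1 (Y - x) * ‖Y - x‖⁻¹ ^ (n + 2)) := by
    intro ε hε
    filter_upwards [C7H2_ae hd x] with Y hY
    calc ‖L3 y Y * K ε (Y - x)‖ = |L3 y Y| * |K ε (Y - x)| := by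
          rw [Real.norm_eq_abs, abs_mul]
      _ ≤ |L3 y Y| * (B * ((1 + ‖Y - x‖) ^ 2 * ‖Y - x‖⁻¹ ^ (n + 2))) :=
          mul_le_mul_of_nonneg_left (hb ε hε _ hY) (abs_nonneg _)
      _ = B * (((1 + ‖Y - x‖) ^ 2 * |L3 y Y|) * ‖Y - x‖⁻¹ ^ (n + 2)) := by ring
      _ ≤ B * ((C * ga 1 (Y - x)) * ‖Y - x‖⁻¹ ^ (n + 2)) :=
          mul_le_mul_of_nonneg_left (mul_le_mul_of_nonneg_right (hV Y) (by positivity)) hB
      _ = _ := by ring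
  constructor
  · exact hint.mono' (hmeas 0 le_rfl) (hbd 0 le_rfl)
  · apply tendsto_integral_filter_of_dominated_convergence
      (fun Y => B * C * (ga 1 (Y - x) * ‖Y - x‖⁻¹ ^ (n + 2)))
    · filter_upwards [self_mem_nhdsWithin] with ε hε
      exact hmeas ε (le_of_lt hε)
    · filter_upwards [self_mem_nhdsWithin] with ε hε
      exact hbd ε (le_of_lt hε)
    · exact hint
    · filter_upwards [C7H2_ae hd x] with Y hY
      exact (tendsto_const_nhds).mul (hl _ hY)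

private theorem C7H2_kmeas (m : ℕ) (ε : ℝ) : Measurable (kr m ε : X d → ℝ) := by
  unfold kr
  fun_prop

private theorem C7H2_ktend (m : ℕ) {Z : X d} (hZ : Z ≠ 0) :
    Tendsto (fun ε => kr m ε Z) (𝓝[>] 0) (𝓝 (kr m 0 Z)) := by
  have h1 : Tendsto (fun ε : ℝ => Real.sqrt (‖Z‖ ^ 2 + ε ^ 2)) (𝓝[>] 0)
      (𝓝 (Real.sqrt (‖Z‖ ^ 2 + 0 ^ 2))) := by
    have hc : Continuous (fun ε : ℝ => Real.sqrt (‖Z‖ ^ 2 + ε ^ 2)) := by fun_prop
    exact (hc.tendsto 0).mono_left nhdsWithin_le_nhds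
  have h2 : Real.sqrt (‖Z‖ ^ 2 + 0 ^ 2) ≠ 0 := by
    have : 0 < ‖Z‖ := norm_pos_iff.2 hZ
    positivity
  exact (h1.inv₀ h2).pow (m + 1)

/-- `ε ^ 2 kr (m + 2) ≤ kr m` -/
private theorem C7H2_esq (m : ℕ) (ε : ℝ) {Z : X d} (hZ : Z ≠ 0) :
    ε ^ 2 * kr (m + 2) ε Z ≤ kr m ε Z := by
  have h0 : 0 < ‖Z‖ := norm_pos_iff.2 hZ
  unfold kr
  obtain ⟨s, hs⟩ : ∃ s : ℝ, s = Real.sqrt (‖Z‖ ^ 2 + ε ^ 2) := ⟨_, rfl⟩
  have hs2 : s ^ 2 = ‖Z‖ ^ 2 + ε ^ 2 := by rw [hs]; exact Real.sq_sqrt (by positivity)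
  have hs0 : 0 < s := by rw [hs]; positivity
  rw [← hs]
  have h1 : ε ^ 2 ≤ s ^ 2 := by rw [hs2]; nlinarith [sq_nonneg ‖Z‖]
  calc ε ^ 2 * s⁻¹ ^ (m + 2 + 1) ≤ s ^ 2 * s⁻¹ ^ (m + 2 + 1) :=
        mul_le_mul_of_nonneg_right h1 (by positivity)
    _ = (s * s⁻¹) ^ 2 * s⁻¹ ^ (m + 1) := by rw [mul_pow]; ring
    _ = _ := by rw [mul_inv_cancel₀ hs0.ne', one_pow, one_mul]

private theorem C7H2_etend (m : ℕ) {Z : X d} (hZ : Z ≠ 0) :
    Tendsto (fun ε => ε ^ 2 * kr m ε Z) (𝓝[>] 0) (𝓝 ((0 : ℝ) ^ 2 * kr m 0 Z)) := by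
  have h1 : Tendsto (fun ε : ℝ => ε ^ 2) (𝓝[>] 0) (𝓝 ((0 : ℝ) ^ 2)) := by
    have hc : Continuous (fun ε : ℝ => ε ^ 2) := by fun_prop
    exact (hc.tendsto 0).mono_left nhdsWithin_le_nhds
  exact h1.mul (C7H2_ktend m hZ)

private theorem C7H2_ninv (n : ℕ) {Z : X d} (hZ : Z ≠ 0) :
    ‖Z‖⁻¹ ^ (n + 1) ≤ (1 + ‖Z‖) ^ 2 * ‖Z‖⁻¹ ^ (n + 2) := by
  have h0 : 0 < ‖Z‖ := norm_pos_iff.2 hZ
  have h1 : ‖Z‖⁻¹ ^ (n + 1) = ‖Z‖ * ‖Z‖⁻¹ ^ (n + 2) := by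
    rw [pow_succ ‖Z‖⁻¹ (n + 1), ← mul_assoc, mul_comm ‖Z‖, mul_assoc, mul_inv_cancel₀ h0.ne', mul_one]
  rw [h1]
  exact mul_le_mul_of_nonneg_right (by nlinarith) (by positivity)

private theorem C7H2_lim1 {n : ℕ} (hd : d = n + 7) (x y : X d) :
    Integrable (fun Y => L3 y Y * (6 * kr n 0 (Y - x))) ∧
    ∫ Y, L3 y Y * (6 * kr n 0 (Y - x)) =
      -c7 n * ((∫ w : X d, kr (n + 14) 1 w) * ga 4 (x - y)) := by
  have h := C7H2_dct hd x y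
    (K := fun ε Z => 6 * kr n ε Z + (n + 1) * (ε ^ 2 * kr (n + 2) ε Z)) (B := n + 7) (by positivity)
    (fun ε _ => ((C7H2_kmeas n ε).const_mul _).add (((C7H2_kmeas (n + 2) ε).const_mul _).const_mul _))
    (fun ε _ Z hZ => by
      have k1 := kr_nonneg n ε Z
      have k2 := kr_nonneg (n + 2) ε Z
      have h1 := kr_le_norm n ε hZ
      have h2 := C7H2_esq n ε hZ
      have h3 : 0 ≤ ε ^ 2 * kr (n + 2) ε Z := by positivity
      rw [abs_of_nonneg (by positivity)]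
      calc 6 * kr n ε Z + (n + 1) * (ε ^ 2 * kr (n + 2) ε Z)
          ≤ 6 * kr n ε Z + (n + 1) * kr n ε Z := by gcongr
        _ = (n + 7) * kr n ε Z := by ring
        _ ≤ (n + 7) * ((1 + ‖Z‖) ^ 2 * ‖Z‖⁻¹ ^ (n + 2)) := by
            apply mul_le_mul_of_nonneg_left (h1.trans (C7H2_ninv n hZ)) (by positivity))
    (fun Z hZ => ((C7H2_ktend n hZ).const_mul _).add ((C7H2_etend (n + 2) hZ).const_mul _))
  have e0 : ∀ Y, L3 y Y * (6 * kr n 0 (Y - x) + (n + 1) * ((0 : ℝ) ^ 2 * kr (n + 2) 0 (Y - x))) =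
      L3 y Y * (6 * kr n 0 (Y - x)) := fun Y => by ring
  simp only [e0] at h
  refine ⟨h.1, ?_⟩
  have h2 : Tendsto (fun ε : ℝ => -c7 n *
      ∫ Y, ga 4 (Y - y) * (ε ^ 8 * kr (n + 14) ε (Y - x))) (𝓝[>] 0)
      (𝓝 (-c7 n * ∫ w : X d, ga 4 (x - y) * kr (n + 14) 1 w)) := by
    apply Tendsto.const_mul
    apply C7H2_lim hd (f := fun Y => ga 4 (Y - y)) ((ga_continuous 4).comp (by fun_prop)) (B := 1)
    intro Y
    rw [abs_of_nonneg (ga_nonneg _ _)]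
    exact ga_le_one (by norm_num) _
  have h3 : Tendsto (fun ε : ℝ => ∫ Y, L3 y Y *
      (6 * kr n ε (Y - x) + (n + 1) * (ε ^ 2 * kr (n + 2) ε (Y - x)))) (𝓝[>] 0)
      (𝓝 (-c7 n * ∫ w : X d, ga 4 (x - y) * kr (n + 14) 1 w)) := by
    refine h2.congr' ?_
    filter_upwards [self_mem_nhdsWithin] with ε hε
    rw [← claim1_7 hd hε x y]
    congr 1
    funext Y
    ring
  have h4 := tendsto_nhds_unique h.2 h3
  rw [h4, integral_const_mul]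
  ring

private theorem C7H2_lim2 {n : ℕ} (hd : d = n + 7) (x y a : X d) :
    Integrable (fun Y => L3 y Y * (-(6 * (n + 1)) * (kr (n + 2) 0 (Y - x) * ⟪Y - x, a⟫))) ∧
    ∫ Y, L3 y Y * (-(6 * (n + 1)) * (kr (n + 2) 0 (Y - x) * ⟪Y - x, a⟫)) =
      -c7 n * ((∫ w : X d, kr (n + 14) 1 w) * (8 * ⟪x - y, a⟫ * ga 4 (x - y))) := by
  have h := C7H2_dct hd x y
    (K := fun ε Z => -((n : ℝ) + 1) * ((6 * kr (n + 2) ε Z + (n + 3) * (ε ^ 2 * kr (n + 4) ε Z)) *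
      ⟪Z, a⟫)) (B := (n + 1) * (n + 9) * ‖a‖) (by positivity)
    (fun ε _ => ((((C7H2_kmeas (n + 2) ε).const_mul _).add
      (((C7H2_kmeas (n + 4) ε).const_mul _).const_mul _)).mul (by fun_prop)).const_mul _)
    (fun ε _ Z hZ => by
      have h0 : 0 < ‖Z‖ := norm_pos_iff.2 hZ
      have k1 := kr_nonneg (n + 2) ε Z
      have k2 := kr_nonneg (n + 4) ε Z
      have h1 := kr_le_norm (n + 2) ε hZ
      have h2 := C7H2_esq (n + 2) ε hZ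
      have h3 : 0 ≤ ε ^ 2 * kr (n + 4) ε Z := by positivity
      have h4 : |⟪Z, a⟫| ≤ ‖Z‖ * ‖a‖ := abs_real_inner_le_norm _ _
      have h5 : |6 * kr (n + 2) ε Z + ((n : ℝ) + 3) * (ε ^ 2 * kr (n + 4) ε Z)| ≤
          (n + 9) * ‖Z‖⁻¹ ^ (n + 3) := by
        rw [abs_of_nonneg (by positivity)]
        calc 6 * kr (n + 2) ε Z + ((n : ℝ) + 3) * (ε ^ 2 * kr (n + 4) ε Z)
            ≤ 6 * kr (n + 2) ε Z + (n + 3) * kr (n + 2) ε Z := by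
              have h6 : ε ^ 2 * kr (n + 4) ε Z ≤ kr (n + 2) ε Z := h2
              gcongr
          _ = (n + 9) * kr (n + 2) ε Z := by ring
          _ ≤ (n + 9) * ‖Z‖⁻¹ ^ (n + 3) := mul_le_mul_of_nonneg_left h1 (by positivity)
      have h7 : |-((n : ℝ) + 1)| = n + 1 := by
        rw [abs_neg]
        exact abs_of_nonneg (by positivity)
      have h8 : ‖Z‖⁻¹ ^ (n + 3) * ‖Z‖ = ‖Z‖⁻¹ ^ (n + 2) := by
        rw [pow_succ ‖Z‖⁻¹ (n + 2), mul_assoc, inv_mul_cancel₀ h0.ne', mul_one]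
      rw [abs_mul, abs_mul, h7]
      calc ((n : ℝ) + 1) * (|6 * kr (n + 2) ε Z + ((n : ℝ) + 3) * (ε ^ 2 * kr (n + 4) ε Z)| * |⟪Z, a⟫|)
          ≤ (n + 1) * (((n + 9) * ‖Z‖⁻¹ ^ (n + 3)) * (‖Z‖ * ‖a‖)) := by gcongr
        _ = (n + 1) * (n + 9) * ‖a‖ * (‖Z‖⁻¹ ^ (n + 3) * ‖Z‖) := by ring
        _ = (n + 1) * (n + 9) * ‖a‖ * (1 * ‖Z‖⁻¹ ^ (n + 2)) := by rw [h8, one_mul]
        _ ≤ (n + 1) * (n + 9) * ‖a‖ * ((1 + ‖Z‖) ^ 2 * ‖Z‖⁻¹ ^ (n + 2)) := by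
            have h9 : (1 : ℝ) ≤ (1 + ‖Z‖) ^ 2 := by nlinarith
            gcongr)
    (fun Z hZ => ((((C7H2_ktend (n + 2) hZ).const_mul _).add
      ((C7H2_etend (n + 4) hZ).const_mul _)).mul_const _).const_mul _)
  have e0 : ∀ Y, L3 y Y * (-((n : ℝ) + 1) * ((6 * kr (n + 2) 0 (Y - x) +
      (n + 3) * ((0 : ℝ) ^ 2 * kr (n + 4) 0 (Y - x))) * ⟪Y - x, a⟫)) =
      L3 y Y * (-(6 * (n + 1)) * (kr (n + 2) 0 (Y - x) * ⟪Y - x, a⟫)) := fun Y => by ring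
  simp only [e0] at h
  refine ⟨h.1, ?_⟩
  obtain ⟨B, hB0, hB⟩ : ∃ B : ℝ, 0 ≤ B ∧ ∀ Y : X d, |8 * ⟪Y - y, a⟫ * ga 4 (Y - y)| ≤ B := by
    obtain ⟨C, hC, hC1⟩ := poly_ga d 1 (show (1 : ℝ) < 4 by norm_num)
    refine ⟨8 * ‖a‖ * C, by positivity, fun Y => ?_⟩
    have h1 : |⟪Y - y, a⟫| ≤ ‖Y - y‖ * ‖a‖ := abs_real_inner_le_norm _ _
    rw [abs_mul, abs_mul, abs_of_nonneg (ga_nonneg 4 (Y - y)), abs_of_pos (show (0 : ℝ) < 8 by norm_num)]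
    have hg := ga_nonneg 4 (Y - y)
    have hn := norm_nonneg (Y - y)
    calc 8 * |⟪Y - y, a⟫| * ga 4 (Y - y) ≤ 8 * ((1 + ‖Y - y‖) ^ 1 * ‖a‖) * ga 4 (Y - y) := by
          gcongr
          refine h1.trans ?_
          apply mul_le_mul_of_nonneg_right _ (norm_nonneg a)
          rw [pow_one]
          linarith
      _ = 8 * ‖a‖ * ((1 + ‖Y - y‖) ^ 1 * ga 4 (Y - y)) := by ring
      _ ≤ 8 * ‖a‖ * (C * ga 1 (Y - y)) := mul_le_mul_of_nonneg_left (hC1 _) (by positivity)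
      _ ≤ 8 * ‖a‖ * (C * 1) := by
          have := ga_le_one (d := d) (show (0 : ℝ) ≤ 1 by norm_num) (Y - y)
          gcongr
      _ = _ := by ring
  have h2 : Tendsto (fun ε : ℝ => -c7 n *
      ∫ Y, (8 * ⟪Y - y, a⟫ * ga 4 (Y - y)) * (ε ^ 8 * kr (n + 14) ε (Y - x))) (𝓝[>] 0)
      (𝓝 (-c7 n * ∫ w : X d, (8 * ⟪x - y, a⟫ * ga 4 (x - y)) * kr (n + 14) 1 w)) := by
    apply Tendsto.const_mul
    apply C7H2_lim hd (f := fun Y => 8 * ⟪Y - y, a⟫ * ga 4 (Y - y)) _ hB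
    unfold ga
    fun_prop
  have h3 : Tendsto (fun ε : ℝ => ∫ Y, L3 y Y * (-((n : ℝ) + 1) * ((6 * kr (n + 2) ε (Y - x) +
      (n + 3) * (ε ^ 2 * kr (n + 4) ε (Y - x))) * ⟪Y - x, a⟫))) (𝓝[>] 0)
      (𝓝 (-c7 n * ∫ w : X d, (8 * ⟪x - y, a⟫ * ga 4 (x - y)) * kr (n + 14) 1 w)) := by
    refine h2.congr' ?_
    filter_upwards [self_mem_nhdsWithin] with ε hε
    rw [← claim2_7 hd hε x y a]
    congr 1
    funext Y
    ring
  have h4 := tendsto_nhds_unique h.2 h3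
  rw [h4, integral_const_mul]
  ring

private theorem C7H2_kr0 (n : ℕ) (Z : X d) (hZ : Z ≠ 0) :
    kr (n + 2) 0 Z * ‖Z‖ ^ 2 = kr n 0 Z := by
  have h0 : 0 < ‖Z‖ := norm_pos_iff.2 hZ
  unfold kr
  have h2 : Real.sqrt (‖Z‖ ^ 2 + 0 ^ 2) = ‖Z‖ := by
    rw [zero_pow two_ne_zero, add_zero, Real.sqrt_sq h0.le]
  rw [h2]
  calc ‖Z‖⁻¹ ^ (n + 2 + 1) * ‖Z‖ ^ 2 = ‖Z‖⁻¹ ^ (n + 1) * (‖Z‖⁻¹ * ‖Z‖) ^ 2 := by
        rw [mul_pow]; ring
    _ = ‖Z‖⁻¹ ^ (n + 1) := by rw [inv_mul_cancel₀ h0.ne']; ring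

private theorem C7H2_c7 (n : ℕ) : 0 < c7 n := by
  unfold c7
  positivity

theorem claim3_7 {n : ℕ} (hd : d = n + 7) : ∃ c : ℝ, 0 < c ∧ ∀ x y z : X d,
    Integrable (fun Y => |L3 y Y| * (‖Y - x‖⁻¹ ^ (n + 1) + ‖Y - x‖⁻¹ ^ (n + 2) * ‖Y - z‖)) ∧
    ∫ Y, L3 y Y * (6 * kr n 0 (Y - x) - 6 * (n + 1) * kr (n + 2) 0 (Y - x) * ⟪Y - x, Y - z⟫) =
      c * ((n - 8 * ⟪x - z, x - y⟫) * ga 4 (x - y)) := by
  have hκ := C7H2_kpos (n := n) hd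
  have hc := C7H2_c7 n
  refine ⟨c7 n * ∫ w : X d, kr (n + 14) 1 w, by positivity, fun x y z => ⟨?_, ?_⟩⟩
  · obtain ⟨C, hC, hV⟩ := C7H2_Vb x y
    refine ((C7H2_sing hd x).const_mul ((2 + ‖x - z‖) * C)).mono' ?_ ?_
    · have hm : Measurable (fun Y : X d => |L3 y Y| *
          (‖Y - x‖⁻¹ ^ (n + 1) + ‖Y - x‖⁻¹ ^ (n + 2) * ‖Y - z‖)) := by
        have h1 : Measurable (fun Y : X d => |L3 y Y|) := (C7H2_Vcont y).abs.measurable
        exact h1.mul (by fun_prop)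
      exact hm.aestronglyMeasurable
    · filter_upwards [C7H2_ae hd x] with Y hY
      rw [Real.norm_of_nonneg (by positivity)]
      have h1 : ‖Y - z‖ ≤ (1 + ‖x - z‖) * (1 + ‖Y - x‖) ^ 2 := by
        have h2 : ‖Y - z‖ ≤ ‖Y - x‖ + ‖x - z‖ := norm_sub_le_norm_sub_add_norm_sub Y x z
        have h3 := norm_nonneg (Y - x)
        have h4 := norm_nonneg (x - z)
        have h5 : (1 + ‖x - z‖) * (1 + ‖Y - x‖) ≤ (1 + ‖x - z‖) * (1 + ‖Y - x‖) ^ 2 := by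
          apply mul_le_mul_of_nonneg_left _ (by positivity)
          nlinarith
        nlinarith [mul_nonneg h3 h4]
      calc |L3 y Y| * (‖Y - x‖⁻¹ ^ (n + 1) + ‖Y - x‖⁻¹ ^ (n + 2) * ‖Y - z‖)
          ≤ |L3 y Y| * ((1 + ‖Y - x‖) ^ 2 * ‖Y - x‖⁻¹ ^ (n + 2) +
              ‖Y - x‖⁻¹ ^ (n + 2) * ((1 + ‖x - z‖) * (1 + ‖Y - x‖) ^ 2)) := by
            have := C7H2_ninv n hY
            gcongr
        _ = (2 + ‖x - z‖) * ‖Y - x‖⁻¹ ^ (n + 2) * ((1 + ‖Y - x‖) ^ 2 * |L3 y Y|) := by ring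
        _ ≤ (2 + ‖x - z‖) * ‖Y - x‖⁻¹ ^ (n + 2) * (C * ga 1 (Y - x)) :=
            mul_le_mul_of_nonneg_left (hV Y) (by positivity)
        _ = _ := by ring
  · obtain ⟨i1, e1⟩ := C7H2_lim1 hd x y
    obtain ⟨i2, e2⟩ := C7H2_lim2 hd x y (x - z)
    have h1 : ∫ Y, L3 y Y * (6 * kr n 0 (Y - x) - 6 * (n + 1) * kr (n + 2) 0 (Y - x) *
          ⟪Y - x, Y - z⟫) =
        ∫ Y, (-(n : ℝ) * (L3 y Y * (6 * kr n 0 (Y - x))) +
          L3 y Y * (-(6 * (n + 1)) * (kr (n + 2) 0 (Y - x) * ⟪Y - x, x - z⟫))) := by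
      apply integral_congr_ae
      filter_upwards [C7H2_ae hd x] with Y hY
      have h2 : Y - z = (Y - x) + (x - z) := by abel
      have h3 := C7H2_kr0 n _ hY
      rw [h2, inner_add_right, real_inner_self_eq_norm_sq, ← h3]
      ring
    rw [h1, integral_add (i1.const_mul _) i2, integral_const_mul, e1, e2, real_inner_comm (x - z)]
    ring

end Pool.Agent.H1.C7
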