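import Pool.Agent.H1.C7.H2

/-!
Row H3 (template C5/H3.lean or LD/CoH3.lean).  c Jf = ∫ L3 y Y * L7 n 0 μ Y (Y - z) dY (Fubini), Cauchy-Schwarz with the weight s kr(n+5) s (Y-z).
-/

set_option autoImplicit false

open MeasureTheory Filter Topology Metric Set
open scoped RealInnerProductSpace ENNReal

namespace Pool.Agent.H1.C7

open Pool.Agent.RZ Pool.Agent.H1.LD

variable {d : ℕ}

private theorem C7H3_kr0 (n : ℕ) (Z : X d) : kr n 0 Z = ‖Z‖⁻¹ ^ (n + 1) := by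
  unfold kr
  rw [zero_pow two_ne_zero, add_zero, Real.sqrt_sq (norm_nonneg Z)]

/-- the kernel of `L7` -/
private noncomputable def C7H3_G (n : ℕ) (Z v : X d) : ℝ :=
  6 * kr n 0 Z - 6 * (n + 1) * kr (n + 2) 0 Z * ⟪Z, v⟫

/-- the local part of the kernel -/
private noncomputable def C7H3_r (n : ℕ) (Z : X d) : ℝ :=
  (Iio (1 : ℝ)).indicator (fun t => t⁻¹ ^ (n + 2)) ‖Z‖

private theorem C7H3_r_nonneg (n : ℕ) (Z : X d) : 0 ≤ C7H3_r n Z := by
  unfold C7H3_r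
  refine indicator_apply_nonneg fun _ => ?_
  positivity

private theorem C7H3_r_meas (n : ℕ) : Measurable (C7H3_r n : X d → ℝ) := by
  unfold C7H3_r
  exact ((by fun_prop : Measurable fun t : ℝ => t⁻¹ ^ (n + 2)).indicator measurableSet_Iio).comp
    measurable_norm

private theorem C7H3_le_r (n : ℕ) (Z : X d) : ‖Z‖⁻¹ ^ (n + 2) ≤ C7H3_r n Z + 1 := by
  unfold C7H3_r
  by_cases h : ‖Z‖ < 1
  · rw [indicator_of_mem (by exact h)]
    linarith
  · rw [indicator_of_notMem (by exact h)]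
    have h1 : ‖Z‖⁻¹ ≤ 1 := inv_le_one_of_one_le₀ (not_lt.1 h)
    have h2 : ‖Z‖⁻¹ ^ (n + 2) ≤ 1 := pow_le_one₀ (by positivity) h1
    linarith

private theorem C7H3_le_r1 (n : ℕ) (Z : X d) : ‖Z‖⁻¹ ^ (n + 1) ≤ C7H3_r n Z + 1 := by
  have h0 := C7H3_r_nonneg n Z
  rcases (norm_nonneg Z).eq_or_lt with hZ | hZ
  · rw [← hZ, inv_zero, zero_pow (by omega)]
    linarith
  · by_cases h : ‖Z‖ < 1
    · have h1 : 1 ≤ ‖Z‖⁻¹ := (one_le_inv₀ hZ).2 h.le
      exact (pow_le_pow_right₀ h1 (by omega)).trans (C7H3_le_r n Z)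
    · have h1 : ‖Z‖⁻¹ ≤ 1 := inv_le_one_of_one_le₀ (not_lt.1 h)
      have h2 : ‖Z‖⁻¹ ^ (n + 1) ≤ 1 := pow_le_one₀ (by positivity) h1
      linarith

private theorem C7H3_G_le (n : ℕ) (Z v : X d) :
    |C7H3_G n Z v| ≤ 6 * (n + 1) * ((C7H3_r n Z + 1) * (1 + ‖v‖)) := by
  unfold C7H3_G
  rw [C7H3_kr0, C7H3_kr0]
  have h0 : 0 ≤ ‖Z‖⁻¹ := by positivity
  have hn : (0 : ℝ) ≤ n := Nat.cast_nonneg n
  have h1 : |6 * ‖Z‖⁻¹ ^ (n + 1)| = 6 * ‖Z‖⁻¹ ^ (n + 1) := abs_of_nonneg (by positivity)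
  have h3 : ‖Z‖⁻¹ * ‖Z‖ ≤ 1 := inv_mul_le_one
  have h4 : ‖Z‖⁻¹ ^ (n + 2 + 1) * (‖Z‖ * ‖v‖) ≤ ‖Z‖⁻¹ ^ (n + 2) * ‖v‖ := by
    have e : ‖Z‖⁻¹ ^ (n + 2 + 1) * (‖Z‖ * ‖v‖) =
        (‖Z‖⁻¹ ^ (n + 2) * ‖v‖) * (‖Z‖⁻¹ * ‖Z‖) := by ring
    rw [e]
    exact mul_le_of_le_one_right (by positivity) h3
  have h2 : |6 * ((n : ℝ) + 1) * ‖Z‖⁻¹ ^ (n + 2 + 1) * ⟪Z, v⟫| ≤
      6 * (n + 1) * (‖Z‖⁻¹ ^ (n + 2) * ‖v‖) := by
    rw [mul_assoc, abs_mul, abs_of_nonneg (by positivity : (0 : ℝ) ≤ 6 * ((n : ℝ) + 1)), abs_mul,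
      abs_of_nonneg (by positivity : (0 : ℝ) ≤ ‖Z‖⁻¹ ^ (n + 2 + 1))]
    refine mul_le_mul_of_nonneg_left (le_trans ?_ h4) (by positivity)
    exact mul_le_mul_of_nonneg_left (abs_real_inner_le_norm Z v) (by positivity)
  have h5 := C7H3_le_r n Z
  have h6 := C7H3_le_r1 n Z
  have h7 := C7H3_r_nonneg n Z
  have hv : 0 ≤ ‖v‖ := norm_nonneg v
  calc |6 * ‖Z‖⁻¹ ^ (n + 1) - 6 * ((n : ℝ) + 1) * ‖Z‖⁻¹ ^ (n + 2 + 1) * ⟪Z, v⟫|
      ≤ |6 * ‖Z‖⁻¹ ^ (n + 1)| + |6 * ((n : ℝ) + 1) * ‖Z‖⁻¹ ^ (n + 2 + 1) * ⟪Z, v⟫| := abs_sub _ _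
    _ ≤ 6 * ‖Z‖⁻¹ ^ (n + 1) + 6 * (n + 1) * (‖Z‖⁻¹ ^ (n + 2) * ‖v‖) := by
        rw [h1]
        gcongr
    _ ≤ 6 * (n + 1) * (C7H3_r n Z + 1) + 6 * (n + 1) * ((C7H3_r n Z + 1) * ‖v‖) := by
        have a1 : 6 * ‖Z‖⁻¹ ^ (n + 1) ≤ 6 * ((n : ℝ) + 1) * (C7H3_r n Z + 1) := by
          have a2 : 6 * ‖Z‖⁻¹ ^ (n + 1) ≤ 6 * (C7H3_r n Z + 1) := by linarith
          refine a2.trans ?_
          have a3 : 0 ≤ (n : ℝ) * (C7H3_r n Z + 1) := by positivity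
          nlinarith
        have a4 : 6 * ((n : ℝ) + 1) * (‖Z‖⁻¹ ^ (n + 2) * ‖v‖) ≤
            6 * (n + 1) * ((C7H3_r n Z + 1) * ‖v‖) := by gcongr
        linarith
    _ = _ := by ring

private theorem C7H3_r_int {n : ℕ} (hd : d = n + 7) :
    Integrable (C7H3_r n : X d → ℝ) := by
  subst hd
  have h := (integrable_fun_norm_addHaar (E := X (n + 7)) volume
    (f := (Iio (1 : ℝ)).indicator (fun t => t⁻¹ ^ (n + 2)))).2
  refine h ?_
  have h1 : Module.finrank ℝ (X (n + 7)) - 1 = n + 6 := by simp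
  rw [h1]
  have h2 : IntegrableOn (fun t : ℝ => (Iio (1 : ℝ)).indicator (fun _ => (1 : ℝ)) t) (Ioi 0) := by
    have h3 : Integrable ((Iio (1 : ℝ)).indicator (fun _ => (1 : ℝ))) (volume.restrict (Ioi 0)) := by
      rw [integrable_indicator_iff measurableSet_Iio]
      unfold IntegrableOn
      rw [Measure.restrict_restrict measurableSet_Iio, inter_comm, Ioi_inter_Iio]
      exact integrable_const 1
    exact h3
  refine Integrable.mono' h2 ?_ ?_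
  · refine Measurable.aestronglyMeasurable ?_
    exact (by fun_prop : Measurable fun t : ℝ => t ^ (n + 6)).smul
      ((by fun_prop : Measurable fun t : ℝ => t⁻¹ ^ (n + 2)).indicator measurableSet_Iio)
  · refine (ae_restrict_mem measurableSet_Ioi).mono fun t ht => ?_
    have ht0 : (0 : ℝ) < t := ht
    by_cases h : t < 1
    · rw [indicator_of_mem (by exact h), indicator_of_mem (by exact h), smul_eq_mul, Real.norm_eq_abs,
        abs_of_nonneg (by positivity)]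
      have e : t ^ (n + 6) * t⁻¹ ^ (n + 2) = t ^ 4 := by
        have e1 : t ^ (n + 6) = t ^ (n + 2) * t ^ 4 := by rw [← pow_add]
        rw [e1, mul_right_comm, ← mul_pow, mul_inv_cancel₀ ht0.ne', one_pow, one_mul]
      rw [e]
      exact pow_le_one₀ ht0.le h.le
    · rw [indicator_of_notMem (by exact h), indicator_of_notMem (by exact h), smul_zero, norm_zero]

private theorem C7H3_L_cont (y : X d) : Continuous fun Y : X d => L3 y Y := by
  unfold L3 ga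
  fun_prop

/-- the constant of the Gaussian bound -/
private def C7H3_cV (d : ℕ) : ℝ :=
  512 * (512 + 192 * (d + 4) + 24 * (d + 2) * (d + 4) + d * (d + 2) * (d + 4))

private theorem C7H3_cV_pos (d : ℕ) : 0 < C7H3_cV d := by
  unfold C7H3_cV
  positivity

/-- the Gaussian bound for `L3` -/
private theorem C7H3_L_le (y Y : X d) :
    |L3 y Y| ≤ C7H3_cV d * ((1 + ‖Y - y‖) ^ 6 * ga 4 (Y - y)) := by
  unfold L3 C7H3_cV
  rw [abs_mul, abs_mul, abs_of_pos (ga_pos 4 (Y - y)), abs_of_pos (by norm_num : (0 : ℝ) < 512)]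
  set r : ℝ := ‖Y - y‖ with hr
  have hr0 : 0 ≤ r := norm_nonneg _
  have hg := ga_pos (d := d) 4 (Y - y)
  have hd0 : (0 : ℝ) ≤ d := Nat.cast_nonneg d
  have p6 : r ^ 6 ≤ (1 + r) ^ 6 := pow_le_pow_left₀ hr0 (by linarith) 6
  have p4 : r ^ 4 ≤ (1 + r) ^ 6 := by
    refine (pow_le_pow_left₀ hr0 (by linarith : r ≤ 1 + r) 4).trans ?_
    exact pow_le_pow_right₀ (by linarith) (by norm_num)
  have p2 : r ^ 2 ≤ (1 + r) ^ 6 := by
    refine (pow_le_pow_left₀ hr0 (by linarith : r ≤ 1 + r) 2).trans ?_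
    exact pow_le_pow_right₀ (by linarith) (by norm_num)
  have p0 : (1 : ℝ) ≤ (1 + r) ^ 6 := one_le_pow₀ (by linarith)
  have a1 : 0 ≤ 192 * ((d : ℝ) + 4) := by positivity
  have a2 : 0 ≤ 24 * ((d : ℝ) + 2) * (d + 4) := by positivity
  have a3 : 0 ≤ (d : ℝ) * (d + 2) * (d + 4) := by positivity
  have q4 := mul_le_mul_of_nonneg_left p4 a1
  have q2 := mul_le_mul_of_nonneg_left p2 a2
  have q0 := mul_le_mul_of_nonneg_left p0 a3
  have s6 : 0 ≤ r ^ 6 := by positivity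
  have s4 : 0 ≤ 192 * ((d : ℝ) + 4) * r ^ 4 := by positivity
  have s2 : 0 ≤ 24 * ((d : ℝ) + 2) * (d + 4) * r ^ 2 := by positivity
  have t6 : 0 ≤ (1 + r) ^ 6 := by positivity
  have u1 := mul_nonneg a1 t6
  have u2 := mul_nonneg a2 t6
  have u3 := mul_nonneg a3 t6
  have h1 : |512 * r ^ 6 - 192 * ((d : ℝ) + 4) * r ^ 4 + 24 * (d + 2) * (d + 4) * r ^ 2 -
      d * (d + 2) * (d + 4)| ≤
      (512 + 192 * (d + 4) + 24 * (d + 2) * (d + 4) + d * (d + 2) * (d + 4)) * (1 + r) ^ 6 := by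
    rw [abs_le]
    constructor
    · linarith
    · linarith
  calc 512 * |512 * r ^ 6 - 192 * ((d : ℝ) + 4) * r ^ 4 + 24 * (d + 2) * (d + 4) * r ^ 2 -
        d * (d + 2) * (d + 4)| * ga 4 (Y - y)
      ≤ 512 * ((512 + 192 * (d + 4) + 24 * (d + 2) * (d + 4) + d * (d + 2) * (d + 4)) *
        (1 + r) ^ 6) * ga 4 (Y - y) := by gcongr
    _ = _ := by ring

private theorem C7H3_tri (y z Y : X d) : 1 + ‖Y - z‖ ≤ (1 + ‖Y - y‖) * (1 + ‖y - z‖) := by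
  have h1 : ‖Y - z‖ ≤ ‖Y - y‖ + ‖y - z‖ := norm_sub_le_norm_sub_add_norm_sub Y y z
  nlinarith [norm_nonneg (Y - y), norm_nonneg (y - z)]

/-- the function `|L3 y Y| (1 + ‖Y - z‖)` -/
private theorem C7H3_LY_le (y z Y : X d) :
    |L3 y Y| * (1 + ‖Y - z‖) ≤
      (C7H3_cV d * (1 + ‖y - z‖)) * ((1 + ‖Y - y‖) ^ 7 * ga 4 (Y - y)) := by
  have h1 := C7H3_L_le y Y
  have h2 := C7H3_tri y z Y
  have hg := ga_pos (d := d) 4 (Y - y)
  have hcV := C7H3_cV_pos d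
  calc |L3 y Y| * (1 + ‖Y - z‖) ≤ (C7H3_cV d * ((1 + ‖Y - y‖) ^ 6 * ga 4 (Y - y))) *
        ((1 + ‖Y - y‖) * (1 + ‖y - z‖)) :=
        mul_le_mul h1 h2 (by positivity) (by positivity)
    _ = _ := by ring

private theorem C7H3_LY_int (y z : X d) :
    Integrable fun Y : X d => |L3 y Y| * (1 + ‖Y - z‖) := by
  have h0 := ((ga_integrable (d := d) (b := 4) (by norm_num) 7).comp_sub_right y).const_mul
    (C7H3_cV d * (1 + ‖y - z‖))
  refine h0.mono' ?_ (Eventually.of_forall fun Y => ?_)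
  · exact ((C7H3_L_cont y).abs.mul (by fun_prop)).aestronglyMeasurable
  · rw [Real.norm_eq_abs, abs_of_nonneg (by positivity)]
    exact C7H3_LY_le y z Y

private theorem C7H3_LY_bdd (y z : X d) :
    ∃ M : ℝ, 0 ≤ M ∧ ∀ Y : X d, |L3 y Y| * (1 + ‖Y - z‖) ≤ M := by
  obtain ⟨C, hC, hb⟩ := poly_ga d 7 (show (0 : ℝ) < 4 by norm_num)
  have hcV := C7H3_cV_pos d
  refine ⟨C7H3_cV d * (1 + ‖y - z‖) * C, by positivity, fun Y => ?_⟩
  refine (C7H3_LY_le y z Y).trans ?_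
  refine mul_le_mul_of_nonneg_left ?_ (by positivity)
  have h1 := hb (Y - y)
  have h2 : ga (0 : ℝ) (Y - y) = 1 := by unfold ga; simp
  rw [h2] at h1
  linarith

/-- the kernel, as a function of two variables -/
private noncomputable def C7H3_F (n : ℕ) (y z : X d) (x Y : X d) : ℝ :=
  L3 y Y * C7H3_G n (Y - x) (Y - z)

private theorem C7H3_G_meas (n : ℕ) (z : X d) :
    Measurable fun q : X d × X d => C7H3_G n (q.2 - q.1) (q.2 - z) := by
  unfold C7H3_G kr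
  fun_prop

private theorem C7H3_F_le (n : ℕ) (y z x Y : X d) {M : ℝ}
    (hM : ∀ Y : X d, |L3 y Y| * (1 + ‖Y - z‖) ≤ M) :
    |C7H3_F n y z x Y| ≤ 6 * (n + 1) * (M * C7H3_r n (Y - x) + |L3 y Y| * (1 + ‖Y - z‖)) := by
  unfold C7H3_F
  have h2 := C7H3_G_le n (Y - x) (Y - z)
  have h4 := C7H3_r_nonneg n (Y - x)
  have h5 := hM Y
  rw [abs_mul]
  calc |L3 y Y| * |C7H3_G n (Y - x) (Y - z)|
      ≤ |L3 y Y| * (6 * (n + 1) * ((C7H3_r n (Y - x) + 1) * (1 + ‖Y - z‖))) :=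
        mul_le_mul_of_nonneg_left h2 (abs_nonneg _)
    _ = 6 * (n + 1) * ((|L3 y Y| * (1 + ‖Y - z‖)) * C7H3_r n (Y - x) +
        |L3 y Y| * (1 + ‖Y - z‖)) := by ring
    _ ≤ _ := by gcongr

private theorem C7H3_r_prod {n : ℕ} (hd : d = n + 7) (μ : Measure (X d)) [IsFiniteMeasure μ] :
    Integrable (fun q : X d × X d => C7H3_r n (q.2 - q.1)) (μ.prod volume) := by
  have hm : Measurable fun q : X d × X d => C7H3_r n (q.2 - q.1) :=
    (C7H3_r_meas n).comp (by fun_prop)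
  rw [integrable_prod_iff hm.aestronglyMeasurable]
  refine ⟨Eventually.of_forall fun x => (C7H3_r_int hd).comp_sub_right x, ?_⟩
  have h1 : ∀ x : X d, ∫ Y : X d, ‖C7H3_r n (Y - x)‖ = ∫ Y : X d, ‖C7H3_r n Y‖ := fun x =>
    integral_sub_right_eq_self (fun Y : X d => ‖C7H3_r n Y‖) x
  simp only [h1]
  exact integrable_const _

private theorem C7H3_F_int {n : ℕ} (hd : d = n + 7) (μ : Measure (X d)) [IsFiniteMeasure μ]
    (y z : X d) : Integrable (Function.uncurry fun x Y : X d => C7H3_F n y z x Y)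
      (μ.prod volume) := by
  obtain ⟨M, hM0, hM⟩ := C7H3_LY_bdd y z
  have h1 := (C7H3_r_prod hd μ).const_mul M
  have h2 : Integrable (fun q : X d × X d => |L3 y q.2| * (1 + ‖q.2 - z‖)) (μ.prod volume) := by
    have h3 := (integrable_const (μ := μ) (1 : ℝ)).mul_prod (C7H3_LY_int y z)
    simpa using h3
  refine ((h1.add h2).const_mul (6 * ((n : ℝ) + 1))).mono' ?_ (Eventually.of_forall fun q => ?_)
  · refine Measurable.aestronglyMeasurable ?_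
    have h4 : Measurable fun q : X d × X d => L3 y q.2 :=
      ((C7H3_L_cont y).comp continuous_snd).measurable
    exact h4.mul (C7H3_G_meas n z)
  · obtain ⟨x, Y⟩ := q
    exact C7H3_F_le n y z x Y hM

/-- for almost every `Y` the kernels are integrable -/
private theorem C7H3_G_int {n : ℕ} (hd : d = n + 7) (μ : Measure (X d)) [IsFiniteMeasure μ] :
    ∀ᵐ Y : X d, ∀ v : X d, Integrable (fun x => C7H3_G n (Y - x) v) μ := by
  have h1 := (C7H3_r_prod hd μ).prod_left_ae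
  filter_upwards [h1] with Y hY v
  have hY' : Integrable (fun x => C7H3_r n (Y - x)) μ := hY
  refine (((hY'.add (integrable_const (1 : ℝ))).mul_const (1 + ‖v‖)).const_mul
    (6 * ((n : ℝ) + 1))).mono' ?_ (Eventually.of_forall fun x => ?_)
  · refine Measurable.aestronglyMeasurable ?_
    unfold C7H3_G kr
    fun_prop
  · exact C7H3_G_le n (Y - x) v

/-- `L7` for `ε = 0` is the integral of the kernel -/
private theorem C7H3_L7 {n : ℕ} {μ : Measure (X d)} {Y : X d}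
    (hY : ∀ v : X d, Integrable (fun x => C7H3_G n (Y - x) v) μ) (v : X d) :
    L7 n 0 μ Y v = ∫ x, C7H3_G n (Y - x) v ∂μ := by
  have hT : Integrable (fun x => 6 * kr n 0 (Y - x)) μ := by
    have := hY 0
    unfold C7H3_G at this
    simpa using this
  have hV : ∀ v : X d, Integrable (fun x => 6 * (n + 1) * kr (n + 2) 0 (Y - x) * ⟪Y - x, v⟫) μ := by
    intro v
    have h1 := hT.sub (hY v)
    refine h1.congr (Eventually.of_forall fun x => ?_)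
    simp only [Pi.sub_apply, C7H3_G]
    ring
  have e1 : Te n 0 μ Y = ∫ x, 6 * kr n 0 (Y - x) ∂μ := by
    unfold Te
    refine integral_congr_ae (Eventually.of_forall fun x => ?_)
    simp only
    ring
  have e2 : ∀ k : Fin d, v k * Ve n 0 μ k Y =
      ∫ x, -(v k * (6 * (n + 1) * kr (n + 2) 0 (Y - x) * (Y - x) k)) ∂μ := by
    intro k
    unfold Ve
    rw [← mul_assoc, ← integral_const_mul]
    refine integral_congr_ae (Eventually.of_forall fun x => ?_)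
    simp only
    ring
  have hVk : ∀ k : Fin d, Integrable
      (fun x => -(v k * (6 * (n + 1) * kr (n + 2) 0 (Y - x) * (Y - x) k))) μ := by
    intro k
    have h1 := ((hV (EuclideanSpace.single k 1)).const_mul (v k)).neg
    refine h1.congr (Eventually.of_forall fun x => ?_)
    simp only [Pi.neg_apply]
    rw [EuclideanSpace.inner_single_right]
    simp
  unfold L7
  rw [e1, Finset.sum_congr rfl fun k _ => e2 k, ← integral_finsetSum _ fun k _ => hVk k]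
  have e3 : (1 + b2 n * (0 : ℝ) ^ 2 * kr 1 0 v) = 1 := by ring
  rw [e3, one_mul, ← integral_add hT (integrable_finsetSum _ fun k _ => hVk k)]
  refine integral_congr_ae (Eventually.of_forall fun x => ?_)
  simp only [C7H3_G]
  have e4 : ⟪Y - x, v⟫ = ∑ k, v k * (Y - x) k := by
    rw [PiLp.inner_apply]
    refine Finset.sum_congr rfl fun k _ => ?_
    simp
  rw [e4, Finset.mul_sum, Finset.sum_neg_distrib, ← sub_eq_add_neg]
  congr 1
  refine Finset.sum_congr rfl fun k _ => ?_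
  ring

private theorem C7H3_L7_meas (n : ℕ) (μ : Measure (X d)) [IsFiniteMeasure μ] (z : X d) :
    Measurable fun Y : X d => L7 n 0 μ Y (Y - z) := by
  have hT : Measurable fun Y : X d => Te n 0 μ Y := by
    have h1 : Measurable fun q : X d × X d =>
        6 * kr n 0 (q.1 - q.2) + (n + 1) * (0 : ℝ) ^ 2 * kr (n + 2) 0 (q.1 - q.2) := by
      unfold kr
      fun_prop
    exact ((h1.stronglyMeasurable).integral_prod_right' (ν := μ)).measurable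
  have hV : ∀ k : Fin d, Measurable fun Y : X d => Ve n 0 μ k Y := by
    intro k
    have h1 : Measurable fun q : X d × X d =>
        (6 * kr (n + 2) 0 (q.1 - q.2) + (n + 3) * (0 : ℝ) ^ 2 * kr (n + 4) 0 (q.1 - q.2)) *
          (q.1 - q.2) k := by
      unfold kr
      fun_prop
    exact ((h1.stronglyMeasurable).integral_prod_right' (ν := μ)).measurable.const_mul _
  have hk : Measurable fun Y : X d => 1 + b2 n * (0 : ℝ) ^ 2 * kr 1 0 (Y - z) := by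
    unfold kr
    fun_prop
  unfold L7
  refine (hk.mul hT).add (Finset.measurable_sum _ fun k _ => ?_)
  exact (by fun_prop : Measurable fun Y : X d => (Y - z) k).mul (hV k)

/-- the representation of the defect -/
private theorem C7H3_rep {n : ℕ} (hd : d = n + 7) {c : ℝ}
    (hc : ∀ x y z : X d,
      ∫ Y, L3 y Y * (6 * kr n 0 (Y - x) - 6 * (n + 1) * kr (n + 2) 0 (Y - x) * ⟪Y - x, Y - z⟫) =
      c * ((n - 8 * ⟪x - z, x - y⟫) * ga 4 (x - y)))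
    (μ : Measure (X d)) [IsFiniteMeasure μ] (z y : X d) :
    c * Jf n μ 4 z y = ∫ Y, L3 y Y * L7 n 0 μ Y (Y - z) := by
  have hsw := integral_integral_swap (C7H3_F_int hd μ y z)
  have e1 : ∀ᵐ Y : X d, ∫ x, C7H3_F n y z x Y ∂μ = L3 y Y * L7 n 0 μ Y (Y - z) := by
    filter_upwards [C7H3_G_int hd μ] with Y hY
    rw [C7H3_L7 hY (Y - z)]
    exact integral_const_mul _ _
  have e2 : ∀ x : X d, ∫ Y, C7H3_F n y z x Y =
      c * ((n - 2 * 4 * ⟪x - z, x - y⟫) * ga 4 (x - y)) := by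
    intro x
    unfold C7H3_F C7H3_G
    rw [hc x y z]
    ring
  rw [← integral_congr_ae e1, ← hsw, integral_congr_ae (Eventually.of_forall e2),
    integral_const_mul]
  rfl

/-- the square root of the weight -/
private noncomputable def C7H3_w (n : ℕ) (z : X d) (s : ℝ) (Y : X d) : ℝ :=
  Real.sqrt (s * kr (n + 5) s (Y - z))

private theorem C7H3_kr_pos (n : ℕ) {s : ℝ} (hs : 0 < s) (Z : X d) : 0 < kr n s Z := by
  unfold kr
  have : 0 < Real.sqrt (‖Z‖ ^ 2 + s ^ 2) := Real.sqrt_pos.2 (by positivity)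
  positivity

private theorem C7H3_w_pos (n : ℕ) (z : X d) {s : ℝ} (hs : 0 < s) (Y : X d) :
    0 < C7H3_w n z s Y := Real.sqrt_pos.2 (mul_pos hs (C7H3_kr_pos _ hs _))

private theorem C7H3_w_sq (n : ℕ) (z : X d) {s : ℝ} (hs : 0 < s) (Y : X d) :
    C7H3_w n z s Y ^ 2 = s * kr (n + 5) s (Y - z) :=
  Real.sq_sqrt (mul_pos hs (C7H3_kr_pos _ hs _)).le

private theorem C7H3_w_meas (n : ℕ) (z : X d) (s : ℝ) : Measurable (C7H3_w n z s) := by
  unfold C7H3_w kr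
  fun_prop

private theorem C7H3_winv (n : ℕ) (z : X d) {s : ℝ} (hs1 : 1 / 4 ≤ s) (hs2 : s ≤ 1 / 2) (Y : X d) :
    (C7H3_w n z s Y)⁻¹ ^ 2 ≤ 4 * (1 + ‖Y - z‖) ^ (n + 6) := by
  have hs0 : 0 < s := by linarith
  rw [inv_pow, C7H3_w_sq n z hs0 Y]
  unfold kr
  rw [mul_inv, inv_pow, inv_inv]
  have h1 : s⁻¹ ≤ 4 := by
    rw [inv_le_comm₀ hs0 (by norm_num)]
    linarith
  have h2 : Real.sqrt (‖Y - z‖ ^ 2 + s ^ 2) ≤ 1 + ‖Y - z‖ := by
    rw [Real.sqrt_le_left (by positivity)]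
    nlinarith [norm_nonneg (Y - z)]
  have h3 : n + 5 + 1 = n + 6 := rfl
  rw [h3]
  gcongr

private noncomputable def C7H3_I (d n : ℕ) : ℝ := ∫ w : X d, (1 + ‖w‖) ^ (n + 18) * ga 8 w

/-- the weighted norm of `L3` -/
private theorem C7H3_Lsq (n : ℕ) (y z : X d) {s : ℝ} (hs1 : 1 / 4 ≤ s) (hs2 : s ≤ 1 / 2) :
    ∫⁻ Y : X d, ‖(C7H3_w n z s Y)⁻¹ * L3 y Y‖ₑ ^ 2 ≤
      ENNReal.ofReal (4 * C7H3_cV d ^ 2 * C7H3_I d n * (1 + ‖y - z‖) ^ (n + 6)) := by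
  have hint := (ga_integrable (d := d) (b := 8) (by norm_num) (n + 18)).comp_sub_right y
  have h1 : ∀ Y : X d, ‖(C7H3_w n z s Y)⁻¹ * L3 y Y‖ₑ ^ 2 ≤
      ENNReal.ofReal (4 * C7H3_cV d ^ 2 * (1 + ‖y - z‖) ^ (n + 6) *
        ((1 + ‖Y - y‖) ^ (n + 18) * ga 8 (Y - y))) := by
    intro Y
    rw [← ofReal_norm, ← ENNReal.ofReal_pow (norm_nonneg _)]
    refine ENNReal.ofReal_le_ofReal ?_
    rw [norm_mul, mul_pow, Real.norm_eq_abs, sq_abs, Real.norm_eq_abs]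
    have h2 := C7H3_winv n z hs1 hs2 Y
    have h3 := C7H3_L_le y Y
    have h4 := C7H3_tri y z Y
    have h5 : (1 + ‖Y - z‖) ^ (n + 6) ≤ (1 + ‖Y - y‖) ^ (n + 6) * (1 + ‖y - z‖) ^ (n + 6) := by
      rw [← mul_pow]
      exact pow_le_pow_left₀ (by positivity) h4 _
    have hg := ga_pos (d := d) 4 (Y - y)
    have h6 : ga 4 (Y - y) ^ 2 = ga 8 (Y - y) := by
      rw [sq, ga_mul]; norm_num
    calc (C7H3_w n z s Y)⁻¹ ^ 2 * |L3 y Y| ^ 2
        ≤ (4 * ((1 + ‖Y - y‖) ^ (n + 6) * (1 + ‖y - z‖) ^ (n + 6))) *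
          (C7H3_cV d * ((1 + ‖Y - y‖) ^ 6 * ga 4 (Y - y))) ^ 2 := by
          gcongr
          exact h2.trans (by gcongr)
      _ = 4 * C7H3_cV d ^ 2 * (1 + ‖y - z‖) ^ (n + 6) *
          ((1 + ‖Y - y‖) ^ (n + 18) * ga 4 (Y - y) ^ 2) := by ring
      _ = _ := by rw [h6]
  refine (lintegral_mono h1).trans (le_of_eq ?_)
  rw [← ofReal_integral_eq_lintegral_ofReal (hint.const_mul _)
    (Eventually.of_forall fun Y => by have := ga_pos (d := d) 8 (Y - y); positivity),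
    integral_const_mul]
  congr 1
  have h7 : ∫ Y : X d, (1 + ‖Y - y‖) ^ (n + 18) * ga 8 (Y - y) = C7H3_I d n :=
    integral_sub_right_eq_self (fun w : X d => (1 + ‖w‖) ^ (n + 18) * ga 8 w) y
  rw [h7]
  ring

theorem J_le_Qc7 {n : ℕ} (hd : d = n + 7) : ∃ C : ℝ, 0 < C ∧ ∀ (μ : Measure (X d)),
    IsFiniteMeasure μ → ∀ z y : X d, ∀ s : ℝ, 1 / 4 ≤ s → s ≤ 1 / 2 →
      ENNReal.ofReal (Jf n μ 4 z y ^ 2) ≤
        ENNReal.ofReal (C * (1 + ‖y - z‖) ^ (2 * (n + 6))) * Qc7 n μ z s := by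
  obtain ⟨c, hc0, hc⟩ := claim3_7 (d := d) hd
  have hI : 0 ≤ C7H3_I d n := by
    unfold C7H3_I
    refine integral_nonneg fun w => ?_
    have := ga_nonneg (d := d) 8 w
    positivity
  refine ⟨(4 * C7H3_cV d ^ 2 * C7H3_I d n + 1) * c⁻¹ ^ 2, by positivity, ?_⟩
  intro μ hfin z y s hs1 hs2
  have := hfin
  have hs0 : 0 < s := by linarith
  have hrep := C7H3_rep hd (fun x y z => (hc x y z).2) μ z y
  have hmV : Measurable fun Y : X d => (C7H3_w n z s Y)⁻¹ * L3 y Y :=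
    (C7H3_w_meas n z s).inv.mul (C7H3_L_cont y).measurable
  have hmS : Measurable fun Y : X d => C7H3_w n z s Y * L7 n 0 μ Y (Y - z) :=
    (C7H3_w_meas n z s).mul (C7H3_L7_meas n μ z)
  have h1 : ‖c * Jf n μ 4 z y‖ₑ ≤
      (∫⁻ Y : X d, ‖(C7H3_w n z s Y)⁻¹ * L3 y Y‖ₑ ^ 2) ^ (1 / 2 : ℝ) *
      (∫⁻ Y : X d, ‖C7H3_w n z s Y * L7 n 0 μ Y (Y - z)‖ₑ ^ 2) ^ (1 / 2 : ℝ) := by
    rw [hrep]
    have h2 : ∫⁻ Y : X d, ‖L3 y Y * L7 n 0 μ Y (Y - z)‖ₑ ≤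
        ∫⁻ Y : X d, ((fun Y : X d => ‖(C7H3_w n z s Y)⁻¹ * L3 y Y‖ₑ) *
          (fun Y : X d => ‖C7H3_w n z s Y * L7 n 0 μ Y (Y - z)‖ₑ)) Y := by
      refine lintegral_mono fun Y => ?_
      simp only [Pi.mul_apply]
      have hw := C7H3_w_pos n z hs0 Y
      have e : L3 y Y * L7 n 0 μ Y (Y - z) =
          ((C7H3_w n z s Y)⁻¹ * L3 y Y) * (C7H3_w n z s Y * L7 n 0 μ Y (Y - z)) := by
        have e0 : (C7H3_w n z s Y)⁻¹ * C7H3_w n z s Y = 1 := inv_mul_cancel₀ hw.ne'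
        calc L3 y Y * L7 n 0 μ Y (Y - z) =
            ((C7H3_w n z s Y)⁻¹ * C7H3_w n z s Y) * (L3 y Y * L7 n 0 μ Y (Y - z)) := by
              rw [e0, one_mul]
          _ = _ := by ring
      rw [e, enorm_mul]
    have h3 := ENNReal.lintegral_mul_le_Lp_mul_Lq (volume : Measure (X d))
      (Real.HolderConjugate.two_two) (f := fun Y : X d => ‖(C7H3_w n z s Y)⁻¹ * L3 y Y‖ₑ)
      (g := fun Y : X d => ‖C7H3_w n z s Y * L7 n 0 μ Y (Y - z)‖ₑ)
      hmV.enorm.aemeasurable hmS.enorm.aemeasurable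
    simp only [ENNReal.rpow_two] at h3
    exact (enorm_integral_le_lintegral_enorm _).trans (h2.trans h3)
  have h5 : ‖c * Jf n μ 4 z y‖ₑ ^ 2 ≤ (∫⁻ Y : X d, ‖(C7H3_w n z s Y)⁻¹ * L3 y Y‖ₑ ^ 2) *
      (∫⁻ Y : X d, ‖C7H3_w n z s Y * L7 n 0 μ Y (Y - z)‖ₑ ^ 2) := by
    refine (pow_le_pow_left' h1 2).trans (le_of_eq ?_)
    rw [mul_pow, ← ENNReal.rpow_natCast, ← ENNReal.rpow_natCast, ← ENNReal.rpow_mul,
      ← ENNReal.rpow_mul]
    norm_num
  have h6 : ∫⁻ Y : X d, ‖C7H3_w n z s Y * L7 n 0 μ Y (Y - z)‖ₑ ^ 2 = Qc7 n μ z s := by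
    unfold Qc7
    refine lintegral_congr fun Y => ?_
    rw [enorm_mul, mul_pow]
    congr 1
    rw [← ofReal_norm, ← ENNReal.ofReal_pow (norm_nonneg _), Real.norm_eq_abs, sq_abs,
      C7H3_w_sq n z hs0 Y]
  have h4 : ENNReal.ofReal (Jf n μ 4 z y ^ 2) =
      ENNReal.ofReal (c⁻¹ ^ 2) * ‖c * Jf n μ 4 z y‖ₑ ^ 2 := by
    rw [← ofReal_norm, ← ENNReal.ofReal_pow (norm_nonneg _), Real.norm_eq_abs, sq_abs,
      ← ENNReal.ofReal_mul (by positivity)]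
    congr 1
    field_simp
  rw [h4]
  rw [h6] at h5
  calc ENNReal.ofReal (c⁻¹ ^ 2) * ‖c * Jf n μ 4 z y‖ₑ ^ 2
      ≤ ENNReal.ofReal (c⁻¹ ^ 2) *
        (ENNReal.ofReal (4 * C7H3_cV d ^ 2 * C7H3_I d n * (1 + ‖y - z‖) ^ (n + 6)) *
          Qc7 n μ z s) :=
        mul_le_mul' le_rfl (h5.trans (mul_le_mul' (C7H3_Lsq n y z hs1 hs2) le_rfl))
    _ = ENNReal.ofReal (c⁻¹ ^ 2 *
        (4 * C7H3_cV d ^ 2 * C7H3_I d n * (1 + ‖y - z‖) ^ (n + 6))) * Qc7 n μ z s := by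
        rw [← mul_assoc, ← ENNReal.ofReal_mul (by positivity)]
    _ ≤ _ := by
        refine mul_le_mul' (ENNReal.ofReal_le_ofReal ?_) le_rfl
        have h8 : (1 + ‖y - z‖) ^ (n + 6) ≤ (1 + ‖y - z‖) ^ (2 * (n + 6)) :=
          pow_le_pow_right₀ (by linarith [norm_nonneg (y - z)]) (by omega)
        have h9 : 4 * C7H3_cV d ^ 2 * C7H3_I d n ≤
            4 * C7H3_cV d ^ 2 * C7H3_I d n + 1 := by linarith
        calc c⁻¹ ^ 2 * (4 * C7H3_cV d ^ 2 * C7H3_I d n * (1 + ‖y - z‖) ^ (n + 6))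
            ≤ c⁻¹ ^ 2 * ((4 * C7H3_cV d ^ 2 * C7H3_I d n + 1) *
              (1 + ‖y - z‖) ^ (2 * (n + 6))) := by gcongr
          _ = _ := by ring

end Pool.Agent.H1.C7
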