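import Pool.Agent.H1.C5.D0

/-!
Codimension seven: the structure of the higher derivatives (note 6198 of helper1).
-/

set_option autoImplicit false

open MeasureTheory Filter Topology Metric Set
open scoped RealInnerProductSpace ENNReal

namespace Pool.Agent.H1.LD

open Pool.Agent.RZ

variable {d : ℕ}

/-- continuation of `HesA`: `P` are the derivatives of `R` (fourth derivatives of the potential),
`K` those of `H`, `U` is the trace of `H`, `G` its gradient, `U2` its Laplacian, `G2` the gradient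
and `Q3` the Laplacian of `U2` -/
structure HesC (n : ℕ) (R : Fin d → Fin d → Fin d → X d → ℝ)
    (P : Fin d → Fin d → Fin d → Fin d → X d → ℝ) (H : Fin d → Fin d → X d → ℝ)
    (K : Fin d → Fin d → Fin d → X d → ℝ) (U : X d → ℝ) (G : Fin d → X d → ℝ)
    (U2 : X d → ℝ) (G2 : Fin d → X d → ℝ) (Q3 : X d → ℝ) : Prop where
  dH : ∀ k l, Differentiable ℝ (H k l)
  dP : ∀ i j k l, Differentiable ℝ (P i j k l)
  cK : ∀ k l m, Continuous (K k l m)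
  dU : Differentiable ℝ U
  dG : ∀ k, Differentiable ℝ (G k)
  dU2 : Differentiable ℝ U2
  dG2 : ∀ k, Differentiable ℝ (G2 k)
  cQ : Continuous Q3
  eP : ∀ i j k l x, fderiv ℝ (R i j k) x (EuclideanSpace.single l 1) = P i j k l x
  sP : ∀ i j k l x, P i j k l x = P i j l k x
  eDP : ∀ b c l x, ∑ a, fderiv ℝ (P a b c l) x (EuclideanSpace.single a 1) = K b c l x
  eK : ∀ k l m x, fderiv ℝ (H k l) x (EuclideanSpace.single m 1) = K k l m x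
  sK : ∀ k l m x, K k l m x = K k m l x
  eU : ∀ x, U x = ∑ k, H k k x
  eG : ∀ k x, fderiv ℝ U x (EuclideanSpace.single k 1) = G k x
  eU2 : ∀ x, ∑ k, fderiv ℝ (G k) x (EuclideanSpace.single k 1) = U2 x
  eG2 : ∀ k x, fderiv ℝ U2 x (EuclideanSpace.single k 1) = G2 k x
  eQ : ∀ x, ∑ k, fderiv ℝ (G2 k) x (EuclideanSpace.single k 1) = Q3 x
  bd : ∃ C : ℝ, ∀ x, (∀ i j k l, |P i j k l x| ≤ C * (1 + ‖x‖)⁻¹ ^ (n + 3)) ∧
    (∀ i j k l m, |fderiv ℝ (P i j k l) x (EuclideanSpace.single m 1)| ≤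
      C * (1 + ‖x‖)⁻¹ ^ (n + 4)) ∧
    (∀ k l m, |K k l m x| ≤ C * (1 + ‖x‖)⁻¹ ^ (n + 4)) ∧
    |U x| ≤ C * (1 + ‖x‖)⁻¹ ^ (n + 3) ∧
    (∀ k, |G k x| ≤ C * (1 + ‖x‖)⁻¹ ^ (n + 4)) ∧
    (∀ k l, |fderiv ℝ (G k) x (EuclideanSpace.single l 1)| ≤ C * (1 + ‖x‖)⁻¹ ^ (n + 5)) ∧
    |U2 x| ≤ C * (1 + ‖x‖)⁻¹ ^ (n + 5) ∧
    (∀ k, |G2 k x| ≤ C * (1 + ‖x‖)⁻¹ ^ (n + 6)) ∧
    (∀ k l, |fderiv ℝ (G2 k) x (EuclideanSpace.single l 1)| ≤ C * (1 + ‖x‖)⁻¹ ^ (n + 7))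

end Pool.Agent.H1.LD
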