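import Pool.Agent.H1.C7.Sym

/-!
Row I1.  All by ibp (Cal) termwise under the finite sums, with the symmetries and divergences of Sym; the products have exponent ≥ 3n+6 ≥ d+1 (d = n+7, n ≥ 1), the integrands exponent 3n+7 (dec_int).
 cE = ∫ S_kl (d_a R_kbc) X_labc: (X_kabc = d_a R_kbc), = -∫ R_akl R_kbc X_labc - ∫ S_kl R_kbc K_lbc  (sum_a d_a X_labc = K_lbc).
 cY1: ∫ R_akl R_kbc (d_l R_abc) = -∫ H_ak R_kbc R_abc - ∫ R_akl X_kbcl R_abc, and the last integral is ∫ cY1 again (relabel: R_akl R_abc X_kbcl). So 2 ∫cY1 = -∫cZ1.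
-/

set_option autoImplicit false

open MeasureTheory Filter Topology Metric Set
open scoped RealInnerProductSpace ENNReal

namespace Pool.Agent.H1.C7

open Pool.Agent.RZ Pool.Agent.H1.LD

variable {d : ℕ}

private theorem C7I1_int5 {f : Fin d → Fin d → Fin d → Fin d → Fin d → X d → ℝ}
    (hf : ∀ a b c k l, Integrable (f a b c k l)) :
    ∫ x, (∑ a, ∑ b, ∑ c, ∑ k, ∑ l, f a b c k l x) =
      ∑ a, ∑ b, ∑ c, ∑ k, ∑ l, ∫ x, f a b c k l x := by
  rw [integral_finsetSum _ fun a _ => integrable_finsetSum _ fun b _ =>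
    integrable_finsetSum _ fun c _ => integrable_finsetSum _ fun k _ =>
    integrable_finsetSum _ fun l _ => hf a b c k l]
  refine Finset.sum_congr rfl fun a _ => ?_
  rw [integral_finsetSum _ fun b _ =>
    integrable_finsetSum _ fun c _ => integrable_finsetSum _ fun k _ =>
    integrable_finsetSum _ fun l _ => hf a b c k l]
  refine Finset.sum_congr rfl fun b _ => ?_
  rw [integral_finsetSum _ fun c _ => integrable_finsetSum _ fun k _ =>
    integrable_finsetSum _ fun l _ => hf a b c k l]
  refine Finset.sum_congr rfl fun c _ => ?_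
  rw [integral_finsetSum _ fun k _ => integrable_finsetSum _ fun l _ => hf a b c k l]
  refine Finset.sum_congr rfl fun k _ => ?_
  rw [integral_finsetSum _ fun l _ => hf a b c k l]

private theorem C7I1_lin {f g h : Fin d → Fin d → Fin d → Fin d → Fin d → X d → ℝ}
    (hf : ∀ a b c k l, Integrable (f a b c k l)) (hg : ∀ a b c k l, Integrable (g a b c k l))
    (hh : ∀ a b c k l, Integrable (h a b c k l))
    (e : ∀ a b c k l, ∫ x, f a b c k l x = -(∫ x, g a b c k l x) - ∫ x, h a b c k l x) :
    ∫ x, (∑ a, ∑ b, ∑ c, ∑ k, ∑ l, f a b c k l x) =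
      -(∫ x, (∑ a, ∑ b, ∑ c, ∑ k, ∑ l, g a b c k l x)) -
        ∫ x, (∑ a, ∑ b, ∑ c, ∑ k, ∑ l, h a b c k l x) := by
  rw [C7I1_int5 hf, C7I1_int5 hg, C7I1_int5 hh]
  simp only [e, Finset.sum_sub_distrib, Finset.sum_neg_distrib]

/-- integration by parts for a product of three factors -/
private theorem C7I1_ibp3 {p q r : ℤ} {u v w : X d → ℝ} (hu : DecN 5 p u) (hv : DecN 5 q v)
    (hw : DecN 5 r w) (hpq : (d : ℤ) + 1 ≤ p + q + r) (k : Fin d) :
    ∫ x, (u x * v x) * pd k w x =
      -(∫ x, pd k u x * (w x * v x)) - ∫ x, u x * (w x * pd k v x) := by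
  have huv : DecN 5 (p + q) (fun x => u x * v x) := dec_mul hu hv
  rw [ibp (N := 4) (M := 4) huv hw hpq k]
  have e : ∀ x, pd k (fun x => u x * v x) x * w x =
      pd k u x * (w x * v x) + u x * (w x * pd k v x) := by
    intro x
    rw [pd_mul (dec_diff hu) (dec_diff hv)]
    ring
  simp only [e]
  have h4 : ∀ {t : ℤ} {y : X d → ℝ}, DecN 5 t y → DecN 4 t y := fun hy =>
    dec_mono hy (by norm_num) le_rfl
  have i1 : Integrable (fun x => pd k u x * (w x * v x)) :=
    dec_int (dec_mul (dec_pd (N := 4) hu k) (dec_mul (h4 hw) (h4 hv))) (by linarith)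
  have i2 : Integrable (fun x => u x * (w x * pd k v x)) :=
    dec_int (dec_mul (h4 hu) (dec_mul (h4 hw) (dec_pd (N := 4) hv k))) (by linarith)
  rw [integral_add i1 i2]
  ring

theorem i_one {n : ℕ} (hn : 1 ≤ n) (hd : d = n + 7) {F : Fin d → X d → ℝ} (h : Fld n F) :
    ∫ x, cE F x = -(∫ x, cY1 F x) - ∫ x, cY2 F x := by
  have hS : ∀ i j, DecN 5 (n + 1) (fS F i j) := fun i j =>
    dec_mono (decS h i j) (by norm_num) le_rfl
  have hR : ∀ i j k, DecN 5 (n + 2) (fR F i j k) := fun i j k =>
    dec_mono (decR h i j k) (by norm_num) le_rfl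
  have hX : ∀ i j k l, DecN 5 (n + 3) (fX F i j k l) := fun i j k l => decX h i j k l
  have h4 : ∀ {t : ℤ} {y : X d → ℝ}, DecN 5 t y → DecN 4 t y := fun hy =>
    dec_mono hy (by norm_num) le_rfl
  have hn' : (1 : ℤ) ≤ n := by exact_mod_cast hn
  have hd' : (d : ℤ) = n + 7 := by exact_mod_cast hd
  have eX : ∀ a b c l, fX F a b c l = fX F l a b c := by
    intro a b c l
    rw [symX34 h a b c l, symX23 h a b l c, symX12 h a l b c]
  have eX2 : ∀ l a b c, fX F l a b c = fX F l b c a := by
    intro l a b c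
    rw [symX23 h l a b c, symX34 h l b a c]
  have key := C7I1_lin
    (f := fun a b c k l x => fS F k l x * (fX F a b c k x * fX F a b c l x))
    (g := fun a b c k l x => fR F a k l x * (fR F k b c x * fX F l a b c x))
    (h := fun a b c k l x => fS F k l x * (fR F k b c x * pd a (fX F l b c a) x))
    (fun a b c k l => dec_int (dec_mul (hS k l) (dec_mul (hX a b c k) (hX a b c l)))
      (by linarith))
    (fun a b c k l => dec_int (dec_mul (hR a k l) (dec_mul (hR k b c) (hX l a b c)))
      (by linarith))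
    (fun a b c k l => dec_int (dec_mul (h4 (hS k l)) (dec_mul (h4 (hR k b c))
      (dec_pd (N := 4) (hX l b c a) a))) (by linarith))
    (by
      intro a b c k l
      have e1 := C7I1_ibp3 (hS k l) (hX l a b c) (hR k b c) (by linarith) a
      have e2 : fX F k b c a = pd a (fR F k b c) := rfl
      have e3 : fR F k l a = pd a (fS F k l) := rfl
      have e4 : fX F a b c k = fX F k b c a := by rw [eX a b c k, eX2 k a b c]
      have e5 : fR F k l a = fR F a k l := by rw [symR23 h k l a, symR12 h k a l]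
      rw [← e2, ← e3, e5, eX2 l a b c] at e1
      have e6 : ∀ x, fS F k l x * (fX F a b c k x * fX F a b c l x) =
          fS F k l x * fX F l b c a x * fX F k b c a x := by
        intro x
        rw [e4, eX a b c l, eX2 l a b c]
        ring
      simp only [e6]
      rw [e1, eX2 l a b c])
  have hsum : ∀ x, (∑ a, ∑ b, ∑ c, ∑ k, ∑ l,
      fS F k l x * (fR F k b c x * pd a (fX F l b c a) x)) = cY2 F x := by
    intro x
    unfold cY2
    rw [Finset.sum_comm]
    refine Finset.sum_congr rfl fun b _ => ?_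
    rw [Finset.sum_comm]
    refine Finset.sum_congr rfl fun c _ => ?_
    rw [Finset.sum_comm]
    refine Finset.sum_congr rfl fun k _ => ?_
    rw [Finset.sum_comm]
    refine Finset.sum_congr rfl fun l _ => ?_
    rw [← divX h l b c x, Finset.mul_sum, Finset.mul_sum]
  simp only [hsum] at key
  exact key

theorem i_two {n : ℕ} (hn : 1 ≤ n) (hd : d = n + 7) {F : Fin d → X d → ℝ} (h : Fld n F) :
    ∫ x, cY1 F x = -(1 / 2) * ∫ x, cZ1 F x := by
  have hR : ∀ i j k, DecN 5 (n + 2) (fR F i j k) := fun i j k =>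
    dec_mono (decR h i j k) (by norm_num) le_rfl
  have hX : ∀ i j k l, DecN 5 (n + 3) (fX F i j k l) := fun i j k l => decX h i j k l
  have h4 : ∀ {t : ℤ} {y : X d → ℝ}, DecN 5 t y → DecN 4 t y := fun hy =>
    dec_mono hy (by norm_num) le_rfl
  have hn' : (1 : ℤ) ≤ n := by exact_mod_cast hn
  have hd' : (d : ℤ) = n + 7 := by exact_mod_cast hd
  have eX : ∀ a b c l, fX F a b c l = fX F l a b c := by
    intro a b c l
    rw [symX34 h a b c l, symX23 h a b l c, symX12 h a l b c]
  have eR : ∀ a k l, fR F a k l = fR F l a k := by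
    intro a k l
    rw [symR23 h a k l, symR12 h a l k]
  have key := C7I1_lin
    (f := fun a b c k l x => fR F a k l x * (fR F k b c x * fX F l a b c x))
    (g := fun a b c k l x => pd l (fR F l a k) x * (fR F a b c x * fR F k b c x))
    (h := fun a b c k l x => fR F a k l x * (fR F a b c x * fX F l k b c x))
    (fun a b c k l => dec_int (dec_mul (hR a k l) (dec_mul (hR k b c) (hX l a b c)))
      (by linarith))
    (fun a b c k l => dec_int (dec_mul (dec_pd (N := 4) (hR l a k) l)
      (dec_mul (h4 (hR a b c)) (h4 (hR k b c)))) (by linarith))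
    (fun a b c k l => dec_int (dec_mul (hR a k l) (dec_mul (hR a b c) (hX l k b c)))
      (by linarith))
    (by
      intro a b c k l
      have e1 := C7I1_ibp3 (hR l a k) (hR k b c) (hR a b c) (by linarith) l
      have e2 : fX F a b c l = pd l (fR F a b c) := rfl
      have e3 : fX F k b c l = pd l (fR F k b c) := rfl
      rw [← e2, ← e3, eX a b c l, eX k b c l] at e1
      have e6 : ∀ x, fR F a k l x * (fR F k b c x * fX F l a b c x) =
          fR F l a k x * fR F k b c x * fX F l a b c x := by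
        intro x
        rw [eR a k l]
        ring
      simp only [e6]
      rw [e1, eR a k l])
  have hZ : ∀ x, (∑ a, ∑ b, ∑ c, ∑ k, ∑ l,
      pd l (fR F l a k) x * (fR F a b c x * fR F k b c x)) = cZ1 F x := by
    intro x
    unfold cZ1
    refine Finset.sum_congr rfl fun a _ => Finset.sum_congr rfl fun b _ =>
      Finset.sum_congr rfl fun c _ => Finset.sum_congr rfl fun k _ => ?_
    rw [← divR h a k x, Finset.sum_mul]
    refine Finset.sum_congr rfl fun l _ => ?_
    ring
  have hY : ∀ x, (∑ a, ∑ b, ∑ c, ∑ k, ∑ l,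
      fR F a k l x * (fR F a b c x * fX F l k b c x)) = cY1 F x := by
    intro x
    unfold cY1
    have s1 : (∑ a, ∑ b, ∑ c, ∑ k, ∑ l, fR F a k l x * (fR F a b c x * fX F l k b c x)) =
        ∑ a, ∑ k, ∑ b, ∑ c, ∑ l, fR F a k l x * (fR F a b c x * fX F l k b c x) := by
      refine Finset.sum_congr rfl fun a _ => ?_
      rw [Finset.sum_comm]
      have s2 : (∑ c, ∑ b, ∑ k, ∑ l, fR F a k l x * (fR F a b c x * fX F l k b c x)) =
          ∑ c, ∑ k, ∑ b, ∑ l, fR F a k l x * (fR F a b c x * fX F l k b c x) :=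
        Finset.sum_congr rfl fun c _ => Finset.sum_comm
      rw [s2, Finset.sum_comm]
      exact Finset.sum_congr rfl fun k _ => Finset.sum_comm
    have s3 : (∑ a, ∑ b, ∑ c, ∑ k, ∑ l, fR F a k l x * (fR F k b c x * fX F l a b c x)) =
        ∑ k, ∑ a, ∑ b, ∑ c, ∑ l, fR F a k l x * (fR F k b c x * fX F l a b c x) := by
      rw [Finset.sum_comm (s := Finset.univ (α := Fin d)) (t := Finset.univ (α := Fin d))]
      rw [Finset.sum_comm]
      have s4 : ∀ a : Fin d,
          (∑ b, ∑ c, ∑ k, ∑ l, fR F a k l x * (fR F k b c x * fX F l a b c x)) =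
          ∑ k, ∑ b, ∑ c, ∑ l, fR F a k l x * (fR F k b c x * fX F l a b c x) := by
        intro a
        rw [Finset.sum_comm]
        have s2 : (∑ c, ∑ b, ∑ k, ∑ l, fR F a k l x * (fR F k b c x * fX F l a b c x)) =
            ∑ c, ∑ k, ∑ b, ∑ l, fR F a k l x * (fR F k b c x * fX F l a b c x) :=
          Finset.sum_congr rfl fun c _ => Finset.sum_comm
        rw [s2, Finset.sum_comm]
        exact Finset.sum_congr rfl fun k _ => Finset.sum_comm
      rw [Finset.sum_congr rfl fun a _ => s4 a]
      exact Finset.sum_comm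
    rw [s1, s3]
    refine Finset.sum_congr rfl fun a _ => Finset.sum_congr rfl fun k _ =>
      Finset.sum_congr rfl fun b _ => Finset.sum_congr rfl fun c _ =>
      Finset.sum_congr rfl fun l _ => ?_
    rw [symR12 h a k l]
  simp only [hZ, hY] at key
  have key' : ∫ x, cY1 F x = -(∫ x, cZ1 F x) - ∫ x, cY1 F x := key
  linarith

end Pool.Agent.H1.C7
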