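import Pool.Agent.H1.C7.Sym

/-!
Row I2.  All by ibp (Cal) termwise under the finite sums, with the symmetries and divergences of Sym; the products have exponent ≥ 3n+6 ≥ d+1 (d = n+7, n ≥ 1), the integrands exponent 3n+7 (dec_int).
 cY2 = ∫ S_kl R_kbc (d_l H_bc) (K_lbc = d_l H_bc by symmetry) = -∫ V_k R_kbc H_bc - ∫ S_kl X_kbcl H_bc.
 cY3 = ∫ V_k H_bc (d_k S_bc) = -∫ U H_bc S_bc - ∫ V_k K_bck S_bc;   cY3 = ∫ V_k H_bc (d_b S_kc) = -∫ H_kb H_bc S_kc - ∫ V_k G_c S_kc.
-/

set_option autoImplicit false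

open MeasureTheory Filter Topology Metric Set
open scoped RealInnerProductSpace ENNReal

namespace Pool.Agent.H1.C7

open Pool.Agent.RZ Pool.Agent.H1.LD

variable {d : ℕ}

private theorem C7I2_div {N : ℕ} {p : ℤ} {W : Fin d → X d → ℝ}
    (h : ∀ l, DecN (N + 1) p (W l)) (hp : (d : ℤ) + 1 ≤ p) :
    ∫ x, ∑ l, pd l (W l) x = 0 := by
  rw [integral_finsetSum _ fun l _ => dec_int (dec_pd (h l) l) (by omega)]
  exact Finset.sum_eq_zero fun l _ => int_pd (h l) hp l

private theorem C7I2_pd3 {α : Type} [Fintype α] {f g u : α → X d → ℝ}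
    (hf : ∀ a, Differentiable ℝ (f a)) (hg : ∀ a, Differentiable ℝ (g a))
    (hu : ∀ a, Differentiable ℝ (u a)) (k : Fin d) (x : X d) :
    pd k (fun x => ∑ a, f a x * (g a x * u a x)) x =
      ∑ a, (pd k (f a) x * (g a x * u a x) + f a x * (pd k (g a) x * u a x) +
        f a x * (g a x * pd k (u a) x)) := by
  rw [pd_sum Finset.univ (f := fun a x => f a x * (g a x * u a x))
    (fun a => (hf a).fun_mul ((hg a).fun_mul (hu a)))]
  refine Finset.sum_congr rfl fun a _ => ?_
  rw [pd_mul (hf a) ((hg a).fun_mul (hu a)), pd_mul (hg a) (hu a)]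
  ring

private theorem C7I2_mul3 {p q r : ℤ} {a b c : ℕ} {f g u : X d → ℝ}
    (hf : DecN (a + 1) p f) (hg : DecN (b + 1) q g) (hu : DecN (c + 1) r u) :
    DecN 1 (p + (q + r)) (fun x => f x * (g x * u x)) :=
  dec_mul (dec_mono hf (by omega) le_rfl)
    (dec_mul (dec_mono hg (by omega) le_rfl) (dec_mono hu (by omega) le_rfl))

private theorem C7I2_fin {f g u v : X d → ℝ} (hf : Integrable f) (hg : Integrable g)
    (hu : Integrable u) (h0 : ∫ x, v x = 0) (h : ∀ x, v x = f x + g x + u x) :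
    ∫ x, f x = -(∫ x, g x) - ∫ x, u x := by
  have h1 : ∫ x, v x = ∫ x, (f x + g x + u x) := integral_congr_ae (Eventually.of_forall h)
  have h2 : ∫ x, (f x + g x + u x) = (∫ x, (f x + g x)) + ∫ x, u x :=
    integral_add (hf.add hg) hu
  have h3 : ∫ x, (f x + g x) = (∫ x, f x) + ∫ x, g x := integral_add hf hg
  rw [h0, h2, h3] at h1
  linarith

section
variable {n : ℕ} {F : Fin d → X d → ℝ} (h : Fld n F)
include h

private theorem C7I2_intY3 (hn : 1 ≤ n) (hd : d = n + 7) : Integrable (cY3 F) := by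
  have : DecN 1 ((n + 2) + ((n + 3) + (n + 2)) : ℤ) (cY3 F) :=
    dec_sum Finset.univ fun b => dec_sum Finset.univ fun c => dec_sum Finset.univ fun k =>
      C7I2_mul3 (decV h k) (decH h b c) (decR h k b c)
  exact dec_int this (by omega)

end

theorem i_three {n : ℕ} (hn : 1 ≤ n) (hd : d = n + 7) {F : Fin d → X d → ℝ} (h : Fld n F) :
    ∫ x, cY2 F x = -(∫ x, cY3 F x) - ∫ x, cY4 F x := by
  have i2 : Integrable (cY2 F) := by
    have : DecN 1 ((n + 1) + ((n + 2) + (n + 4)) : ℤ) (cY2 F) :=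
      dec_sum Finset.univ fun b => dec_sum Finset.univ fun c => dec_sum Finset.univ fun k =>
        dec_sum Finset.univ fun l =>
        C7I2_mul3 (decS h k l) (decR h k b c) (decK h l b c)
    exact dec_int this (by omega)
  have i4 : Integrable (cY4 F) := by
    have : DecN 1 ((n + 1) + ((n + 3) + (n + 3)) : ℤ) (cY4 F) :=
      dec_sum Finset.univ fun b => dec_sum Finset.univ fun c => dec_sum Finset.univ fun k =>
        dec_sum Finset.univ fun l =>
        C7I2_mul3 (decS h k l) (decH h b c) (decX h k l b c)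
    exact dec_int this (by omega)
  have hW : ∀ l, DecN (0 + 1) ((n + 1) + ((n + 2) + (n + 3)) : ℤ) (fun x =>
      ∑ a : Fin d × Fin d × Fin d,
        fS F a.2.2 l x * (fR F a.2.2 a.1 a.2.1 x * fH F a.1 a.2.1 x)) := fun l =>
    dec_sum Finset.univ fun a =>
      C7I2_mul3 (decS h a.2.2 l) (decR h a.2.2 a.1 a.2.1) (decH h a.1 a.2.1)
  refine C7I2_fin i2 (C7I2_intY3 h hn hd) i4 (C7I2_div hW (by omega)) fun x => ?_
  have e : ∀ l, pd l (fun x => ∑ a : Fin d × Fin d × Fin d,
      fS F a.2.2 l x * (fR F a.2.2 a.1 a.2.1 x * fH F a.1 a.2.1 x)) x =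
      ∑ a : Fin d × Fin d × Fin d,
        (pd l (fS F a.2.2 l) x * (fR F a.2.2 a.1 a.2.1 x * fH F a.1 a.2.1 x) +
          fS F a.2.2 l x * (pd l (fR F a.2.2 a.1 a.2.1) x * fH F a.1 a.2.1 x) +
          fS F a.2.2 l x * (fR F a.2.2 a.1 a.2.1 x * pd l (fH F a.1 a.2.1) x)) := fun l =>
    C7I2_pd3 (α := Fin d × Fin d × Fin d) (fun a => dec_diff (decS h a.2.2 l))
      (fun a => dec_diff (decR h a.2.2 a.1 a.2.1)) (fun a => dec_diff (decH h a.1 a.2.1)) l x
  rw [Finset.sum_congr rfl fun l _ => e l, Finset.sum_comm]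
  unfold cY2 cY3 cY4
  simp only [Fintype.sum_prod_type, ← Finset.sum_add_distrib]
  refine Finset.sum_congr rfl fun b _ => Finset.sum_congr rfl fun c _ =>
    Finset.sum_congr rfl fun k _ => ?_
  have e1 : fV F k x = ∑ l, pd l (fS F k l) x := by
    rw [← divS h k x]
    exact Finset.sum_congr rfl fun l _ => by rw [symS h l k]
  rw [e1, Finset.sum_mul, ← Finset.sum_add_distrib, ← Finset.sum_add_distrib]
  refine Finset.sum_congr rfl fun l _ => ?_
  have e2 : fK F l b c = pd l (fH F b c) := by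
    rw [symK12 h l b c, symK23 h b l c]
    rfl
  have e3 : fX F k l b c = pd l (fR F k b c) := by
    rw [symX23 h k l b c, symX34 h k b l c]
    rfl
  rw [e2, e3]
  ring

theorem i_four_a {n : ℕ} (hn : 1 ≤ n) (hd : d = n + 7) {F : Fin d → X d → ℝ} (h : Fld n F) :
    ∫ x, cY3 F x = -(∫ x, cm2 F x) - ∫ x, cY5 F x := by
  have i2 : Integrable (cm2 F) := by
    have : DecN 1 ((n + 3) + ((n + 1) + (n + 3)) : ℤ) (cm2 F) :=
      dec_mul (dec_mono (decU h) (by omega) le_rfl)
        (dec_sum Finset.univ fun i => dec_sum Finset.univ fun j =>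
          dec_mul (dec_mono (decS h i j) (by omega) le_rfl)
            (dec_mono (decH h i j) (by omega) le_rfl))
    exact dec_int this (by omega)
  have i5 : Integrable (cY5 F) := by
    have : DecN 1 ((n + 2) + ((n + 1) + (n + 4)) : ℤ) (cY5 F) :=
      dec_sum Finset.univ fun b => dec_sum Finset.univ fun c => dec_sum Finset.univ fun k =>
        C7I2_mul3 (decV h k) (decS h b c) (decK h k b c)
    exact dec_int this (by omega)
  have hW : ∀ k, DecN (0 + 1) ((n + 2) + ((n + 3) + (n + 1)) : ℤ) (fun x =>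
      ∑ a : Fin d × Fin d, fV F k x * (fH F a.1 a.2 x * fS F a.1 a.2 x)) := fun k =>
    dec_sum Finset.univ fun a => C7I2_mul3 (decV h k) (decH h a.1 a.2) (decS h a.1 a.2)
  refine C7I2_fin (C7I2_intY3 h hn hd) i2 i5 (C7I2_div hW (by omega)) fun x => ?_
  have e : ∀ k, pd k (fun x => ∑ a : Fin d × Fin d,
      fV F k x * (fH F a.1 a.2 x * fS F a.1 a.2 x)) x =
      ∑ a : Fin d × Fin d,
        (pd k (fV F k) x * (fH F a.1 a.2 x * fS F a.1 a.2 x) +
          fV F k x * (pd k (fH F a.1 a.2) x * fS F a.1 a.2 x) +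
          fV F k x * (fH F a.1 a.2 x * pd k (fS F a.1 a.2) x)) := fun k =>
    C7I2_pd3 (α := Fin d × Fin d) (fun _ => dec_diff (decV h k))
      (fun a => dec_diff (decH h a.1 a.2)) (fun a => dec_diff (decS h a.1 a.2)) k x
  rw [Finset.sum_congr rfl fun k _ => e k, Finset.sum_comm]
  unfold cY3 cm2 cY5
  rw [← divV h x, Finset.mul_sum]
  simp only [Fintype.sum_prod_type, ← Finset.sum_add_distrib]
  refine Finset.sum_congr rfl fun b _ => ?_
  rw [Finset.mul_sum, ← Finset.sum_add_distrib, ← Finset.sum_add_distrib]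
  refine Finset.sum_congr rfl fun c _ => ?_
  rw [Finset.sum_mul, ← Finset.sum_add_distrib, ← Finset.sum_add_distrib]
  refine Finset.sum_congr rfl fun k _ => ?_
  have e2 : fK F k b c = pd k (fH F b c) := by
    rw [symK12 h k b c, symK23 h b k c]
    rfl
  have e3 : fR F k b c = pd k (fS F b c) := by
    rw [symR12 h k b c, symR23 h b k c]
    rfl
  rw [e2, e3]
  ring

theorem i_four_b {n : ℕ} (hn : 1 ≤ n) (hd : d = n + 7) {F : Fin d → X d → ℝ} (h : Fld n F) :
    ∫ x, cY3 F x = -(∫ x, cY6 F x) - ∫ x, cY7 F x := by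
  have i6 : Integrable (cY6 F) := by
    have : DecN 1 ((n + 1) + ((n + 3) + (n + 3)) : ℤ) (cY6 F) :=
      dec_sum Finset.univ fun b => dec_sum Finset.univ fun c => dec_sum Finset.univ fun k =>
        C7I2_mul3 (decS h b c) (decH h k b) (decH h k c)
    exact dec_int this (by omega)
  have i7 : Integrable (cY7 F) := by
    have : DecN 1 ((n + 2) + ((n + 1) + (n + 4)) : ℤ) (cY7 F) :=
      dec_sum Finset.univ fun c => dec_sum Finset.univ fun k =>
        C7I2_mul3 (decV h k) (decS h k c) (decG h c)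
    exact dec_int this (by omega)
  have hW : ∀ b, DecN (0 + 1) ((n + 2) + ((n + 3) + (n + 1)) : ℤ) (fun x =>
      ∑ a : Fin d × Fin d, fV F a.2 x * (fH F b a.1 x * fS F a.2 a.1 x)) := fun b =>
    dec_sum Finset.univ fun a => C7I2_mul3 (decV h a.2) (decH h b a.1) (decS h a.2 a.1)
  refine C7I2_fin (C7I2_intY3 h hn hd) i6 i7 (C7I2_div hW (by omega)) fun x => ?_
  have e : ∀ b, pd b (fun x => ∑ a : Fin d × Fin d,
      fV F a.2 x * (fH F b a.1 x * fS F a.2 a.1 x)) x =
      ∑ a : Fin d × Fin d,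
        (pd b (fV F a.2) x * (fH F b a.1 x * fS F a.2 a.1 x) +
          fV F a.2 x * (pd b (fH F b a.1) x * fS F a.2 a.1 x) +
          fV F a.2 x * (fH F b a.1 x * pd b (fS F a.2 a.1) x)) := fun b =>
    C7I2_pd3 (α := Fin d × Fin d) (fun a => dec_diff (decV h a.2))
      (fun a => dec_diff (decH h b a.1)) (fun a => dec_diff (decS h a.2 a.1)) b x
  rw [Finset.sum_congr rfl fun b _ => e b]
  have e6 : cY6 F x = ∑ b, ∑ c, ∑ k, pd b (fV F k) x * (fH F b c x * fS F k c x) := by
    unfold cY6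
    rw [Finset.sum_comm]
    conv_rhs => rw [Finset.sum_comm]
    refine Finset.sum_congr rfl fun c _ => ?_
    rw [Finset.sum_comm]
    refine Finset.sum_congr rfl fun b _ => Finset.sum_congr rfl fun k _ => ?_
    show fS F k c x * (fH F b k x * fH F b c x) = fH F k b x * (fH F b c x * fS F k c x)
    rw [symH h b k]
    ring
  have e7 : cY7 F x = ∑ b, ∑ c, ∑ k, fV F k x * (pd b (fH F b c) x * fS F k c x) := by
    unfold cY7
    conv_rhs => rw [Finset.sum_comm]
    refine Finset.sum_congr rfl fun c _ => ?_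
    rw [Finset.sum_comm]
    refine Finset.sum_congr rfl fun k _ => ?_
    rw [← divH h c x, Finset.mul_sum, Finset.mul_sum]
    refine Finset.sum_congr rfl fun b _ => ?_
    ring
  have e3 : cY3 F x = ∑ b, ∑ c, ∑ k, fV F k x * (fH F b c x * pd b (fS F k c) x) := by
    unfold cY3
    refine Finset.sum_congr rfl fun b _ => Finset.sum_congr rfl fun c _ =>
      Finset.sum_congr rfl fun k _ => ?_
    rw [symR23 h k b c]
    rfl
  rw [e6, e7, e3]
  simp only [Fintype.sum_prod_type, ← Finset.sum_add_distrib]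
  refine Finset.sum_congr rfl fun b _ => Finset.sum_congr rfl fun c _ =>
    Finset.sum_congr rfl fun k _ => ?_
  ring

end Pool.Agent.H1.C7
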