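import Pool.Agent.H1.C7.Sym

/-!
Row I3.  All by ibp (Cal) termwise under the finite sums, with the symmetries and divergences of Sym; the products have exponent ≥ 3n+6 ≥ d+1 (d = n+7, n ≥ 1), the integrands exponent 3n+7 (dec_int).
 cY5 = ∫ V_k S_bc (d_b H_kc) = -∫ H_kb S_bc H_kc - ∫ V_k V_c H_kc, and ∫ V_k V_c H_kc = (1/2) ∫ V_c d_c|V|^2 = -(1/2) ∫ U |V|^2.
 cY7 = ∫ V_k S_kc (d_c U) = -∫ U (H_kc S_kc + V_k V_k).
-/

set_option autoImplicit false

open MeasureTheory Filter Topology Metric Set
open scoped RealInnerProductSpace ENNReal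

namespace Pool.Agent.H1.C7

open Pool.Agent.RZ Pool.Agent.H1.LD

variable {d : ℕ}

section
variable {n : ℕ} {F : Fin d → X d → ℝ} (h : Fld n F)
include h

private theorem C7I3_dS (i j : Fin d) : DecN 4 (n + 1) (fS F i j) := dec_mono (decS h i j) (by norm_num) le_rfl
private theorem C7I3_dV (k : Fin d) : DecN 4 (n + 2) (fV F k) := dec_mono (decV h k) (by norm_num) le_rfl
private theorem C7I3_dH (k l : Fin d) : DecN 4 (n + 3) (fH F k l) := dec_mono (decH h k l) (by norm_num) le_rfl
private theorem C7I3_dU : DecN 4 (n + 3) (fU F) := dec_mono (decU h) (by norm_num) le_rfl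

omit h in
private theorem C7I3_fp : fp F = fun x => ∑ k, fV F k x * fV F k x := by
  funext x
  unfold fp
  exact Finset.sum_congr rfl fun k _ => sq _

private theorem C7I3_dfp : DecN 4 ((n + 2) + (n + 2)) (fp F) := by
  rw [C7I3_fp]
  exact dec_sum _ fun k => dec_mul (C7I3_dV h k) (C7I3_dV h k)

end

/-- the integral of a divergence -/
private theorem C7I3_div {N : ℕ} {p : ℤ} {W : Fin d → X d → ℝ} (hW : ∀ c, DecN (N + 1) p (W c))
    (hp : (d : ℤ) + 1 ≤ p) : ∫ x, ∑ c, pd c (W c) x = 0 := by
  rw [integral_finsetSum _ fun c _ => dec_int (dec_pd (hW c) c) (by omega)]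
  exact Finset.sum_eq_zero fun c _ => int_pd (hW c) hp c

theorem i_vvh {n : ℕ} (hn : 1 ≤ n) (hd : d = n + 7) {F : Fin d → X d → ℝ} (h : Fld n F) :
    ∫ x, cVVH F x = -(1 / 2) * ∫ x, fU F x * fp F x := by
  have hdz : (d : ℤ) = n + 7 := by rw [hd]; push_cast; ring
  have hdV := C7I3_dV h
  have hdH := C7I3_dH h
  have hdp := C7I3_dfp h
  have hdiv : ∫ x, ∑ c, pd c (fun x => fV F c x * fp F x) x = 0 :=
    C7I3_div (N := 3) (fun c => dec_mul (hdV c) hdp) (by omega)
  have hpt : ∀ x, ∑ c, pd c (fun x => fV F c x * fp F x) x = 2 * cVVH F x + fU F x * fp F x := by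
    intro x
    have h1 : ∀ c, pd c (fun x => fV F c x * fp F x) x =
        fV F c x * (∑ k, (fV F k x * fH F k c x + fH F k c x * fV F k x)) + fH F c c x * fp F x := by
      intro c
      rw [pd_mul (dec_diff (hdV c)) (dec_diff hdp)]
      have h2 : pd c (fp F) x = ∑ k, (fV F k x * fH F k c x + fH F k c x * fV F k x) := by
        rw [C7I3_fp, pd_sum _ (fun k => dec_diff (N := 3) (dec_mul (hdV k) (hdV k)))]
        refine Finset.sum_congr rfl fun k _ => ?_
        rw [pd_mul (dec_diff (hdV k)) (dec_diff (hdV k))]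
        rfl
      rw [h2]
      rfl
    rw [Finset.sum_congr rfl fun c _ => h1 c, Finset.sum_add_distrib, ← Finset.sum_mul]
    have h3 : ∑ c, fV F c x * (∑ k, (fV F k x * fH F k c x + fH F k c x * fV F k x)) = 2 * cVVH F x := by
      unfold cVVH
      rw [Finset.sum_comm, Finset.mul_sum]
      refine Finset.sum_congr rfl fun c _ => ?_
      rw [Finset.mul_sum, Finset.mul_sum]
      exact Finset.sum_congr rfl fun k _ => by ring
    rw [h3]
    rfl
  have hI1 : Integrable (cVVH F) := by
    have : DecN 4 ((n + 2) + ((n + 2) + (n + 3))) (cVVH F) :=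
      dec_sum _ fun k => dec_sum _ fun l => dec_mul (hdV k) (dec_mul (hdV l) (hdH k l))
    exact dec_int this (by omega)
  have hI2 : Integrable (fun x => fU F x * fp F x) :=
    dec_int (dec_mul (C7I3_dU h) hdp) (by omega)
  simp only [hpt] at hdiv
  rw [integral_add (hI1.const_mul 2) hI2, integral_const_mul] at hdiv
  linarith

theorem i_five {n : ℕ} (hn : 1 ≤ n) (hd : d = n + 7) {F : Fin d → X d → ℝ} (h : Fld n F) :
    ∫ x, cY5 F x = -(∫ x, cY6 F x) + (1 / 2) * ∫ x, fU F x * fp F x := by
  have hdz : (d : ℤ) = n + 7 := by rw [hd]; push_cast; ring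
  have hdS := C7I3_dS h
  have hdV := C7I3_dV h
  have hdH := C7I3_dH h
  have hdK := decK h
  have hdiv : ∫ x, ∑ c, pd c (fun x => ∑ b, ∑ k, fV F k x * (fS F b c x * fH F k b x)) x = 0 :=
    C7I3_div (N := 3) (fun c => dec_sum _ fun b => dec_sum _ fun k =>
      dec_mul (hdV k) (dec_mul (hdS b c) (hdH k b))) (by omega)
  have hpt : ∀ x, ∑ c, pd c (fun x => ∑ b, ∑ k, fV F k x * (fS F b c x * fH F k b x)) x =
      cY5 F x + cY6 F x + cVVH F x := by
    intro x
    have dSH : ∀ b c k, Differentiable ℝ (fun x => fS F b c x * fH F k b x) := fun b c k =>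
      (dec_diff (hdS b c)).mul (dec_diff (hdH k b))
    have h1 : ∀ c, pd c (fun x => ∑ b, ∑ k, fV F k x * (fS F b c x * fH F k b x)) x =
        ∑ b, ∑ k, (fV F k x * (fS F b c x * fK F k b c x) + fS F b c x * (fH F k b x * fH F k c x) +
          fV F k x * (pd c (fS F b c) x * fH F k b x)) := by
      intro c
      rw [pd_sum _ (fun b => dec_diff (N := 3) (dec_sum _ fun k =>
        dec_mul (hdV k) (dec_mul (hdS b c) (hdH k b))))]
      refine Finset.sum_congr rfl fun b _ => ?_
      rw [pd_sum _ (fun k => dec_diff (N := 3) (dec_mul (hdV k) (dec_mul (hdS b c) (hdH k b))))]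
      refine Finset.sum_congr rfl fun k _ => ?_
      rw [pd_mul (dec_diff (hdV k)) (dSH b c k), pd_mul (dec_diff (hdS b c)) (dec_diff (hdH k b))]
      have e1 : pd c (fH F k b) x = fK F k b c x := rfl
      have e2 : pd c (fV F k) x = fH F k c x := rfl
      rw [e1, e2]
      ring
    rw [Finset.sum_congr rfl fun c _ => h1 c, Finset.sum_comm]
    have h2 : cVVH F x = ∑ b, ∑ k, fV F k x * (fV F b x * fH F k b x) := by
      unfold cVVH
      rw [Finset.sum_comm]
    rw [h2]
    unfold cY5 cY6
    rw [← Finset.sum_add_distrib, ← Finset.sum_add_distrib]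
    refine Finset.sum_congr rfl fun b _ => ?_
    have h3 : ∑ k, fV F k x * (fV F b x * fH F k b x) =
        ∑ c, ∑ k, fV F k x * (pd c (fS F b c) x * fH F k b x) := by
      rw [Finset.sum_comm]
      refine Finset.sum_congr rfl fun k _ => ?_
      rw [← Finset.mul_sum, ← Finset.sum_mul, ← divS h b x]
      congr 2
      exact Finset.sum_congr rfl fun c _ => by rw [symS h b c]
    rw [h3, ← Finset.sum_add_distrib, ← Finset.sum_add_distrib]
    refine Finset.sum_congr rfl fun c _ => ?_
    rw [← Finset.sum_add_distrib, ← Finset.sum_add_distrib]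
  have hI1 : Integrable (cVVH F) := by
    have : DecN 4 ((n + 2) + ((n + 2) + (n + 3))) (cVVH F) :=
      dec_sum _ fun k => dec_sum _ fun l => dec_mul (hdV k) (dec_mul (hdV l) (hdH k l))
    exact dec_int this (by omega)
  have hI5 : Integrable (cY5 F) := by
    have : DecN 4 ((n + 2) + ((n + 1) + (n + 4))) (cY5 F) :=
      dec_sum _ fun b => dec_sum _ fun c => dec_sum _ fun k =>
        dec_mul (hdV k) (dec_mul (hdS b c) (hdK k b c))
    exact dec_int this (by omega)
  have hI6 : Integrable (cY6 F) := by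
    have : DecN 4 ((n + 1) + ((n + 3) + (n + 3))) (cY6 F) :=
      dec_sum _ fun b => dec_sum _ fun c => dec_sum _ fun k =>
        dec_mul (hdS b c) (dec_mul (hdH k b) (hdH k c))
    exact dec_int this (by omega)
  simp only [hpt] at hdiv
  have hI56 : Integrable (fun x => cY5 F x + cY6 F x) := hI5.add hI6
  rw [integral_add hI56 hI1, integral_add hI5 hI6, i_vvh hn hd h] at hdiv
  linarith

theorem i_six {n : ℕ} (hn : 1 ≤ n) (hd : d = n + 7) {F : Fin d → X d → ℝ} (h : Fld n F) :
    ∫ x, cY7 F x = -(∫ x, cm2 F x) - ∫ x, fU F x * fp F x := by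
  have hdz : (d : ℤ) = n + 7 := by rw [hd]; push_cast; ring
  have hdS := C7I3_dS h
  have hdV := C7I3_dV h
  have hdH := C7I3_dH h
  have hdU := C7I3_dU h
  have hdG := decG h
  have hdiv : ∫ x, ∑ c, pd c (fun x => ∑ k, fV F k x * (fS F k c x * fU F x)) x = 0 :=
    C7I3_div (N := 3) (fun c => dec_sum _ fun k =>
      dec_mul (hdV k) (dec_mul (hdS k c) hdU)) (by omega)
  have hpt : ∀ x, ∑ c, pd c (fun x => ∑ k, fV F k x * (fS F k c x * fU F x)) x =
      cY7 F x + cm2 F x + fU F x * fp F x := by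
    intro x
    have dSU : ∀ k c, Differentiable ℝ (fun x => fS F k c x * fU F x) := fun k c =>
      (dec_diff (hdS k c)).mul (dec_diff hdU)
    have h1 : ∀ c, pd c (fun x => ∑ k, fV F k x * (fS F k c x * fU F x)) x =
        ∑ k, (fV F k x * (fS F k c x * fG F c x) + fU F x * (fS F k c x * fH F k c x) +
          fU F x * (fV F k x * pd c (fS F k c) x)) := by
      intro c
      rw [pd_sum _ (fun k => dec_diff (N := 3) (dec_mul (hdV k) (dec_mul (hdS k c) hdU)))]
      refine Finset.sum_congr rfl fun k _ => ?_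
      rw [pd_mul (dec_diff (hdV k)) (dSU k c), pd_mul (dec_diff (hdS k c)) (dec_diff hdU)]
      have e1 : pd c (fU F) x = fG F c x := rfl
      have e2 : pd c (fV F k) x = fH F k c x := rfl
      rw [e1, e2]
      ring
    rw [Finset.sum_congr rfl fun c _ => h1 c]
    simp only [Finset.sum_add_distrib]
    have h2 : ∑ c, ∑ k, fU F x * (fS F k c x * fH F k c x) = cm2 F x := by
      unfold cm2
      rw [Finset.sum_comm, Finset.mul_sum]
      exact Finset.sum_congr rfl fun k _ => by rw [Finset.mul_sum]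
    have h3 : ∑ c, ∑ k, fU F x * (fV F k x * pd c (fS F k c) x) = fU F x * fp F x := by
      unfold fp
      rw [Finset.sum_comm, Finset.mul_sum]
      refine Finset.sum_congr rfl fun k _ => ?_
      rw [← Finset.mul_sum, ← Finset.mul_sum, sq]
      congr 2
      rw [← divS h k x]
      exact Finset.sum_congr rfl fun c _ => by rw [symS h k c]
    rw [h2, h3]
    rfl
  have hI7 : Integrable (cY7 F) := by
    have : DecN 4 ((n + 2) + ((n + 1) + (n + 4))) (cY7 F) :=
      dec_sum _ fun c => dec_sum _ fun k => dec_mul (hdV k) (dec_mul (hdS k c) (hdG c))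
    exact dec_int this (by omega)
  have hI2 : Integrable (cm2 F) := by
    have : DecN 4 ((n + 3) + ((n + 1) + (n + 3))) (cm2 F) :=
      dec_mul hdU (dec_sum _ fun i => dec_sum _ fun j => dec_mul (hdS i j) (hdH i j))
    exact dec_int this (by omega)
  have hIp : Integrable (fun x => fU F x * fp F x) :=
    dec_int (dec_mul hdU (C7I3_dfp h)) (by omega)
  simp only [hpt] at hdiv
  have hI72 : Integrable (fun x => cY7 F x + cm2 F x) := hI7.add hI2
  rw [integral_add hI72 hIp, integral_add hI7 hI2] at hdiv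
  linarith

end Pool.Agent.H1.C7
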