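import Pool.Agent.H1.C7.Sym

/-!
Row I4.  All by ibp (Cal) termwise under the finite sums, with the symmetries and divergences of Sym; the products have exponent ≥ 3n+6 ≥ d+1 (d = n+7, n ≥ 1), the integrands exponent 3n+7 (dec_int).
 cY4 = ∫ S_kl H_bc (d_b R_klc) = -∫ R_klb H_bc R_klc - ∫ S_kl G_c R_klc, and ∫ (d_c U) S_kl R_klc = -∫ U (|R|^2 + S_kl H_kl)  (sum_c d_c R_klc = H_kl).
 cZ1 = ∫ H_ak R_kbc (d_b S_ac) = -∫ K_akb R_kbc S_ac - ∫ H_ak H_kc S_ac  (sum_b d_b R_kbc = H_kc); the first is cY2, the second cY6 after relabelling.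
-/

set_option autoImplicit false

open MeasureTheory Filter Topology Metric Set
open scoped RealInnerProductSpace ENNReal

namespace Pool.Agent.H1.C7

open Pool.Agent.RZ Pool.Agent.H1.LD

variable {d : ℕ}

/-- moving the first sum inside -/
private theorem C7I4_mv3 (f : Fin d → Fin d → Fin d → ℝ) :
    ∑ c, ∑ k, ∑ l, f c k l = ∑ k, ∑ l, ∑ c, f c k l := by
  rw [Finset.sum_comm]
  exact Finset.sum_congr rfl fun k _ => Finset.sum_comm

/-- the derivative of a product of three -/
private theorem C7I4_pd3 {N M K : ℕ} {p q r : ℤ} {f g h : X d → ℝ} (hf : DecN (N + 1) p f) (hg : DecN (M + 1) q g)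
    (hh : DecN (K + 1) r h) (k : Fin d) (x : X d) :
    pd k (fun x => f x * (g x * h x)) x =
      f x * (g x * pd k h x) + f x * (pd k g x * h x) + pd k f x * (g x * h x) := by
  rw [pd_mul (g := fun x => g x * h x) (dec_diff hf) ((dec_diff hg).mul (dec_diff hh)),
    pd_mul (dec_diff hg) (dec_diff hh)]
  ring

private theorem C7I4_diff {N M K : ℕ} {p q r : ℤ} {f g h : X d → ℝ} (hf : DecN (N + 1) p f) (hg : DecN (M + 1) q g)
    (hh : DecN (K + 1) r h) : Differentiable ℝ fun x => f x * (g x * h x) :=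
  (dec_diff hf).mul ((dec_diff hg).mul (dec_diff hh))

private theorem C7I4_dec {N A B C : ℕ} {p q r : ℤ} {f g h : X d → ℝ} (hf : DecN A p f) (hg : DecN B q g)
    (hh : DecN C r h) (hA : N ≤ A) (hB : N ≤ B) (hC : N ≤ C) :
    DecN N (p + (q + r)) fun x => f x * (g x * h x) :=
  dec_mul (dec_mono hf hA le_rfl) (dec_mul (dec_mono hg hB le_rfl) (dec_mono hh hC le_rfl))

private theorem C7I4_sq {N : ℕ} {p : ℤ} {f : X d → ℝ} (hf : DecN N p f) : DecN N (p + p) fun x => f x ^ 2 := by
  have h1 := dec_mul hf hf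
  simp only [← sq] at h1
  exact h1

/-- the integral of a divergence vanishes -/
private theorem C7I4_zero {p : ℤ} (hp : (d : ℤ) + 1 ≤ p) {W : Fin d → X d → ℝ} (hW : ∀ b, DecN 1 p (W b)) :
    Integrable (fun x => ∑ b, pd b (W b) x) ∧ ∫ x, ∑ b, pd b (W b) x = 0 := by
  have hi : ∀ b ∈ (Finset.univ : Finset (Fin d)), Integrable (fun x => pd b (W b) x) := fun b _ =>
    dec_int (dec_pd (N := 0) (hW b) b) (by linarith)
  refine ⟨integrable_finsetSum _ hi, ?_⟩
  rw [integral_finsetSum _ hi]
  exact Finset.sum_eq_zero fun b _ => int_pd (N := 0) (hW b) hp b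

private theorem C7I4_intY4 {n : ℕ} (hn : 1 ≤ n) (hd : d = n + 7) {F : Fin d → X d → ℝ} (h : Fld n F) :
    Integrable (cY4 F) := by
  refine dec_int (N := 0) (p := (n + 1) + ((n + 3) + (n + 3))) ?_ (by subst hd; push_cast; omega)
  exact dec_sum Finset.univ fun b => dec_sum Finset.univ fun c => dec_sum Finset.univ fun k =>
    dec_sum Finset.univ fun l => C7I4_dec (decS h k l) (decH h b c) (decX h k l b c) (by omega) (by omega) (by omega)

private theorem C7I4_intZ1 {n : ℕ} (hn : 1 ≤ n) (hd : d = n + 7) {F : Fin d → X d → ℝ} (h : Fld n F) :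
    Integrable (cZ1 F) := by
  refine dec_int (N := 0) (p := (n + 3) + ((n + 2) + (n + 2))) ?_ (by subst hd; push_cast; omega)
  exact dec_sum Finset.univ fun a => dec_sum Finset.univ fun b => dec_sum Finset.univ fun c =>
    dec_sum Finset.univ fun k => C7I4_dec (decH h a k) (decR h k b c) (decR h a b c) (by omega) (by omega) (by omega)

private theorem C7I4_intY2 {n : ℕ} (hn : 1 ≤ n) (hd : d = n + 7) {F : Fin d → X d → ℝ} (h : Fld n F) :
    Integrable (cY2 F) := by
  refine dec_int (N := 0) (p := (n + 1) + ((n + 2) + (n + 4))) ?_ (by subst hd; push_cast; omega)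
  exact dec_sum Finset.univ fun b => dec_sum Finset.univ fun c => dec_sum Finset.univ fun k =>
    dec_sum Finset.univ fun l => C7I4_dec (decS h k l) (decR h k b c) (decK h l b c) (by omega) (by omega) (by omega)

private theorem C7I4_intY6 {n : ℕ} (hn : 1 ≤ n) (hd : d = n + 7) {F : Fin d → X d → ℝ} (h : Fld n F) :
    Integrable (cY6 F) := by
  refine dec_int (N := 0) (p := (n + 1) + ((n + 3) + (n + 3))) ?_ (by subst hd; push_cast; omega)
  exact dec_sum Finset.univ fun b => dec_sum Finset.univ fun c => dec_sum Finset.univ fun k =>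
    C7I4_dec (decS h b c) (decH h k b) (decH h k c) (by omega) (by omega) (by omega)

private theorem C7I4_intU3 {n : ℕ} (hn : 1 ≤ n) (hd : d = n + 7) {F : Fin d → X d → ℝ} (h : Fld n F) :
    Integrable (fun x => fU F x * f3 F x) := by
  refine dec_int (N := 0) (p := (n + 3) + ((n + 2) + (n + 2))) ?_ (by subst hd; push_cast; omega)
  exact dec_mul (dec_mono (decU h) (by omega) le_rfl) (dec_sum Finset.univ fun i => dec_sum Finset.univ fun j =>
    dec_sum Finset.univ fun k => C7I4_sq (dec_mono (decR h i j k) (by omega) le_rfl))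

private theorem C7I4_intm2 {n : ℕ} (hn : 1 ≤ n) (hd : d = n + 7) {F : Fin d → X d → ℝ} (h : Fld n F) :
    Integrable (cm2 F) := by
  refine dec_int (N := 0) (p := (n + 3) + ((n + 1) + (n + 3))) ?_ (by subst hd; push_cast; omega)
  exact dec_mul (dec_mono (decU h) (by omega) le_rfl) (dec_sum Finset.univ fun i => dec_sum Finset.univ fun j =>
    dec_mul (dec_mono (decS h i j) (by omega) le_rfl) (dec_mono (decH h i j) (by omega) le_rfl))

theorem i_seven {n : ℕ} (hn : 1 ≤ n) (hd : d = n + 7) {F : Fin d → X d → ℝ} (h : Fld n F) :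
    ∫ x, cY4 F x = (∫ x, fU F x * f3 F x) + (∫ x, cm2 F x) - ∫ x, cZ1 F x := by
  -- the two vector fields
  have e1 : ∀ b x, pd b (fun x => ∑ c, ∑ k, ∑ l, fS F k l x * (fH F b c x * fR F k l c x)) x =
      ∑ c, ∑ k, ∑ l, (fS F k l x * (fH F b c x * fX F k l b c x) +
        fS F k l x * (pd b (fH F b c) x * fR F k l c x) + fR F k l b x * (fH F b c x * fR F k l c x)) := by
    intro b x
    have d3 : ∀ c k l, Differentiable ℝ fun x => fS F k l x * (fH F b c x * fR F k l c x) :=
      fun c k l => C7I4_diff (decS h k l) (decH h b c) (decR h k l c)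
    have d2 : ∀ c k, Differentiable ℝ fun x => ∑ l, fS F k l x * (fH F b c x * fR F k l c x) :=
      fun c k => Differentiable.fun_sum fun l _ => d3 c k l
    have d1 : ∀ c, Differentiable ℝ fun x => ∑ k, ∑ l, fS F k l x * (fH F b c x * fR F k l c x) :=
      fun c => Differentiable.fun_sum fun k _ => d2 c k
    rw [pd_sum Finset.univ d1]
    refine Finset.sum_congr rfl fun c _ => ?_
    rw [pd_sum Finset.univ (d2 c)]
    refine Finset.sum_congr rfl fun k _ => ?_
    rw [pd_sum Finset.univ (d3 c k)]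
    refine Finset.sum_congr rfl fun l _ => ?_
    rw [C7I4_pd3 (decS h k l) (decH h b c) (decR h k l c)]
    have s1 : pd b (fR F k l c) = fX F k l b c := symX34 h k l c b
    have s2 : pd b (fS F k l) = fR F k l b := rfl
    rw [s1, s2]
  have e2 : ∀ b x, pd b (fun x => fU F x * ∑ k, ∑ l, fS F k l x * fR F k l b x) x =
      fG F b x * (∑ k, ∑ l, fS F k l x * fR F k l b x) +
        fU F x * ∑ k, ∑ l, (fS F k l x * pd b (fR F b k l) x + fR F k l b x ^ 2) := by
    intro b x
    have d3 : ∀ k l, Differentiable ℝ fun x => fS F k l x * fR F k l b x :=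
      fun k l => (dec_diff (decS h k l)).mul (dec_diff (decR h k l b))
    have d2 : ∀ k, Differentiable ℝ fun x => ∑ l, fS F k l x * fR F k l b x :=
      fun k => Differentiable.fun_sum fun l _ => d3 k l
    have d1 : Differentiable ℝ fun x => ∑ k, ∑ l, fS F k l x * fR F k l b x :=
      Differentiable.fun_sum fun k _ => d2 k
    rw [pd_mul (dec_diff (decU h)) d1, pd_sum Finset.univ d2, add_comm]
    congr 2
    refine Finset.sum_congr rfl fun k _ => ?_
    rw [pd_sum Finset.univ (d3 k)]
    refine Finset.sum_congr rfl fun l _ => ?_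
    rw [pd_mul (dec_diff (decS h k l)) (dec_diff (decR h k l b))]
    have s1 : fR F k l b = fR F b k l := by
      rw [symR23 h k l b, symR12 h k b l]
    have s2 : pd b (fS F k l) = fR F k l b := rfl
    rw [s2, s1]
    ring
  -- the pointwise identity
  have key : ∀ x, cY4 F x + cZ1 F x - fU F x * f3 F x - cm2 F x =
      ∑ b, (pd b (fun x => ∑ c, ∑ k, ∑ l, fS F k l x * (fH F b c x * fR F k l c x)) x -
        pd b (fun x => fU F x * ∑ k, ∑ l, fS F k l x * fR F k l b x) x) := by
    intro x
    have hY : cY4 F x = ∑ b, ∑ c, ∑ k, ∑ l, fS F k l x * (fH F b c x * fX F k l b c x) := rfl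
    have hZ : cZ1 F x = ∑ b, ∑ c, ∑ k, ∑ l, fR F k l b x * (fH F b c x * fR F k l c x) := by
      unfold cZ1
      refine Finset.sum_congr rfl fun b _ => ?_
      rw [C7I4_mv3 (fun c k l => fR F k l b x * (fH F b c x * fR F k l c x))]
      refine Finset.sum_congr rfl fun k _ => Finset.sum_congr rfl fun l _ => Finset.sum_congr rfl fun c _ => ?_
      have s1 : fR F k l b = fR F b k l := by
        rw [symR23 h k l b, symR12 h k b l]
      have s2 : fR F k l c = fR F c k l := by
        rw [symR23 h k l c, symR12 h k c l]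
      rw [s1, s2]
      ring
    have hG : ∑ b, ∑ c, ∑ k, ∑ l, fS F k l x * (pd b (fH F b c) x * fR F k l c x) =
        ∑ b, fG F b x * ∑ k, ∑ l, fS F k l x * fR F k l b x := by
      rw [Finset.sum_comm]
      refine Finset.sum_congr rfl fun c _ => ?_
      rw [← divH h c x, Finset.sum_mul]
      refine Finset.sum_congr rfl fun b _ => ?_
      rw [Finset.mul_sum]
      refine Finset.sum_congr rfl fun k _ => ?_
      rw [Finset.mul_sum]
      refine Finset.sum_congr rfl fun l _ => ?_
      ring
    have h3 : fU F x * f3 F x + cm2 F x = ∑ b, fU F x * ∑ k, ∑ l, (fS F k l x * pd b (fR F b k l) x +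
        fR F k l b x ^ 2) := by
      rw [← Finset.mul_sum, C7I4_mv3 (fun b k l => fS F k l x * pd b (fR F b k l) x + fR F k l b x ^ 2)]
      unfold cm2 f3
      rw [← mul_add, ← Finset.sum_add_distrib]
      congr 1
      refine Finset.sum_congr rfl fun k _ => ?_
      rw [← Finset.sum_add_distrib]
      refine Finset.sum_congr rfl fun l _ => ?_
      rw [Finset.sum_add_distrib, ← Finset.mul_sum, divR h k l x, add_comm]
    rw [Finset.sum_sub_distrib]
    simp only [e1, e2]
    simp only [Finset.sum_add_distrib]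
    simp only [Finset.sum_add_distrib] at h3
    rw [← hY, ← hZ, hG]
    rw [← h3]
    ring
  have hp : (d : ℤ) + 1 ≤ ((n : ℤ) + 1) + ((n + 3) + (n + 2)) := by subst hd; push_cast; omega
  have w1 := C7I4_zero hp (W := fun b x => ∑ c, ∑ k, ∑ l, fS F k l x * (fH F b c x * fR F k l c x)) fun b =>
    dec_sum Finset.univ fun c => dec_sum Finset.univ fun k => dec_sum Finset.univ fun l =>
      C7I4_dec (decS h k l) (decH h b c) (decR h k l c) (by omega) (by omega) (by omega)
  have hp' : (d : ℤ) + 1 ≤ ((n : ℤ) + 3) + ((n + 1) + (n + 2)) := by subst hd; push_cast; omega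
  have w2 := C7I4_zero hp' (W := fun b x => fU F x * ∑ k, ∑ l, fS F k l x * fR F k l b x) fun b =>
    dec_mul (dec_mono (decU h) (by omega) le_rfl) (dec_sum Finset.univ fun k => dec_sum Finset.univ fun l =>
      dec_mul (dec_mono (decS h k l) (by omega) le_rfl) (dec_mono (decR h k l b) (by omega) le_rfl))
  have i1 := C7I4_intY4 hn hd h
  have i2 := C7I4_intZ1 hn hd h
  have i3 := C7I4_intU3 hn hd h
  have i4 := C7I4_intm2 hn hd h
  have h5 : ∫ x, (cY4 F x + cZ1 F x - fU F x * f3 F x - cm2 F x) = 0 := by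
    simp only [key, Finset.sum_sub_distrib]
    rw [integral_sub w1.1 w2.1, w1.2, w2.2, sub_zero]
  have h6 := integral_sub (f := fun x => cY4 F x + cZ1 F x - fU F x * f3 F x) (g := fun x => cm2 F x)
    ((i1.add i2).sub i3) i4
  have h7 := integral_sub (f := fun x => cY4 F x + cZ1 F x) (g := fun x => fU F x * f3 F x) (i1.add i2) i3
  have h8 := integral_add (f := fun x => cY4 F x) (g := fun x => cZ1 F x) i1 i2
  linarith

theorem i_eight {n : ℕ} (hn : 1 ≤ n) (hd : d = n + 7) {F : Fin d → X d → ℝ} (h : Fld n F) :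
    ∫ x, cZ1 F x = -(∫ x, cY2 F x) - ∫ x, cY6 F x := by
  have e1 : ∀ b x, pd b (fun x => ∑ a, ∑ c, ∑ k, fH F a k x * (fR F k b c x * fS F a c x)) x =
      ∑ a, ∑ c, ∑ k, (fH F a k x * (fR F k b c x * fR F a b c x) +
        fH F a k x * (pd b (fR F b k c) x * fS F a c x) + fK F a k b x * (fR F k b c x * fS F a c x)) := by
    intro b x
    have d3 : ∀ a c k, Differentiable ℝ fun x => fH F a k x * (fR F k b c x * fS F a c x) :=
      fun a c k => C7I4_diff (decH h a k) (decR h k b c) (decS h a c)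
    have d2 : ∀ a c, Differentiable ℝ fun x => ∑ k, fH F a k x * (fR F k b c x * fS F a c x) :=
      fun a c => Differentiable.fun_sum fun k _ => d3 a c k
    have d1 : ∀ a, Differentiable ℝ fun x => ∑ c, ∑ k, fH F a k x * (fR F k b c x * fS F a c x) :=
      fun a => Differentiable.fun_sum fun c _ => d2 a c
    rw [pd_sum Finset.univ d1]
    refine Finset.sum_congr rfl fun a _ => ?_
    rw [pd_sum Finset.univ (d2 a)]
    refine Finset.sum_congr rfl fun c _ => ?_
    rw [pd_sum Finset.univ (d3 a c)]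
    refine Finset.sum_congr rfl fun k _ => ?_
    rw [C7I4_pd3 (decH h a k) (decR h k b c) (decS h a c)]
    have s1 : pd b (fS F a c) = fR F a b c := symR23 h a c b
    have s2 : pd b (fH F a k) = fK F a k b := rfl
    have s3 : fR F k b c = fR F b k c := symR12 h k b c
    rw [s1, s2, ← s3]
  have key : ∀ x, cZ1 F x + cY2 F x + cY6 F x =
      ∑ b, pd b (fun x => ∑ a, ∑ c, ∑ k, fH F a k x * (fR F k b c x * fS F a c x)) x := by
    intro x
    have hZ : cZ1 F x = ∑ b, ∑ a, ∑ c, ∑ k, fH F a k x * (fR F k b c x * fR F a b c x) := by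
      unfold cZ1
      rw [Finset.sum_comm]
    have hY2 : cY2 F x = ∑ b, ∑ a, ∑ c, ∑ k, fK F a k b x * (fR F k b c x * fS F a c x) := by
      unfold cY2
      refine Finset.sum_congr rfl fun b _ => ?_
      refine Eq.trans ?_ ((C7I4_mv3 (fun a c k => fK F a k b x * (fR F k b c x * fS F a c x))).trans
        Finset.sum_comm).symm
      refine Finset.sum_congr rfl fun k _ => Finset.sum_congr rfl fun c _ => Finset.sum_congr rfl fun a _ => ?_
      have s1 : fR F c b k = fR F k b c := by
        rw [symR12 h c b k, symR23 h b c k, symR12 h b k c]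
      rw [symS h c a, s1, symK23 h a b k]
      ring
    have hY6 : cY6 F x = ∑ b, ∑ a, ∑ c, ∑ k, fH F a k x * (pd b (fR F b k c) x * fS F a c x) := by
      rw [Finset.sum_comm]
      unfold cY6
      refine Finset.sum_congr rfl fun a _ => ?_
      rw [C7I4_mv3 (fun b c k => fH F a k x * (pd b (fR F b k c) x * fS F a c x))]
      refine Finset.sum_congr rfl fun c _ => Finset.sum_congr rfl fun k _ => ?_
      rw [← Finset.mul_sum, ← Finset.sum_mul, divR h k c x, symH h k a]
      ring
    simp only [e1]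
    simp only [Finset.sum_add_distrib]
    rw [← hZ, ← hY2, ← hY6]
    ring
  have hp : (d : ℤ) + 1 ≤ ((n : ℤ) + 3) + ((n + 2) + (n + 1)) := by subst hd; push_cast; omega
  have w1 := C7I4_zero hp (W := fun b x => ∑ a, ∑ c, ∑ k, fH F a k x * (fR F k b c x * fS F a c x)) fun b =>
    dec_sum Finset.univ fun a => dec_sum Finset.univ fun c => dec_sum Finset.univ fun k =>
      C7I4_dec (decH h a k) (decR h k b c) (decS h a c) (by omega) (by omega) (by omega)
  have i1 := C7I4_intZ1 hn hd h
  have i2 := C7I4_intY2 hn hd h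
  have i3 := C7I4_intY6 hn hd h
  have h5 : ∫ x, (cZ1 F x + cY2 F x + cY6 F x) = 0 := by
    simp only [key]
    exact w1.2
  have h6 := integral_add (f := fun x => cZ1 F x + cY2 F x) (g := fun x => cY6 F x) (i1.add i2) i3
  have h7 := integral_add (f := fun x => cZ1 F x) (g := fun x => cY2 F x) i1 i2
  linarith

end Pool.Agent.H1.C7
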