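import Pool.Agent.H1.C7.Sym

/-!
Row I5.  All by ibp (Cal) termwise under the finite sums, with the symmetries and divergences of Sym; the products have exponent ≥ 3n+6 ≥ d+1 (d = n+7, n ≥ 1), the integrands exponent 3n+7 (dec_int).
 ∫ T f4 = ∫ T X_abck (d_k R_abc) = -∫ V_k X_abck R_abc - ∫ T K_abc R_abc, and ∫ V_k X_abck R_abc = (1/2) ∫ V_k d_k f3 = -(1/2) ∫ U f3.
 cm3 = ∫ T R_abc K_abc = ∫ T K_abc (d_a S_bc) = -∫ V_a K_abc S_bc - ∫ T M_bc S_bc;  ∫ T S_bc (d_b G_c) (M_bc = M_cb = d_b G_c) = -∫ V_b S_bc G_c - ∫ T V_c G_c;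
 ∫ T V_c (d_c U) = -∫ U (|V|^2 + T U).
Here both identities are obtained as the integral of one divergence: `T X_abck R_abc - V_k f3 / 2` and
`T K_kbc S_bc - T S_kc G_c + T V_k U`.
-/

set_option autoImplicit false

open MeasureTheory Filter Topology Metric Set
open scoped RealInnerProductSpace ENNReal

namespace Pool.Agent.H1.C7

open Pool.Agent.RZ Pool.Agent.H1.LD

variable {d : ℕ}

private theorem C7I5_pd1 {g : Fin d → X d → ℝ} (hg : ∀ a, Differentiable ℝ (g a))
    (k : Fin d) (x : X d) : pd k (fun x => ∑ a, g a x) x = ∑ a, pd k (g a) x :=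
  pd_sum _ hg k x

private theorem C7I5_pd2 {g : Fin d → Fin d → X d → ℝ} (hg : ∀ a b, Differentiable ℝ (g a b))
    (k : Fin d) (x : X d) :
    pd k (fun x => ∑ a, ∑ b, g a b x) x = ∑ a, ∑ b, pd k (g a b) x := by
  have h1 : ∀ a, Differentiable ℝ (fun x => ∑ b, g a b x) := fun a =>
    Differentiable.fun_sum fun b _ => hg a b
  rw [C7I5_pd1 h1]
  exact Finset.sum_congr rfl fun a _ => C7I5_pd1 (hg a) k x

private theorem C7I5_pd3 {g : Fin d → Fin d → Fin d → X d → ℝ}
    (hg : ∀ a b c, Differentiable ℝ (g a b c)) (k : Fin d) (x : X d) :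
    pd k (fun x => ∑ a, ∑ b, ∑ c, g a b c x) x = ∑ a, ∑ b, ∑ c, pd k (g a b c) x := by
  have h1 : ∀ a, Differentiable ℝ (fun x => ∑ b, ∑ c, g a b c x) := fun a =>
    Differentiable.fun_sum fun b _ => Differentiable.fun_sum fun c _ => hg a b c
  rw [C7I5_pd1 h1]
  exact Finset.sum_congr rfl fun a _ => C7I5_pd2 (hg a) k x

private theorem C7I5_sw (g : Fin d → Fin d → Fin d → Fin d → ℝ) :
    ∑ k, ∑ a, ∑ b, ∑ c, g a b c k = ∑ a, ∑ b, ∑ c, ∑ k, g a b c k := by
  rw [Finset.sum_comm]
  refine Finset.sum_congr rfl fun a _ => ?_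
  rw [Finset.sum_comm]
  refine Finset.sum_congr rfl fun b _ => ?_
  rw [Finset.sum_comm]

theorem i_nine {n : ℕ} (hn : 1 ≤ n) (hd : d = n + 7) {F : Fin d → X d → ℝ} (h : Fld n F) :
    ∫ x, fT F x * f4 F x = (1 / 2) * (∫ x, fU F x * f3 F x) - ∫ x, cm3 F x := by
  have hdz : (d : ℤ) = n + 7 := by exact_mod_cast hd
  have hnz : (1 : ℤ) ≤ n := by exact_mod_cast hn
  have dT : DecN 1 (n + 1) (fT F) := dec_mono (decT h) (by norm_num) le_rfl
  have dR : ∀ a b c, DecN 1 (n + 2) (fR F a b c) := fun a b c =>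
    dec_mono (decR h a b c) (by norm_num) le_rfl
  have dX : ∀ a b c k, DecN 1 (n + 3) (fX F a b c k) := fun a b c k =>
    dec_mono (decX h a b c k) (by norm_num) le_rfl
  have dV : ∀ k, DecN 1 (n + 2) (fV F k) := fun k => dec_mono (decV h k) (by norm_num) le_rfl
  have dK : ∀ a b c, DecN 1 (n + 4) (fK F a b c) := fun a b c =>
    dec_mono (decK h a b c) (by norm_num) le_rfl
  have dU : DecN 1 (n + 3) (fU F) := dec_mono (decU h) (by norm_num) le_rfl
  have e3 : f3 F = fun x => ∑ a, ∑ b, ∑ c, fR F a b c x * fR F a b c x := by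
    funext x; simp only [f3, sq]
  have e4 : f4 F = fun x => ∑ a, ∑ b, ∑ c, ∑ k, fX F a b c k x * fX F a b c k x := by
    funext x; simp only [f4, sq]
  have d3 : DecN 1 ((n + 2) + (n + 2)) (f3 F) := by
    rw [e3]
    exact dec_sum _ fun a => dec_sum _ fun b => dec_sum _ fun c => dec_mul (dR a b c) (dR a b c)
  have d4 : DecN 1 ((n + 3) + (n + 3)) (f4 F) := by
    rw [e4]
    exact dec_sum _ fun a => dec_sum _ fun b => dec_sum _ fun c => dec_sum _ fun k =>
      dec_mul (dX a b c k) (dX a b c k)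
  -- integrability
  have I1 : Integrable (fun x => fT F x * f4 F x) :=
    dec_int (dec_mul dT d4) (by rw [hdz]; linarith)
  have I2 : Integrable (fun x => fU F x * f3 F x) :=
    dec_int (dec_mul dU d3) (by rw [hdz]; linarith)
  have I3 : Integrable (cm3 F) := by
    have : DecN 1 ((n + 1) + ((n + 2) + (n + 4))) (cm3 F) := by
      refine dec_mul dT (dec_sum _ fun a => dec_sum _ fun b => dec_sum _ fun c => ?_)
      exact dec_mul (dR a b c) (dK a b c)
    exact dec_int this (by rw [hdz]; linarith)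
  -- the field
  have dA : ∀ a b c k, DecN 1 ((n + 1) + ((n + 3) + (n + 2)))
      (fun x => fT F x * (fX F a b c k x * fR F a b c x)) := fun a b c k =>
    dec_mul dT (dec_mul (dX a b c k) (dR a b c))
  have dA' : ∀ k, DecN 1 ((n + 1) + ((n + 3) + (n + 2)))
      (fun x => ∑ a, ∑ b, ∑ c, fT F x * (fX F a b c k x * fR F a b c x)) := fun k =>
    dec_sum _ fun a => dec_sum _ fun b => dec_sum _ fun c => dA a b c k
  have dB : ∀ k, DecN 1 ((n + 2) + ((n + 2) + (n + 2))) (fun x => fV F k x * f3 F x) := fun k =>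
    dec_mul (dV k) d3
  have dB' : ∀ k, DecN 1 ((n + 2) + ((n + 2) + (n + 2)))
      (fun x => (-(1 / 2)) * (fV F k x * f3 F x)) := fun k => dec_smul _ (dB k)
  have dZ : ∀ k, DecN 1 (3 * n + 6) (fun x =>
      (∑ a, ∑ b, ∑ c, fT F x * (fX F a b c k x * fR F a b c x)) +
        (-(1 / 2)) * (fV F k x * f3 F x)) := fun k =>
    dec_add (dec_mono (dA' k) le_rfl (by linarith)) (dec_mono (dB' k) le_rfl (by linarith))
  have pZ : ∀ k x, pd k (fun x =>
      (∑ a, ∑ b, ∑ c, fT F x * (fX F a b c k x * fR F a b c x)) +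
        (-(1 / 2)) * (fV F k x * f3 F x)) x =
      fT F x * (∑ a, ∑ b, ∑ c, fX F a b c k x * fX F a b c k x) +
      fT F x * (∑ a, ∑ b, ∑ c, pd k (fX F a b c k) x * fR F a b c x) -
      1 / 2 * (fH F k k x * f3 F x) := by
    intro k x
    have t1 : ∀ a b c, pd k (fun x => fT F x * (fX F a b c k x * fR F a b c x)) x =
        fT F x * (fX F a b c k x * fX F a b c k x) +
          fT F x * (pd k (fX F a b c k) x * fR F a b c x) +
          fV F k x * (fX F a b c k x * fR F a b c x) := by
      intro a b c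
      rw [pd_mul dT.1 (dec_mul (dX a b c k) (dR a b c)).1, pd_mul (dX a b c k).1 (dR a b c).1,
        show pd k (fR F a b c) = fX F a b c k from rfl, show pd k (fT F) = fV F k from rfl]
      ring
    have t2 : pd k (f3 F) x = 2 * ∑ a, ∑ b, ∑ c, fX F a b c k x * fR F a b c x := by
      rw [e3, C7I5_pd3 (fun a b c => (dec_mul (dR a b c) (dR a b c)).1)]
      simp only [Finset.mul_sum]
      refine Finset.sum_congr rfl fun a _ => Finset.sum_congr rfl fun b _ =>
        Finset.sum_congr rfl fun c _ => ?_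
      rw [pd_mul (dR a b c).1 (dR a b c).1, show pd k (fR F a b c) = fX F a b c k from rfl]
      ring
    rw [pd_add (dA' k).1 (dB' k).1, pd_smul (dB k).1, pd_mul (dV k).1 d3.1, t2,
      C7I5_pd3 (fun a b c => (dA a b c k).1), show pd k (fV F k) = fH F k k from rfl]
    simp only [t1, Finset.sum_add_distrib, ← Finset.mul_sum]
    ring
  have hI : ∀ k, Integrable (pd k (fun x =>
      (∑ a, ∑ b, ∑ c, fT F x * (fX F a b c k x * fR F a b c x)) +
        (-(1 / 2)) * (fV F k x * f3 F x))) := fun k =>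
    dec_int (dec_pd (N := 0) (dZ k) k) (by rw [hdz]; linarith)
  have hz : ∫ x, ∑ k, pd k (fun x =>
      (∑ a, ∑ b, ∑ c, fT F x * (fX F a b c k x * fR F a b c x)) +
        (-(1 / 2)) * (fV F k x * f3 F x)) x = 0 := by
    rw [integral_finsetSum _ fun k _ => hI k]
    exact Finset.sum_eq_zero fun k _ => int_pd (N := 0) (dZ k) (by rw [hdz]; linarith) k
  have hp : ∀ x, ∑ k, pd k (fun x =>
      (∑ a, ∑ b, ∑ c, fT F x * (fX F a b c k x * fR F a b c x)) +
        (-(1 / 2)) * (fV F k x * f3 F x)) x =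
      fT F x * f4 F x + cm3 F x - 1 / 2 * (fU F x * f3 F x) := by
    intro x
    simp only [pZ]
    rw [Finset.sum_sub_distrib, Finset.sum_add_distrib, ← Finset.mul_sum, ← Finset.mul_sum,
      ← Finset.mul_sum, ← Finset.sum_mul, C7I5_sw (fun a b c k => fX F a b c k x * fX F a b c k x),
      C7I5_sw (fun a b c k => pd k (fX F a b c k) x * fR F a b c x), e4]
    have u1 : ∑ a, ∑ b, ∑ c, ∑ k, pd k (fX F a b c k) x * fR F a b c x =
        ∑ a, ∑ b, ∑ c, fR F a b c x * fK F a b c x := by
      refine Finset.sum_congr rfl fun a _ => Finset.sum_congr rfl fun b _ =>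
        Finset.sum_congr rfl fun c _ => ?_
      rw [← Finset.sum_mul, divX h, mul_comm]
    rw [u1]
    rfl
  simp only [hp] at hz
  have I13 : Integrable (fun x => fT F x * f4 F x + cm3 F x) := I1.add I3
  rw [integral_sub I13 (I2.const_mul _), integral_add I1 I3, integral_const_mul] at hz
  linarith

theorem i_ten {n : ℕ} (hn : 1 ≤ n) (hd : d = n + 7) {F : Fin d → X d → ℝ} (h : Fld n F) :
    ∫ x, cm3 F x = -(∫ x, cY5 F x) + (∫ x, cY7 F x) - (∫ x, fU F x * fp F x) -
      ∫ x, fT F x * fU F x ^ 2 := by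
  have hdz : (d : ℤ) = n + 7 := by exact_mod_cast hd
  have hnz : (1 : ℤ) ≤ n := by exact_mod_cast hn
  have dT : DecN 1 (n + 1) (fT F) := dec_mono (decT h) (by norm_num) le_rfl
  have dS : ∀ a b, DecN 1 (n + 1) (fS F a b) := fun a b =>
    dec_mono (decS h a b) (by norm_num) le_rfl
  have dR : ∀ a b c, DecN 1 (n + 2) (fR F a b c) := fun a b c =>
    dec_mono (decR h a b c) (by norm_num) le_rfl
  have dV : ∀ k, DecN 1 (n + 2) (fV F k) := fun k => dec_mono (decV h k) (by norm_num) le_rfl
  have dK : ∀ a b c, DecN 1 (n + 4) (fK F a b c) := fun a b c =>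
    dec_mono (decK h a b c) (by norm_num) le_rfl
  have dU : DecN 1 (n + 3) (fU F) := dec_mono (decU h) (by norm_num) le_rfl
  have dG : ∀ k, DecN 1 (n + 4) (fG F k) := fun k => dec_mono (decG h k) (by norm_num) le_rfl
  have ep : fp F = fun x => ∑ k, fV F k x * fV F k x := by
    funext x; simp only [fp, sq]
  have eU : (fun x => fT F x * fU F x ^ 2) = fun x => fT F x * (fU F x * fU F x) := by
    funext x; simp only [sq]
  -- integrability
  have I1 : Integrable (cm3 F) := by
    have : DecN 1 ((n + 1) + ((n + 2) + (n + 4))) (cm3 F) := by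
      refine dec_mul dT (dec_sum _ fun a => dec_sum _ fun b => dec_sum _ fun c => ?_)
      exact dec_mul (dR a b c) (dK a b c)
    exact dec_int this (by rw [hdz]; linarith)
  have I2 : Integrable (cY5 F) := by
    have : DecN 1 ((n + 2) + ((n + 1) + (n + 4))) (cY5 F) :=
      dec_sum _ fun b => dec_sum _ fun c => dec_sum _ fun k =>
        dec_mul (dV k) (dec_mul (dS b c) (dK k b c))
    exact dec_int this (by rw [hdz]; linarith)
  have I3 : Integrable (cY7 F) := by
    have : DecN 1 ((n + 2) + ((n + 1) + (n + 4))) (cY7 F) :=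
      dec_sum _ fun c => dec_sum _ fun k => dec_mul (dV k) (dec_mul (dS k c) (dG c))
    exact dec_int this (by rw [hdz]; linarith)
  have I4 : Integrable (fun x => fU F x * fp F x) := by
    have : DecN 1 ((n + 3) + ((n + 2) + (n + 2))) (fun x => fU F x * fp F x) := by
      rw [ep]
      exact dec_mul dU (dec_sum _ fun k => dec_mul (dV k) (dV k))
    exact dec_int this (by rw [hdz]; linarith)
  have I5 : Integrable (fun x => fT F x * fU F x ^ 2) := by
    rw [eU]
    exact dec_int (dec_mul dT (dec_mul dU dU)) (by rw [hdz]; linarith)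
  -- the field
  have dA : ∀ b c k, DecN 1 ((n + 1) + ((n + 4) + (n + 1)))
      (fun x => fT F x * (fK F k b c x * fS F b c x)) := fun b c k =>
    dec_mul dT (dec_mul (dK k b c) (dS b c))
  have dA' : ∀ k, DecN 1 ((n + 1) + ((n + 4) + (n + 1)))
      (fun x => ∑ b, ∑ c, fT F x * (fK F k b c x * fS F b c x)) := fun k =>
    dec_sum _ fun b => dec_sum _ fun c => dA b c k
  have dB : ∀ c k, DecN 1 ((n + 1) + ((n + 1) + (n + 4)))
      (fun x => fT F x * (fS F k c x * fG F c x)) := fun c k =>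
    dec_mul dT (dec_mul (dS k c) (dG c))
  have dB' : ∀ k, DecN 1 ((n + 1) + ((n + 1) + (n + 4)))
      (fun x => ∑ c, fT F x * (fS F k c x * fG F c x)) := fun k => dec_sum _ fun c => dB c k
  have dB'' : ∀ k, DecN 1 ((n + 1) + ((n + 1) + (n + 4)))
      (fun x => (-1) * ∑ c, fT F x * (fS F k c x * fG F c x)) := fun k => dec_smul _ (dB' k)
  have dC : ∀ k, DecN 1 ((n + 1) + ((n + 2) + (n + 3)))
      (fun x => fT F x * (fV F k x * fU F x)) := fun k => dec_mul dT (dec_mul (dV k) dU)
  have dBC : ∀ k, DecN 1 (3 * n + 6) (fun x =>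
      (-1) * (∑ c, fT F x * (fS F k c x * fG F c x)) + fT F x * (fV F k x * fU F x)) := fun k =>
    dec_add (dec_mono (dB'' k) le_rfl (by linarith)) (dec_mono (dC k) le_rfl (by linarith))
  have dZ : ∀ k, DecN 1 (3 * n + 6) (fun x =>
      (∑ b, ∑ c, fT F x * (fK F k b c x * fS F b c x)) +
      ((-1) * (∑ c, fT F x * (fS F k c x * fG F c x)) + fT F x * (fV F k x * fU F x))) := fun k =>
    dec_add (dec_mono (dA' k) le_rfl (by linarith)) (dBC k)
  have pZ : ∀ k x, pd k (fun x =>
      (∑ b, ∑ c, fT F x * (fK F k b c x * fS F b c x)) +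
      ((-1) * (∑ c, fT F x * (fS F k c x * fG F c x)) + fT F x * (fV F k x * fU F x))) x =
      fT F x * (∑ b, ∑ c, fR F k b c x * fK F k b c x) +
      fT F x * (∑ b, ∑ c, pd k (fK F k b c) x * fS F b c x) +
      fV F k x * (∑ b, ∑ c, fS F b c x * fK F k b c x) -
      fT F x * (∑ c, fS F k c x * fM F k c x) - fT F x * (∑ c, pd k (fS F k c) x * fG F c x) -
      fV F k x * (∑ c, fS F k c x * fG F c x) +
      fT F x * (fV F k x * fG F k x) + fT F x * (fH F k k x * fU F x) +
      fU F x * (fV F k x * fV F k x) := by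
    intro k x
    have t1 : ∀ b c, pd k (fun x => fT F x * (fK F k b c x * fS F b c x)) x =
        fT F x * (fR F k b c x * fK F k b c x) + fT F x * (pd k (fK F k b c) x * fS F b c x) +
          fV F k x * (fS F b c x * fK F k b c x) := by
      intro b c
      have hR : pd k (fS F b c) = fR F k b c := by
        change fR F b c k = fR F k b c
        rw [symR23 h b c k, symR12 h b k c]
      rw [pd_mul dT.1 (dec_mul (dK k b c) (dS b c)).1, pd_mul (dK k b c).1 (dS b c).1, hR,
        show pd k (fT F) = fV F k from rfl]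
      ring
    have t2 : ∀ c, pd k (fun x => fT F x * (fS F k c x * fG F c x)) x =
        fT F x * (fS F k c x * fM F k c x) + fT F x * (pd k (fS F k c) x * fG F c x) +
          fV F k x * (fS F k c x * fG F c x) := by
      intro c
      have hM : pd k (fG F c) = fM F k c := by
        change fM F c k = fM F k c
        exact symM h c k
      rw [pd_mul dT.1 (dec_mul (dS k c) (dG c)).1, pd_mul (dS k c).1 (dG c).1, hM,
        show pd k (fT F) = fV F k from rfl]
      ring
    have t3 : pd k (fun x => fT F x * (fV F k x * fU F x)) x =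
        fT F x * (fV F k x * fG F k x) + fT F x * (fH F k k x * fU F x) +
          fU F x * (fV F k x * fV F k x) := by
      rw [pd_mul dT.1 (dec_mul (dV k) dU).1, pd_mul (dV k).1 dU.1,
        show pd k (fT F) = fV F k from rfl, show pd k (fU F) = fG F k from rfl,
        show pd k (fV F k) = fH F k k from rfl]
      ring
    rw [pd_add (dA' k).1 (dBC k).1, pd_add (dB'' k).1 (dC k).1, pd_smul (dB' k).1, t3,
      C7I5_pd2 (fun b c => (dA b c k).1), C7I5_pd1 (fun c => (dB c k).1)]
    simp only [t1, t2, Finset.sum_add_distrib, ← Finset.mul_sum]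
    ring
  have hI : ∀ k, Integrable (pd k (fun x =>
      (∑ b, ∑ c, fT F x * (fK F k b c x * fS F b c x)) +
      ((-1) * (∑ c, fT F x * (fS F k c x * fG F c x)) + fT F x * (fV F k x * fU F x)))) := fun k =>
    dec_int (dec_pd (N := 0) (dZ k) k) (by rw [hdz]; linarith)
  have hz : ∫ x, ∑ k, pd k (fun x =>
      (∑ b, ∑ c, fT F x * (fK F k b c x * fS F b c x)) +
      ((-1) * (∑ c, fT F x * (fS F k c x * fG F c x)) + fT F x * (fV F k x * fU F x))) x = 0 := by
    rw [integral_finsetSum _ fun k _ => hI k]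
    exact Finset.sum_eq_zero fun k _ => int_pd (N := 0) (dZ k) (by rw [hdz]; linarith) k
  have hp : ∀ x, ∑ k, pd k (fun x =>
      (∑ b, ∑ c, fT F x * (fK F k b c x * fS F b c x)) +
      ((-1) * (∑ c, fT F x * (fS F k c x * fG F c x)) + fT F x * (fV F k x * fU F x))) x =
      cm3 F x + cY5 F x - cY7 F x + fU F x * fp F x + fT F x * fU F x ^ 2 := by
    intro x
    simp only [pZ]
    simp only [Finset.sum_sub_distrib, Finset.sum_add_distrib]
    -- `T M S`
    have u1 : ∑ k, fT F x * (∑ b, ∑ c, pd k (fK F k b c) x * fS F b c x) =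
        fT F x * ∑ b, ∑ c, fM F b c x * fS F b c x := by
      rw [← Finset.mul_sum, Finset.sum_comm]
      congr 1
      refine Finset.sum_congr rfl fun b _ => ?_
      rw [Finset.sum_comm]
      refine Finset.sum_congr rfl fun c _ => ?_
      rw [← Finset.sum_mul, divK h]
    have u2 : ∑ k, fT F x * (∑ c, fS F k c x * fM F k c x) =
        fT F x * ∑ b, ∑ c, fM F b c x * fS F b c x := by
      rw [← Finset.mul_sum]
      congr 1
      exact Finset.sum_congr rfl fun b _ => Finset.sum_congr rfl fun c _ => mul_comm _ _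
    have u3 : ∑ k, fT F x * (∑ c, pd k (fS F k c) x * fG F c x) =
        fT F x * ∑ c, fV F c x * fG F c x := by
      rw [← Finset.mul_sum, Finset.sum_comm]
      congr 1
      refine Finset.sum_congr rfl fun c _ => ?_
      rw [← Finset.sum_mul, divS h]
    have u4 : ∑ k, fT F x * (fV F k x * fG F k x) = fT F x * ∑ c, fV F c x * fG F c x := by
      rw [← Finset.mul_sum]
    have u5 : ∑ k, fT F x * (fH F k k x * fU F x) = fT F x * fU F x ^ 2 := by
      rw [← Finset.mul_sum, ← Finset.sum_mul, show ∑ k, fH F k k x = fU F x from rfl, sq]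
    have u6 : ∑ k, fU F x * (fV F k x * fV F k x) = fU F x * fp F x := by
      rw [← Finset.mul_sum, ep]
    have u7 : ∑ k, fT F x * (∑ b, ∑ c, fR F k b c x * fK F k b c x) = cm3 F x := by
      rw [← Finset.mul_sum]
      rfl
    have u8 : ∑ k, fV F k x * (∑ b, ∑ c, fS F b c x * fK F k b c x) = cY5 F x := by
      simp only [cY5, Finset.mul_sum]
      rw [Finset.sum_comm]
      refine Finset.sum_congr rfl fun b _ => ?_
      rw [Finset.sum_comm]
    have u9 : ∑ k, fV F k x * (∑ c, fS F k c x * fG F c x) = cY7 F x := by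
      simp only [cY7, Finset.mul_sum]
      rw [Finset.sum_comm]
    rw [u1, u2, u3, u4, u5, u6, u7, u8, u9]
    ring
  simp only [hp] at hz
  have J1 : Integrable (fun x => cm3 F x + cY5 F x) := I1.add I2
  have J2 : Integrable (fun x => cm3 F x + cY5 F x - cY7 F x) := J1.sub I3
  have J3 : Integrable (fun x => cm3 F x + cY5 F x - cY7 F x + fU F x * fp F x) := J2.add I4
  rw [integral_add J3 I5, integral_add J2 I4, integral_sub J1 I3, integral_add I1 I2] at hz
  linarith

end Pool.Agent.H1.C7
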