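import Pool.Agent.H1.C5.IB
import Pool.Agent.H1.C7.HC

set_option autoImplicit false

/-!
Machinery for the identity of codimension seven (integration by parts with decay).
-/

open MeasureTheory Filter Topology Metric Set
open scoped RealInnerProductSpace ENNReal

namespace Pool.Agent.H1.LD

open Pool.Agent.RZ

variable {d : ℕ}

section

variable {n : ℕ} {F : Fin d → X d → ℝ}
  {S : Fin d → Fin d → X d → ℝ} {R : Fin d → Fin d → Fin d → X d → ℝ} {T : X d → ℝ}
  {V : Fin d → X d → ℝ} {H : Fin d → Fin d → X d → ℝ}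
  {P : Fin d → Fin d → Fin d → Fin d → X d → ℝ} {K : Fin d → Fin d → Fin d → X d → ℝ}
  {U : X d → ℝ} {G : Fin d → X d → ℝ} {U2 : X d → ℝ} {G2 : Fin d → X d → ℝ} {Q3 : X d → ℝ}

theorem C7_R (h : HesA n F S R T V H) (hC : HesC n R P H K U G U2 G2 Q3) (i j k l : Fin d) :
    C5IP (n + 2) l (R i j k) (P i j k l) := by
  have h1 := C5_R h i j k l
  have h2 : (fun x => fderiv ℝ (R i j k) x (EuclideanSpace.single l 1)) = P i j k l :=
    funext fun x => hC.eP i j k l x
  rwa [h2] at h1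

theorem C7_P (hC : HesC n R P H K U G U2 G2 Q3) (i j k l m : Fin d) :
    C5IP (n + 3) m (P i j k l)
      (fun x => fderiv ℝ (P i j k l) x (EuclideanSpace.single m 1)) := by
  obtain ⟨C, hb⟩ := hC.bd
  exact ⟨hC.dP i j k l, fun x => rfl,
    ⟨(hC.dP i j k l).continuous.measurable, C, fun x => (hb x).1 i j k l⟩,
    ⟨measurable_fderiv_apply_const ℝ (P i j k l) _, C, fun x => (hb x).2.1 i j k l m⟩⟩

theorem C7_H (h : HesA n F S R T V H) (hC : HesC n R P H K U G U2 G2 Q3) (k l m : Fin d) :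
    C5IP (n + 3) m (H k l) (K k l m) := by
  obtain ⟨C, hb⟩ := hC.bd
  exact ⟨hC.dH k l, hC.eK k l m, (C5_V h k l).b',
    ⟨(hC.cK k l m).measurable, C, fun x => (hb x).2.2.1 k l m⟩⟩

theorem C7_U (hC : HesC n R P H K U G U2 G2 Q3) (k : Fin d) : C5IP (n + 3) k U (G k) := by
  obtain ⟨C, hb⟩ := hC.bd
  exact ⟨hC.dU, hC.eG k, ⟨hC.dU.continuous.measurable, C, fun x => (hb x).2.2.2.1⟩,
    ⟨(hC.dG k).continuous.measurable, C, fun x => (hb x).2.2.2.2.1 k⟩⟩

theorem C7_G (hC : HesC n R P H K U G U2 G2 Q3) (k l : Fin d) :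
    C5IP (n + 4) l (G k) (fun x => fderiv ℝ (G k) x (EuclideanSpace.single l 1)) := by
  obtain ⟨C, hb⟩ := hC.bd
  exact ⟨hC.dG k, fun x => rfl,
    ⟨(hC.dG k).continuous.measurable, C, fun x => (hb x).2.2.2.2.1 k⟩,
    ⟨measurable_fderiv_apply_const ℝ (G k) _, C, fun x => (hb x).2.2.2.2.2.1 k l⟩⟩

theorem C7_U2 (hC : HesC n R P H K U G U2 G2 Q3) (k : Fin d) :
    C5IP (n + 5) k U2 (G2 k) := by
  obtain ⟨C, hb⟩ := hC.bd
  exact ⟨hC.dU2, hC.eG2 k,
    ⟨hC.dU2.continuous.measurable, C, fun x => (hb x).2.2.2.2.2.2.1⟩,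
    ⟨(hC.dG2 k).continuous.measurable, C, fun x => (hb x).2.2.2.2.2.2.2.1 k⟩⟩

theorem C7_G2 (hC : HesC n R P H K U G U2 G2 Q3) (k l : Fin d) :
    C5IP (n + 6) l (G2 k) (fun x => fderiv ℝ (G2 k) x (EuclideanSpace.single l 1)) := by
  obtain ⟨C, hb⟩ := hC.bd
  exact ⟨hC.dG2 k, fun x => rfl,
    ⟨(hC.dG2 k).continuous.measurable, C, fun x => (hb x).2.2.2.2.2.2.2.1 k⟩,
    ⟨measurable_fderiv_apply_const ℝ (G2 k) _, C, fun x => (hb x).2.2.2.2.2.2.2.2 k l⟩⟩

theorem C7_P12 (h : HesA n F S R T V H) (hC : HesC n R P H K U G U2 G2 Q3) (i j k l : Fin d)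
    (x : X d) : P i j k l x = P j i k l x := by
  rw [← hC.eP i j k l x, ← hC.eP j i k l x]
  have : R i j k = R j i k := funext fun x => C5_R12 h i j k x
  rw [this]

theorem C7_P23 (h : HesA n F S R T V H) (hC : HesC n R P H K U G U2 G2 Q3) (i j k l : Fin d)
    (x : X d) : P i j k l x = P i k j l x := by
  rw [← hC.eP i j k l x, ← hC.eP i k j l x]
  have : R i j k = R i k j := funext fun x => h.sR i j k x
  rw [this]

/-- the last index to the front -/
theorem C7_Prot (h : HesA n F S R T V H) (hC : HesC n R P H K U G U2 G2 Q3) (i j k l : Fin d)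
    (x : X d) : P j k l i x = P i j k l x := by
  rw [hC.sP j k l i, C7_P23 h hC j k i l, C7_P12 h hC j i k l]

/-- trace of `P` -/
theorem C7_trP (h : HesA n F S R T V H) (hC : HesC n R P H K U G U2 G2 Q3) (i j : Fin d)
    (x : X d) : ∑ k, P i j k k x = H i j x := by
  rw [← C5_divR h i j x]
  exact Finset.sum_congr rfl fun k _ => (hC.eP i j k k x).symm

/-- the divergence of `P` on the last index -/
theorem C7_divP (h : HesA n F S R T V H) (hC : HesC n R P H K U G U2 G2 Q3) (i j k : Fin d)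
    (x : X d) : ∑ l, fderiv ℝ (P i j k l) x (EuclideanSpace.single l 1) = K i j k x := by
  rw [← hC.eDP i j k x]
  refine Finset.sum_congr rfl fun l _ => ?_
  have : P i j k l = P l i j k := funext fun x => C7_Prot h hC l i j k x
  rw [this]

theorem C7_K12 (h : HesA n F S R T V H) (hC : HesC n R P H K U G U2 G2 Q3) (k l m : Fin d)
    (x : X d) : K k l m x = K l k m x := by
  rw [← hC.eK k l m x, ← hC.eK l k m x]
  have : H k l = H l k := funext fun x => h.sH k l x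
  rw [this]

/-- trace of `K` -/
theorem C7_trK (h : HesA n F S R T V H) (hC : HesC n R P H K U G U2 G2 Q3) (k : Fin d)
    (x : X d) : ∑ l, K k l l x = G k x := by
  have h1 := C5IP.sum Finset.univ fun l => C7_H h hC l l k
  have h2 : (fun x => ∑ l, H l l x) = U := funext fun x => (hC.eU x).symm
  rw [h2] at h1
  rw [← hC.eG k x, h1.ef x]
  refine Finset.sum_congr rfl fun l _ => ?_
  rw [hC.sK l l k x, C7_K12 h hC l k l x]

theorem C7_rot3' (f : Fin d → Fin d → Fin d → ℝ) :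
    ∑ a, ∑ b, ∑ c, f a b c = ∑ b, ∑ c, ∑ a, f a b c :=
  (C5_rot3 fun b c a => f a b c).symm

theorem C7_rot4' (f : Fin d → Fin d → Fin d → Fin d → ℝ) :
    ∑ a, ∑ b, ∑ c, ∑ k, f a b c k = ∑ k, ∑ a, ∑ b, ∑ c, f a b c k :=
  (C5_rot4 fun k a b c => f a b c k).symm

theorem C7_swap (f : Fin d → Fin d → ℝ) : ∑ a, ∑ b, f a b = ∑ a, ∑ b, f b a :=
  Finset.sum_comm

theorem C7i_X (hn : 1 ≤ n) (hd : d = n + 7) (h : HesA n F S R T V H)
    (hC : HesC n R P H K U G U2 G2 Q3) :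
    Integrable fun x => ∑ a, ∑ b, ∑ c, V a x * H b c x * R a b c x := by
  have a : C5Dec (n + 2 + (n + 3) + (n + 2)) fun x => ∑ a, ∑ b, ∑ c, V a x * H b c x * R a b c x :=
    C5Dec.sum _ fun a => C5Dec.sum _ fun b => C5Dec.sum _ fun c =>
      ((C5_V h a a).b.mul (C7_H h hC b c c).b).mul (C7_R h hC a b c c).b
  exact a.integrable (by omega)

theorem C7i_Cub (hn : 1 ≤ n) (hd : d = n + 7) (h : HesA n F S R T V H)
    (hC : HesC n R P H K U G U2 G2 Q3) :
    Integrable fun x => ∑ a, ∑ b, V a x * V b x * H a b x := by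
  have a : C5Dec (n + 2 + (n + 2) + (n + 3)) fun x => ∑ a, ∑ b, V a x * V b x * H a b x :=
    C5Dec.sum _ fun a => C5Dec.sum _ fun b =>
      ((C5_V h a a).b.mul (C5_V h b b).b).mul (C7_H h hC a b b).b
  exact a.integrable (by omega)

theorem C7i_L3 (hn : 1 ≤ n) (hd : d = n + 7) (h : HesA n F S R T V H)
    (hC : HesC n R P H K U G U2 G2 Q3) :
    Integrable fun x => ∑ a, ∑ k, ∑ b, ∑ c, V a x * R k b c x * P k b c a x := by
  have a : C5Dec (n + 2 + (n + 2) + (n + 3)) fun x => ∑ a, ∑ k, ∑ b, ∑ c, V a x * R k b c x * P k b c a x :=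
    C5Dec.sum _ fun a => C5Dec.sum _ fun k => C5Dec.sum _ fun b => C5Dec.sum _ fun c =>
      ((C5_V h a a).b.mul (C7_R h hC k b c c).b).mul (C7_P hC k b c a a).b
  exact a.integrable (by omega)

theorem C7i_Z1 (hn : 1 ≤ n) (hd : d = n + 7) (h : HesA n F S R T V H)
    (hC : HesC n R P H K U G U2 G2 Q3) :
    Integrable fun x => ∑ a, ∑ k, ∑ b, ∑ c, H a k x * R k b c x * R a b c x := by
  have a : C5Dec (n + 3 + (n + 2) + (n + 2)) fun x => ∑ a, ∑ k, ∑ b, ∑ c, H a k x * R k b c x * R a b c x :=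
    C5Dec.sum _ fun a => C5Dec.sum _ fun k => C5Dec.sum _ fun b => C5Dec.sum _ fun c =>
      ((C7_H h hC a k k).b.mul (C7_R h hC k b c c).b).mul (C7_R h hC a b c c).b
  exact a.integrable (by omega)

theorem C7i_Y6 (hn : 1 ≤ n) (hd : d = n + 7) (h : HesA n F S R T V H)
    (hC : HesC n R P H K U G U2 G2 Q3) :
    Integrable fun x => ∑ b, ∑ c, ∑ k, S b c x * H k b x * H k c x := by
  have a : C5Dec (n + 1 + (n + 3) + (n + 3)) fun x => ∑ b, ∑ c, ∑ k, S b c x * H k b x * H k c x :=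
    C5Dec.sum _ fun b => C5Dec.sum _ fun c => C5Dec.sum _ fun k =>
      ((C5_S h b c c).b.mul (C7_H h hC k b b).b).mul (C7_H h hC k c c).b
  exact a.integrable (by omega)

theorem C7i_VSG (hn : 1 ≤ n) (hd : d = n + 7) (h : HesA n F S R T V H)
    (hC : HesC n R P H K U G U2 G2 Q3) :
    Integrable fun x => ∑ b, ∑ c, V b x * S b c x * G c x := by
  have a : C5Dec (n + 2 + (n + 1) + (n + 4)) fun x => ∑ b, ∑ c, V b x * S b c x * G c x :=
    C5Dec.sum _ fun b => C5Dec.sum _ fun c =>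
      ((C5_V h b b).b.mul (C5_S h b c c).b).mul (C7_G hC c c).b
  exact a.integrable (by omega)

theorem C7i_M2 (hn : 1 ≤ n) (hd : d = n + 7) (h : HesA n F S R T V H)
    (hC : HesC n R P H K U G U2 G2 Q3) :
    Integrable fun x => U x * ∑ i, ∑ j, S i j x * H i j x := by
  have a : C5Dec (n + 3 + (n + 1 + (n + 3))) fun x => U x * ∑ i, ∑ j, S i j x * H i j x :=
    (C7_U hC ⟨0, by omega⟩).b.mul (C5Dec.sum _ fun i => C5Dec.sum _ fun j =>
      (C5_S h i j j).b.mul (C7_H h hC i j j).b)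
  exact a.integrable (by omega)

theorem C7i_UP1 (hn : 1 ≤ n) (hd : d = n + 7) (h : HesA n F S R T V H)
    (hC : HesC n R P H K U G U2 G2 Q3) :
    Integrable fun x => U x * ∑ a, V a x * V a x := by
  have a : C5Dec (n + 3 + (n + 2 + (n + 2))) fun x => U x * ∑ a, V a x * V a x :=
    (C7_U hC ⟨0, by omega⟩).b.mul (C5Dec.sum _ fun a => (C5_V h a a).b.mul (C5_V h a a).b)
  exact a.integrable (by omega)

theorem C7i_UF3 (hn : 1 ≤ n) (hd : d = n + 7) (h : HesA n F S R T V H)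
    (hC : HesC n R P H K U G U2 G2 Q3) :
    Integrable fun x => U x * ∑ a, ∑ b, ∑ c, R a b c x * R a b c x := by
  have a : C5Dec (n + 3 + (n + 2 + (n + 2))) fun x => U x * ∑ a, ∑ b, ∑ c, R a b c x * R a b c x :=
    (C7_U hC ⟨0, by omega⟩).b.mul (C5Dec.sum _ fun a => C5Dec.sum _ fun b => C5Dec.sum _ fun c =>
      (C7_R h hC a b c c).b.mul (C7_R h hC a b c c).b)
  exact a.integrable (by omega)

theorem C7i_TF4 (hn : 1 ≤ n) (hd : d = n + 7) (h : HesA n F S R T V H)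
    (hC : HesC n R P H K U G U2 G2 Q3) :
    Integrable fun x => T x * ∑ a, ∑ b, ∑ c, ∑ k, P a b c k x * P a b c k x := by
  have a : C5Dec (n + 1 + (n + 3 + (n + 3))) fun x => T x * ∑ a, ∑ b, ∑ c, ∑ k, P a b c k x * P a b c k x :=
    (C5_T h ⟨0, by omega⟩).b.mul (C5Dec.sum _ fun a => C5Dec.sum _ fun b => C5Dec.sum _ fun c =>
      C5Dec.sum _ fun k => (C7_P hC a b c k k).b.mul (C7_P hC a b c k k).b)
  exact a.integrable (by omega)

theorem C7i_TUU (hn : 1 ≤ n) (hd : d = n + 7) (h : HesA n F S R T V H)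
    (hC : HesC n R P H K U G U2 G2 Q3) :
    Integrable fun x => T x * (U x * U x) := by
  have a : C5Dec (n + 1 + (n + 3 + (n + 3))) fun x => T x * (U x * U x) :=
    (C5_T h ⟨0, by omega⟩).b.mul ((C7_U hC ⟨0, by omega⟩).b.mul (C7_U hC ⟨0, by omega⟩).b)
  exact a.integrable (by omega)

theorem C7i_SPP (hn : 1 ≤ n) (hd : d = n + 7) (h : HesA n F S R T V H)
    (hC : HesC n R P H K U G U2 G2 Q3) :
    Integrable fun x => ∑ a, ∑ b, ∑ c, ∑ k, ∑ l, S k l x * P a b c k x * P a b c l x := by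
  have a : C5Dec (n + 1 + (n + 3) + (n + 3)) fun x => ∑ a, ∑ b, ∑ c, ∑ k, ∑ l, S k l x * P a b c k x * P a b c l x :=
    C5Dec.sum _ fun a => C5Dec.sum _ fun b => C5Dec.sum _ fun c => C5Dec.sum _ fun k =>
      C5Dec.sum _ fun l => ((C5_S h k l l).b.mul (C7_P hC a b c k k).b).mul (C7_P hC a b c l l).b
  exact a.integrable (by omega)

theorem C7i_M (hn : 1 ≤ n) (hd : d = n + 7) (h : HesA n F S R T V H)
    (hC : HesC n R P H K U G U2 G2 Q3) :
    Integrable fun x => ∑ a, ∑ k, ∑ b, ∑ c, ∑ l, R k l a x * P a b c l x * R b c k x := by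
  have a : C5Dec (n + 2 + (n + 3) + (n + 2)) fun x => ∑ a, ∑ k, ∑ b, ∑ c, ∑ l, R k l a x * P a b c l x * R b c k x :=
    C5Dec.sum _ fun a => C5Dec.sum _ fun k => C5Dec.sum _ fun b => C5Dec.sum _ fun c =>
      C5Dec.sum _ fun l => ((C7_R h hC k l a a).b.mul (C7_P hC a b c l l).b).mul (C7_R h hC b c k k).b
  exact a.integrable (by omega)

theorem C7i_N (hn : 1 ≤ n) (hd : d = n + 7) (h : HesA n F S R T V H)
    (hC : HesC n R P H K U G U2 G2 Q3) :
    Integrable fun x => ∑ b, ∑ c, ∑ k, ∑ l, S k l x * K b c l x * R b c k x := by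
  have a : C5Dec (n + 1 + (n + 4) + (n + 2)) fun x => ∑ b, ∑ c, ∑ k, ∑ l, S k l x * K b c l x * R b c k x :=
    C5Dec.sum _ fun b => C5Dec.sum _ fun c => C5Dec.sum _ fun k => C5Dec.sum _ fun l =>
      ((C5_S h k l l).b.mul (C7_H h hC b c l).b').mul (C7_R h hC b c k k).b
  exact a.integrable (by omega)

theorem C7i_TRK (hn : 1 ≤ n) (hd : d = n + 7) (h : HesA n F S R T V H)
    (hC : HesC n R P H K U G U2 G2 Q3) :
    Integrable fun x => T x * ∑ a, ∑ b, ∑ c, R a b c x * K a b c x := by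
  have a : C5Dec (n + 1 + (n + 2 + (n + 4))) fun x => T x * ∑ a, ∑ b, ∑ c, R a b c x * K a b c x :=
    (C5_T h ⟨0, by omega⟩).b.mul (C5Dec.sum _ fun a => C5Dec.sum _ fun b => C5Dec.sum _ fun c =>
      (C7_R h hC a b c c).b.mul (C7_H h hC a b c).b')
  exact a.integrable (by omega)

theorem C7i_THH (hn : 1 ≤ n) (hd : d = n + 7) (h : HesA n F S R T V H)
    (hC : HesC n R P H K U G U2 G2 Q3) :
    Integrable fun x => T x * ∑ a, ∑ b, H a b x * H a b x := by
  have a : C5Dec (n + 1 + (n + 3 + (n + 3))) fun x => T x * ∑ a, ∑ b, H a b x * H a b x :=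
    (C5_T h ⟨0, by omega⟩).b.mul (C5Dec.sum _ fun a => C5Dec.sum _ fun b =>
      (C7_H h hC a b b).b.mul (C7_H h hC a b b).b)
  exact a.integrable (by omega)

theorem C7i_TVG (hn : 1 ≤ n) (hd : d = n + 7) (h : HesA n F S R T V H)
    (hC : HesC n R P H K U G U2 G2 Q3) :
    Integrable fun x => T x * ∑ a, V a x * G a x := by
  have a : C5Dec (n + 1 + (n + 2 + (n + 4))) fun x => T x * ∑ a, V a x * G a x :=
    (C5_T h ⟨0, by omega⟩).b.mul (C5Dec.sum _ fun a => (C5_V h a a).b.mul (C7_G hC a a).b)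
  exact a.integrable (by omega)

theorem C7i_U2SS (hn : 1 ≤ n) (hd : d = n + 7) (h : HesA n F S R T V H)
    (hC : HesC n R P H K U G U2 G2 Q3) :
    Integrable fun x => U2 x * ∑ i, ∑ j, S i j x * S i j x := by
  have a : C5Dec (n + 5 + (n + 1 + (n + 1))) fun x => U2 x * ∑ i, ∑ j, S i j x * S i j x :=
    (C7_U2 hC ⟨0, by omega⟩).b.mul (C5Dec.sum _ fun i => C5Dec.sum _ fun j =>
      (C5_S h i j j).b.mul (C5_S h i j j).b)
  exact a.integrable (by omega)

theorem C7i_U2FV (hn : 1 ≤ n) (hd : d = n + 7) (h : HesA n F S R T V H)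
    (hC : HesC n R P H K U G U2 G2 Q3) :
    Integrable fun x => U2 x * ∑ i, F i x * V i x := by
  have a : C5Dec (n + 5 + (n + (n + 2))) fun x => U2 x * ∑ i, F i x * V i x :=
    (C7_U2 hC ⟨0, by omega⟩).b.mul (C5Dec.sum _ fun i => (C5_F h i i).b.mul (C5_V h i i).b)
  exact a.integrable (by omega)

theorem C7i_GSR (hn : 1 ≤ n) (hd : d = n + 7) (h : HesA n F S R T V H)
    (hC : HesC n R P H K U G U2 G2 Q3) :
    Integrable fun x => ∑ i, ∑ j, ∑ k, G k x * S i j x * R i j k x := by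
  have a : C5Dec (n + 4 + (n + 1) + (n + 2)) fun x => ∑ i, ∑ j, ∑ k, G k x * S i j x * R i j k x :=
    C5Dec.sum _ fun i => C5Dec.sum _ fun j => C5Dec.sum _ fun k =>
      ((C7_G hC k k).b.mul (C5_S h i j j).b).mul (C7_R h hC i j k k).b
  exact a.integrable (by omega)

theorem C7i_GFH (hn : 1 ≤ n) (hd : d = n + 7) (h : HesA n F S R T V H)
    (hC : HesC n R P H K U G U2 G2 Q3) :
    Integrable fun x => ∑ i, ∑ k, F i x * H i k x * G k x := by
  have a : C5Dec (n + (n + 3) + (n + 4)) fun x => ∑ i, ∑ k, F i x * H i k x * G k x :=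
    C5Dec.sum _ fun i => C5Dec.sum _ fun k =>
      ((C5_F h i i).b.mul (C7_H h hC i k k).b).mul (C7_G hC k k).b
  exact a.integrable (by omega)

theorem C7i_UFG (hn : 1 ≤ n) (hd : d = n + 7) (h : HesA n F S R T V H)
    (hC : HesC n R P H K U G U2 G2 Q3) :
    Integrable fun x => U x * ∑ i, F i x * G i x := by
  have a : C5Dec (n + 3 + (n + (n + 4))) fun x => U x * ∑ i, F i x * G i x :=
    (C7_U hC ⟨0, by omega⟩).b.mul (C5Dec.sum _ fun i => (C5_F h i i).b.mul (C7_G hC i i).b)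
  exact a.integrable (by omega)

theorem C7i_FSG2 (hn : 1 ≤ n) (hd : d = n + 7) (h : HesA n F S R T V H)
    (hC : HesC n R P H K U G U2 G2 Q3) :
    Integrable fun x => ∑ k, ∑ i, F i x * S i k x * G2 k x := by
  have a : C5Dec (n + (n + 1) + (n + 6)) fun x => ∑ k, ∑ i, F i x * S i k x * G2 k x :=
    C5Dec.sum _ fun k => C5Dec.sum _ fun i =>
      ((C5_F h i i).b.mul (C5_S h i k k).b).mul (C7_G2 hC k k).b
  exact a.integrable (by omega)

theorem C7I_a (hn : 1 ≤ n) (hd : d = n + 7) (h : HesA n F S R T V H)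
    (hC : HesC n R P H K U G U2 G2 Q3) :
    2 * (∫ x, ∑ a, ∑ b, ∑ c, V a x * H b c x * R a b c x) = -(∫ x, ∑ a, ∑ b, V a x * V b x * H a b x) := by
  have h1 := C5IP.ibp_sum (ι := Fin d × Fin d × Fin d) (p := n + 2 + (n + 2))
    (q := n + 2) (by omega) (fun a => a.2.2)
    (f := fun a x => V a.1 x * R a.1 a.2.1 a.2.2 x)
    (g := fun a => V a.2.1)
    (fun a => (C5_V h a.1 a.2.2).mul (C7_R h hC a.1 a.2.1 a.2.2 a.2.2))
    (fun a => C5_V h a.2.1 a.2.2)
  have e1 : ∀ x, ∑ a : Fin d × Fin d × Fin d,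
      V a.1 x * R a.1 a.2.1 a.2.2 x * H a.2.1 a.2.2 x =
      ∑ a, ∑ b, ∑ c, V a x * H b c x * R a b c x := by
    intro x
    simp only [Fintype.sum_prod_type]
    exact Finset.sum_congr rfl fun a _ => Finset.sum_congr rfl fun b _ =>
      Finset.sum_congr rfl fun c _ => by ring
  have e2 : ∀ x, ∑ a : Fin d × Fin d × Fin d,
      (H a.1 a.2.2 x * R a.1 a.2.1 a.2.2 x + V a.1 x * P a.1 a.2.1 a.2.2 a.2.2 x) * V a.2.1 x =
      (∑ a, ∑ b, ∑ c, V a x * H b c x * R a b c x) + ∑ a, ∑ b, V a x * V b x * H a b x := by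
    intro x
    simp only [Fintype.sum_prod_type]
    have e3 : ∑ a, ∑ b, ∑ c, (H a c x * R a b c x + V a x * P a b c c x) * V b x =
        (∑ a, ∑ b, ∑ c, V b x * H a c x * R b a c x) +
        ∑ a, ∑ b, ∑ c, V a x * V b x * P a b c c x := by
      simp only [← Finset.sum_add_distrib]
      refine Finset.sum_congr rfl fun a _ => Finset.sum_congr rfl fun b _ =>
        Finset.sum_congr rfl fun c _ => ?_
      rw [C5_R12 h b a c x]
      ring
    rw [e3]
    congr 1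
    · exact Finset.sum_comm
    · refine Finset.sum_congr rfl fun a _ => Finset.sum_congr rfl fun b _ => ?_
      rw [← Finset.mul_sum, C7_trP h hC a b x]
  simp only [e1, e2] at h1
  rw [integral_add (C7i_X hn hd h hC) (C7i_Cub hn hd h hC)] at h1
  linarith


theorem C7I_b (hn : 1 ≤ n) (hd : d = n + 7) (h : HesA n F S R T V H)
    (hC : HesC n R P H K U G U2 G2 Q3) :
    (∫ x, U x * ∑ a, V a x * V a x) = -(2 * (∫ x, ∑ a, ∑ b, V a x * V b x * H a b x)) := by
  have h1 := C5IP.ibp_sum (ι := Fin d) (p := n + 2 + (n + 2))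
    (q := n + 2) (by omega) (fun k => k)
    (f := fun _ x => ∑ b, V b x * V b x)
    (g := fun k => V k)
    (fun k => C5IP.sum _ fun b => (C5_V h b k).mul (C5_V h b k))
    (fun k => C5_V h k k)
  have e1 : ∀ x, ∑ k, (∑ b, V b x * V b x) * H k k x = U x * ∑ a, V a x * V a x := by
    intro x
    rw [← Finset.mul_sum, ← hC.eU x]
    ring
  have e2 : ∀ x, ∑ k, (∑ b, (H b k x * V b x + V b x * H b k x)) * V k x =
      2 * ∑ a, ∑ b, V a x * V b x * H a b x := by
    intro x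
    simp only [Finset.sum_mul, Finset.mul_sum]
    refine Finset.sum_congr rfl fun k _ => Finset.sum_congr rfl fun b _ => ?_
    rw [h.sH b k]
    ring
  simp only [e1, e2] at h1
  rw [integral_const_mul] at h1
  exact h1


theorem C7I_c (hn : 1 ≤ n) (hd : d = n + 7) (h : HesA n F S R T V H)
    (hC : HesC n R P H K U G U2 G2 Q3) :
    (∫ x, ∑ a, ∑ k, ∑ b, ∑ c, H a k x * R k b c x * R a b c x) = -((∫ x, ∑ a, ∑ b, ∑ c, V a x * H b c x * R a b c x) + (∫ x, ∑ a, ∑ k, ∑ b, ∑ c, V a x * R k b c x * P k b c a x)) := by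
  have h1 := C5IP.ibp_sum (ι := Fin d × Fin d × Fin d × Fin d) (p := n + 2 + (n + 2))
    (q := n + 2) (by omega) (fun a => a.2.1)
    (f := fun a x => R a.2.1 a.2.2.1 a.2.2.2 x * R a.1 a.2.2.1 a.2.2.2 x)
    (g := fun a => V a.1)
    (fun a => (C7_R h hC a.2.1 a.2.2.1 a.2.2.2 a.2.1).mul (C7_R h hC a.1 a.2.2.1 a.2.2.2 a.2.1))
    (fun a => C5_V h a.1 a.2.1)
  have e1 : ∀ x, ∑ a : Fin d × Fin d × Fin d × Fin d,
      R a.2.1 a.2.2.1 a.2.2.2 x * R a.1 a.2.2.1 a.2.2.2 x * H a.1 a.2.1 x =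
      ∑ a, ∑ k, ∑ b, ∑ c, H a k x * R k b c x * R a b c x := by
    intro x
    simp only [Fintype.sum_prod_type]
    exact Finset.sum_congr rfl fun a _ => Finset.sum_congr rfl fun k _ =>
      Finset.sum_congr rfl fun b _ => Finset.sum_congr rfl fun c _ => by ring
  have e2 : ∀ x, ∑ a : Fin d × Fin d × Fin d × Fin d,
      (P a.2.1 a.2.2.1 a.2.2.2 a.2.1 x * R a.1 a.2.2.1 a.2.2.2 x +
        R a.2.1 a.2.2.1 a.2.2.2 x * P a.1 a.2.2.1 a.2.2.2 a.2.1 x) * V a.1 x =
      (∑ a, ∑ b, ∑ c, V a x * H b c x * R a b c x) +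
        ∑ a, ∑ k, ∑ b, ∑ c, V a x * R k b c x * P k b c a x := by
    intro x
    simp only [Fintype.sum_prod_type]
    rw [← Finset.sum_add_distrib]
    refine Finset.sum_congr rfl fun a _ => ?_
    have e3 : ∑ k, ∑ b, ∑ c, (P k b c k x * R a b c x + R k b c x * P a b c k x) * V a x =
        (∑ k, ∑ b, ∑ c, V a x * R a b c x * P b c k k x) +
        ∑ k, ∑ b, ∑ c, V a x * R k b c x * P k b c a x := by
      simp only [← Finset.sum_add_distrib]
      refine Finset.sum_congr rfl fun k _ => Finset.sum_congr rfl fun b _ =>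
        Finset.sum_congr rfl fun c _ => ?_
      rw [C7_Prot h hC k b c k x, ← C7_Prot h hC a b c k x, ← C7_Prot h hC k b c a x,
        hC.sP b c k a x]
      ring
    rw [e3]
    congr 1
    rw [C7_rot3']
    refine Finset.sum_congr rfl fun b _ => Finset.sum_congr rfl fun c _ => ?_
    rw [← Finset.mul_sum, C7_trP h hC b c x]
    ring
  simp only [e1, e2] at h1
  rw [integral_add (C7i_X hn hd h hC) (C7i_L3 hn hd h hC)] at h1
  exact h1


theorem C7I_d (hn : 1 ≤ n) (hd : d = n + 7) (h : HesA n F S R T V H)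
    (hC : HesC n R P H K U G U2 G2 Q3) :
    (∫ x, U x * ∑ a, ∑ b, ∑ c, R a b c x * R a b c x) = -(2 * (∫ x, ∑ a, ∑ k, ∑ b, ∑ c, V a x * R k b c x * P k b c a x)) := by
  have h1 := C5IP.ibp_sum (ι := Fin d) (p := n + 2 + (n + 2))
    (q := n + 2) (by omega) (fun k => k)
    (f := fun _ x => ∑ a, ∑ b, ∑ c, R a b c x * R a b c x)
    (g := fun k => V k)
    (fun k => C5IP.sum _ fun a => C5IP.sum _ fun b => C5IP.sum _ fun c =>
      (C7_R h hC a b c k).mul (C7_R h hC a b c k))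
    (fun k => C5_V h k k)
  have e1 : ∀ x, ∑ k, (∑ a, ∑ b, ∑ c, R a b c x * R a b c x) * H k k x =
      U x * ∑ a, ∑ b, ∑ c, R a b c x * R a b c x := by
    intro x
    rw [← Finset.mul_sum, ← hC.eU x]
    ring
  have e2 : ∀ x, ∑ k, (∑ a, ∑ b, ∑ c, (P a b c k x * R a b c x + R a b c x * P a b c k x)) *
      V k x = 2 * ∑ a, ∑ k, ∑ b, ∑ c, V a x * R k b c x * P k b c a x := by
    intro x
    simp only [Finset.sum_mul, Finset.mul_sum]
    refine Finset.sum_congr rfl fun k _ => Finset.sum_congr rfl fun a _ =>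
      Finset.sum_congr rfl fun b _ => Finset.sum_congr rfl fun c _ => ?_
    ring
  simp only [e1, e2] at h1
  rw [integral_const_mul] at h1
  exact h1


theorem C7I_e (hn : 1 ≤ n) (hd : d = n + 7) (h : HesA n F S R T V H)
    (hC : HesC n R P H K U G U2 G2 Q3) :
    (∫ x, ∑ b, ∑ c, ∑ k, S b c x * H k b x * H k c x) = -((∫ x, ∑ a, ∑ b, ∑ c, V a x * H b c x * R a b c x) + (∫ x, ∑ b, ∑ c, V b x * S b c x * G c x)) := by
  have h1 := C5IP.ibp_sum (ι := Fin d × Fin d × Fin d) (p := n + 1 + (n + 3))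
    (q := n + 2) (by omega) (fun a => a.2.2)
    (f := fun a x => S a.1 a.2.1 x * H a.2.2 a.2.1 x)
    (g := fun a => V a.1)
    (fun a => (C5_S h a.1 a.2.1 a.2.2).mul (C7_H h hC a.2.2 a.2.1 a.2.2))
    (fun a => C5_V h a.1 a.2.2)
  have e1 : ∀ x, ∑ a : Fin d × Fin d × Fin d,
      S a.1 a.2.1 x * H a.2.2 a.2.1 x * H a.1 a.2.2 x =
      ∑ b, ∑ c, ∑ k, S b c x * H k b x * H k c x := by
    intro x
    simp only [Fintype.sum_prod_type]
    refine Finset.sum_congr rfl fun b _ => Finset.sum_congr rfl fun c _ =>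
      Finset.sum_congr rfl fun k _ => ?_
    rw [h.sH b k]
    ring
  have e2 : ∀ x, ∑ a : Fin d × Fin d × Fin d,
      (R a.1 a.2.1 a.2.2 x * H a.2.2 a.2.1 x + S a.1 a.2.1 x * K a.2.2 a.2.1 a.2.2 x) *
        V a.1 x =
      (∑ a, ∑ b, ∑ c, V a x * H b c x * R a b c x) + ∑ b, ∑ c, V b x * S b c x * G c x := by
    intro x
    simp only [Fintype.sum_prod_type]
    have e3 : ∑ b, ∑ c, ∑ k, (R b c k x * H k c x + S b c x * K k c k x) * V b x =
        (∑ b, ∑ c, ∑ k, V b x * H c k x * R b c k x) +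
        ∑ b, ∑ c, ∑ k, V b x * S b c x * K c k k x := by
      simp only [← Finset.sum_add_distrib]
      refine Finset.sum_congr rfl fun b _ => Finset.sum_congr rfl fun c _ =>
        Finset.sum_congr rfl fun k _ => ?_
      rw [C7_K12 h hC k c k x, h.sH k c x]
      ring
    rw [e3]
    congr 1
    refine Finset.sum_congr rfl fun b _ => Finset.sum_congr rfl fun c _ => ?_
    rw [← Finset.mul_sum, C7_trK h hC c x]
  simp only [e1, e2] at h1
  rw [integral_add (C7i_X hn hd h hC) (C7i_VSG hn hd h hC)] at h1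
  exact h1


theorem C7I_f (hn : 1 ≤ n) (hd : d = n + 7) (h : HesA n F S R T V H)
    (hC : HesC n R P H K U G U2 G2 Q3) :
    (∫ x, U x * ∑ i, ∑ j, S i j x * H i j x) + (∫ x, U x * ∑ a, V a x * V a x) = -(∫ x, ∑ b, ∑ c, V b x * S b c x * G c x) := by
  have h1 := C5IP.ibp_sum (ι := Fin d) (p := n + 3)
    (q := n + 2 + (n + 1)) (by omega) (fun c => c)
    (f := fun _ => U)
    (g := fun c x => ∑ b, V b x * S b c x)
    (fun c => C7_U hC c)
    (fun c => C5IP.sum _ fun b => (C5_V h b c).mul (C5_S h b c c))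
  have e1 : ∀ x, ∑ c, U x * ∑ b, (H b c x * S b c x + V b x * R b c c x) =
      (U x * ∑ i, ∑ j, S i j x * H i j x) + U x * ∑ a, V a x * V a x := by
    intro x
    rw [← Finset.mul_sum, Finset.sum_comm, ← mul_add, ← Finset.sum_add_distrib]
    congr 1
    refine Finset.sum_congr rfl fun b _ => ?_
    rw [Finset.sum_add_distrib, ← Finset.mul_sum, C5_trR h b x]
    congr 1
    exact Finset.sum_congr rfl fun c _ => by ring
  have e2 : ∀ x, ∑ c, G c x * ∑ b, V b x * S b c x = ∑ b, ∑ c, V b x * S b c x * G c x := by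
    intro x
    simp only [Finset.mul_sum]
    rw [Finset.sum_comm]
    exact Finset.sum_congr rfl fun b _ => Finset.sum_congr rfl fun c _ => by ring
  simp only [e1, e2] at h1
  rw [integral_add (C7i_M2 hn hd h hC) (C7i_UP1 hn hd h hC)] at h1
  exact h1


theorem C7I_g (hn : 1 ≤ n) (hd : d = n + 7) (h : HesA n F S R T V H)
    (hC : HesC n R P H K U G U2 G2 Q3) :
    (∫ x, ∑ a, ∑ b, ∑ c, ∑ k, ∑ l, S k l x * P a b c k x * P a b c l x) = -((∫ x, ∑ a, ∑ k, ∑ b, ∑ c, ∑ l, R k l a x * P a b c l x * R b c k x) + (∫ x, ∑ b, ∑ c, ∑ k, ∑ l, S k l x * K b c l x * R b c k x)) := by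
  have h1 := C5IP.ibp_sum (ι := Fin d × Fin d × Fin d × Fin d × Fin d)
    (p := n + 1 + (n + 3))
    (q := n + 2) (by omega) (fun a => a.1)
    (f := fun a x => S a.2.2.2.1 a.2.2.2.2 x * P a.1 a.2.1 a.2.2.1 a.2.2.2.2 x)
    (g := fun a => R a.2.1 a.2.2.1 a.2.2.2.1)
    (fun a => (C5_S h a.2.2.2.1 a.2.2.2.2 a.1).mul (C7_P hC a.1 a.2.1 a.2.2.1 a.2.2.2.2 a.1))
    (fun a => C7_R h hC a.2.1 a.2.2.1 a.2.2.2.1 a.1)
  have e1 : ∀ x, ∑ a : Fin d × Fin d × Fin d × Fin d × Fin d,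
      S a.2.2.2.1 a.2.2.2.2 x * P a.1 a.2.1 a.2.2.1 a.2.2.2.2 x *
        P a.2.1 a.2.2.1 a.2.2.2.1 a.1 x =
      ∑ a, ∑ b, ∑ c, ∑ k, ∑ l, S k l x * P a b c k x * P a b c l x := by
    intro x
    simp only [Fintype.sum_prod_type]
    refine Finset.sum_congr rfl fun a _ => Finset.sum_congr rfl fun b _ =>
      Finset.sum_congr rfl fun c _ => Finset.sum_congr rfl fun k _ =>
      Finset.sum_congr rfl fun l _ => ?_
    rw [C7_Prot h hC a b c k x]
    ring
  have e2 : ∀ x, ∑ a : Fin d × Fin d × Fin d × Fin d × Fin d,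
      (R a.2.2.2.1 a.2.2.2.2 a.1 x * P a.1 a.2.1 a.2.2.1 a.2.2.2.2 x +
        S a.2.2.2.1 a.2.2.2.2 x *
          fderiv ℝ (P a.1 a.2.1 a.2.2.1 a.2.2.2.2) x (EuclideanSpace.single a.1 1)) *
        R a.2.1 a.2.2.1 a.2.2.2.1 x =
      (∑ a, ∑ k, ∑ b, ∑ c, ∑ l, R k l a x * P a b c l x * R b c k x) +
        ∑ b, ∑ c, ∑ k, ∑ l, S k l x * K b c l x * R b c k x := by
    intro x
    simp only [Fintype.sum_prod_type]
    have e3 : ∑ a, ∑ b, ∑ c, ∑ k, ∑ l, (R k l a x * P a b c l x +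
        S k l x * fderiv ℝ (P a b c l) x (EuclideanSpace.single a 1)) * R b c k x =
        (∑ a, ∑ b, ∑ c, ∑ k, ∑ l, R k l a x * P a b c l x * R b c k x) +
        ∑ a, ∑ b, ∑ c, ∑ k, ∑ l,
          S k l x * R b c k x * fderiv ℝ (P a b c l) x (EuclideanSpace.single a 1) := by
      simp only [← Finset.sum_add_distrib]
      exact Finset.sum_congr rfl fun a _ => Finset.sum_congr rfl fun b _ =>
        Finset.sum_congr rfl fun c _ => Finset.sum_congr rfl fun k _ =>
        Finset.sum_congr rfl fun l _ => by ring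
    rw [e3]
    congr 1
    · refine Finset.sum_congr rfl fun a _ => ?_
      exact C5_rot3 fun b c k => ∑ l, R k l a x * P a b c l x * R b c k x
    · rw [C5_rot4 fun a b c k => ∑ l,
          S k l x * R b c k x * fderiv ℝ (P a b c l) x (EuclideanSpace.single a 1)]
      refine Finset.sum_congr rfl fun b _ => Finset.sum_congr rfl fun c _ =>
        Finset.sum_congr rfl fun k _ => ?_
      rw [Finset.sum_comm]
      refine Finset.sum_congr rfl fun l _ => ?_
      rw [← Finset.mul_sum, hC.eDP b c l x]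
      ring
  simp only [e1, e2] at h1
  rw [integral_add (C7i_M hn hd h hC) (C7i_N hn hd h hC)] at h1
  exact h1


theorem C7I_h (hn : 1 ≤ n) (hd : d = n + 7) (h : HesA n F S R T V H)
    (hC : HesC n R P H K U G U2 G2 Q3) :
    2 * (∫ x, ∑ a, ∑ k, ∑ b, ∑ c, ∑ l, R k l a x * P a b c l x * R b c k x) = -(∫ x, ∑ a, ∑ k, ∑ b, ∑ c, H a k x * R k b c x * R a b c x) := by
  have h1 := C5IP.ibp_sum (ι := Fin d × Fin d × Fin d × Fin d × Fin d)
    (p := n + 2 + (n + 2))
    (q := n + 2) (by omega) (fun a => a.2.2.2.2)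
    (f := fun a x => R a.2.2.1 a.2.2.2.1 a.2.1 x * R a.2.1 a.2.2.2.2 a.1 x)
    (g := fun a => R a.1 a.2.2.1 a.2.2.2.1)
    (fun a => (C7_R h hC a.2.2.1 a.2.2.2.1 a.2.1 a.2.2.2.2).mul
      (C7_R h hC a.2.1 a.2.2.2.2 a.1 a.2.2.2.2))
    (fun a => C7_R h hC a.1 a.2.2.1 a.2.2.2.1 a.2.2.2.2)
  have e1 : ∀ x, ∑ a : Fin d × Fin d × Fin d × Fin d × Fin d,
      R a.2.2.1 a.2.2.2.1 a.2.1 x * R a.2.1 a.2.2.2.2 a.1 x *
        P a.1 a.2.2.1 a.2.2.2.1 a.2.2.2.2 x =
      ∑ a, ∑ k, ∑ b, ∑ c, ∑ l, R k l a x * P a b c l x * R b c k x := by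
    intro x
    simp only [Fintype.sum_prod_type]
    exact Finset.sum_congr rfl fun a _ => Finset.sum_congr rfl fun k _ =>
      Finset.sum_congr rfl fun b _ => Finset.sum_congr rfl fun c _ =>
      Finset.sum_congr rfl fun l _ => by ring
  have e2 : ∀ x, ∑ a : Fin d × Fin d × Fin d × Fin d × Fin d,
      (P a.2.2.1 a.2.2.2.1 a.2.1 a.2.2.2.2 x * R a.2.1 a.2.2.2.2 a.1 x +
        R a.2.2.1 a.2.2.2.1 a.2.1 x * P a.2.1 a.2.2.2.2 a.1 a.2.2.2.2 x) *
        R a.1 a.2.2.1 a.2.2.2.1 x =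
      (∑ a, ∑ k, ∑ b, ∑ c, ∑ l, R k l a x * P a b c l x * R b c k x) +
        ∑ a, ∑ k, ∑ b, ∑ c, H a k x * R k b c x * R a b c x := by
    intro x
    simp only [Fintype.sum_prod_type]
    have e3 : ∑ a, ∑ k, ∑ b, ∑ c, ∑ l, (P b c k l x * R k l a x +
        R b c k x * P k l a l x) * R a b c x =
        (∑ a, ∑ k, ∑ b, ∑ c, ∑ l, R a l k x * P k b c l x * R b c a x) +
        ∑ a, ∑ k, ∑ b, ∑ c, ∑ l, R k b c x * R a b c x * P a k l l x := by
      simp only [← Finset.sum_add_distrib]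
      refine Finset.sum_congr rfl fun a _ => Finset.sum_congr rfl fun k _ =>
        Finset.sum_congr rfl fun b _ => Finset.sum_congr rfl fun c _ =>
        Finset.sum_congr rfl fun l _ => ?_
      have r1 : R k l a x = R a l k x := by rw [C5_Rrot h a k l x, h.sR a k l x]
      have r2 : P b c k l x = P k b c l x := by rw [hC.sP b c k l x, C7_Prot h hC k b c l x]
      have r4 : R b c k x = R k b c x := C5_Rrot h k b c x
      have r5 : P k l a l x = P a k l l x := by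
        rw [C7_P23 h hC k l a l x, C7_P12 h hC k a l l x]
      have r3 : R b c a x = R a b c x := C5_Rrot h a b c x
      rw [r1, r2, r4, r5, r3]
      ring
    rw [e3]
    congr 1
    · exact Finset.sum_comm
    · refine Finset.sum_congr rfl fun a _ => Finset.sum_congr rfl fun k _ =>
        Finset.sum_congr rfl fun b _ => Finset.sum_congr rfl fun c _ => ?_
      rw [← Finset.mul_sum, C7_trP h hC a k x]
      ring
  simp only [e1, e2] at h1
  rw [integral_add (C7i_M hn hd h hC) (C7i_Z1 hn hd h hC)] at h1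
  linarith


theorem C7I_i (hn : 1 ≤ n) (hd : d = n + 7) (h : HesA n F S R T V H)
    (hC : HesC n R P H K U G U2 G2 Q3) :
    (∫ x, ∑ b, ∑ c, ∑ k, ∑ l, S k l x * K b c l x * R b c k x) = -((∫ x, ∑ b, ∑ c, ∑ k, S b c x * H k b x * H k c x) + (∫ x, ∑ a, ∑ k, ∑ b, ∑ c, H a k x * R k b c x * R a b c x)) := by
  have h1 := C5IP.ibp_sum (ι := Fin d × Fin d × Fin d × Fin d) (p := n + 2 + (n + 1))
    (q := n + 3) (by omega) (fun a => a.1)
    (f := fun a x => R a.1 a.2.1 a.2.2.1 x * S a.2.2.1 a.2.2.2 x)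
    (g := fun a => H a.2.1 a.2.2.2)
    (fun a => (C7_R h hC a.1 a.2.1 a.2.2.1 a.1).mul (C5_S h a.2.2.1 a.2.2.2 a.1))
    (fun a => C7_H h hC a.2.1 a.2.2.2 a.1)
  have e1 : ∀ x, ∑ a : Fin d × Fin d × Fin d × Fin d,
      R a.1 a.2.1 a.2.2.1 x * S a.2.2.1 a.2.2.2 x * K a.2.1 a.2.2.2 a.1 x =
      ∑ b, ∑ c, ∑ k, ∑ l, S k l x * K b c l x * R b c k x := by
    intro x
    simp only [Fintype.sum_prod_type]
    refine Finset.sum_congr rfl fun b _ => Finset.sum_congr rfl fun c _ =>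
      Finset.sum_congr rfl fun k _ => Finset.sum_congr rfl fun l _ => ?_
    rw [hC.sK c l b x, C7_K12 h hC c b l x]
    ring
  have e2 : ∀ x, ∑ a : Fin d × Fin d × Fin d × Fin d,
      (P a.1 a.2.1 a.2.2.1 a.1 x * S a.2.2.1 a.2.2.2 x +
        R a.1 a.2.1 a.2.2.1 x * R a.2.2.1 a.2.2.2 a.1 x) * H a.2.1 a.2.2.2 x =
      (∑ b, ∑ c, ∑ k, S b c x * H k b x * H k c x) +
        ∑ a, ∑ k, ∑ b, ∑ c, H a k x * R k b c x * R a b c x := by
    intro x
    simp only [Fintype.sum_prod_type]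
    have e3 : ∑ b, ∑ c, ∑ k, ∑ l, (P b c k b x * S k l x + R b c k x * R k l b x) * H c l x =
        (∑ b, ∑ c, ∑ k, ∑ l, S k l x * H c l x * P c k b b x) +
        ∑ b, ∑ c, ∑ k, ∑ l, H c l x * R l k b x * R c k b x := by
      simp only [← Finset.sum_add_distrib]
      refine Finset.sum_congr rfl fun b _ => Finset.sum_congr rfl fun c _ =>
        Finset.sum_congr rfl fun k _ => Finset.sum_congr rfl fun l _ => ?_
      rw [C7_Prot h hC b c k b x, C5_R12 h l k b x, ← C5_Rrot h b c k x,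
        ← C7_Prot h hC b c k b x, C7_Prot h hC b c k b x]
      ring
    rw [e3]
    congr 1
    · rw [C5_rot4 fun b c k l => S k l x * H c l x * P c k b b x]
      have e4 : ∑ c, ∑ k, ∑ l, ∑ b, S k l x * H c l x * P c k b b x =
          ∑ c, ∑ k, ∑ l, S k l x * H c k x * H c l x := by
        refine Finset.sum_congr rfl fun c _ => Finset.sum_congr rfl fun k _ =>
          Finset.sum_congr rfl fun l _ => ?_
        rw [← Finset.mul_sum, C7_trP h hC c k x]
        ring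
      rw [e4, C7_rot3']
    · have e5 : ∑ b, ∑ c, ∑ k, ∑ l, H c l x * R l k b x * R c k b x =
          ∑ c, ∑ k, ∑ l, ∑ b, H c l x * R l k b x * R c k b x :=
        C5_rot4 fun b c k l => H c l x * R l k b x * R c k b x
      rw [e5]
      refine Finset.sum_congr rfl fun c _ => ?_
      exact Finset.sum_comm
  simp only [e1, e2] at h1
  rw [integral_add (C7i_Y6 hn hd h hC) (C7i_Z1 hn hd h hC)] at h1
  exact h1


theorem C7I_j (hn : 1 ≤ n) (hd : d = n + 7) (h : HesA n F S R T V H)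
    (hC : HesC n R P H K U G U2 G2 Q3) :
    (∫ x, T x * ∑ a, ∑ b, ∑ c, ∑ k, P a b c k x * P a b c k x) = -((∫ x, ∑ a, ∑ k, ∑ b, ∑ c, V a x * R k b c x * P k b c a x) + (∫ x, T x * ∑ a, ∑ b, ∑ c, R a b c x * K a b c x)) := by
  have h1 := C5IP.ibp_sum (ι := Fin d × Fin d × Fin d × Fin d) (p := n + 1 + (n + 3))
    (q := n + 2) (by omega) (fun a => a.2.2.2)
    (f := fun a x => T x * P a.1 a.2.1 a.2.2.1 a.2.2.2 x)
    (g := fun a => R a.1 a.2.1 a.2.2.1)
    (fun a => (C5_T h a.2.2.2).mul (C7_P hC a.1 a.2.1 a.2.2.1 a.2.2.2 a.2.2.2))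
    (fun a => C7_R h hC a.1 a.2.1 a.2.2.1 a.2.2.2)
  have e1 : ∀ x, ∑ a : Fin d × Fin d × Fin d × Fin d,
      T x * P a.1 a.2.1 a.2.2.1 a.2.2.2 x * P a.1 a.2.1 a.2.2.1 a.2.2.2 x =
      T x * ∑ a, ∑ b, ∑ c, ∑ k, P a b c k x * P a b c k x := by
    intro x
    simp only [Fintype.sum_prod_type, Finset.mul_sum]
    exact Finset.sum_congr rfl fun a _ => Finset.sum_congr rfl fun b _ =>
      Finset.sum_congr rfl fun c _ => Finset.sum_congr rfl fun k _ => by ring
  have e2 : ∀ x, ∑ a : Fin d × Fin d × Fin d × Fin d,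
      (V a.2.2.2 x * P a.1 a.2.1 a.2.2.1 a.2.2.2 x + T x *
        fderiv ℝ (P a.1 a.2.1 a.2.2.1 a.2.2.2) x (EuclideanSpace.single a.2.2.2 1)) *
        R a.1 a.2.1 a.2.2.1 x =
      (∑ a, ∑ k, ∑ b, ∑ c, V a x * R k b c x * P k b c a x) +
        T x * ∑ a, ∑ b, ∑ c, R a b c x * K a b c x := by
    intro x
    simp only [Fintype.sum_prod_type]
    have e3 : ∑ a, ∑ b, ∑ c, ∑ k, (V k x * P a b c k x + T x *
        fderiv ℝ (P a b c k) x (EuclideanSpace.single k 1)) * R a b c x =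
        (∑ a, ∑ b, ∑ c, ∑ k, V k x * R a b c x * P a b c k x) +
        ∑ a, ∑ b, ∑ c, ∑ k, T x * R a b c x *
          fderiv ℝ (P a b c k) x (EuclideanSpace.single k 1) := by
      simp only [← Finset.sum_add_distrib]
      exact Finset.sum_congr rfl fun a _ => Finset.sum_congr rfl fun b _ =>
        Finset.sum_congr rfl fun c _ => Finset.sum_congr rfl fun k _ => by ring
    rw [e3]
    congr 1
    · exact C7_rot4' fun a b c k => V k x * R a b c x * P a b c k x
    · rw [Finset.mul_sum]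
      refine Finset.sum_congr rfl fun a _ => ?_
      rw [Finset.mul_sum]
      refine Finset.sum_congr rfl fun b _ => ?_
      rw [Finset.mul_sum]
      refine Finset.sum_congr rfl fun c _ => ?_
      rw [← Finset.mul_sum, C7_divP h hC a b c x]
      ring
  simp only [e1, e2] at h1
  rw [integral_add (C7i_L3 hn hd h hC) (C7i_TRK hn hd h hC)] at h1
  exact h1


theorem C7I_k (hn : 1 ≤ n) (hd : d = n + 7) (h : HesA n F S R T V H)
    (hC : HesC n R P H K U G U2 G2 Q3) :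
    (∫ x, T x * ∑ a, ∑ b, ∑ c, R a b c x * K a b c x) = -((∫ x, ∑ a, ∑ b, ∑ c, V a x * H b c x * R a b c x) + (∫ x, T x * ∑ a, ∑ b, H a b x * H a b x)) := by
  have h1 := C5IP.ibp_sum (ι := Fin d × Fin d × Fin d) (p := n + 1 + (n + 2))
    (q := n + 3) (by omega) (fun a => a.2.2)
    (f := fun a x => T x * R a.1 a.2.1 a.2.2 x)
    (g := fun a => H a.1 a.2.1)
    (fun a => (C5_T h a.2.2).mul (C7_R h hC a.1 a.2.1 a.2.2 a.2.2))
    (fun a => C7_H h hC a.1 a.2.1 a.2.2)
  have e1 : ∀ x, ∑ a : Fin d × Fin d × Fin d,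
      T x * R a.1 a.2.1 a.2.2 x * K a.1 a.2.1 a.2.2 x =
      T x * ∑ a, ∑ b, ∑ c, R a b c x * K a b c x := by
    intro x
    simp only [Fintype.sum_prod_type, Finset.mul_sum]
    exact Finset.sum_congr rfl fun a _ => Finset.sum_congr rfl fun b _ =>
      Finset.sum_congr rfl fun c _ => by ring
  have e2 : ∀ x, ∑ a : Fin d × Fin d × Fin d,
      (V a.2.2 x * R a.1 a.2.1 a.2.2 x + T x * P a.1 a.2.1 a.2.2 a.2.2 x) * H a.1 a.2.1 x =
      (∑ a, ∑ b, ∑ c, V a x * H b c x * R a b c x) + T x * ∑ a, ∑ b, H a b x * H a b x := by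
    intro x
    simp only [Fintype.sum_prod_type]
    have e3 : ∑ a, ∑ b, ∑ c, (V c x * R a b c x + T x * P a b c c x) * H a b x =
        (∑ a, ∑ b, ∑ c, V c x * H a b x * R c a b x) +
        ∑ a, ∑ b, ∑ c, T x * H a b x * P a b c c x := by
      simp only [← Finset.sum_add_distrib]
      refine Finset.sum_congr rfl fun a _ => Finset.sum_congr rfl fun b _ =>
        Finset.sum_congr rfl fun c _ => ?_
      rw [← C5_Rrot h c a b x]
      ring
    rw [e3]
    congr 1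
    · exact C5_rot3 fun a b c => V c x * H a b x * R c a b x
    · rw [Finset.mul_sum]
      refine Finset.sum_congr rfl fun a _ => ?_
      rw [Finset.mul_sum]
      refine Finset.sum_congr rfl fun b _ => ?_
      rw [← Finset.mul_sum, C7_trP h hC a b x]
      ring
  simp only [e1, e2] at h1
  rw [integral_add (C7i_X hn hd h hC) (C7i_THH hn hd h hC)] at h1
  exact h1


theorem C7I_l (hn : 1 ≤ n) (hd : d = n + 7) (h : HesA n F S R T V H)
    (hC : HesC n R P H K U G U2 G2 Q3) :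
    (∫ x, T x * ∑ a, ∑ b, H a b x * H a b x) = -((∫ x, ∑ a, ∑ b, V a x * V b x * H a b x) + (∫ x, T x * ∑ a, V a x * G a x)) := by
  have h1 := C5IP.ibp_sum (ι := Fin d × Fin d) (p := n + 1 + (n + 3))
    (q := n + 2) (by omega) (fun a => a.2)
    (f := fun a x => T x * H a.1 a.2 x)
    (g := fun a => V a.1)
    (fun a => (C5_T h a.2).mul (C7_H h hC a.1 a.2 a.2))
    (fun a => C5_V h a.1 a.2)
  have e1 : ∀ x, ∑ a : Fin d × Fin d, T x * H a.1 a.2 x * H a.1 a.2 x =
      T x * ∑ a, ∑ b, H a b x * H a b x := by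
    intro x
    simp only [Fintype.sum_prod_type, Finset.mul_sum]
    exact Finset.sum_congr rfl fun a _ => Finset.sum_congr rfl fun b _ => by ring
  have e2 : ∀ x, ∑ a : Fin d × Fin d,
      (V a.2 x * H a.1 a.2 x + T x * K a.1 a.2 a.2 x) * V a.1 x =
      (∑ a, ∑ b, V a x * V b x * H a b x) + T x * ∑ a, V a x * G a x := by
    intro x
    simp only [Fintype.sum_prod_type]
    rw [Finset.mul_sum, ← Finset.sum_add_distrib]
    refine Finset.sum_congr rfl fun a _ => ?_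
    rw [← C7_trK h hC a x, Finset.mul_sum, Finset.mul_sum, ← Finset.sum_add_distrib]
    exact Finset.sum_congr rfl fun b _ => by ring
  simp only [e1, e2] at h1
  rw [integral_add (C7i_Cub hn hd h hC) (C7i_TVG hn hd h hC)] at h1
  exact h1


theorem C7I_m (hn : 1 ≤ n) (hd : d = n + 7) (h : HesA n F S R T V H)
    (hC : HesC n R P H K U G U2 G2 Q3) :
    (∫ x, U x * ∑ a, V a x * V a x) + (∫ x, T x * (U x * U x)) = -(∫ x, T x * ∑ a, V a x * G a x) := by
  have h1 := C5IP.ibp_sum (ι := Fin d) (p := n + 3)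
    (q := n + 1 + (n + 2)) (by omega) (fun a => a)
    (f := fun _ => U)
    (g := fun a x => T x * V a x)
    (fun a => C7_U hC a)
    (fun a => (C5_T h a).mul (C5_V h a a))
  have e1 : ∀ x, ∑ a, U x * (V a x * V a x + T x * H a a x) =
      (U x * ∑ a, V a x * V a x) + T x * (U x * U x) := by
    intro x
    rw [← Finset.mul_sum, Finset.sum_add_distrib, ← Finset.mul_sum, ← hC.eU x]
    ring
  have e2 : ∀ x, ∑ a, G a x * (T x * V a x) = T x * ∑ a, V a x * G a x := by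
    intro x
    simp only [Finset.mul_sum]
    exact Finset.sum_congr rfl fun a _ => by ring
  simp only [e1, e2] at h1
  rw [integral_add (C7i_UP1 hn hd h hC) (C7i_TUU hn hd h hC)] at h1
  exact h1


theorem C7I_n (hn : 1 ≤ n) (hd : d = n + 7) (h : HesA n F S R T V H)
    (hC : HesC n R P H K U G U2 G2 Q3) :
    (∫ x, (∑ i, F i x * F i x) * Q3 x) = -(2 * (∫ x, ∑ k, ∑ i, F i x * S i k x * G2 k x)) := by
  have h1 := C5IP.ibp_sum (ι := Fin d) (p := n + n)
    (q := n + 6) (by omega) (fun k => k)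
    (f := fun _ x => ∑ i, F i x * F i x)
    (g := fun k => G2 k)
    (fun k => C5IP.sum _ fun i => (C5_F h i k).mul (C5_F h i k))
    (fun k => C7_G2 hC k k)
  have e1 : ∀ x, ∑ k, (∑ i, F i x * F i x) * fderiv ℝ (G2 k) x (EuclideanSpace.single k 1) =
      (∑ i, F i x * F i x) * Q3 x := by
    intro x
    rw [← Finset.mul_sum, hC.eQ x]
  have e2 : ∀ x, ∑ k, (∑ i, (S i k x * F i x + F i x * S i k x)) * G2 k x =
      2 * ∑ k, ∑ i, F i x * S i k x * G2 k x := by
    intro x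
    simp only [Finset.sum_mul, Finset.mul_sum]
    refine Finset.sum_congr rfl fun k _ => Finset.sum_congr rfl fun i _ => ?_
    ring
  simp only [e1, e2] at h1
  rw [integral_const_mul] at h1
  exact h1


theorem C7I_o (hn : 1 ≤ n) (hd : d = n + 7) (h : HesA n F S R T V H)
    (hC : HesC n R P H K U G U2 G2 Q3) :
    (∫ x, U2 x * ∑ i, ∑ j, S i j x * S i j x) + (∫ x, U2 x * ∑ i, F i x * V i x) = -(∫ x, ∑ k, ∑ i, F i x * S i k x * G2 k x) := by
  have h1 := C5IP.ibp_sum (ι := Fin d) (p := n + 5)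
    (q := n + (n + 1)) (by omega) (fun k => k)
    (f := fun _ => U2)
    (g := fun k x => ∑ i, F i x * S i k x)
    (fun k => C7_U2 hC k)
    (fun k => C5IP.sum _ fun i => (C5_F h i k).mul (C5_S h i k k))
  have e1 : ∀ x, ∑ k, U2 x * ∑ i, (S i k x * S i k x + F i x * R i k k x) =
      (U2 x * ∑ i, ∑ j, S i j x * S i j x) + U2 x * ∑ i, F i x * V i x := by
    intro x
    rw [← Finset.mul_sum, Finset.sum_comm, ← mul_add, ← Finset.sum_add_distrib]
    congr 1
    refine Finset.sum_congr rfl fun i _ => ?_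
    rw [Finset.sum_add_distrib, ← Finset.mul_sum, C5_trR h i x]
  have e2 : ∀ x, ∑ k, G2 k x * ∑ i, F i x * S i k x = ∑ k, ∑ i, F i x * S i k x * G2 k x := by
    intro x
    simp only [Finset.mul_sum]
    refine Finset.sum_congr rfl fun k _ => Finset.sum_congr rfl fun i _ => ?_
    ring
  simp only [e1, e2] at h1
  rw [integral_add (C7i_U2SS hn hd h hC) (C7i_U2FV hn hd h hC)] at h1
  exact h1


theorem C7I_p (hn : 1 ≤ n) (hd : d = n + 7) (h : HesA n F S R T V H)
    (hC : HesC n R P H K U G U2 G2 Q3) :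
    (∫ x, U2 x * ∑ i, ∑ j, S i j x * S i j x) = -(2 * (∫ x, ∑ i, ∑ j, ∑ k, G k x * S i j x * R i j k x)) := by
  have h1 := C5IP.ibp_sum (ι := Fin d) (p := n + 1 + (n + 1))
    (q := n + 4) (by omega) (fun k => k)
    (f := fun _ x => ∑ i, ∑ j, S i j x * S i j x)
    (g := fun k => G k)
    (fun k => C5IP.sum _ fun i => C5IP.sum _ fun j => (C5_S h i j k).mul (C5_S h i j k))
    (fun k => C7_G hC k k)
  have e1 : ∀ x, ∑ k, (∑ i, ∑ j, S i j x * S i j x) *
      fderiv ℝ (G k) x (EuclideanSpace.single k 1) = U2 x * ∑ i, ∑ j, S i j x * S i j x := by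
    intro x
    rw [← Finset.mul_sum, hC.eU2 x]
    ring
  have e2 : ∀ x, ∑ k, (∑ i, ∑ j, (R i j k x * S i j x + S i j x * R i j k x)) * G k x =
      2 * ∑ i, ∑ j, ∑ k, G k x * S i j x * R i j k x := by
    intro x
    simp only [Finset.sum_mul]
    rw [← C5_rot3 fun i j k => (R i j k x * S i j x + S i j x * R i j k x) * G k x]
    simp only [Finset.mul_sum]
    refine Finset.sum_congr rfl fun i _ => Finset.sum_congr rfl fun j _ =>
      Finset.sum_congr rfl fun k _ => ?_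
    ring
  simp only [e1, e2] at h1
  rw [integral_const_mul] at h1
  exact h1


theorem C7I_q (hn : 1 ≤ n) (hd : d = n + 7) (h : HesA n F S R T V H)
    (hC : HesC n R P H K U G U2 G2 Q3) :
    (∫ x, U x * ∑ a, ∑ b, ∑ c, R a b c x * R a b c x) + (∫ x, U x * ∑ i, ∑ j, S i j x * H i j x) = -(∫ x, ∑ i, ∑ j, ∑ k, G k x * S i j x * R i j k x) := by
  have h1 := C5IP.ibp_sum (ι := Fin d × Fin d × Fin d) (p := n + 3)
    (q := n + 1 + (n + 2)) (by omega) (fun a => a.2.2)
    (f := fun _ => U)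
    (g := fun a x => S a.1 a.2.1 x * R a.1 a.2.1 a.2.2 x)
    (fun a => C7_U hC a.2.2)
    (fun a => (C5_S h a.1 a.2.1 a.2.2).mul (C7_R h hC a.1 a.2.1 a.2.2 a.2.2))
  have e1 : ∀ x, ∑ a : Fin d × Fin d × Fin d,
      U x * (R a.1 a.2.1 a.2.2 x * R a.1 a.2.1 a.2.2 x +
        S a.1 a.2.1 x * P a.1 a.2.1 a.2.2 a.2.2 x) =
      (U x * ∑ a, ∑ b, ∑ c, R a b c x * R a b c x) + U x * ∑ i, ∑ j, S i j x * H i j x := by
    intro x
    simp only [Fintype.sum_prod_type]
    simp only [← C7_trP h hC]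
    simp only [Finset.mul_sum, ← Finset.sum_add_distrib]
    exact Finset.sum_congr rfl fun i _ => Finset.sum_congr rfl fun j _ =>
      Finset.sum_congr rfl fun k _ => by ring
  have e2 : ∀ x, ∑ a : Fin d × Fin d × Fin d, G a.2.2 x * (S a.1 a.2.1 x * R a.1 a.2.1 a.2.2 x) =
      ∑ i, ∑ j, ∑ k, G k x * S i j x * R i j k x := by
    intro x
    simp only [Fintype.sum_prod_type]
    exact Finset.sum_congr rfl fun i _ => Finset.sum_congr rfl fun j _ =>
      Finset.sum_congr rfl fun k _ => by ring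
  simp only [e1, e2] at h1
  rw [integral_add (C7i_UF3 hn hd h hC) (C7i_M2 hn hd h hC)] at h1
  exact h1


theorem C7I_r (hn : 1 ≤ n) (hd : d = n + 7) (h : HesA n F S R T V H)
    (hC : HesC n R P H K U G U2 G2 Q3) :
    (∫ x, U2 x * ∑ i, F i x * V i x) = -((∫ x, ∑ b, ∑ c, V b x * S b c x * G c x) + (∫ x, ∑ i, ∑ k, F i x * H i k x * G k x)) := by
  have h1 := C5IP.ibp_sum (ι := Fin d) (p := n + (n + 2))
    (q := n + 4) (by omega) (fun k => k)
    (f := fun _ x => ∑ i, F i x * V i x)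
    (g := fun k => G k)
    (fun k => C5IP.sum _ fun i => (C5_F h i k).mul (C5_V h i k))
    (fun k => C7_G hC k k)
  have e1 : ∀ x, ∑ k, (∑ i, F i x * V i x) * fderiv ℝ (G k) x (EuclideanSpace.single k 1) =
      U2 x * ∑ i, F i x * V i x := by
    intro x
    rw [← Finset.mul_sum, hC.eU2 x]
    ring
  have e2 : ∀ x, ∑ k, (∑ i, (S i k x * V i x + F i x * H i k x)) * G k x =
      (∑ b, ∑ c, V b x * S b c x * G c x) + ∑ i, ∑ k, F i x * H i k x * G k x := by
    intro x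
    simp only [Finset.sum_mul]
    rw [Finset.sum_comm, ← Finset.sum_add_distrib]
    refine Finset.sum_congr rfl fun i _ => ?_
    rw [← Finset.sum_add_distrib]
    exact Finset.sum_congr rfl fun k _ => by ring
  simp only [e1, e2] at h1
  rw [integral_add (C7i_VSG hn hd h hC) (C7i_GFH hn hd h hC)] at h1
  exact h1


theorem C7I_s (hn : 1 ≤ n) (hd : d = n + 7) (h : HesA n F S R T V H)
    (hC : HesC n R P H K U G U2 G2 Q3) :
    (∫ x, U x * ∑ a, V a x * V a x) + 2 * (∫ x, U x * ∑ i, ∑ j, S i j x * H i j x) + (∫ x, U x * ∑ i, F i x * G i x) = -((∫ x, ∑ b, ∑ c, V b x * S b c x * G c x) + (∫ x, ∑ i, ∑ k, F i x * H i k x * G k x)) := by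
  have h1 := C5IP.ibp_sum (ι := Fin d) (p := n + 3)
    (q := n + 1 + (n + 2)) (by omega) (fun k => k)
    (f := fun _ => U)
    (g := fun k x => ∑ i, S i k x * V i x)
    (fun k => C7_U hC k)
    (fun k => C5IP.sum _ fun i => (C5_S h i k k).mul (C5_V h i k))
  have h2 := C5IP.ibp_sum (ι := Fin d) (p := n + 3)
    (q := n + (n + 3)) (by omega) (fun k => k)
    (f := fun _ => U)
    (g := fun k x => ∑ i, F i x * H i k x)
    (fun k => C7_U hC k)
    (fun k => C5IP.sum _ fun i => (C5_F h i k).mul (C7_H h hC i k k))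
  have e1 : ∀ x, ∑ k, U x * ∑ i, (R i k k x * V i x + S i k x * H i k x) =
      (U x * ∑ a, V a x * V a x) + U x * ∑ i, ∑ j, S i j x * H i j x := by
    intro x
    rw [← Finset.mul_sum, Finset.sum_comm, ← mul_add, ← Finset.sum_add_distrib]
    congr 1
    refine Finset.sum_congr rfl fun i _ => ?_
    rw [Finset.sum_add_distrib, ← Finset.sum_mul, C5_trR h i x]
  have e2 : ∀ x, ∑ k, G k x * ∑ i, S i k x * V i x = ∑ b, ∑ c, V b x * S b c x * G c x := by
    intro x
    simp only [Finset.mul_sum]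
    rw [Finset.sum_comm]
    exact Finset.sum_congr rfl fun b _ => Finset.sum_congr rfl fun c _ => by ring
  have e3 : ∀ x, ∑ k, U x * ∑ i, (S i k x * H i k x + F i x * K i k k x) =
      (U x * ∑ i, ∑ j, S i j x * H i j x) + U x * ∑ i, F i x * G i x := by
    intro x
    rw [← Finset.mul_sum, Finset.sum_comm, ← mul_add, ← Finset.sum_add_distrib]
    congr 1
    refine Finset.sum_congr rfl fun i _ => ?_
    rw [Finset.sum_add_distrib, ← Finset.mul_sum, C7_trK h hC i x]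
  have e4 : ∀ x, ∑ k, G k x * ∑ i, F i x * H i k x = ∑ i, ∑ k, F i x * H i k x * G k x := by
    intro x
    simp only [Finset.mul_sum]
    rw [Finset.sum_comm]
    exact Finset.sum_congr rfl fun b _ => Finset.sum_congr rfl fun c _ => by ring
  simp only [e1, e2] at h1
  simp only [e3, e4] at h2
  rw [integral_add (C7i_UP1 hn hd h hC) (C7i_M2 hn hd h hC)] at h1
  rw [integral_add (C7i_M2 hn hd h hC) (C7i_UFG hn hd h hC)] at h2
  linarith


theorem C7I_t (hn : 1 ≤ n) (hd : d = n + 7) (h : HesA n F S R T V H)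
    (hC : HesC n R P H K U G U2 G2 Q3) :
    2 * (∫ x, U x * ∑ i, F i x * G i x) = -(∫ x, T x * (U x * U x)) := by
  have h1 := C5IP.ibp_sum (ι := Fin d) (p := n)
    (q := n + 3 + (n + 3)) (by omega) (fun i => i)
    (f := fun i => F i)
    (g := fun _ x => U x * U x)
    (fun i => C5_F h i i)
    (fun i => (C7_U hC i).mul (C7_U hC i))
  have e1 : ∀ x, ∑ i, F i x * (G i x * U x + U x * G i x) =
      2 * (U x * ∑ i, F i x * G i x) := by
    intro x
    simp only [Finset.mul_sum]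
    exact Finset.sum_congr rfl fun i _ => by ring
  have e2 : ∀ x, ∑ i, S i i x * (U x * U x) = T x * (U x * U x) := by
    intro x
    rw [← Finset.sum_mul, ← h.eT x]
  simp only [e1, e2] at h1
  rw [integral_const_mul] at h1
  exact h1


theorem C7I_u (hn : 1 ≤ n) (hd : d = n + 7) (h : HesA n F S R T V H)
    (hC : HesC n R P H K U G U2 G2 Q3) :
    (∫ x, U2 x * (T x * T x)) = -(2 * (∫ x, T x * ∑ a, V a x * G a x)) := by
  have h1 := C5IP.ibp_sum (ι := Fin d) (p := n + 1 + (n + 1))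
    (q := n + 4) (by omega) (fun k => k)
    (f := fun _ x => T x * T x)
    (g := fun k => G k)
    (fun k => (C5_T h k).mul (C5_T h k))
    (fun k => C7_G hC k k)
  have e1 : ∀ x, ∑ k, T x * T x * fderiv ℝ (G k) x (EuclideanSpace.single k 1) =
      U2 x * (T x * T x) := by
    intro x
    rw [← Finset.mul_sum, hC.eU2 x]
    ring
  have e2 : ∀ x, ∑ k, (V k x * T x + T x * V k x) * G k x =
      2 * (T x * ∑ a, V a x * G a x) := by
    intro x
    simp only [Finset.mul_sum]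
    exact Finset.sum_congr rfl fun k _ => by ring
  simp only [e1, e2] at h1
  rw [integral_const_mul] at h1
  exact h1


theorem C7i_U2TT (hn : 1 ≤ n) (hd : d = n + 7) (h : HesA n F S R T V H)
    (hC : HesC n R P H K U G U2 G2 Q3) :
    Integrable fun x => U2 x * (T x * T x) := by
  have a : C5Dec (n + 5 + (n + 1 + (n + 1))) fun x => U2 x * (T x * T x) :=
    (C7_U2 hC ⟨0, by omega⟩).b.mul ((C5_T h ⟨0, by omega⟩).b.mul (C5_T h ⟨0, by omega⟩).b)
  exact a.integrable (by omega)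

theorem C7i_FQ (hn : 1 ≤ n) (hd : d = n + 7) (h : HesA n F S R T V H)
    (hC : HesC n R P H K U G U2 G2 Q3) :
    Integrable fun x => (∑ i, F i x * F i x) * Q3 x := by
  have a : C5Dec (n + n + (n + 6 + 1)) fun x => (∑ i, F i x * F i x) *
      ∑ k, fderiv ℝ (G2 k) x (EuclideanSpace.single k 1) :=
    (C5Dec.sum _ fun i => (C5_F h i i).b.mul (C5_F h i i).b).mul
      (C5Dec.sum _ fun k => (C7_G2 hC k k).b')
  simp only [hC.eQ] at a
  exact a.integrable (by omega)


theorem hess7_identity (hn : 1 ≤ n) (hd : d = n + 7) (h : HesA n F S R T V H)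
    (hC : HesC n R P H K U G U2 G2 Q3) :
    1 / 6 * (∫ x, U x * ∑ a, ∑ b, ∑ c, R a b c x * R a b c x) + 1 / 6 * (∫ x, T x * ∑ a, ∑ b, ∑ c, ∑ k, P a b c k x * P a b c k x) -
      (∫ x, ∑ a, ∑ b, ∑ c, ∑ k, ∑ l, S k l x * P a b c k x * P a b c l x) -
      1 / 6 * (∫ x, U x * ∑ a, V a x * V a x) - 1 / 24 * (∫ x, T x * (U x * U x)) =
      -(1 / 8) * ∫ x, (∑ i, F i x * F i x) * Q3 x := by
  have fa := C7I_a hn hd h hC
  have fb := C7I_b hn hd h hC
  have fc := C7I_c hn hd h hC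
  have fd := C7I_d hn hd h hC
  have fe := C7I_e hn hd h hC
  have ff := C7I_f hn hd h hC
  have fg := C7I_g hn hd h hC
  have fh := C7I_h hn hd h hC
  have fi := C7I_i hn hd h hC
  have fj := C7I_j hn hd h hC
  have fk := C7I_k hn hd h hC
  have fl := C7I_l hn hd h hC
  have fm := C7I_m hn hd h hC
  have fn := C7I_n hn hd h hC
  have fo := C7I_o hn hd h hC
  have fp := C7I_p hn hd h hC
  have fq := C7I_q hn hd h hC
  have fr := C7I_r hn hd h hC
  have fs := C7I_s hn hd h hC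
  have ft := C7I_t hn hd h hC
  linarith


end

end Pool.Agent.H1.LD
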