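import Pool.Agent.H1.C7.Sym
import Pool.Agent.H1.C7.IBx

/-!
Row I7.  The identity of codimension seven for a field `Fld n F`, from `hess7_identity` (IBx).
-/

set_option autoImplicit false

open MeasureTheory Filter Topology Metric Set
open scoped RealInnerProductSpace ENNReal

namespace Pool.Agent.H1.C7

open Pool.Agent.RZ Pool.Agent.H1.LD

variable {d : ℕ}

private theorem dec_unif {ι : Type} [Fintype ι] {N : ℕ} {p : ℤ} {m : ℕ} (hp : p = m)
    {f : ι → X d → ℝ} (hf : ∀ a, DecN N p (f a)) :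
    ∃ C : ℝ, 0 ≤ C ∧ ∀ a x, |f a x| ≤ C * (1 + ‖x‖)⁻¹ ^ m := by
  have h1 : ∀ a, ∃ C : ℝ, 0 ≤ C ∧ ∀ x, |f a x| ≤ C * (1 + ‖x‖)⁻¹ ^ m := by
    intro a
    obtain ⟨C, hC, hb⟩ := dec_bd (hf a)
    refine ⟨C, hC, fun x => (hb x).trans (le_of_eq ?_)⟩
    rw [hp, zpow_neg, zpow_natCast, inv_pow]
  choose C hC hb using h1
  refine ⟨∑ a, C a, Finset.sum_nonneg fun a _ => hC a, fun a x => (hb a x).trans ?_⟩
  refine mul_le_mul_of_nonneg_right ?_ (by positivity)
  exact Finset.single_le_sum (f := C) (fun b _ => hC b) (Finset.mem_univ a)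

private theorem dec_enl {C D y : ℝ} {m : ℕ} {x : X d} (h : y ≤ C * (1 + ‖x‖)⁻¹ ^ m) (hCD : C ≤ D) :
    y ≤ D * (1 + ‖x‖)⁻¹ ^ m :=
  h.trans (mul_le_mul_of_nonneg_right hCD (by positivity))

theorem fld_A {n : ℕ} {F : Fin d → X d → ℝ} (h : Fld n F) :
    HesA n F (fS F) (fR F) (fT F) (fV F) (fH F) where
  dF i := dec_diff (decF h i)
  dS i j := dec_diff (decS h i j)
  dR i j k := dec_diff (decR h i j k)
  dV k := dec_diff (decV h k)
  cH k l := dec_cont (decH h k l)
  eF _ _ _ := rfl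
  eS _ _ _ _ := rfl
  eR j l x := divR h j l x
  eT _ := rfl
  eV k x := trV h k x
  eH _ _ _ := rfl
  sS i j x := congrFun (symS h i j) x
  sR i j k x := congrFun (symR23 h i j k) x
  sH k l x := congrFun (symH h k l) x
  bd := by
    obtain ⟨C1, n1, h1⟩ := dec_unif (m := n) rfl (fun i => decF h i)
    obtain ⟨C2, n2, h2⟩ := dec_unif (m := n + 1) (by push_cast; ring)
      (fun a : Fin d × Fin d => decS h a.1 a.2)
    obtain ⟨C3, n3, h3⟩ := dec_unif (m := n + 2) (by push_cast; ring)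
      (fun a : Fin d × Fin d × Fin d => decR h a.1 a.2.1 a.2.2)
    obtain ⟨C4, n4, h4⟩ := dec_unif (m := n + 3) (by push_cast; ring)
      (fun a : Fin d × Fin d × Fin d × Fin d => decX h a.1 a.2.1 a.2.2.1 a.2.2.2)
    obtain ⟨C5, n5, h5⟩ := dec_unif (m := n + 3) (by push_cast; ring)
      (fun a : Fin d × Fin d => decH h a.1 a.2)
    refine ⟨C1 + C2 + C3 + C4 + C5, fun x => ⟨fun i => ?_, fun i j => ?_, fun i j k => ?_,
      fun i j k l => ?_, fun k l => ?_⟩⟩
    · exact dec_enl (h1 i x) (by linarith)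
    · exact dec_enl (h2 (i, j) x) (by linarith)
    · exact dec_enl (h3 (i, j, k) x) (by linarith)
    · exact dec_enl (h4 (i, j, k, l) x) (by linarith)
    · exact dec_enl (h5 (k, l) x) (by linarith)

theorem fld_C {n : ℕ} {F : Fin d → X d → ℝ} (h : Fld n F) :
    HesC n (fR F) (fX F) (fH F) (fK F) (fU F) (fG F) (fU2 F) (fG2 F) (fQ F) where
  dH k l := dec_diff (decH h k l)
  dP i j k l := dec_diff (decX h i j k l)
  cK k l m := dec_cont (decK h k l m)
  dU := dec_diff (decU h)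
  dG k := dec_diff (decG h k)
  dU2 := dec_diff (decU2 h)
  dG2 k := dec_diff (decG2 h k)
  cQ := dec_cont (decQ h)
  eP _ _ _ _ _ := rfl
  sP i j k l x := congrFun (symX34 h i j k l) x
  eDP b c l x := by
    rw [← divX h b c l x]
    refine Finset.sum_congr rfl fun a _ => ?_
    rw [symX12 h a b c l, symX23 h b a c l, symX34 h b c a l]
    rfl
  eK _ _ _ _ := rfl
  sK k l m x := congrFun (symK23 h k l m) x
  eU _ := rfl
  eG _ _ := rfl
  eU2 _ := rfl
  eG2 _ _ := rfl
  eQ _ := rfl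
  bd := by
    obtain ⟨C1, n1, h1⟩ := dec_unif (m := n + 3) (by push_cast; ring)
      (fun a : Fin d × Fin d × Fin d × Fin d => decX h a.1 a.2.1 a.2.2.1 a.2.2.2)
    obtain ⟨C2, n2, h2⟩ := dec_unif (m := n + 4) (by push_cast; ring)
      (fun a : Fin d × Fin d × Fin d × Fin d × Fin d =>
        dec_pd (decX h a.1 a.2.1 a.2.2.1 a.2.2.2.1) a.2.2.2.2)
    obtain ⟨C3, n3, h3⟩ := dec_unif (m := n + 4) (by push_cast; ring)
      (fun a : Fin d × Fin d × Fin d => decK h a.1 a.2.1 a.2.2)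
    obtain ⟨C4, n4, h4⟩ := dec_unif (m := n + 3) (by push_cast; ring)
      (fun _ : Unit => decU h)
    obtain ⟨C5, n5, h5⟩ := dec_unif (m := n + 4) (by push_cast; ring)
      (fun k => decG h k)
    obtain ⟨C6, n6, h6⟩ := dec_unif (m := n + 5) (by push_cast; ring)
      (fun a : Fin d × Fin d => decM h a.1 a.2)
    obtain ⟨C7, n7, h7⟩ := dec_unif (m := n + 5) (by push_cast; ring)
      (fun _ : Unit => decU2 h)
    obtain ⟨C8, n8, h8⟩ := dec_unif (m := n + 6) (by push_cast; ring)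
      (fun k => decG2 h k)
    obtain ⟨C9, n9, h9⟩ := dec_unif (m := n + 7) (by push_cast; ring)
      (fun a : Fin d × Fin d => dec_pd (decG2 h a.1) a.2)
    refine ⟨C1 + C2 + C3 + C4 + C5 + C6 + C7 + C8 + C9, fun x => ⟨fun i j k l => ?_,
      fun i j k l m => ?_, fun k l m => ?_, ?_, fun k => ?_, fun k l => ?_, ?_, fun k => ?_,
      fun k l => ?_⟩⟩
    · exact dec_enl (h1 (i, j, k, l) x) (by linarith)
    · exact dec_enl (h2 (i, j, k, l, m) x) (by linarith)
    · exact dec_enl (h3 (k, l, m) x) (by linarith)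
    · exact dec_enl (h4 () x) (by linarith)
    · exact dec_enl (h5 k x) (by linarith)
    · exact dec_enl (h6 (k, l) x) (by linarith)
    · exact dec_enl (h7 () x) (by linarith)
    · exact dec_enl (h8 k x) (by linarith)
    · exact dec_enl (h9 (k, l) x) (by linarith)

/-- the cubic expression, part 1 -/
noncomputable def PA (F : Fin d → X d → ℝ) (x : X d) : ℝ :=
  (1 / 6) * (fU F x * f3 F x) + (1 / 6) * (fT F x * f4 F x) - cE F x

/-- the cubic expression, part 2 -/
noncomputable def PB (F : Fin d → X d → ℝ) (x : X d) : ℝ :=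
  -(1 / 24) * (fU F x * fp F x) + (1 / 6) * cVVH F x - (1 / 48) * (fU2 F x * fT F x ^ 2)

theorem id7 {n : ℕ} (hn : 1 ≤ n) (hd : d = n + 7) {F : Fin d → X d → ℝ} (h : Fld n F) :
    Integrable (PA F) ∧ Integrable (PB F) ∧ Integrable (fun x => (∑ i, F i x ^ 2) * fQ F x) ∧
    (∫ x, PA F x) + (∫ x, PB F x) = -(1 / 8) * ∫ x, (∑ i, F i x ^ 2) * fQ F x := by
  have hA := fld_A h
  have hC := fld_C h
  have i1 : Integrable fun x => fU F x * f3 F x := by
    simpa only [f3, pow_two] using C7i_UF3 hn hd hA hC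
  have i2 : Integrable fun x => fT F x * f4 F x := by
    simpa only [f4, pow_two] using C7i_TF4 hn hd hA hC
  have i3 : Integrable fun x => cE F x := by
    simpa only [cE, mul_assoc] using C7i_SPP hn hd hA hC
  have i4 : Integrable fun x => fU F x * fp F x := by
    simpa only [fp, pow_two] using C7i_UP1 hn hd hA hC
  have i5 : Integrable fun x => cVVH F x := by
    simpa only [cVVH, mul_assoc] using C7i_Cub hn hd hA hC
  have i6 : Integrable fun x => fU2 F x * fT F x ^ 2 := by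
    simpa only [pow_two] using C7i_U2TT hn hd hA hC
  have i7 : Integrable fun x => (∑ i, F i x ^ 2) * fQ F x := by
    simpa only [pow_two] using C7i_FQ hn hd hA hC
  have j1 : ∫ x, PA F x = (1 / 6) * (∫ x, fU F x * f3 F x) +
      (1 / 6) * (∫ x, fT F x * f4 F x) - ∫ x, cE F x := by
    have g1 := integral_sub ((i1.const_mul (1 / 6)).add (i2.const_mul (1 / 6))) i3
    have g2 := integral_add (i1.const_mul (1 / 6)) (i2.const_mul (1 / 6))
    rw [integral_const_mul, integral_const_mul] at g2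
    simp only [Pi.add_apply] at g1
    rw [g2] at g1
    exact g1
  have j2 : ∫ x, PB F x = -(1 / 24) * (∫ x, fU F x * fp F x) +
      (1 / 6) * (∫ x, cVVH F x) - (1 / 48) * ∫ x, fU2 F x * fT F x ^ 2 := by
    have g1 := integral_sub ((i4.const_mul (-(1 / 24))).add (i5.const_mul (1 / 6)))
      (i6.const_mul (1 / 48))
    have g2 := integral_add (i4.const_mul (-(1 / 24))) (i5.const_mul (1 / 6))
    rw [integral_const_mul, integral_const_mul] at g2
    rw [integral_const_mul] at g1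
    simp only [Pi.add_apply] at g1
    rw [g2] at g1
    exact g1
  refine ⟨((i1.const_mul (1 / 6)).add (i2.const_mul (1 / 6))).sub i3,
    ((i4.const_mul (-(1 / 24))).add (i5.const_mul (1 / 6))).sub (i6.const_mul (1 / 48)), i7, ?_⟩
  have k1 := hess7_identity hn hd hA hC
  have k2 := C7I_b hn hd hA hC
  have k3 := C7I_m hn hd hA hC
  have k4 := C7I_u hn hd hA hC
  have e1 : ∫ x, fU F x * f3 F x =
      ∫ x, fU F x * ∑ a, ∑ b, ∑ c, fR F a b c x * fR F a b c x := by
    simp only [f3, pow_two]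
  have e2 : ∫ x, fT F x * f4 F x =
      ∫ x, fT F x * ∑ a, ∑ b, ∑ c, ∑ k, fX F a b c k x * fX F a b c k x := by
    simp only [f4, pow_two]
  have e3 : ∫ x, cE F x = ∫ x, ∑ a, ∑ b, ∑ c, ∑ k, ∑ l,
      fS F k l x * fX F a b c k x * fX F a b c l x := by
    simp only [cE, mul_assoc]
  have e4 : ∫ x, fU F x * fp F x = ∫ x, fU F x * ∑ a, fV F a x * fV F a x := by
    simp only [fp, pow_two]
  have e5 : ∫ x, cVVH F x = ∫ x, ∑ a, ∑ b, fV F a x * fV F b x * fH F a b x := by
    simp only [cVVH, mul_assoc]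
  have e6 : ∫ x, fU2 F x * fT F x ^ 2 = ∫ x, fU2 F x * (fT F x * fT F x) := by
    simp only [pow_two]
  have e7 : ∫ x, (∑ i, F i x ^ 2) * fQ F x = ∫ x, (∑ i, F i x * F i x) * fQ F x := by
    simp only [pow_two]
  rw [j1, j2, e1, e2, e3, e4, e5, e6, e7]
  linarith

end Pool.Agent.H1.C7
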