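import Pool.Agent.H1.C7.Cal

/-!
Row Sym (symmetries and traces of the derivatives of a gradient field).  From Fld.curl, pd_comm, pd_sum, and the decay facts dec_*.
All are derivative identities D^j h symmetric, T = Lap h:  V_k = sum_i R_iik, H_kl = sum_i X_iikl, sum_i d_i S_ij = V_j, sum_i d_i R_ijl = H_jl, sum_k d_k X_abck = K_abc, sum_k d_k V_k = U,
sum_b d_b H_bc = G_c, sum_a d_a K_abc = M_bc, sum_k d_k G_k = U2.
-/

set_option autoImplicit false

open MeasureTheory Filter Topology Metric Set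
open scoped RealInnerProductSpace ENNReal

namespace Pool.Agent.H1.C7

open Pool.Agent.RZ Pool.Agent.H1.LD

variable {d : ℕ}

section
variable {n : ℕ} {F : Fin d → X d → ℝ} (h : Fld n F)
include h

theorem decF (i : Fin d) : DecN 8 n (F i) := h.dec i

theorem decS (i j : Fin d) : DecN 7 (n + 1) (fS F i j) := dec_pd (h.dec i) j

theorem decR (i j k : Fin d) : DecN 6 (n + 2) (fR F i j k) := by
  have h1 : DecN 6 ((n : ℤ) + 1 + 1) (fR F i j k) := dec_pd (decS h i j) k
  rwa [add_assoc, show (1 : ℤ) + 1 = 2 from rfl] at h1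

theorem decX (i j k l : Fin d) : DecN 5 (n + 3) (fX F i j k l) := by
  have h1 : DecN 5 ((n : ℤ) + 2 + 1) (fX F i j k l) := dec_pd (decR h i j k) l
  rwa [add_assoc, show (2 : ℤ) + 1 = 3 from rfl] at h1

theorem decT : DecN 7 (n + 1) (fT F) := dec_sum Finset.univ fun i => decS h i i

theorem decV (k : Fin d) : DecN 6 (n + 2) (fV F k) := by
  have h1 : DecN 6 ((n : ℤ) + 1 + 1) (fV F k) := dec_pd (decT h) k
  rwa [add_assoc, show (1 : ℤ) + 1 = 2 from rfl] at h1

theorem decH (k l : Fin d) : DecN 5 (n + 3) (fH F k l) := by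
  have h1 : DecN 5 ((n : ℤ) + 2 + 1) (fH F k l) := dec_pd (decV h k) l
  rwa [add_assoc, show (2 : ℤ) + 1 = 3 from rfl] at h1

theorem decK (k l m : Fin d) : DecN 4 (n + 4) (fK F k l m) := by
  have h1 : DecN 4 ((n : ℤ) + 3 + 1) (fK F k l m) := dec_pd (decH h k l) m
  rwa [add_assoc, show (3 : ℤ) + 1 = 4 from rfl] at h1

theorem decU : DecN 5 (n + 3) (fU F) := dec_sum Finset.univ fun k => decH h k k

theorem decG (k : Fin d) : DecN 4 (n + 4) (fG F k) := by
  have h1 : DecN 4 ((n : ℤ) + 3 + 1) (fG F k) := dec_pd (decU h) k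
  rwa [add_assoc, show (3 : ℤ) + 1 = 4 from rfl] at h1

theorem decM (k l : Fin d) : DecN 3 (n + 5) (fM F k l) := by
  have h1 : DecN 3 ((n : ℤ) + 4 + 1) (fM F k l) := dec_pd (decG h k) l
  rwa [add_assoc, show (4 : ℤ) + 1 = 5 from rfl] at h1

theorem decU2 : DecN 3 (n + 5) (fU2 F) := dec_sum Finset.univ fun k => decM h k k

theorem decG2 (k : Fin d) : DecN 2 (n + 6) (fG2 F k) := by
  have h1 : DecN 2 ((n : ℤ) + 5 + 1) (fG2 F k) := dec_pd (decU2 h) k
  rwa [add_assoc, show (5 : ℤ) + 1 = 6 from rfl] at h1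

theorem decQ : DecN 1 (n + 7) (fQ F) := by
  refine dec_sum Finset.univ fun k => ?_
  have h1 : DecN 1 ((n : ℤ) + 6 + 1) (pd k (fG2 F k)) := dec_pd (decG2 h k) k
  rwa [add_assoc, show (6 : ℤ) + 1 = 7 from rfl] at h1

theorem symS (i j : Fin d) : fS F i j = fS F j i := h.curl i j

theorem symR12 (i j k : Fin d) : fR F i j k = fR F j i k := congrArg (pd k) (symS h i j)

theorem symR23 (i j k : Fin d) : fR F i j k = fR F i k j :=
  pd_comm (dec_mono (M := 2) (decF h i) (by norm_num) le_rfl) k j

theorem symX12 (i j k l : Fin d) : fX F i j k l = fX F j i k l := congrArg (pd l) (symR12 h i j k)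

theorem symX23 (i j k l : Fin d) : fX F i j k l = fX F i k j l := congrArg (pd l) (symR23 h i j k)

theorem symX34 (i j k l : Fin d) : fX F i j k l = fX F i j l k :=
  pd_comm (dec_mono (M := 2) (decS h i j) (by norm_num) le_rfl) l k

theorem symH (k l : Fin d) : fH F k l = fH F l k :=
  pd_comm (dec_mono (M := 2) (decT h) (by norm_num) le_rfl) l k

theorem symK12 (k l m : Fin d) : fK F k l m = fK F l k m := congrArg (pd m) (symH h k l)

theorem symK23 (k l m : Fin d) : fK F k l m = fK F k m l :=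
  pd_comm (dec_mono (M := 2) (decV h k) (by norm_num) le_rfl) m l

theorem symM (k l : Fin d) : fM F k l = fM F l k :=
  pd_comm (dec_mono (M := 2) (decU h) (by norm_num) le_rfl) l k

theorem trV (k : Fin d) (x : X d) : fV F k x = ∑ i, fR F i i k x :=
  pd_sum Finset.univ (fun i => dec_diff (decS h i i)) k x

theorem divS (j : Fin d) (x : X d) : ∑ i, pd i (fS F i j) x = fV F j x := by
  rw [trV h j x]
  exact Finset.sum_congr rfl fun i _ => congrFun (symR23 h i j i) x

theorem divR (j l : Fin d) (x : X d) : ∑ i, pd i (fR F i j l) x = fH F j l x := by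
  have h1 : fV F j = fun x => ∑ i, fR F i i j x := funext fun x => trV h j x
  have h2 : fH F j l x = ∑ i, fX F i i j l x := by
    unfold fH
    rw [h1]
    exact pd_sum Finset.univ (fun i => dec_diff (decR h i i j)) l x
  rw [h2]
  refine Finset.sum_congr rfl fun i _ => ?_
  have h3 : fX F i j l i = fX F i i j l := (symX34 h i j l i).trans (symX23 h i j i l)
  exact congrFun h3 x

theorem divX (a b c : Fin d) (x : X d) : ∑ k, pd k (fX F a b c k) x = fK F a b c x := by
  have h1 : fH F a b = fun x => ∑ k, pd k (fR F k a b) x := funext fun x => (divR h a b x).symm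
  have h2 : fK F a b c x = ∑ k, pd c (pd k (fR F k a b)) x := by
    unfold fK
    rw [h1]
    exact pd_sum Finset.univ (fun k => dec_diff (dec_pd (decR h k a b) k)) c x
  rw [h2]
  refine Finset.sum_congr rfl fun k _ => ?_
  have h3 : fR F a b k = fR F k a b := (symR23 h a b k).trans (symR12 h a k b)
  have h4 : pd k (fX F a b c k) = pd c (pd k (fR F k a b)) := by
    rw [symX34 h a b c k, ← h3]
    exact pd_comm (dec_mono (M := 2) (decR h a b k) (by norm_num) le_rfl) k c
  exact congrFun h4 x

theorem divV (x : X d) : ∑ k, pd k (fV F k) x = fU F x := rfl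

theorem divH (c : Fin d) (x : X d) : ∑ b, pd b (fH F b c) x = fG F c x := by
  have h2 : fG F c x = ∑ b, pd c (fH F b b) x :=
    pd_sum Finset.univ (fun b => dec_diff (decH h b b)) c x
  rw [h2]
  refine Finset.sum_congr rfl fun b _ => ?_
  exact congrFun (pd_comm (dec_mono (M := 2) (decV h b) (by norm_num) le_rfl) b c) x

theorem divK (b c : Fin d) (x : X d) : ∑ a, pd a (fK F a b c) x = fM F b c x := by
  have h1 : fG F b = fun x => ∑ a, pd a (fH F a b) x := funext fun x => (divH h b x).symm
  have h2 : fM F b c x = ∑ a, pd c (pd a (fH F a b)) x := by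
    unfold fM
    rw [h1]
    exact pd_sum Finset.univ (fun a => dec_diff (dec_pd (decH h a b) a)) c x
  rw [h2]
  refine Finset.sum_congr rfl fun a _ => ?_
  exact congrFun (pd_comm (dec_mono (M := 2) (decH h a b) (by norm_num) le_rfl) a c) x

theorem divG (x : X d) : ∑ k, pd k (fG F k) x = fU2 F x := rfl

end

end Pool.Agent.H1.C7
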